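import Mathlib

set_option autoImplicit false

namespace Pool.Agent.Lib.MP_509488_nt.Stick

open Finset

theorem norm_exp_sub_one_le_of_norm_one {η : ℂ} (h : ‖Complex.exp η‖ = 1) :
    ‖Complex.exp η - 1‖ ≤ ‖η‖ := by
  rw [Complex.norm_exp, Real.exp_eq_one_iff] at h
  have h1 : η = Complex.I * (η.im : ℝ) := by
    apply Complex.ext <;> simp [h]
  rw [h1]
  have := Real.norm_exp_I_mul_ofReal_sub_one_le (x := η.im)
  refine this.trans (le_of_eq ?_)
  rw [norm_mul, Complex.norm_I, one_mul, Complex.norm_real]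

theorem pigeon {ι S : Type*} [Fintype ι] (s : Finset S) {r : ℕ} (hr : 0 < r)
    (hcard : r < s.card) {u v : ℤ} (hu : u ≠ 0) {T : ℝ} (hT0 : 0 ≤ T)
    (huv : 2 * (T * |(v : ℝ)|) ≤ |(u : ℝ)|) (ζ : ι → ℂ)
    (hζ : ∀ e, ‖ζ e‖ ≤ T) (E : S → ι → ℕ) {M : ℕ} (hM : ∀ x, ∑ e, E x e = M) {A : ℝ}
    (hA : ∀ x ∈ s, ∀ x' ∈ s, ∑ e, |(E x e : ℝ) - E x' e| ≤ A) (Y : S → ℂ) (G : ℂ) (hG : G ≠ 0)
    (hY : ∀ x, Y x ^ r * G = ∏ e, ((u : ℂ) + ζ e * v) ^ (E x e)) {R : ℝ} (hR0 : 0 < R)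
    (hR : ∀ x, ‖Y x‖ = R) :
    ∃ x ∈ s, ∃ x' ∈ s, x ≠ x' ∧
      ‖Y x - Y x'‖ ≤ R * (A * (3 / 2 * (T * (|(v : ℝ)| / |(u : ℝ)|))) / r) := by
  classical
  have hr0 : (0 : ℝ) < r := by exact_mod_cast hr
  have hrC : (r : ℂ) ≠ 0 := by exact_mod_cast hr.ne'
  have huC : (u : ℂ) ≠ 0 := by exact_mod_cast hu
  have huR : (0 : ℝ) < |(u : ℝ)| := abs_pos.2 (by exact_mod_cast hu)
  set t : ℂ := v / u with ht
  have htn : ‖t‖ = |(v : ℝ)| / |(u : ℝ)| := by
    rw [ht, norm_div, Complex.norm_intCast, Complex.norm_intCast]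
  have ht2 : T * ‖t‖ ≤ 1 / 2 := by
    rw [htn, ← mul_div_assoc, div_le_iff₀ huR]
    linarith
  have hz : ∀ e, ‖ζ e * t‖ ≤ T * ‖t‖ := by
    intro e
    rw [norm_mul]
    exact mul_le_mul_of_nonneg_right (hζ e) (norm_nonneg _)
  set ℓ : ι → ℂ := fun e => Complex.log (1 + ζ e * t) with hℓ
  have hℓn : ∀ e, ‖ℓ e‖ ≤ 3 / 2 * (T * ‖t‖) := by
    intro e
    have := Complex.norm_log_one_add_half_le_self (z := ζ e * t) ((hz e).trans ht2)
    refine this.trans ?_
    exact mul_le_mul_of_nonneg_left (hz e) (by norm_num)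
  have hne : ∀ e, (1 + ζ e * t) ≠ 0 := by
    intro e h0
    have h1 : ζ e * t = -1 := by linear_combination h0
    have h2 := congrArg norm h1
    rw [norm_neg, norm_one] at h2
    have h3 := hz e
    linarith
  have hexp : ∀ e, Complex.exp (ℓ e) * u = (u : ℂ) + ζ e * v := by
    intro e
    rw [hℓ]
    simp only
    rw [Complex.exp_log (hne e), ht]
    field_simp
  set θ : S → ℂ := fun x => ∑ e, (E x e : ℂ) * ℓ e with hθ
  have hYθ : ∀ x, Y x ^ r * G = (u : ℂ) ^ M * Complex.exp (θ x) := by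
    intro x
    rw [hY, ← hM x, ← prod_pow_eq_pow_sum, hθ]
    simp only
    rw [Complex.exp_sum, ← prod_mul_distrib]
    apply prod_congr rfl
    intro e _
    rw [← hexp e, Complex.exp_nat_mul, mul_pow]
    ring
  set ρ : S → ℂ := fun x => Y x / Complex.exp (θ x / r) with hρ
  have hρr : ∀ x, ρ x ^ r = (u : ℂ) ^ M / G := by
    intro x
    rw [hρ]
    simp only
    rw [div_pow, ← Complex.exp_nat_mul, mul_div_cancel₀ _ hrC, div_eq_div_iff (Complex.exp_ne_zero _) hG]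
    exact hYθ x
  obtain ⟨x, hxs, x', hxs', hxx', hρx⟩ := Finset.exists_ne_map_eq_of_card_lt_of_maps_to
    (s := s) (t := (Polynomial.nthRoots r ((u : ℂ) ^ M / G)).toFinset) (f := ρ)
    (by
      refine lt_of_le_of_lt (Multiset.toFinset_card_le _) ?_
      exact lt_of_le_of_lt (Polynomial.card_nthRoots _ _) hcard)
    (by
      intro x _
      rw [Finset.mem_coe, Multiset.mem_toFinset, Polynomial.mem_nthRoots hr]
      exact hρr x)
  refine ⟨x, hxs, x', hxs', hxx', ?_⟩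
  set η : ℂ := (θ x - θ x') / r with hη
  have hYY : Y x = Y x' * Complex.exp η := by
    have h1 : Y x = ρ x * Complex.exp (θ x / r) := by
      rw [hρ]; simp only; rw [div_mul_cancel₀ _ (Complex.exp_ne_zero _)]
    have h2 : Y x' = ρ x' * Complex.exp (θ x' / r) := by
      rw [hρ]; simp only; rw [div_mul_cancel₀ _ (Complex.exp_ne_zero _)]
    rw [h1, h2, hρx, mul_assoc, ← Complex.exp_add, hη]
    congr 2
    ring
  have hη1 : ‖Complex.exp η‖ = 1 := by
    have h1 := congrArg norm hYY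
    rw [norm_mul, hR, hR] at h1
    have h2 : R * ‖Complex.exp η‖ = R * 1 := by rw [← h1, mul_one]
    exact mul_left_cancel₀ hR0.ne' h2
  have h1 : Y x - Y x' = Y x' * (Complex.exp η - 1) := by rw [hYY]; ring
  rw [h1, norm_mul, hR]
  apply mul_le_mul_of_nonneg_left _ hR0.le
  refine (norm_exp_sub_one_le_of_norm_one hη1).trans ?_
  rw [hη, norm_div, Complex.norm_natCast]
  apply div_le_div_of_nonneg_right _ hr0.le
  have h2 : θ x - θ x' = ∑ e, ((E x e : ℂ) - E x' e) * ℓ e := by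
    rw [hθ]
    simp only
    rw [← sum_sub_distrib]
    apply sum_congr rfl
    intro e _
    ring
  rw [h2]
  refine (norm_sum_le _ _).trans ?_
  have h3 : ∀ e ∈ (univ : Finset ι), ‖((E x e : ℂ) - E x' e) * ℓ e‖ ≤
      |(E x e : ℝ) - E x' e| * (3 / 2 * (T * ‖t‖)) := by
    intro e _
    rw [norm_mul]
    have h4 : ((E x e : ℂ) - E x' e) = (((E x e : ℝ) - E x' e : ℝ) : ℂ) := by push_cast; rfl
    rw [h4, Complex.norm_real, Real.norm_eq_abs]
    exact mul_le_mul_of_nonneg_left (hℓn e) (abs_nonneg _)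
  refine (sum_le_sum h3).trans ?_
  rw [← sum_mul, ← htn]
  exact mul_le_mul_of_nonneg_right (hA x hxs x' hxs') (by positivity)

end Pool.Agent.Lib.MP_509488_nt.Stick
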