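import Mathlib

set_option autoImplicit false

namespace Pool.Agent.Lib.MP_509488_nt.Stick

open Finset Complex Filter Topology Asymptotics Set

variable {p : ℕ} [hp : Fact p.Prime] (χ : DirichletCharacter ℂ p)

/-- numerator of the generating function -/
noncomputable def numG (t : ℝ) : ℂ := ∑ a : ZMod p, χ a * (Real.exp (-(a.val : ℝ) * t) : ℂ)

/-- the generating function `∑ χ(n) e^{-n t}` -/
noncomputable def GG (t : ℝ) : ℂ := numG χ t / (1 - Real.exp (-(p : ℝ) * t) : ℂ)

omit hp in
theorem norm_chi_le (a : ZMod p) : ‖χ a‖ ≤ 1 := DirichletCharacter.norm_le_one χ a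

theorem hasSum_GG {t : ℝ} (ht : 0 < t) :
    HasSum (fun n : ℕ => χ n * (Real.exp (-(n : ℝ) * t) : ℂ)) (GG χ t) := by
  have : NeZero p := ⟨hp.out.ne_zero⟩
  have hexp : ∀ n : ℕ, Real.exp (-(n : ℝ) * t) = Real.exp (-t) ^ n := by
    intro n
    rw [← Real.exp_nat_mul]; congr 1; ring
  have h1 : Real.exp (-t) < 1 := by rw [Real.exp_lt_one_iff]; linarith
  have hs : Summable (fun n : ℕ => χ n * (Real.exp (-(n : ℝ) * t) : ℂ)) := by
    apply Summable.of_norm_bounded (g := fun n : ℕ => Real.exp (-t) ^ n)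
      (summable_geometric_of_lt_one (Real.exp_pos _).le h1)
    intro n
    rw [norm_mul, Complex.norm_real, Real.norm_eq_abs, abs_of_pos (Real.exp_pos _), hexp]
    calc ‖χ n‖ * Real.exp (-t) ^ n ≤ 1 * Real.exp (-t) ^ n := by
          apply mul_le_mul_of_nonneg_right (norm_chi_le χ _) (by positivity)
      _ = _ := one_mul _
  have h2 := hs.hasSum
  rw [Nat.sumByResidueClasses hs p] at h2
  convert h2 using 1
  unfold GG numG
  rw [sum_div]
  apply sum_congr rfl
  intro a _
  have h3 : Real.exp (-(p : ℝ) * t) < 1 := by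
    rw [Real.exp_lt_one_iff]
    have : (0 : ℝ) < p := by exact_mod_cast hp.out.pos
    nlinarith
  have h4 : ∀ m : ℕ, χ ((a.val + p * m : ℕ) : ZMod p) *
      (Real.exp (-((a.val + p * m : ℕ) : ℝ) * t) : ℂ) =
      (χ a * (Real.exp (-(a.val : ℝ) * t) : ℂ)) * ((Real.exp (-(p : ℝ) * t) : ℂ)) ^ m := by
    intro m
    have e1 : ((a.val + p * m : ℕ) : ZMod p) = a := by
      push_cast
      rw [ZMod.natCast_zmod_val, CharP.cast_eq_zero, zero_mul, add_zero]
    have e2 : Real.exp (-((a.val + p * m : ℕ) : ℝ) * t) =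
        Real.exp (-(a.val : ℝ) * t) * Real.exp (-(p : ℝ) * t) ^ m := by
      rw [← Real.exp_nat_mul, ← Real.exp_add]
      congr 1
      push_cast
      ring
    rw [e1, e2]
    push_cast
    ring
  simp_rw [h4]
  rw [tsum_mul_left, tsum_geometric_of_norm_lt_one]
  · rw [div_eq_mul_inv]
  · rw [Complex.norm_real, Real.norm_eq_abs, abs_of_pos (Real.exp_pos _)]
    exact h3

theorem continuousOn_GG : ContinuousOn (GG χ) (Ioi 0) := by
  have hp0 : (0 : ℝ) < p := by exact_mod_cast hp.out.pos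
  unfold GG numG
  apply ContinuousOn.div
  · apply Continuous.continuousOn
    fun_prop
  · apply Continuous.continuousOn
    fun_prop
  · intro t ht
    have ht' : 0 < t := ht
    have h3 : Real.exp (-(p : ℝ) * t) < 1 := by
      rw [Real.exp_lt_one_iff]
      nlinarith
    rw [sub_ne_zero]
    intro h
    have : (1 : ℝ) = Real.exp (-(p : ℝ) * t) := by exact_mod_cast h
    linarith

theorem norm_denom {t : ℝ} (ht : 0 < t) :
    ‖(1 - Real.exp (-(p : ℝ) * t) : ℂ)‖ = 1 - Real.exp (-(p : ℝ) * t) := by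
  have hp0 : (0 : ℝ) < p := by exact_mod_cast hp.out.pos
  have h3 : Real.exp (-(p : ℝ) * t) < 1 := by
    rw [Real.exp_lt_one_iff]
    nlinarith
  have h4 : (1 - Real.exp (-(p : ℝ) * t) : ℂ) = ((1 - Real.exp (-(p : ℝ) * t) : ℝ) : ℂ) := by
    push_cast; rfl
  rw [h4, Complex.norm_real, Real.norm_eq_abs, abs_of_pos (by linarith)]

theorem GG_top : (GG χ) =O[atTop] fun t : ℝ => Real.exp (-1 * t) := by
  have hp1 : (1 : ℝ) ≤ p := by exact_mod_cast hp.out.one_le
  apply IsBigO.of_bound (2 * p)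
  filter_upwards [eventually_ge_atTop (1 : ℝ)] with t ht
  unfold GG
  have h1 : ‖numG χ t‖ ≤ p * Real.exp (-1 * t) := by
    unfold numG
    refine (norm_sum_le _ _).trans ?_
    have h2 : ∀ a ∈ (univ : Finset (ZMod p)), ‖χ a * (Real.exp (-(a.val : ℝ) * t) : ℂ)‖ ≤
        Real.exp (-1 * t) := by
      intro a _
      by_cases ha : a = 0
      · rw [ha, MulChar.map_nonunit χ not_isUnit_zero, zero_mul, norm_zero]
        positivity
      · rw [norm_mul, Complex.norm_real, Real.norm_eq_abs, abs_of_pos (Real.exp_pos _)]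
        have h3 : (1 : ℝ) ≤ a.val := by
          have : 0 < a.val := by
            rw [Nat.pos_iff_ne_zero, Ne, ZMod.val_eq_zero]
            exact ha
          exact_mod_cast this
        have h4 : Real.exp (-(a.val : ℝ) * t) ≤ Real.exp (-1 * t) := by
          apply Real.exp_le_exp.2
          nlinarith
        calc ‖χ a‖ * Real.exp (-(a.val : ℝ) * t) ≤ 1 * Real.exp (-(a.val : ℝ) * t) :=
              mul_le_mul_of_nonneg_right (norm_chi_le χ _) (Real.exp_pos _).le
          _ ≤ _ := by rw [one_mul]; exact h4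
    refine (sum_le_sum h2).trans (le_of_eq ?_)
    rw [sum_const, card_univ, ZMod.card, nsmul_eq_mul]
  have h5 : (1 : ℝ) / 2 ≤ 1 - Real.exp (-(p : ℝ) * t) := by
    have h6 : Real.exp (-(p : ℝ) * t) ≤ Real.exp (-1) := by
      apply Real.exp_le_exp.2
      nlinarith
    have h7 : Real.exp (-1) ≤ 1 / 2 := by
      rw [Real.exp_neg]
      have h8 : (2 : ℝ) ≤ Real.exp 1 := by
        have := Real.add_one_le_exp (1 : ℝ)
        linarith
      rw [one_div]
      exact inv_anti₀ (by norm_num) h8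
    linarith
  rw [norm_div, norm_denom (by linarith), Real.norm_eq_abs, abs_of_pos (Real.exp_pos _),
    div_le_iff₀ (by linarith)]
  refine h1.trans ?_
  have h9 : (0 : ℝ) ≤ p * Real.exp (-1 * t) := by positivity
  nlinarith

theorem GG_bot (hsum : ∑ a : ZMod p, χ a = 0) (hT : ∑ a : ZMod p, χ a * (a.val : ℂ) = 0) :
    (GG χ) =O[𝓝[>] (0 : ℝ)] fun t : ℝ => t ^ (-(-1 : ℝ)) := by
  have hp1 : (1 : ℝ) ≤ p := by exact_mod_cast hp.out.one_le
  have hp0 : (0 : ℝ) < p := by linarith
  apply IsBigO.of_bound (2 * p ^ 2)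
  have hnhds : Ioo (0 : ℝ) (1 / (2 * p)) ∈ 𝓝[>] (0 : ℝ) := Ioo_mem_nhdsGT (by positivity)
  filter_upwards [hnhds] with t ht
  obtain ⟨ht0, ht1⟩ := ht
  rw [lt_div_iff₀ (by positivity)] at ht1
  have hx : p * t ≤ 1 / 2 := by linarith
  have h1 : ‖numG χ t‖ ≤ p * (p * t) ^ 2 := by
    have h2 : numG χ t = ∑ a : ZMod p, χ a * ((Real.exp (-(a.val : ℝ) * t) - 1 -
        (-(a.val : ℝ) * t) : ℝ) : ℂ) := by
      have h3 : ∑ a : ZMod p, χ a * ((Real.exp (-(a.val : ℝ) * t) - 1 -
        (-(a.val : ℝ) * t) : ℝ) : ℂ) = numG χ t - (∑ a : ZMod p, χ a) +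
          t * (∑ a : ZMod p, χ a * (a.val : ℂ)) := by
        unfold numG
        rw [mul_sum, ← sum_sub_distrib, ← sum_add_distrib]
        apply sum_congr rfl
        intro a _
        push_cast
        ring
      rw [h3, hsum, hT]
      simp
    rw [h2]
    refine (norm_sum_le _ _).trans ?_
    have h4 : ∀ a ∈ (univ : Finset (ZMod p)), ‖χ a * ((Real.exp (-(a.val : ℝ) * t) - 1 -
        (-(a.val : ℝ) * t) : ℝ) : ℂ)‖ ≤ (p * t) ^ 2 := by
      intro a _
      have h5 : (a.val : ℝ) ≤ p := by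
        have := ZMod.val_lt a
        exact_mod_cast this.le
      have h6 : 0 ≤ (a.val : ℝ) * t := by positivity
      have h7 : (a.val : ℝ) * t ≤ p * t := mul_le_mul_of_nonneg_right h5 ht0.le
      have h8 := Real.abs_exp_sub_one_sub_id_le (x := -(a.val : ℝ) * t) (by
        rw [abs_le]; constructor <;> nlinarith)
      rw [norm_mul, Complex.norm_real, Real.norm_eq_abs]
      calc ‖χ a‖ * |Real.exp (-(a.val : ℝ) * t) - 1 - (-(a.val : ℝ) * t)|
          ≤ 1 * (-(a.val : ℝ) * t) ^ 2 :=
            mul_le_mul (norm_chi_le χ _) h8 (abs_nonneg _) zero_le_one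
        _ = ((a.val : ℝ) * t) ^ 2 := by ring
        _ ≤ (p * t) ^ 2 := by
            apply pow_le_pow_left₀ h6 h7
    refine (sum_le_sum h4).trans (le_of_eq ?_)
    rw [sum_const, card_univ, ZMod.card, nsmul_eq_mul]
  have h5 : (p * t) / 2 ≤ 1 - Real.exp (-(p : ℝ) * t) := by
    have h8 := Real.abs_exp_sub_one_sub_id_le (x := -(p : ℝ) * t) (by
      rw [abs_le]; constructor <;> nlinarith)
    have h9 := (abs_le.1 h8).2
    nlinarith [mul_pos hp0 ht0]
  have hden : 0 < 1 - Real.exp (-(p : ℝ) * t) := by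
    have := mul_pos hp0 ht0
    linarith
  unfold GG
  rw [norm_div, norm_denom ht0, neg_neg, Real.rpow_one, Real.norm_eq_abs, abs_of_pos ht0,
    div_le_iff₀ hden]
  refine h1.trans ?_
  have h9 : 2 * p ^ 2 * t * ((p * t) / 2) ≤ 2 * p ^ 2 * t * (1 - Real.exp (-(p : ℝ) * t)) :=
    mul_le_mul_of_nonneg_left h5 (by positivity)
  refine le_trans (le_of_eq ?_) h9
  ring

theorem mellin_GG {s : ℂ} (hs : 1 < s.re) :
    Gamma s * DirichletCharacter.LFunction χ s = mellin (GG χ) s := by
  have : NeZero p := ⟨hp.out.ne_zero⟩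
  have h1 := hasSum_mellin (a := fun n : ℕ => χ n) (p := fun n : ℕ => (n : ℝ)) (F := GG χ) (s := s)
    (by
      intro n
      rcases Nat.eq_zero_or_pos n with h | h
      · left
        rw [h, Nat.cast_zero, MulChar.map_nonunit χ not_isUnit_zero]
      · right
        exact_mod_cast h)
    (by linarith)
    (by
      intro t ht
      exact hasSum_GG χ ht)
    (by
      apply Summable.of_nonneg_of_le (fun n => by positivity) (f := fun n : ℕ => 1 / (n : ℝ) ^ s.re)
      · intro n
        apply div_le_div_of_nonneg_right (norm_chi_le χ _) (by positivity)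
      · exact Real.summable_one_div_nat_rpow.2 hs)
  rw [← h1.tsum_eq, DirichletCharacter.LFunction_eq_LSeries χ hs, LSeries, ← tsum_mul_left]
  apply tsum_congr
  intro n
  rw [LSeries.term_def]
  split_ifs with h
  · rw [h, mul_zero, Nat.cast_zero, MulChar.map_nonunit χ not_isUnit_zero, mul_zero, zero_div]
  · push_cast
    ring

theorem LFunction_zero (hχ : χ ≠ 1) (hT : ∑ a : ZMod p, χ a * (a.val : ℂ) = 0) :
    DirichletCharacter.LFunction χ 0 = 0 := by
  have : NeZero p := ⟨hp.out.ne_zero⟩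
  have hsum : ∑ a : ZMod p, χ a = 0 := MulChar.sum_eq_zero_of_ne_one hχ
  set U : Set ℂ := {s : ℂ | -1 < s.re} with hU
  have hUo : IsOpen U := isOpen_lt continuous_const Complex.continuous_re
  have hUc : IsPreconnected U := (convex_halfSpace_re_gt (-1)).isPreconnected
  have h1 : AnalyticOnNhd ℂ (DirichletCharacter.LFunction χ) U :=
    ((DirichletCharacter.differentiable_LFunction hχ).differentiableOn).analyticOnNhd hUo
  have h2 : AnalyticOnNhd ℂ (fun s => mellin (GG χ) s * (Gamma s)⁻¹) U := by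
    apply DifferentiableOn.analyticOnNhd _ hUo
    intro s hs
    apply DifferentiableAt.differentiableWithinAt
    apply DifferentiableAt.mul
    · exact mellin_differentiableAt_of_isBigO_rpow_exp one_pos
        ((continuousOn_GG χ).locallyIntegrableOn measurableSet_Ioi) (GG_top χ) (GG_bot χ hsum hT) hs
    · exact (Complex.differentiable_one_div_Gamma).differentiableAt
  have h3 : (DirichletCharacter.LFunction χ) =ᶠ[𝓝 2] (fun s => mellin (GG χ) s * (Gamma s)⁻¹) := by
    have h4 : {s : ℂ | 1 < s.re} ∈ 𝓝 (2 : ℂ) :=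
      (isOpen_lt continuous_const Complex.continuous_re).mem_nhds (by simp)
    filter_upwards [h4] with s hs
    rw [← mellin_GG χ hs]
    have h5 : Gamma s ≠ 0 := Gamma_ne_zero_of_re_pos (lt_trans zero_lt_one hs)
    field_simp
  have h6 := h1.eqOn_of_preconnected_of_eventuallyEq h2 hUc (by simp [hU]; norm_num) h3
  have h7 := h6 (by simp [hU] : (0 : ℂ) ∈ U)
  rw [h7]
  simp [Complex.Gamma_zero]

/-- the generalised Bernoulli number of an odd character does not vanish -/
theorem bernoulli_ne_zero (hχ : χ.Odd) :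
    ∑ a : ZMod p, χ a * (a.val : ℂ) ≠ 0 := by
  have : NeZero p := ⟨hp.out.ne_zero⟩
  intro hT
  have hne : χ ≠ 1 := by
    rintro rfl
    have h1 : (1 : DirichletCharacter ℂ p) (-1) = -1 := hχ
    rw [MulChar.one_apply (isUnit_one.neg)] at h1
    norm_num at h1
  have hprim : ∀ ψ : DirichletCharacter ℂ p, ψ ≠ 1 → ψ.IsPrimitive := by
    intro ψ hψ
    rw [DirichletCharacter.isPrimitive_def]
    rcases (Nat.dvd_prime hp.out).1 ψ.conductor_dvd_level with h | h
    · exact absurd (DirichletCharacter.eq_one_iff_conductor_eq_one.2 h) hψ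
    · exact h
  have h0 := LFunction_zero χ hne hT
  have h1 : DirichletCharacter.completedLFunction χ 0 = 0 := by
    rw [DirichletCharacter.LFunction_eq_completed_div_gammaFactor χ 0 (Or.inr hp.out.ne_one)] at h0
    rw [div_eq_zero_iff] at h0
    rcases h0 with h | h
    · exact h
    · exfalso
      rw [hχ.gammaFactor_def, zero_add] at h
      exact (Gammaℝ_ne_zero_of_re_pos (by simp)) h
  have hne' : χ⁻¹ ≠ 1 := by
    intro h
    exact hne (inv_eq_one.1 h)
  have h2 := DirichletCharacter.IsPrimitive.completedLFunction_one_sub (hprim _ hne') 0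
  rw [inv_inv, h1, mul_zero, sub_zero] at h2
  have h3 := DirichletCharacter.LFunction_apply_one_ne_zero hne'
  apply h3
  rw [DirichletCharacter.LFunction_eq_completed_div_gammaFactor χ⁻¹ 1 (Or.inr hp.out.ne_one), h2,
    zero_div]

end Pool.Agent.Lib.MP_509488_nt.Stick
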