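import Mathlib
import Pool.Agent.Lib.MP_509488_nt.CycMain

set_option autoImplicit false

namespace Pool.Agent.Lib.MP_509488_nt.Stick

open Finset NumberField IsCyclotomicExtension.Rat

variable (p : ℕ) [hp : Fact p.Prime] (K : Type) [Field K] [NumberField K]
  [hK : IsCyclotomicExtension {p} ℚ K]

instance neZero_p : NeZero p := ⟨hp.out.ne_zero⟩

/-- `ζ` in the ring of integers -/
noncomputable def z : 𝓞 K := (IsCyclotomicExtension.zeta_spec p ℚ K).toInteger

theorem z_prim : IsPrimitiveRoot (z p K) p :=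
  (IsCyclotomicExtension.zeta_spec p ℚ K).toInteger_isPrimitiveRoot

/-- the automorphism `ζ ↦ ζ^c` of the ring of integers -/
noncomputable def sg (c : (ZMod p)ˣ) : 𝓞 K ≃+* 𝓞 K :=
  MulSemiringAction.toRingEquiv Gal(K/ℚ) (𝓞 K) ((galEquivZMod p K).symm c)

variable {p K}

theorem sg_apply (c : (ZMod p)ˣ) (x : 𝓞 K) :
    sg p K c x = ((galEquivZMod p K).symm c : Gal(K/ℚ)) • x := rfl

theorem sg_pow_eq_one (c : (ZMod p)ˣ) {x : 𝓞 K} (hx : x ^ p = 1) :
    sg p K c x = x ^ c.val.val := by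
  rw [sg_apply, galEquivZMod_smul_of_pow_eq p K _ hx, MulEquiv.apply_symm_apply]

theorem sg_z (c : (ZMod p)ˣ) : sg p K c (z p K) = z p K ^ c.val.val :=
  sg_pow_eq_one c (z_prim p K).pow_eq_one

theorem sg_mul (c d : (ZMod p)ˣ) (x : 𝓞 K) : sg p K (c * d) x = sg p K c (sg p K d x) := by
  rw [sg_apply, sg_apply, sg_apply, map_mul, mul_smul]

theorem sg_one (x : 𝓞 K) : sg p K 1 x = x := by
  rw [sg_apply, map_one, one_smul]

theorem sg_inv_sg (c : (ZMod p)ˣ) (x : 𝓞 K) : sg p K c⁻¹ (sg p K c x) = x := by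
  rw [← sg_mul, inv_mul_cancel, sg_one]

theorem sg_sg_inv (c : (ZMod p)ˣ) (x : 𝓞 K) : sg p K c (sg p K c⁻¹ x) = x := by
  rw [← sg_mul, mul_inv_cancel, sg_one]

theorem sg_comm (c d : (ZMod p)ˣ) (x : 𝓞 K) :
    sg p K c (sg p K d x) = sg p K d (sg p K c x) := by
  rw [← sg_mul, ← sg_mul, mul_comm]

theorem norm_eq (x : 𝓞 K) : ((Algebra.norm ℤ x : ℤ) : 𝓞 K) = ∏ c, sg p K c x := by
  rw [norm_prod (p := p)]
  refine Fintype.prod_equiv (galEquivZMod p K).toEquiv _ _ ?_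
  intro s
  rw [sg_apply]
  change _ = ((galEquivZMod p K).symm (galEquivZMod p K s) : Gal(K/ℚ)) • x
  rw [MulEquiv.symm_apply_apply]
  rfl

theorem norm_sg (c : (ZMod p)ˣ) (x : 𝓞 K) : Algebra.norm ℤ (sg p K c x) = Algebra.norm ℤ x := by
  have h : ((Algebra.norm ℤ (sg p K c x) : ℤ) : 𝓞 K) = ((Algebra.norm ℤ x : ℤ) : 𝓞 K) := by
    rw [norm_eq (p := p), norm_eq (p := p)]
    refine Fintype.prod_equiv (Equiv.mulRight c) _ _ ?_
    intro d
    rw [Equiv.coe_mulRight, sg_mul]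
  exact_mod_cast h

theorem hom_ext' {S : Type*} [CommRing S] (f g : 𝓞 K →+* S) (h : f (z p K) = g (z p K)) :
    f = g := by
  have hadj : Algebra.adjoin ℤ {z p K} = ⊤ :=
    IsCyclotomicExtension.Rat.adjoin_singleton_eq_top (IsCyclotomicExtension.zeta_spec p ℚ K)
  have h1 : f.toIntAlgHom = g.toIntAlgHom := by
    apply AlgHom.ext_of_adjoin_eq_top hadj
    intro x hx
    rw [Set.mem_singleton_iff] at hx
    subst hx
    exact h
  ext x
  exact congrArg (fun k : 𝓞 K →ₐ[ℤ] S => k x) h1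

/-- complex conjugation is the automorphism `-1` -/
theorem phi_conj (φ : 𝓞 K →+* ℂ) (x : 𝓞 K) :
    φ (sg p K (-1) x) = (starRingEnd ℂ) (φ x) := by
  have h : (φ.comp (sg p K (-1) : 𝓞 K →+* 𝓞 K)) = (starRingEnd ℂ).comp φ := by
    apply hom_ext' (p := p)
    have hp0 := hp.out.pos
    have hz := (z_prim p K)
    have h1 : (φ (z p K)) ^ p = 1 := by rw [← map_pow, hz.pow_eq_one, map_one]
    have h2 : ‖φ (z p K)‖ = 1 := by
      refine (pow_eq_one_iff_of_nonneg (norm_nonneg _) hp0.ne').1 ?_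
      rw [← norm_pow, h1, norm_one]
    have h3 : (starRingEnd ℂ) (φ (z p K)) * φ (z p K) = 1 := by
      rw [Complex.conj_mul', h2]; simp
    have h4 : φ (sg p K (-1) (z p K)) * φ (z p K) = 1 := by
      rw [sg_z, ← map_mul, ← pow_succ]
      have h5 : ((-1 : (ZMod p)ˣ) : ZMod p).val + 1 = p := by
        rw [Units.val_neg, Units.val_one]
        have : (-1 : ZMod p).val = p - 1 := by
          obtain ⟨n, rfl⟩ : ∃ n, p = n + 1 := ⟨p - 1, by omega⟩
          rw [ZMod.val_neg_one, Nat.add_sub_cancel]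
        rw [this]; omega
      rw [h5, hz.pow_eq_one, map_one]
    have h5 : φ (z p K) ≠ 0 := by
      intro h0; rw [h0] at h2; simp at h2
    change φ (sg p K (-1) (z p K)) = (starRingEnd ℂ) (φ (z p K))
    exact mul_right_cancel₀ h5 (h4.trans h3.symm)
  exact congrArg (fun k : 𝓞 K →+* ℂ => k x) h

include hp hK in
theorem phi_injective (φ : 𝓞 K →+* ℂ) : Function.Injective φ := by
  rw [injective_iff_map_eq_zero]
  intro x hx
  by_contra hne
  have h1 : Algebra.norm ℤ x ≠ 0 := by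
    rw [Ne, Algebra.norm_eq_zero_iff]
    exact hne
  have h2 := norm_eq (p := p) x
  rw [← mul_prod_erase univ _ (mem_univ (1 : (ZMod p)ˣ)), sg_one] at h2
  have h3 := congrArg φ h2
  rw [map_mul, hx, zero_mul, map_intCast] at h3
  exact h1 (by exact_mod_cast h3)

theorem norm_phi_root {R : Type*} [CommRing R] {φ : R →+* ℂ} {x : R} {n : ℕ} (hn : n ≠ 0)
    (h : x ^ n = 1) : ‖φ x‖ = 1 := by
  refine (pow_eq_one_iff_of_nonneg (norm_nonneg _) hn).1 ?_
  rw [← norm_pow, ← map_pow, h, map_one, norm_one]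

/-- `(-1)` as an automorphism agrees with the conjugation of `CycRing` -/
theorem conj_eq (hp2 : 2 < p) (x : 𝓞 K) :
    (cycRing (IsCyclotomicExtension.zeta_spec p ℚ K) hp2).conj x = sg p K (-1) x := by
  set C := cycRing (IsCyclotomicExtension.zeta_spec p ℚ K) hp2 with hC
  have h : ((C.conj : 𝓞 K ≃+* 𝓞 K) : 𝓞 K →+* 𝓞 K) = (sg p K (-1) : 𝓞 K →+* 𝓞 K) := by
    apply hom_ext' (p := p)
    have hz := (z_prim p K)
    have h1 : C.conj (z p K) * z p K = 1 := C.conj_z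
    have h2 : sg p K (-1) (z p K) * z p K = 1 := by
      rw [sg_z, ← pow_succ]
      have h5 : ((-1 : (ZMod p)ˣ) : ZMod p).val + 1 = p := by
        rw [Units.val_neg, Units.val_one]
        have : (-1 : ZMod p).val = p - 1 := by
          obtain ⟨n, rfl⟩ : ∃ n, p = n + 1 := ⟨p - 1, by omega⟩
          rw [ZMod.val_neg_one, Nat.add_sub_cancel]
        rw [this]; omega
      rw [h5, hz.pow_eq_one]
    have h3 : z p K ≠ 0 := by
      intro h0; rw [h0, mul_zero] at h1; exact zero_ne_one h1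
    exact mul_right_cancel₀ h3 (h1.trans h2.symm)
  exact congrArg (fun k : 𝓞 K →+* 𝓞 K => k x) h

/-- a unit of absolute value one is an `r`-th power of a root of unity -/
theorem unit_root (hp2 : 2 < p) (e : (𝓞 K)ˣ) (h : (e : 𝓞 K) * sg p K (-1) e = 1) :
    (e : 𝓞 K) ^ (4 * p) = 1 := by
  obtain ⟨y, hy, hey⟩ := (cycRing (IsCyclotomicExtension.zeta_spec p ℚ K) hp2).unit e
  rw [conj_eq] at hey
  have h1 : (e : 𝓞 K) ^ 2 = y := by
    linear_combination (e : 𝓞 K) * hey + y * h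
  have h2 : 4 * p = 2 * (2 * p) := by ring
  rw [h2, pow_mul, h1, hy]

omit [NumberField K] hK in
theorem exists_pow_root {x : 𝓞 K} {r : ℕ} (hr : r.Prime) (hr2 : r ≠ 2) (hrp : r ≠ p)
    (h : x ^ (4 * p) = 1) : ∃ y : 𝓞 K, y ^ r = x ∧ y ^ (4 * p) = 1 := by
  have h4 : Nat.Coprime r (4 * p) := by
    refine Nat.Coprime.mul_right ?_ ((Nat.coprime_primes hr hp.out).2 hrp)
    have : Nat.Coprime r 2 := (Nat.coprime_primes hr Nat.prime_two).2 hr2
    have h5 : (4 : ℕ) = 2 ^ 2 := by norm_num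
    rw [h5]
    exact this.pow_right 2
  have hp0 := hp.out.pos
  obtain ⟨s, hs⟩ := Nat.exists_mul_mod_eq_one_of_coprime h4 (by omega)
  refine ⟨x ^ s, ?_, ?_⟩
  · rw [← pow_mul, mul_comm s r]
    have : r * s = 4 * p * (r * s / (4 * p)) + 1 := by
      have := Nat.div_add_mod (r * s) (4 * p)
      rw [hs.2] at this
      exact this.symm
    rw [this, pow_succ, pow_mul, h, one_pow, one_mul]
  · rw [← pow_mul, mul_comm, pow_mul, h, one_pow]

end Pool.Agent.Lib.MP_509488_nt.Stick
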