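import Mathlib
import Pool.Agent.Lib.MP_509488_nt.Stick.Base

set_option autoImplicit false

namespace Pool.Agent.Lib.MP_509488_nt.Stick

open Finset NumberField IsCyclotomicExtension.Rat

variable {p : ℕ} [hp : Fact p.Prime]

/-- residues in the first half -/
def Half (c : (ZMod p)ˣ) : Prop := c.val.val ≤ (p - 1) / 2

instance (c : (ZMod p)ˣ) : Decidable (Half c) := by unfold Half; infer_instance

theorem val_pos (c : (ZMod p)ˣ) : 0 < c.val.val := by
  rw [Nat.pos_iff_ne_zero, Ne, ZMod.val_eq_zero]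
  exact c.ne_zero

theorem val_neg' (c : (ZMod p)ˣ) : (-c).val.val = p - c.val.val := by
  rw [Units.val_neg]
  have : NeZero (c.val) := ⟨c.ne_zero⟩
  exact ZMod.val_neg_of_ne_zero _

theorem half_neg (hp2 : p ≠ 2) (c : (ZMod p)ˣ) : Half (-c) ↔ ¬ Half c := by
  unfold Half
  rw [val_neg']
  have h1 := val_pos c
  have h2 := ZMod.val_lt c.val
  obtain ⟨m, hm⟩ := hp.out.odd_of_ne_two hp2
  omega

/-- the half system `{c : 2^i c⁻¹ < p / 2}` twisted by `a` -/
def HS (a : (ZMod p)ˣ) : Finset (ZMod p)ˣ := univ.filter (fun e => Half (a * e⁻¹))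

theorem mem_HS (a e : (ZMod p)ˣ) : e ∈ HS a ↔ Half (a * e⁻¹) := by simp [HS]

theorem neg_mem_HS (hp2 : p ≠ 2) (a e : (ZMod p)ˣ) : -e ∈ HS a ↔ e ∉ HS a := by
  rw [mem_HS, mem_HS, ← half_neg hp2]
  have : a * (-e)⁻¹ = -(a * e⁻¹) := by rw [inv_neg, mul_neg]
  rw [this]

theorem card_HS (hp2 : p ≠ 2) (a : (ZMod p)ˣ) : (HS a).card = (p - 1) / 2 := by
  have h1 : (HS a).card = ((HS a)ᶜ).card := by
    refine Finset.card_bij (fun e _ => -e) ?_ ?_ ?_
    · intro e he
      rw [mem_compl, neg_mem_HS hp2, not_not]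
      exact he
    · intro e _ f _ h
      exact neg_injective h
    · intro e he
      rw [mem_compl] at he
      exact ⟨-e, (neg_mem_HS hp2 a e).2 he, neg_neg e⟩
  have h2 : (HS a).card + ((HS a)ᶜ).card = p - 1 := by
    rw [Finset.card_add_card_compl, ZMod.card_units_eq_totient, Nat.totient_prime hp.out]
  omega

theorem compl_HS (hp2 : p ≠ 2) (a : (ZMod p)ˣ) : (HS a)ᶜ = HS (-a) := by
  ext e
  rw [mem_compl, mem_HS, mem_HS, neg_mul, half_neg hp2]

theorem image_HS (a c : (ZMod p)ˣ) {M : Type*} [CommMonoid M] (f : (ZMod p)ˣ → M) :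
    ∏ e ∈ HS a, f (c * e) = ∏ e ∈ HS (c * a), f e := by
  refine Finset.prod_bij (fun e _ => c * e) ?_ ?_ ?_ ?_
  · intro e he
    rw [mem_HS] at he ⊢
    rwa [mul_inv, mul_mul_mul_comm, mul_inv_cancel, one_mul]
  · intro e _ f _ h
    exact mul_left_cancel h
  · intro e he
    rw [mem_HS] at he
    refine ⟨c⁻¹ * e, ?_, by rw [mul_inv_cancel_left]⟩
    rw [mem_HS, mul_inv, inv_inv]
    have : a * (c * e⁻¹) = c * a * e⁻¹ := by rw [← mul_assoc, mul_comm a c]
    rwa [this]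
  · intro e _
    rfl

end Pool.Agent.Lib.MP_509488_nt.Stick
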