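import Mathlib
import Pool.Agent.Lib.MP_509488_nt.Stick.Half

set_option autoImplicit false

namespace Pool.Agent.Lib.MP_509488_nt.Stick

open Finset NumberField IsCyclotomicExtension.Rat

section char

variable {R k : Type*} [CommRing R] [IsDomain R] [Field k] [Fintype k]

theorem sum_eval_eq_zero (f : Polynomial k) (hf : f.natDegree < Fintype.card k - 1) :
    ∑ x : k, f.eval x = 0 := by
  simp_rw [Polynomial.eval_eq_sum_range]
  rw [sum_comm]
  apply sum_eq_zero
  intro i hi
  rw [← mul_sum, FiniteField.sum_pow_lt_card_sub_one, mul_zero]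
  have := mem_range.1 hi
  omega

theorem sum_pow_mul_pow (n : ℕ) (h : 2 * n < Fintype.card k - 1) :
    ∑ x : k, x ^ n * (1 - x) ^ n = 0 := by
  have h1 := sum_eval_eq_zero (k := k) (Polynomial.X ^ n * (1 - Polynomial.X) ^ n) (by
    refine lt_of_le_of_lt ?_ h
    refine Polynomial.natDegree_mul_le.trans ?_
    have h2 : ((Polynomial.X : Polynomial k) ^ n).natDegree ≤ n := by
      rw [Polynomial.natDegree_X_pow]
    have h3 : ((1 - Polynomial.X : Polynomial k) ^ n).natDegree ≤ n := by
      refine Polynomial.natDegree_pow_le.trans ?_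
      have : (1 - Polynomial.X : Polynomial k).natDegree ≤ 1 := by
        refine (Polynomial.natDegree_sub_le _ _).trans ?_
        simp
      nlinarith
    omega)
  simpa using h1

theorem exists_char (π : R →+* k) {p : ℕ} (hp : p.Prime) {z : R} (hz : IsPrimitiveRoot z p)
    (hπz : IsPrimitiveRoot (π z) p) :
    ∃ (A : ℕ) (χ : MulChar k R), p * A = Fintype.card k - 1 ∧ 0 < A ∧
      (∀ x, π (χ x) = x ^ A) ∧ (∀ x, x ≠ 0 → χ x ^ p = 1) := by
  classical
  have : NeZero p := ⟨hp.ne_zero⟩
  have hq1 : 0 < Fintype.card k - 1 := by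
    have := Fintype.one_lt_card (α := k)
    omega
  have hπz0 : π z ≠ 0 := hπz.ne_zero hp.ne_zero
  have hdvd : p ∣ Fintype.card k - 1 :=
    hπz.dvd_of_pow_eq_one _ (FiniteField.pow_card_sub_one_eq_one _ hπz0)
  obtain ⟨A, hA⟩ := hdvd
  have hA0 : 0 < A := by
    rcases Nat.eq_zero_or_pos A with h | h
    · rw [h, mul_zero] at hA; omega
    · exact h
  have hex : ∀ x : k, x ≠ 0 → ∃ i < p, (π z) ^ i = x ^ A := by
    intro x hx
    apply hπz.eq_pow_of_pow_eq_one
    rw [← pow_mul, mul_comm A p, ← hA, FiniteField.pow_card_sub_one_eq_one _ hx]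
  choose! i hi hi' using hex
  have hinj : ∀ a b : ℕ, (π z) ^ a = (π z) ^ b → z ^ a = z ^ b := by
    intro a b h
    rw [pow_eq_pow_mod a hπz.pow_eq_one, pow_eq_pow_mod b hπz.pow_eq_one] at h
    have h1 := hπz.pow_inj (Nat.mod_lt _ hp.pos) (Nat.mod_lt _ hp.pos) h
    rw [pow_eq_pow_mod a hz.pow_eq_one, pow_eq_pow_mod b hz.pow_eq_one, h1]
  let f : k →* R :=
    { toFun := fun x => if x = 0 then 0 else z ^ i x
      map_one' := by
        simp only [one_ne_zero, if_false]
        have h1 : (π z) ^ i 1 = (π z) ^ 0 := by rw [hi' 1 one_ne_zero, one_pow, pow_zero]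
        rw [hinj _ _ h1, pow_zero]
      map_mul' := by
        intro x y
        by_cases hx : x = 0
        · simp [hx]
        by_cases hy : y = 0
        · simp [hy]
        rw [if_neg hx, if_neg hy, if_neg (mul_ne_zero hx hy), ← pow_add]
        apply hinj
        rw [hi' _ (mul_ne_zero hx hy), pow_add, hi' x hx, hi' y hy, mul_pow] }
  let χ : MulChar k R := ⟨f, fun a ha => by
    have : a = 0 := by
      by_contra h
      exact ha (isUnit_iff_ne_zero.2 h)
    simp [f, this]⟩
  have hχ : ∀ x, χ x = if x = 0 then 0 else z ^ i x := fun x => rfl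
  refine ⟨A, χ, hA.symm, hA0, ?_, ?_⟩
  · intro x
    rw [hχ]
    by_cases hx : x = 0
    · rw [if_pos hx, hx, map_zero, zero_pow hA0.ne']
    · rw [if_neg hx, map_pow, hi' x hx]
  · intro x hx
    rw [hχ, if_neg hx, ← pow_mul, mul_comm, pow_mul, hz.pow_eq_one, one_pow]

theorem exists_ne (A p : ℕ) (h : p * A = Fintype.card k - 1) (c : ℕ) (hc : ¬ p ∣ c) :
    ∃ x : k, x ≠ 0 ∧ x ^ (A * c) ≠ 1 := by
  have hq1 : 0 < Fintype.card k - 1 := by
    have := Fintype.one_lt_card (α := k)
    omega
  have hA0 : 0 < A := by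
    rcases Nat.eq_zero_or_pos A with h' | h'
    · rw [h', mul_zero] at h; omega
    · exact h'
  by_contra hcon
  push Not at hcon
  have h1 : ∀ x : kˣ, x ^ (A * c) = 1 := by
    intro x
    apply Units.ext
    rw [Units.val_pow_eq_pow_val, Units.val_one]
    exact hcon x x.ne_zero
  have h2 := (FiniteField.forall_pow_eq_one_iff k (A * c)).1 h1
  rw [← h, mul_comm p A] at h2
  exact hc ((Nat.mul_dvd_mul_iff_left hA0).1 h2)

end char

variable {p : ℕ} [hp : Fact p.Prime] {K : Type} [Field K] [NumberField K]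
  [hK : IsCyclotomicExtension {p} ℚ K]

theorem sg_root_or_zero (c : (ZMod p)ˣ) {x : 𝓞 K} (hx : x = 0 ∨ x ^ p = 1) :
    sg p K c x = x ^ c.val.val := by
  rcases hx with h | h
  · rw [h, map_zero, zero_pow (val_pos c).ne']
  · exact sg_pow_eq_one c h

/-- the Jacobi sum of a prime of degree one -/
theorem exists_jacobi_aux (hp2 : p ≠ 2) {k : Type} [Field k] [Fintype k] (π : 𝓞 K →+* k)
    (hπz : IsPrimitiveRoot (π (z p K)) p) :
    ∃ J : 𝓞 K, J * sg p K (-1) J = (Fintype.card k : 𝓞 K) ∧
      ∀ c : (ZMod p)ˣ, Half c → π (sg p K c J) = 0 := by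
  classical
  obtain ⟨A, χ, hA, hA0, hχ, hχp⟩ := exists_char π hp.out (z_prim p K) hπz
  have hχ0 : ∀ x, χ x = 0 ∨ χ x ^ p = 1 := by
    intro x
    by_cases hx : x = 0
    · left; rw [hx]; exact MulChar.map_zero χ
    · right; exact hχp x hx
  have hsg : ∀ (c : (ZMod p)ˣ) x, sg p K c (χ x) = χ x ^ c.val.val := fun c x =>
    sg_root_or_zero c (hχ0 x)
  have hne : ∀ c : ℕ, 0 < c → ¬ p ∣ c → χ ^ c ≠ 1 := by
    intro c hc0 hc h
    obtain ⟨x, hx, hx'⟩ := exists_ne (k := k) A p hA c hc
    apply hx'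
    have h1 : (χ ^ c) x = 1 := by
      rw [h, MulChar.one_apply (isUnit_iff_ne_zero.2 hx)]
    rw [MulChar.pow_apply' χ hc0.ne'] at h1
    have h2 := congrArg π h1
    rw [map_pow, hχ, map_one, ← pow_mul] at h2
    exact h2
  have hp3 : 3 ≤ p := by
    have := hp.out.two_le
    omega
  refine ⟨jacobiSum χ χ, ?_, ?_⟩
  · -- absolute value
    have h1 : sg p K (-1) (jacobiSum χ χ) = jacobiSum χ⁻¹ χ⁻¹ := by
      have h2 : χ.ringHomComp (sg p K (-1) : 𝓞 K →+* 𝓞 K) = χ⁻¹ := by
        rw [eq_comm, inv_eq_iff_mul_eq_one]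
        apply MulChar.ext
        intro x
        rw [MulChar.mul_apply, MulChar.ringHomComp_apply, MulChar.one_apply x.isUnit]
        change χ x * sg p K (-1) (χ x) = 1
        rw [hsg, ← pow_succ']
        have h5 : ((-1 : (ZMod p)ˣ) : ZMod p).val + 1 = p := by
          have := val_neg' (1 : (ZMod p)ˣ)
          rw [this, Units.val_one, ZMod.val_one]
          omega
        rw [h5]
        exact hχp _ x.ne_zero
      have h3 := jacobiSum_ringHomComp χ χ (sg p K (-1) : 𝓞 K →+* 𝓞 K)
      rw [h2] at h3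
      exact h3.symm
    have hinj : Function.Injective (algebraMap (𝓞 K) K) := FaithfulSMul.algebraMap_injective _ _
    apply hinj
    have h2 := jacobiSum_mul_jacobiSum_inv (F := k) (F' := K)
      (χ := χ.ringHomComp (algebraMap (𝓞 K) K)) (φ := χ.ringHomComp (algebraMap (𝓞 K) K))
      (by
        have h3 : ringChar K = 0 := ringChar.eq_zero
        rw [h3]
        have := CharP.char_is_prime_or_zero k (ringChar k)
        intro h4
        have h5 : (0 : ℕ) ≠ ringChar k := by
          intro h6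
          have := CharP.ringChar_ne_zero_of_finite k
          exact this h6.symm
        exact h5 h4)
      (by
        rw [MulChar.ringHomComp_ne_one_iff hinj]
        have := hne 1 one_pos (by intro h; exact hp.out.one_lt.ne' (Nat.dvd_one.1 h))
        rwa [pow_one] at this)
      (by
        rw [MulChar.ringHomComp_ne_one_iff hinj]
        have := hne 1 one_pos (by intro h; exact hp.out.one_lt.ne' (Nat.dvd_one.1 h))
        rwa [pow_one] at this)
      (by
        rw [← MulChar.ringHomComp_mul, MulChar.ringHomComp_ne_one_iff hinj, ← sq]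
        exact hne 2 two_pos (by
          intro h
          have := Nat.le_of_dvd two_pos h
          omega))
    rw [MulChar.ringHomComp_inv, jacobiSum_ringHomComp, jacobiSum_ringHomComp, ← h1] at h2
    rw [map_mul, h2, map_natCast]
  · intro c hc
    have h1 : sg p K c (jacobiSum χ χ) = ∑ x, (χ x) ^ c.val.val * (χ (1 - x)) ^ c.val.val := by
      unfold jacobiSum
      rw [map_sum]
      apply sum_congr rfl
      intro x _
      rw [map_mul, hsg, hsg]
    rw [h1, map_sum]
    have h2 : ∀ x, π ((χ x) ^ c.val.val * (χ (1 - x)) ^ c.val.val) =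
        x ^ (A * c.val.val) * (1 - x) ^ (A * c.val.val) := by
      intro x
      rw [map_mul, map_pow, map_pow, hχ, hχ, ← pow_mul, ← pow_mul]
    simp_rw [h2]
    apply sum_pow_mul_pow
    unfold Half at hc
    rw [← hA]
    have h3 : 2 * c.val.val < p := by omega
    calc 2 * (A * c.val.val) = (2 * c.val.val) * A := by ring
      _ < p * A := Nat.mul_lt_mul_of_pos_right h3 hA0

end Pool.Agent.Lib.MP_509488_nt.Stick
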