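import Mathlib
import Pool.Agent.Lib.MP_509488_nt.Stick.Jac

set_option autoImplicit false

namespace Pool.Agent.Lib.MP_509488_nt.Stick

open Finset NumberField IsCyclotomicExtension.Rat

variable {p : ℕ} [hp : Fact p.Prime] {K : Type} [Field K] [NumberField K]
  [hK : IsCyclotomicExtension {p} ℚ K]

theorem lam_dvd_p (hp2 : p ≠ 2) : (1 - z p K) ∣ (p : 𝓞 K) := by
  have hp3 : 2 < p := by
    have := hp.out.two_le
    omega
  have := ((cycRing (IsCyclotomicExtension.zeta_spec p ℚ K) hp3).dvd_int (p : ℤ)).2 dvd_rfl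
  rw [Int.cast_natCast] at this
  exact this

theorem prim_mk (hp2 : p ≠ 2) (M : Ideal (𝓞 K)) (hpM : (p : 𝓞 K) ∉ M) :
    IsPrimitiveRoot (Ideal.Quotient.mk M (z p K)) p := by
  have h1 : (Ideal.Quotient.mk M (z p K)) ^ p = 1 := by
    rw [← map_pow, (z_prim p K).pow_eq_one, map_one]
  have h2 : Ideal.Quotient.mk M (z p K) ≠ 1 := by
    intro h
    apply hpM
    rw [← map_one (Ideal.Quotient.mk M), eq_comm, Ideal.Quotient.eq] at h
    exact M.mem_of_dvd (lam_dvd_p hp2) h
  have h3 := IsPrimitiveRoot.orderOf (Ideal.Quotient.mk M (z p K))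
  rwa [orderOf_eq_prime h1 h2] at h3

theorem absNorm_map (c : (ZMod p)ˣ) (I : Ideal (𝓞 K)) :
    Ideal.absNorm (I.map (sg p K c)) = Ideal.absNorm I := by
  rw [Ideal.absNorm_apply, Ideal.absNorm_apply, Submodule.cardQuot_apply,
    Submodule.cardQuot_apply]
  exact (Nat.card_congr (Ideal.quotientEquiv I (I.map (sg p K c)) (sg p K c) rfl).toEquiv).symm

theorem mem_map (c : (ZMod p)ˣ) (I : Ideal (𝓞 K)) (x : 𝓞 K) :
    x ∈ I.map (sg p K c) ↔ sg p K c⁻¹ x ∈ I := by
  constructor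
  · intro h
    obtain ⟨y, hy, rfl⟩ := (Ideal.mem_map_of_equiv (sg p K c) x).1 h
    rwa [sg_inv_sg]
  · intro h
    have := Ideal.mem_map_of_mem (sg p K c) h
    rwa [sg_sg_inv] at this

theorem p_notMem_map (c : (ZMod p)ˣ) {I : Ideal (𝓞 K)} (h : (p : 𝓞 K) ∉ I) :
    (p : 𝓞 K) ∉ I.map (sg p K c) := by
  rw [mem_map, map_natCast]
  exact h

theorem exists_jacobi (hp2 : p ≠ 2) (q : Ideal (𝓞 K)) (hq : q.IsMaximal) (hne : q ≠ ⊥)
    (hpq : (p : 𝓞 K) ∉ q) (a : ℤ) (ha : z p K - a ∈ q) :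
    ∃ J : 𝓞 K, Ideal.span {J} = ∏ e ∈ HS (1 : (ZMod p)ˣ), q.map (sg p K e) ∧
      J * sg p K (-1) J = ((Ideal.absNorm q : ℕ) : 𝓞 K) := by
  classical
  have hfin : Finite (𝓞 K ⧸ q) := Ideal.finiteQuotientOfFreeOfNeBot q hne
  let _ : Field (𝓞 K ⧸ q) := Ideal.Quotient.field q
  let _ : Fintype (𝓞 K ⧸ q) := Fintype.ofFinite _
  obtain ⟨J, hJ, hJ'⟩ := exists_jacobi_aux hp2 (Ideal.Quotient.mk q) (prim_mk hp2 q hpq)
  have hcard : Fintype.card (𝓞 K ⧸ q) = Ideal.absNorm q := by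
    rw [Ideal.absNorm_apply, Submodule.cardQuot_apply, Nat.card_eq_fintype_card]
  rw [hcard] at hJ
  refine ⟨J, ?_, hJ⟩
  have hq0 : Ideal.absNorm q ≠ 0 := by
    rw [← hcard]
    exact Fintype.card_ne_zero
  have hmax : ∀ e, (q.map (sg p K e)).IsMaximal := fun e => Ideal.map_isMaximal_of_equiv _
  have hdvd : (∏ e ∈ HS (1 : (ZMod p)ˣ), q.map (sg p K e)) ∣ Ideal.span {J} := by
    apply Finset.prod_dvd_of_coprime
    · intro e _ f _ hef
      have := hmax e
      have := hmax f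
      apply Ideal.isCoprime_of_isMaximal
      intro h
      apply hef
      have h1 : z p K ^ e.val.val - a ∈ q.map (sg p K e) := by
        have := Ideal.mem_map_of_mem (sg p K e) ha
        rwa [map_sub, map_intCast, sg_z] at this
      have h2 : z p K ^ f.val.val - a ∈ q.map (sg p K e) := by
        have := Ideal.mem_map_of_mem (sg p K f) ha
        rw [map_sub, map_intCast, sg_z] at this
        have h' : q.map (sg p K e) = q.map (sg p K f) := h
        rw [h']
        exact this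
      have h3 := (q.map (sg p K e)).sub_mem h1 h2
      rw [sub_sub_sub_cancel_right, ← Ideal.Quotient.eq, map_pow, map_pow] at h3
      have h4 := (prim_mk hp2 _ (p_notMem_map e hpq)).pow_inj
        (ZMod.val_lt _) (ZMod.val_lt _) h3
      exact Units.ext (ZMod.val_injective p h4)
    · intro e he
      rw [mem_HS, one_mul] at he
      rw [Ideal.dvd_span_singleton, mem_map]
      exact Ideal.Quotient.eq_zero_iff_mem.1 (hJ' _ he)
  obtain ⟨Q, hQ⟩ := hdvd
  have hN1 : Ideal.absNorm (∏ e ∈ HS (1 : (ZMod p)ˣ), q.map (sg p K e)) =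
      Ideal.absNorm q ^ ((p - 1) / 2) := by
    rw [map_prod]
    simp_rw [absNorm_map]
    rw [prod_const, card_HS hp2]
  have hN2 : Ideal.absNorm (Ideal.span {J}) = Ideal.absNorm q ^ ((p - 1) / 2) := by
    have h1 : Ideal.absNorm (Ideal.span {J}) * Ideal.absNorm (Ideal.span {J}) =
        Ideal.absNorm q ^ (p - 1) := by
      have h2 : Ideal.absNorm (Ideal.span {J}) = Ideal.absNorm (Ideal.span {sg p K (-1) J}) := by
        rw [Ideal.absNorm_span_singleton, Ideal.absNorm_span_singleton, norm_sg]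
      conv_lhs => rw [h2]
      conv_lhs => arg 1; rw [← h2]
      rw [← map_mul, Ideal.span_singleton_mul_span_singleton, hJ, Ideal.absNorm_span_singleton]
      have h3 : ((Ideal.absNorm q : ℕ) : 𝓞 K) = algebraMap ℤ (𝓞 K) (Ideal.absNorm q : ℕ) := by
        simp
      rw [h3, Algebra.norm_algebraMap, Int.natAbs_pow, Int.natAbs_natCast, RingOfIntegers.rank,
        IsCyclotomicExtension.Rat.finrank p, Nat.totient_prime hp.out]
    have h4 : p - 1 = (p - 1) / 2 + (p - 1) / 2 := by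
      obtain ⟨m, hm⟩ := hp.out.odd_of_ne_two hp2
      omega
    rw [h4, pow_add] at h1
    exact Nat.mul_self_inj.1 h1
  have hQ1 : Ideal.absNorm Q = 1 := by
    have h1 := congrArg Ideal.absNorm hQ
    rw [map_mul, hN1, hN2] at h1
    have h2 : 0 < Ideal.absNorm q ^ ((p - 1) / 2) := Nat.pos_of_ne_zero (pow_ne_zero _ hq0)
    nlinarith
  rw [Ideal.absNorm_eq_one_iff] at hQ1
  rw [hQ, hQ1, Ideal.mul_top]

/-- generators of the half system products of ideals all whose prime factors have degree one -/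
theorem exists_gen (hp2 : p ≠ 2) (I : Ideal (𝓞 K)) (hI : I ≠ ⊥)
    (h : ∀ q : Ideal (𝓞 K), q.IsMaximal → I ≤ q → (p : 𝓞 K) ∉ q ∧ ∃ a : ℤ, z p K - a ∈ q) :
    ∃ J : 𝓞 K, Ideal.span {J} = ∏ e ∈ HS (1 : (ZMod p)ˣ), I.map (sg p K e) ∧
      J * sg p K (-1) J = ((Ideal.absNorm I : ℕ) : 𝓞 K) := by
  classical
  induction I using UniqueFactorizationMonoid.induction_on_prime with
  | h₁ => exact absurd rfl hI
  | h₂ I hu =>
    rw [Ideal.isUnit_iff] at hu
    subst hu
    refine ⟨1, ?_, ?_⟩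
    · rw [Ideal.span_singleton_one]
      symm
      rw [← Ideal.one_eq_top]
      apply Finset.prod_eq_one
      intro e _
      rw [Ideal.one_eq_top, Ideal.map_top]
    · rw [map_one, one_mul, Ideal.absNorm_top, Nat.cast_one]
  | h₃ I q hI0 hq ih =>
    have hqp := Ideal.isPrime_of_prime hq
    have hqm : q.IsMaximal := hqp.isMaximal hq.ne_zero
    obtain ⟨J1, h1, h1'⟩ := ih hI0 (fun q' hq' hle => h q' hq' (le_trans Ideal.mul_le_right hle))
    obtain ⟨hpq, a, ha⟩ := h q hqm Ideal.mul_le_left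
    obtain ⟨J2, h2, h2'⟩ := exists_jacobi hp2 q hqm hq.ne_zero hpq a ha
    refine ⟨J2 * J1, ?_, ?_⟩
    · rw [← Ideal.span_singleton_mul_span_singleton, h1, h2, ← prod_mul_distrib]
      apply prod_congr rfl
      intro e _
      rw [Ideal.map_mul]
    · rw [map_mul, map_mul, Nat.cast_mul, ← h1', ← h2']
      ring

end Pool.Agent.Lib.MP_509488_nt.Stick
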