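import Mathlib
import Pool.Agent.Lib.MP_509488_nt.Stick.Ide
import Pool.Agent.Lib.MP_509488_nt.SecondCase

set_option autoImplicit false

namespace Pool.Agent.Lib.MP_509488_nt.Stick

open Finset NumberField IsCyclotomicExtension.Rat

variable {p : ℕ} [hp : Fact p.Prime] {K : Type} [Field K] [NumberField K]
  [hK : IsCyclotomicExtension {p} ℚ K]

variable (p K) in
/-- `u - ζ v` -/
noncomputable def L (u v : ℤ) : 𝓞 K := (u : 𝓞 K) - z p K * v

theorem sg_L (c : (ZMod p)ˣ) (u v : ℤ) :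
    sg p K c (L p K u v) = (u : 𝓞 K) - z p K ^ c.val.val * v := by
  unfold L
  rw [map_sub, map_mul, map_intCast, map_intCast, sg_z]

theorem prod_units {M : Type*} [CommMonoid M] (f : ℕ → M) :
    f 0 * ∏ c : (ZMod p)ˣ, f c.val.val = ∏ i ∈ range p, f i := by
  have hp0 := hp.out.pos
  rw [← mul_prod_erase (range p) f (mem_range.2 hp0)]
  congr 1
  refine Finset.prod_bij (fun c _ => c.val.val) ?_ ?_ ?_ ?_
  · intro c _
    rw [mem_erase, mem_range]
    exact ⟨(val_pos c).ne', ZMod.val_lt _⟩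
  · intro c _ d _ h
    exact Units.ext (ZMod.val_injective p h)
  · intro i hi
    rw [mem_erase, mem_range] at hi
    have h0 : ((i : ℕ) : ZMod p) ≠ 0 := by
      rw [Ne, ZMod.natCast_eq_zero_iff]
      intro hd
      exact hi.1 (Nat.eq_zero_of_dvd_of_lt hd hi.2)
    refine ⟨Units.mk0 _ h0, mem_univ _, ?_⟩
    rw [Units.val_mk0, ZMod.val_natCast_of_lt hi.2]
  · intro c _
    rfl

theorem norm_L {u v : ℤ} (huv : u ≠ v) :
    Algebra.norm ℤ (L p K u v) = F p u v := by
  have hp0 := hp.out.pos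
  have h1 : ((u : 𝓞 K) - v) * ∏ c : (ZMod p)ˣ, sg p K c (L p K u v) = (u : 𝓞 K) ^ p - v ^ p := by
    simp_rw [sg_L]
    have h2 := prod_units (p := p) (fun i => (u : 𝓞 K) - z p K ^ i * v)
    rw [pow_zero, one_mul] at h2
    rw [h2, (z_prim p K).pow_sub_pow_eq_prod_sub_mul (u : 𝓞 K) (v : 𝓞 K) hp0]
    refine Finset.prod_bij (fun i _ => z p K ^ i) ?_ ?_ ?_ ?_
    · intro i _
      rw [Polynomial.mem_nthRootsFinset hp0, ← pow_mul, mul_comm, pow_mul,
        (z_prim p K).pow_eq_one, one_pow]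
    · intro i hi j hj h
      exact (z_prim p K).pow_inj (mem_range.1 hi) (mem_range.1 hj) h
    · intro x hx
      rw [Polynomial.mem_nthRootsFinset hp0] at hx
      obtain ⟨i, hi, h⟩ := (z_prim p K).eq_pow_of_pow_eq_one hx
      exact ⟨i, mem_range.2 hi, h⟩
    · intro i _
      rfl
  rw [← norm_eq] at h1
  have h2 : (u - v) * Algebra.norm ℤ (L p K u v) = u ^ p - v ^ p := by
    have : (((u - v) * Algebra.norm ℤ (L p K u v) : ℤ) : 𝓞 K) = ((u ^ p - v ^ p : ℤ) : 𝓞 K) := by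
      push_cast
      exact h1
    exact_mod_cast this
  rw [← F_mul] at h2
  exact mul_left_cancel₀ (sub_ne_zero.2 huv) h2

theorem zpow_sub_dvd_p (hp2 : p ≠ 2) {c : (ZMod p)ˣ} (hc : c ≠ 1) :
    (z p K ^ c.val.val - z p K) ∣ (p : 𝓞 K) := by
  have hp3 : 3 ≤ p := by
    have := hp.out.two_le
    omega
  have hzu : IsUnit (z p K) := (z_prim p K).isUnit hp.out.ne_zero
  have h1 := val_pos c
  have h2 := ZMod.val_lt c.val
  have h3 : c.val.val ≠ 1 := by
    intro h
    apply hc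
    apply Units.ext
    apply ZMod.val_injective
    rw [h, Units.val_one, ZMod.val_one]
  have h4 : z p K ^ c.val.val - z p K = z p K * (z p K ^ (c.val.val - 1) - 1) := by
    rw [mul_sub, mul_one, ← pow_succ', Nat.sub_add_cancel h1]
  rw [h4, IsUnit.mul_left_dvd hzu]
  have h5 : IsPrimitiveRoot (z p K ^ (c.val.val - 1)) p := by
    apply (z_prim p K).pow_of_coprime
    rw [Nat.coprime_comm, Nat.Prime.coprime_iff_not_dvd hp.out]
    intro hd
    have := Nat.le_of_dvd (by omega) hd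
    omega
  have h6 : IsPrimitiveRoot (algebraMap (𝓞 K) K (z p K ^ (c.val.val - 1))) p :=
    h5.map_of_injective (FaithfulSMul.algebraMap_injective _ _)
  have h7 := ((cycRing h6 (by omega)).dvd_int (p : ℤ)).2 dvd_rfl
  rw [Int.cast_natCast] at h7
  have h8 : (cycRing h6 (by omega : 2 < p)).z = z p K ^ (c.val.val - 1) := by
    apply RingOfIntegers.coe_injective
    rfl
  rw [h8] at h7
  rw [← neg_sub, neg_dvd]
  exact h7

/-- the conjugates of `u - ζ v` are coprime away from `p` -/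
theorem isCoprime_L (hp2 : p ≠ 2) {u v : ℤ} (huv : IsCoprime u v) {α l : 𝓞 K}
    (hL : L p K u v = l * α) (hα : IsCoprime α (p : 𝓞 K)) {c : (ZMod p)ˣ} (hc : c ≠ 1) :
    IsCoprime α (sg p K c (L p K u v)) := by
  obtain ⟨t, ht⟩ := zpow_sub_dvd_p (K := K) hp2 hc
  obtain ⟨x, y, hxy⟩ := huv
  obtain ⟨a, b, hab⟩ := hα
  have hxy' : (x : 𝓞 K) * u + y * v = 1 := by exact_mod_cast congrArg (Int.cast : ℤ → 𝓞 K) hxy
  have hL1 : (u : 𝓞 K) - z p K * v = l * α := hL
  rw [sg_L]
  set zc := z p K ^ c.val.val with hzc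
  refine ⟨a + b * t * (x * zc + y) * l, -(b * t * (x * z p K + y)), ?_⟩
  linear_combination hab - b * ht + b * t * (zc - z p K) * hxy' -
    b * t * (x * zc + y) * hL1

end Pool.Agent.Lib.MP_509488_nt.Stick
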