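import Mathlib
import Pool.Agent.Lib.MP_509488_nt.Stick.Gen

set_option autoImplicit false

namespace Pool.Agent.Lib.MP_509488_nt.Stick

open Finset NumberField IsCyclotomicExtension.Rat

variable {p : ℕ} [hp : Fact p.Prime] {K : Type} [Field K] [NumberField K]
  [hK : IsCyclotomicExtension {p} ℚ K]

theorem half_mul (hp2 : p ≠ 2) (a : (ZMod p)ˣ) (x : 𝓞 K) :
    (∏ e ∈ HS a, sg p K e x) * sg p K (-1) (∏ e ∈ HS a, sg p K e x) =
      ((Algebra.norm ℤ x : ℤ) : 𝓞 K) := by
  rw [norm_eq (p := p), ← Finset.prod_mul_prod_compl (HS a), compl_HS hp2, map_prod]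
  congr 1
  have := image_HS a (-1) (fun e => sg p K e x)
  rw [neg_one_mul] at this
  rw [← this]
  apply prod_congr rfl
  intro e _
  rw [sg_mul]

theorem exists_int_mem {u v : ℤ} (huv : IsCoprime u v) (q : Ideal (𝓞 K)) (hq : q.IsMaximal)
    (hne : q ≠ ⊥) (hL : L p K u v ∈ q) : ∃ a : ℤ, z p K - a ∈ q := by
  have hfin : Finite (𝓞 K ⧸ q) := Ideal.finiteQuotientOfFreeOfNeBot q hne
  let _ : Field (𝓞 K ⧸ q) := Ideal.Quotient.field q
  let _ : Fintype (𝓞 K ⧸ q) := Fintype.ofFinite _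
  set π := Ideal.Quotient.mk q with hπ
  have h1 : (u : 𝓞 K ⧸ q) = π (z p K) * v := by
    have h2 := Ideal.Quotient.eq_zero_iff_mem.2 hL
    unfold L at h2
    rw [map_sub, map_mul, map_intCast, map_intCast] at h2
    exact sub_eq_zero.1 h2
  have hv : (v : 𝓞 K ⧸ q) ≠ 0 := by
    intro h0
    rw [h0, mul_zero] at h1
    obtain ⟨x, y, hxy⟩ := huv
    have h3 : (x : 𝓞 K ⧸ q) * u + y * v = 1 := by
      exact_mod_cast congrArg (Int.cast : ℤ → 𝓞 K ⧸ q) hxy
    rw [h0, h1, mul_zero, mul_zero, add_zero] at h3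
    exact zero_ne_one h3
  have hcard : 2 ≤ Fintype.card (𝓞 K ⧸ q) := Fintype.one_lt_card
  have hvi : (v : 𝓞 K ⧸ q) * (v : 𝓞 K ⧸ q) ^ (Fintype.card (𝓞 K ⧸ q) - 2) = 1 := by
    rw [← pow_succ']
    have : Fintype.card (𝓞 K ⧸ q) - 2 + 1 = Fintype.card (𝓞 K ⧸ q) - 1 := by omega
    rw [this]
    exact FiniteField.pow_card_sub_one_eq_one _ hv
  refine ⟨u * v ^ (Fintype.card (𝓞 K ⧸ q) - 2), ?_⟩
  rw [← Ideal.Quotient.eq_zero_iff_mem]
  push_cast
  rw [map_sub, map_mul, map_pow, map_intCast, map_intCast]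
  change π (z p K) - _ = 0
  rw [h1]
  linear_combination (-(π (z p K))) * hvi

theorem exists_B (hp2 : p ≠ 2) {r : ℕ} (hr : r.Prime) (hr2 : r ≠ 2) (hrp : r ≠ p) {u v : ℤ}
    (huv : IsCoprime u v) {α l : 𝓞 K} (hL : L p K u v = l * α) (hl0 : l ≠ 0)
    (hα : IsCoprime α (p : 𝓞 K)) (hassoc : ∀ c, Associated (sg p K c l) l) {d : ℤ}
    (hd : Algebra.norm ℤ α = d ^ r) (hd0 : 0 < d) :
    ∃ (I : Ideal (𝓞 K)) (B : (ZMod p)ˣ → 𝓞 K), (Ideal.absNorm I : ℤ) = d ∧ ∀ a,
      B a ^ r * (∏ e ∈ HS (1 : (ZMod p)ˣ), sg p K e l) = ∏ e ∈ HS a, sg p K e (L p K u v) ∧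
      (∀ φ : 𝓞 K →+* ℂ, ‖φ (B a)‖ ^ 2 = d) ∧
      Ideal.span {B a} = ∏ e ∈ HS a, I.map (sg p K e) := by
  classical
  have hα0 : α ≠ 0 := by
    rintro rfl
    rw [Algebra.norm_zero] at hd
    exact (pow_ne_zero r hd0.ne') hd.symm
  have hcop : ∀ e : (ZMod p)ˣ, e ≠ 1 → IsCoprime α (sg p K e α) := by
    intro e he
    have := isCoprime_L hp2 huv hL hα he
    rw [hL, map_mul] at this
    exact this.of_mul_right_right
  have h1 : α * ∏ e ∈ univ.erase (1 : (ZMod p)ˣ), sg p K e α = (d : 𝓞 K) ^ r := by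
    have h2 := norm_eq (p := p) α
    rw [hd, ← mul_prod_erase univ _ (mem_univ (1 : (ZMod p)ˣ)), sg_one] at h2
    rw [← h2]
    push_cast
    rfl
  have h2 : IsCoprime α (∏ e ∈ univ.erase (1 : (ZMod p)ˣ), sg p K e α) := by
    apply IsCoprime.prod_right
    intro e he
    exact hcop e (ne_of_mem_erase he)
  obtain ⟨I, hI⟩ : ∃ I : Ideal (𝓞 K), Ideal.span {α} = I ^ r := by
    have h3 : Ideal.span {α} * Ideal.span {∏ e ∈ univ.erase (1 : (ZMod p)ˣ), sg p K e α} =
        (Ideal.span {(d : 𝓞 K)}) ^ r := by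
      rw [Ideal.span_singleton_mul_span_singleton, h1, Ideal.span_singleton_pow]
    exact exists_eq_pow_of_mul_eq_pow_of_coprime ((Ideal.isCoprime_span_singleton_iff _ _).2 h2) h3
  have hI0 : I ≠ ⊥ := by
    rintro rfl
    rw [Ideal.bot_pow hr.ne_zero, Ideal.span_singleton_eq_bot] at hI
    exact hα0 hI
  obtain ⟨J, hJ, hJ'⟩ := exists_gen hp2 I hI0 (by
    intro q hq hIq
    have hαq : α ∈ q := by
      have h3 : Ideal.span {α} ≤ q := by
        rw [hI]
        exact (Ideal.pow_le_self hr.ne_zero).trans hIq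
      exact h3 (Ideal.mem_span_singleton_self α)
    refine ⟨?_, ?_⟩
    · intro hpq
      obtain ⟨x, y, hxy⟩ := hα
      apply hq.ne_top
      rw [Ideal.eq_top_iff_one, ← hxy]
      exact q.add_mem (q.mul_mem_left x hαq) (q.mul_mem_left y hpq)
    · apply exists_int_mem huv q hq
      · rintro rfl
        exact hα0 (by simpa using hαq)
      · rw [hL]
        exact q.mul_mem_left l hαq)
  have hnI : (Ideal.absNorm I : ℤ) = d := by
    have h3 : Ideal.absNorm I ^ r = d.natAbs ^ r := by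
      rw [← map_pow, ← hI, Ideal.absNorm_span_singleton, hd, Int.natAbs_pow]
    have h4 := Nat.pow_left_injective hr.ne_zero h3
    rw [h4, Int.natCast_natAbs, abs_of_pos hd0]
  have hJd : J * sg p K (-1) J = (d : 𝓞 K) := by
    rw [hJ', ← hnI]
    push_cast
    rfl
  -- the basic associate relation
  have hass1 : Associated (J ^ r) (∏ e ∈ HS (1 : (ZMod p)ˣ), sg p K e α) := by
    rw [← Ideal.span_singleton_eq_span_singleton, ← Ideal.span_singleton_pow, hJ,
      ← Ideal.prod_span_singleton, ← prod_pow]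
    apply prod_congr rfl
    intro e _
    rw [← Ideal.map_pow, ← hI, Ideal.map_span, Set.image_singleton]
  have hass2 : ∀ a : (ZMod p)ˣ, Associated ((sg p K a J) ^ r) (∏ e ∈ HS a, sg p K e α) := by
    intro a
    have h3 := hass1.map (sg p K a)
    rw [map_pow, map_prod] at h3
    have h4 := image_HS 1 a (fun e => sg p K e α)
    rw [mul_one] at h4
    rw [← h4]
    convert h3 using 1
    apply prod_congr rfl
    intro e _
    rw [sg_mul]
  have hass3 : ∀ a : (ZMod p)ˣ, Associated (∏ e ∈ HS a, sg p K e l) (l ^ ((p - 1) / 2)) := by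
    intro a
    have h3 : Associated (∏ e ∈ HS a, sg p K e l) (∏ e ∈ HS a, l) :=
      Associated.prod _ _ _ (fun e _ => hassoc e)
    rwa [prod_const, card_HS hp2] at h3
  set g := ∏ e ∈ HS (1 : (ZMod p)ˣ), sg p K e l with hg
  have hass4 : ∀ a : (ZMod p)ˣ, Associated ((sg p K a J) ^ r * g)
      (∏ e ∈ HS a, sg p K e (L p K u v)) := by
    intro a
    have h3 : ∏ e ∈ HS a, sg p K e (L p K u v) =
        (∏ e ∈ HS a, sg p K e α) * ∏ e ∈ HS a, sg p K e l := by
      rw [← prod_mul_distrib]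
      apply prod_congr rfl
      intro e _
      rw [hL, map_mul, mul_comm]
    rw [h3]
    exact (hass2 a).mul_mul ((hass3 1).trans (hass3 a).symm)
  -- choose the unit
  have key : ∀ a : (ZMod p)ˣ, ∃ b : 𝓞 K,
      b ^ r * g = ∏ e ∈ HS a, sg p K e (L p K u v) ∧ (∀ φ : 𝓞 K →+* ℂ, ‖φ b‖ ^ 2 = d) ∧
      Ideal.span {b} = ∏ e ∈ HS a, I.map (sg p K e) := by
    intro a
    obtain ⟨e, he⟩ := hass4 a
    have hL0 : L p K u v ≠ 0 := by rw [hL]; exact mul_ne_zero hl0 hα0
    have h3 : ((Algebra.norm ℤ (L p K u v) : ℤ) : 𝓞 K) ≠ 0 := by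
      rw [Ne, Int.cast_eq_zero, Algebra.norm_eq_zero_iff]
      exact hL0
    have h4 : (((sg p K a J) ^ r * g) * sg p K (-1) ((sg p K a J) ^ r * g)) =
        ((Algebra.norm ℤ (L p K u v) : ℤ) : 𝓞 K) := by
      have h5 : sg p K a J * sg p K (-1) (sg p K a J) = (d : 𝓞 K) := by
        rw [sg_comm, ← map_mul, hJd, map_intCast]
      have h6 : g * sg p K (-1) g = ((Algebra.norm ℤ l : ℤ) : 𝓞 K) := half_mul hp2 1 l
      rw [map_mul, map_pow, hL, map_mul, Int.cast_mul, ← h6, hd, Int.cast_pow, ← h5]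
      ring
    have h5 : (e : 𝓞 K) * sg p K (-1) e = 1 := by
      have h6 := half_mul hp2 a (L p K u v)
      rw [← he, map_mul] at h6
      have h7 : (((sg p K a J) ^ r * g) * sg p K (-1) ((sg p K a J) ^ r * g)) *
          ((e : 𝓞 K) * sg p K (-1) e) = ((Algebra.norm ℤ (L p K u v) : ℤ) : 𝓞 K) := by
        rw [← h6]; ring
      rw [h4] at h7
      exact mul_left_cancel₀ h3 (h7.trans (mul_one _).symm)
    have hp3 : 2 < p := by
      have := hp.out.two_le
      omega
    obtain ⟨y, hy, hy'⟩ := exists_pow_root hr hr2 hrp (unit_root hp3 e h5)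
    refine ⟨y * sg p K a J, ?_, ?_, ?_⟩
    · rw [mul_pow, hy, ← he]
      ring
    · intro φ
      have h6 : ‖φ y‖ = 1 := norm_phi_root (by have := hp.out.pos; omega) hy'
      rw [map_mul, norm_mul, h6, one_mul]
      have h7 : φ (sg p K a J) * (starRingEnd ℂ) (φ (sg p K a J)) = (d : ℂ) := by
        rw [← phi_conj (p := p), ← map_mul, sg_comm, ← map_mul, hJd, map_intCast, map_intCast]
      rw [Complex.mul_conj'] at h7
      exact_mod_cast h7
    · have hyu : IsUnit y := IsUnit.of_pow_eq_one hy' (by have := hp.out.pos; omega)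
      have h6 : Ideal.span {y * sg p K a J} = Ideal.span {sg p K a J} := by
        rw [Ideal.span_singleton_eq_span_singleton]
        exact associated_unit_mul_left _ _ hyu
      have h7 : Ideal.span {sg p K a J} = (Ideal.span {J}).map (sg p K a) := by
        rw [Ideal.map_span, Set.image_singleton]
      have h8 := image_HS 1 a (fun e => I.map (sg p K e))
      rw [mul_one] at h8
      have h9 : (∏ e ∈ HS (1 : (ZMod p)ˣ), I.map (sg p K e)).map (sg p K a) =
          ∏ e ∈ HS (1 : (ZMod p)ˣ), (I.map (sg p K e)).map (sg p K a) :=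
        map_prod (Ideal.mapHom (sg p K a)) _ _
      rw [h6, h7, hJ, ← h8, h9]
      apply prod_congr rfl
      intro e _
      ext x
      rw [mem_map, mem_map, mem_map, ← sg_mul, mul_inv, mul_comm]
  choose B hB using key
  exact ⟨I, B, hnI, hB⟩

end Pool.Agent.Lib.MP_509488_nt.Stick
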