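import Mathlib
import Pool.Agent.Lib.MP_509488_nt.CycMain

set_option autoImplicit false

namespace Pool.Agent.Lib.MP_509488_nt.Stick

open Finset

variable {p : ℕ} {R : Type*} [CommRing R] (C : CycRing p R)

include C in
/-- `r`-th roots are unique modulo a number all of whose prime factors are inert for the
extraction of `r`-th roots. -/
theorem isCoprime_geom (hp : p.Prime) {r : ℕ} (hr : r.Prime) (hpr : p < r) {v : ℤ} (hv0 : v ≠ 0)
    (hl : ∀ l : ℕ, l.Prime → (l : ℤ) ∣ v → l ≠ p → ¬ r ∣ l * (l ^ orderOf (l : ZMod p) - 1))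
    {a b : R} (ha : IsCoprime a (v : R)) :
    IsCoprime (∑ i ∈ range r, a ^ i * b ^ (r - 1 - i)) (v : R) := by
  by_contra hV
  rw [← Ideal.isCoprime_span_singleton_iff, Ideal.isCoprime_iff_sup_eq] at hV
  obtain ⟨P, hP, hVP⟩ := Ideal.exists_le_maximal _ hV
  have hSP : (∑ i ∈ range r, a ^ i * b ^ (r - 1 - i)) ∈ P :=
    hVP (Ideal.mem_sup_left (Ideal.mem_span_singleton_self _))
  have hvP : (v : R) ∈ P := hVP (Ideal.mem_sup_right (Ideal.mem_span_singleton_self _))
  let k := R ⧸ P
  let _ : Field k := Ideal.Quotient.field P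
  let π : R →+* k := Ideal.Quotient.mk P
  have hπV : π (∑ i ∈ range r, a ^ i * b ^ (r - 1 - i)) = 0 := Ideal.Quotient.eq_zero_iff_mem.2 hSP
  have hπv : (v : k) = 0 := by
    have : π (v : R) = 0 := Ideal.Quotient.eq_zero_iff_mem.2 hvP
    simpa using this
  have hπa : π a ≠ 0 := by
    intro h0
    obtain ⟨c, d, hcd⟩ := ha
    have : π (c * a + d * v) = 1 := by rw [hcd, map_one]
    rw [map_add, map_mul, map_mul, h0, map_intCast, hπv, mul_zero, mul_zero, add_zero] at this
    exact zero_ne_one this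
  obtain ⟨l, hlk⟩ := CharP.exists k
  have hlv : (l : ℤ) ∣ v := (CharP.intCast_eq_zero_iff k l v).1 hπv
  rcases CharP.char_is_prime_or_zero k l with hlp | hl0
  swap
  · subst hl0
    simp at hlv
    exact hv0 hlv
  have : Fact l.Prime := ⟨hlp⟩
  -- the residue field has `l ^ f` elements, `r` prime to `l (l ^ f - 1)`
  obtain ⟨f, hnr, hz⟩ : ∃ f : ℕ, ¬ r ∣ l * (l ^ f - 1) ∧ (π C.z) ^ (l ^ f) = π C.z := by
    by_cases hlp' : l = p
    · refine ⟨1, ?_, ?_⟩
      · rw [pow_one]
        intro h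
        have h2 := hlp.two_le
        rcases (Nat.Prime.dvd_mul hr).1 h with h | h
        · have := Nat.le_of_dvd hlp.pos h
          omega
        · have := Nat.le_of_dvd (by omega) h
          omega
      · have h1 : (π C.z) ^ l = 1 := by rw [← map_pow, hlp', C.prim.pow_eq_one, map_one]
        have h2 : (π C.z - 1) ^ l = 0 := by rw [sub_pow_char, h1, one_pow, sub_self]
        have h3 := sub_eq_zero.1 (pow_eq_zero_iff hlp.ne_zero |>.1 h2)
        rw [h3, one_pow]
    · refine ⟨orderOf (l : ZMod p), hl l hlp hlv hlp', ?_⟩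
      set f := orderOf (l : ZMod p) with hf
      have h1 : ((l ^ f : ℕ) : ZMod p) = 1 := by
        push_cast
        rw [hf, pow_orderOf_eq_one]
      have h2 : l ^ f ≡ 1 [MOD p] := by
        rw [← ZMod.natCast_eq_natCast_iff]; push_cast; push_cast at h1; exact h1
      have h3 : (C.z) ^ (l ^ f) = C.z ^ 1 := by
        rw [← Nat.mod_add_div (l ^ f) p, pow_add, pow_mul, C.prim.pow_eq_one, one_pow, mul_one, h2,
          Nat.mod_eq_of_lt hp.one_lt]
      rw [← map_pow, h3, pow_one]
  have hfrob : (iterateFrobenius k l f).comp π = π := by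
    apply C.hom_ext
    simp only [RingHom.comp_apply, iterateFrobenius_def]
    exact hz
  have hfr : ∀ x : R, (π x) ^ (l ^ f) = π x := by
    intro x
    have := congrArg (fun g : R →+* k => g x) hfrob
    simpa [iterateFrobenius_def] using this
  have hsum : ∑ i ∈ range r, (π a) ^ i * (π b) ^ (r - 1 - i) = 0 := by
    rw [← hπV, map_sum]; simp
  have hab : (π a) ^ r = (π b) ^ r := by
    have := geom_mul (π a) (π b) r
    rw [hsum, mul_zero] at this
    exact (sub_eq_zero.1 this.symm)
  have hπb : π b ≠ 0 := by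
    intro h0
    rw [h0, zero_pow hr.ne_zero] at hab
    exact hπa (pow_eq_zero_iff hr.ne_zero |>.1 hab)
  by_cases heq : π a = π b
  · rw [heq] at hsum
    have : ∑ i ∈ range r, (π b) ^ i * (π b) ^ (r - 1 - i) = r * (π b) ^ (r - 1) := by
      rw [sum_congr rfl (g := fun _ => (π b) ^ (r - 1)), sum_const, card_range, nsmul_eq_mul]
      intro i hi
      rw [← pow_add]; congr 1
      have := mem_range.1 hi; omega
    rw [this] at hsum
    rcases mul_eq_zero.1 hsum with h | h
    · have h' := (CharP.cast_eq_zero_iff k l r).1 h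
      have h'' := (Nat.prime_dvd_prime_iff_eq hlp hr).1 h'
      exact hnr (by rw [h'']; exact dvd_mul_right _ _)
    · exact pow_ne_zero _ hπb h
  · set t := π a / π b with ht
    have htr : t ^ r = 1 := by rw [ht, div_pow, hab, div_self (pow_ne_zero _ hπb)]
    have ht1 : t ≠ 1 := by
      intro h; rw [ht, div_eq_one_iff_eq hπb] at h; exact heq h
    have htf : t ^ (l ^ f) = t := by rw [ht, div_pow, hfr, hfr]
    have ht0 : t ≠ 0 := div_ne_zero hπa hπb
    have hord : orderOf t = r := by
      rcases (Nat.dvd_prime hr).1 (orderOf_dvd_of_pow_eq_one htr) with h | h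
      · exact absurd (orderOf_eq_one_iff.1 h) ht1
      · exact h
    have h1 : t ^ (l ^ f - 1) = 1 := by
      have h2 : t ^ (l ^ f - 1) * t = 1 * t := by
        rw [← pow_succ, Nat.sub_add_cancel (Nat.one_le_pow _ _ hlp.pos), htf, one_mul]
      exact mul_right_cancel₀ ht0 h2
    have := orderOf_dvd_of_pow_eq_one h1
    rw [hord] at this
    exact hnr (this.mul_left _)

include C in
theorem dvd_sub_of_dvd_pow_sub (hp : p.Prime) {r : ℕ} (hr : r.Prime) (hpr : p < r) {v : ℤ}
    (hv0 : v ≠ 0)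
    (hl : ∀ l : ℕ, l.Prime → (l : ℤ) ∣ v → l ≠ p → ¬ r ∣ l * (l ^ orderOf (l : ZMod p) - 1))
    {a b : R} (ha : IsCoprime a (v : R)) (hd : (v : R) ∣ a ^ r - b ^ r) : (v : R) ∣ a - b := by
  have h1 := isCoprime_geom C hp hr hpr hv0 hl (b := b) ha
  rw [← geom_mul] at hd
  exact h1.symm.dvd_of_dvd_mul_right hd

end Pool.Agent.Lib.MP_509488_nt.Stick
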