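import Mathlib
import Pool.Agent.Lib.MP_509488_nt.Stick.ExB
import Pool.Agent.Lib.MP_509488_nt.Stick.Fro

set_option autoImplicit false

namespace Pool.Agent.Lib.MP_509488_nt.Stick

open Finset NumberField IsCyclotomicExtension.Rat

variable {p : ℕ} [hp : Fact p.Prime] {K : Type} [Field K] [NumberField K]
  [hK : IsCyclotomicExtension {p} ℚ K]

theorem isCoprime_sg_L (c : (ZMod p)ˣ) {u v : ℤ} (huv : IsCoprime u v) :
    IsCoprime (sg p K c (L p K u v)) (v : 𝓞 K) := by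
  rw [sg_L]
  have h1 : IsCoprime (u : 𝓞 K) (v : 𝓞 K) := huv.map (Int.castRingHom (𝓞 K))
  have h2 := (IsCoprime.add_mul_right_left_iff (x := (u : 𝓞 K)) (y := (v : 𝓞 K))
    (z := -(z p K ^ c.val.val))).2 h1
  convert h2 using 1
  ring

theorem dvd_prod_sub (hp2 : p ≠ 2) (a a' : (ZMod p)ˣ) (u v : ℤ) :
    (v : 𝓞 K) ∣ ∏ e ∈ HS a, sg p K e (L p K u v) - ∏ e ∈ HS a', sg p K e (L p K u v) := by
  have h : ∀ b : (ZMod p)ˣ, (v : 𝓞 K) ∣ (u : 𝓞 K) ^ ((p - 1) / 2) -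
      ∏ e ∈ HS b, sg p K e (L p K u v) := by
    intro b
    rw [← card_HS hp2 b]
    apply prod_cong
    intro e _
    rw [sg_L, sub_sub_cancel]
    exact dvd_mul_left _ _
  have := dvd_sub (h a') (h a)
  convert this using 1
  ring

/-- all the `B a` agree modulo the good part of `v` -/
theorem dvd_B_sub (hp2 : 2 < p) {r : ℕ} (hr : r.Prime) (hpr : p < r) {u v v1 : ℤ}
    (huv : IsCoprime u v) {α l : 𝓞 K} (hL : L p K u v = l * α) (hv1 : v1 ∣ v) (hv0 : v1 ≠ 0)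
    (hl : ∀ l : ℕ, l.Prime → (l : ℤ) ∣ v1 → l ≠ p → ¬ r ∣ l * (l ^ orderOf (l : ZMod p) - 1))
    {B : (ZMod p)ˣ → 𝓞 K}
    (hB : ∀ a, B a ^ r * (∏ e ∈ HS (1 : (ZMod p)ˣ), sg p K e l) =
      ∏ e ∈ HS a, sg p K e (L p K u v)) (a a' : (ZMod p)ˣ) :
    (v1 : 𝓞 K) ∣ B a - B a' := by
  have hp2' : p ≠ 2 := by omega
  have hlv : IsCoprime l (v : 𝓞 K) := by
    have := isCoprime_sg_L (K := K) (1 : (ZMod p)ˣ) huv
    rw [sg_one, hL] at this
    exact this.of_mul_left_left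
  have hgv : IsCoprime (∏ e ∈ HS (1 : (ZMod p)ˣ), sg p K e l) (v : 𝓞 K) := by
    apply IsCoprime.prod_left
    intro e _
    have := hlv.map (sg p K e : 𝓞 K →+* 𝓞 K)
    rw [map_intCast] at this
    exact this
  have hBv : IsCoprime (B a) (v : 𝓞 K) := by
    have h1 : IsCoprime (B a ^ r * (∏ e ∈ HS (1 : (ZMod p)ˣ), sg p K e l)) (v : 𝓞 K) := by
      rw [hB]
      apply IsCoprime.prod_left
      intro e _
      exact isCoprime_sg_L e huv
    exact (IsCoprime.pow_left_iff hr.pos).1 h1.of_mul_left_left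
  have hv1' : (v1 : 𝓞 K) ∣ (v : 𝓞 K) := by
    obtain ⟨c, rfl⟩ := hv1
    exact ⟨c, by push_cast; rfl⟩
  apply dvd_sub_of_dvd_pow_sub (cycRing (IsCyclotomicExtension.zeta_spec p ℚ K) hp2) hp.out hr hpr
    hv0 hl (hBv.of_isCoprime_of_dvd_right hv1')
  refine hv1'.trans ?_
  refine hgv.symm.dvd_of_dvd_mul_right ?_
  rw [sub_mul, hB, hB]
  exact dvd_prod_sub hp2' a a' u v

end Pool.Agent.Lib.MP_509488_nt.Stick
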