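import Mathlib
import Pool.Agent.Lib.MP_509488_nt.Stick.Cong

set_option autoImplicit false

namespace Pool.Agent.Lib.MP_509488_nt.Stick

open Finset NumberField IsCyclotomicExtension.Rat

variable {p : ℕ} [hp : Fact p.Prime] {K : Type} [Field K] [NumberField K]
  [hK : IsCyclotomicExtension {p} ℚ K]

/-- unique factorisation in the conjugates of `L` -/
theorem exponent_inj (hp2 : p ≠ 2) {u v : ℤ} (huv : IsCoprime u v) {α l : 𝓞 K}
    (hL : L p K u v = l * α) (hL0 : L p K u v ≠ 0) (hα : IsCoprime α (p : 𝓞 K))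
    (hαu : ¬ IsUnit α) {E E' : (ZMod p)ˣ → ℕ}
    (h : ∏ e, sg p K e (L p K u v) ^ E e = ∏ e, sg p K e (L p K u v) ^ E' e) : E = E' := by
  classical
  have key : ∀ (E E' : (ZMod p)ˣ → ℕ),
      ∏ e, sg p K e (L p K u v) ^ E e = ∏ e, sg p K e (L p K u v) ^ E' e →
      ∀ c, ¬ E' c < E c := by
    intro E E' h c hlt
    rw [← mul_prod_erase univ _ (mem_univ c), ← mul_prod_erase univ (fun e => _ ^ E' e)
      (mem_univ c)] at h
    obtain ⟨j, hj⟩ : ∃ j, E c = E' c + (j + 1) := ⟨E c - E' c - 1, by omega⟩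
    rw [hj, pow_add, mul_assoc] at h
    have hc0 : sg p K c (L p K u v) ≠ 0 := by
      rw [Ne, map_eq_zero_iff _ (sg p K c).injective]
      exact hL0
    have h1 := mul_left_cancel₀ (pow_ne_zero _ hc0) h
    have h2 : sg p K c α ∣ ∏ e ∈ univ.erase c, sg p K e (L p K u v) ^ E' e := by
      rw [← h1, pow_succ']
      have h3 : sg p K c (L p K u v) = sg p K c l * sg p K c α := by rw [hL, map_mul]
      exact ((Dvd.intro_left _ h3.symm).mul_right _).mul_right _
    have h3 : IsCoprime (sg p K c α) (∏ e ∈ univ.erase c, sg p K e (L p K u v) ^ E' e) := by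
      apply IsCoprime.prod_right
      intro e he
      apply IsCoprime.pow_right
      have h4 : c⁻¹ * e ≠ 1 := by
        intro h5
        exact ne_of_mem_erase he (inv_mul_eq_one.1 h5).symm
      have h5 := (isCoprime_L hp2 huv hL hα h4).map (sg p K c : 𝓞 K →+* 𝓞 K)
      change IsCoprime (sg p K c α) (sg p K c (sg p K (c⁻¹ * e) (L p K u v))) at h5
      rwa [← sg_mul, mul_inv_cancel_left] at h5
    have h4 : IsUnit (sg p K c α) := h3.isUnit_of_dvd' dvd_rfl h2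
    apply hαu
    have h5 := h4.map (sg p K c⁻¹ : 𝓞 K →+* 𝓞 K)
    change IsUnit (sg p K c⁻¹ (sg p K c α)) at h5
    rwa [sg_inv_sg] at h5
  funext c
  have h1 := key E E' h c
  have h2 := key E' E h.symm c
  omega

/-- exponents -/
def Ex {k : ℕ} (a : Fin k → (ZMod p)ˣ) (n : ℕ) (x : Fin k → ℕ) (e : (ZMod p)ˣ) : ℕ :=
  ∑ i : Fin k, if Half (a i * e⁻¹) then x i else n - x i

/-- linear independence of the half systems, up to the complement -/
def Indep {k : ℕ} (a : Fin k → (ZMod p)ˣ) : Prop :=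
  ∀ y : Fin k → ℤ, (∀ e : (ZMod p)ˣ, ∑ i, (if Half (a i * e⁻¹) then y i else - y i) = 0) → y = 0

theorem prod_HS_pow (hp2 : p ≠ 2) {M : Type*} [CommMonoid M] (f : (ZMod p)ˣ → M) (a : (ZMod p)ˣ)
    (x y : ℕ) : (∏ e ∈ HS a, f e) ^ x * (∏ e ∈ HS (-a), f e) ^ y =
      ∏ e, f e ^ (if Half (a * e⁻¹) then x else y) := by
  have h1 : ∀ e : (ZMod p)ˣ, f e ^ (if Half (a * e⁻¹) then x else y) =
      if Half (a * e⁻¹) then f e ^ x else f e ^ y := by
    intro e
    split_ifs <;> rfl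
  simp_rw [h1]
  rw [prod_ite, ← prod_pow, ← prod_pow, ← compl_HS hp2]
  congr 1
  apply prod_congr _ (fun _ _ => rfl)
  ext e
  simp [HS]

/-- the products of the `B` -/
def XX {M : Type*} [CommMonoid M] {k : ℕ} (a : Fin k → (ZMod p)ˣ) (B : (ZMod p)ˣ → M) (n : ℕ)
    (x : Fin k → ℕ) : M :=
  ∏ i : Fin k, B (a i) ^ x i * B (-(a i)) ^ (n - x i)

theorem XX_pow (hp2 : p ≠ 2) {M : Type*} [CommMonoid M] {k : ℕ} (a : Fin k → (ZMod p)ˣ) {r : ℕ}
    {f : (ZMod p)ˣ → M} {g : M}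
    {B : (ZMod p)ˣ → M} (hB : ∀ a, B a ^ r * g = ∏ e ∈ HS a, f e) (n : ℕ)
    (x : Fin k → ℕ) (hx : ∀ i, x i ≤ n) :
    XX a B n x ^ r * g ^ (n * k) = ∏ e, f e ^ Ex a n x e := by
  unfold XX Ex
  have h1 : g ^ (n * k) = ∏ i : Fin k, g ^ n := by
    rw [prod_const, card_univ, Fintype.card_fin, ← pow_mul]
  rw [h1, ← prod_pow, ← prod_mul_distrib]
  simp_rw [← prod_pow_eq_pow_sum]
  rw [prod_comm]
  apply prod_congr rfl
  intro i _
  rw [← prod_HS_pow hp2, ← hB, ← hB]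
  have h2 : g ^ n = g ^ x i * g ^ (n - x i) := by
    rw [← pow_add, Nat.add_sub_cancel' (hx i)]
  rw [h2, mul_pow, mul_pow, mul_pow, ← pow_mul, ← pow_mul, ← pow_mul, ← pow_mul, mul_comm (x i) r,
    mul_comm (n - x i) r]
  exact mul_mul_mul_comm _ _ _ _

theorem map_XX {M N : Type*} [CommMonoid M] [CommMonoid N] {k : ℕ} (a : Fin k → (ZMod p)ˣ)
    (B : (ZMod p)ˣ → M) (n : ℕ) (x : Fin k → ℕ) {F : Type*} [FunLike F M N] [MonoidHomClass F M N]
    (φ : F) : φ (XX a B n x) = XX a (fun c => φ (B c)) n x := by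
  unfold XX
  rw [map_prod]
  simp_rw [map_mul, map_pow]

theorem Ex_inj {k : ℕ} {a : Fin k → (ZMod p)ˣ} (ha : Indep a) {n : ℕ} {x x' : Fin k → ℕ}
    (hx : ∀ i, x i ≤ n) (hx' : ∀ i, x' i ≤ n) (h : Ex a n x = Ex a n x') : x = x' := by
  have h1 : (fun i => (x i : ℤ) - x' i) = 0 := by
    apply ha
    intro e
    have h2 := congrFun h e
    unfold Ex at h2
    have h3 : ∀ y : Fin k → ℕ, (∀ i, y i ≤ n) →
        ((∑ i : Fin k, if Half (a i * e⁻¹) then y i else n - y i : ℕ) : ℤ) =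
        ∑ i : Fin k, if Half (a i * e⁻¹) then (y i : ℤ) else (n : ℤ) - y i := by
      intro y hy
      push_cast
      apply sum_congr rfl
      intro i _
      split_ifs
      · rfl
      · rw [Nat.cast_sub (hy i)]
    have h4 := h3 x hx
    have h5 := h3 x' hx'
    rw [h2, h5] at h4
    have h6 : ∑ i : Fin k, (if Half (a i * e⁻¹) then ((x i : ℤ) - x' i) else -((x i : ℤ) - x' i)) =
        (∑ i : Fin k, if Half (a i * e⁻¹) then (x i : ℤ) else (n : ℤ) - x i) -
        ∑ i : Fin k, if Half (a i * e⁻¹) then (x' i : ℤ) else (n : ℤ) - x' i := by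
      rw [← sum_sub_distrib]
      apply sum_congr rfl
      intro i _
      split_ifs <;> ring
    rw [h6, ← h4, sub_self]
  funext i
  have := congrFun h1 i
  simp only [Pi.zero_apply] at this
  omega

theorem sum_Ex (hp2 : p ≠ 2) {n k : ℕ} (a : Fin k → (ZMod p)ˣ) {x : Fin k → ℕ}
    (hx : ∀ i, x i ≤ n) : ∑ e, Ex a n x e = n * k * ((p - 1) / 2) := by
  unfold Ex
  rw [sum_comm]
  have h1 : ∀ i : Fin k, ∑ e : (ZMod p)ˣ, (if Half (a i * e⁻¹) then x i else n - x i) =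
      n * ((p - 1) / 2) := by
    intro i
    have h2 : ((univ.filter (fun e : (ZMod p)ˣ => Half (a i * e⁻¹))).card) =
        (p - 1) / 2 := card_HS hp2 (a i)
    have h3 : ((univ.filter (fun e : (ZMod p)ˣ => ¬ Half (a i * e⁻¹))).card) =
        (p - 1) / 2 := by
      rw [← card_HS hp2 (-(a i)), ← compl_HS hp2]
      congr 1
      ext e
      simp [HS]
    rw [sum_ite, sum_const, sum_const, h2, h3, smul_eq_mul, smul_eq_mul, ← mul_add,
      Nat.add_sub_cancel' (hx i), mul_comm]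
  simp_rw [h1]
  rw [sum_const, card_univ, Fintype.card_fin, smul_eq_mul]
  ring

theorem Ex_le {n k : ℕ} (a : Fin k → (ZMod p)ˣ) {x : Fin k → ℕ} (hx : ∀ i, x i ≤ n)
    (e : (ZMod p)ˣ) : Ex a n x e ≤ n * k := by
  unfold Ex
  have : n * k = ∑ _i : Fin k, n := by
    rw [sum_const, card_univ, Fintype.card_fin, smul_eq_mul, mul_comm]
  rw [this]
  apply sum_le_sum
  intro i _
  split_ifs
  · exact hx i
  · omega

end Pool.Agent.Lib.MP_509488_nt.Stick
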