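import Mathlib
import Pool.Agent.Lib.MP_509488_nt.Stick.Dist
import Pool.Agent.Lib.MP_509488_nt.Stick.Bern

set_option autoImplicit false

namespace Pool.Agent.Lib.MP_509488_nt.Stick

open Finset

variable {p : ℕ} [hp : Fact p.Prime]

theorem sum_units (f : ZMod p → ℂ) (h0 : f 0 = 0) : ∑ a, f a = ∑ c : (ZMod p)ˣ, f c := by
  rw [← add_sum_erase univ f (mem_univ 0), h0, zero_add]
  symm
  refine Finset.sum_bij (fun c _ => (c : ZMod p)) ?_ ?_ ?_ ?_
  · intro c _
    exact mem_erase.2 ⟨c.ne_zero, mem_univ _⟩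
  · intro c _ d _ h
    exact Units.ext h
  · intro a ha
    exact ⟨Units.mk0 a (ne_of_mem_erase ha), mem_univ _, rfl⟩
  · intro c _
    rfl

/-- the sign attached to a half system -/
def eps (c : (ZMod p)ˣ) : ℤ := if Half c then 1 else -1

theorem eps_neg (hp2 : p ≠ 2) (c : (ZMod p)ˣ) : eps (-c) = - eps c := by
  unfold eps
  by_cases h : Half c
  · rw [if_pos h, if_neg (by rw [half_neg hp2]; simpa using h)]
  · rw [if_neg h, if_pos ((half_neg hp2 c).2 h)]
    norm_num

theorem sum_eps_ne_zero (hp2 : p ≠ 2) (χ : DirichletCharacter ℂ p) (hχ : χ.Odd) :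
    ∑ c : (ZMod p)ˣ, χ c * (eps c : ℂ) ≠ 0 := by
  intro hS
  have : NeZero p := ⟨hp.out.ne_zero⟩
  have hodd : p % 2 = 1 := Nat.odd_iff.1 (hp.out.odd_of_ne_two hp2)
  have h0 : χ 0 = 0 := MulChar.map_nonunit χ not_isUnit_zero
  have hne : χ ≠ 1 := by
    rintro rfl
    have h1 : (1 : DirichletCharacter ℂ p) (-1) = -1 := hχ
    rw [MulChar.one_apply (isUnit_one.neg)] at h1
    norm_num at h1
  have hsum : ∑ c : (ZMod p)ˣ, χ c = 0 := by
    rw [← sum_units (fun a => χ a) h0]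
    exact MulChar.sum_eq_zero_of_ne_one hne
  have hT := bernoulli_ne_zero χ hχ
  rw [sum_units (fun a => χ a * (a.val : ℂ)) (by rw [h0, zero_mul])] at hT
  set T := ∑ c : (ZMod p)ˣ, χ c * ((c : ZMod p).val : ℂ) with hTdef
  have h2 : (2 : ZMod p) ≠ 0 := by
    intro h
    have h3 : ((2 : ℕ) : ZMod p) = 0 := by exact_mod_cast h
    rw [ZMod.natCast_eq_zero_iff] at h3
    exact hp2 ((Nat.prime_dvd_prime_iff_eq hp.out Nat.prime_two).1 h3)
  set tw : (ZMod p)ˣ := Units.mk0 2 h2 with htw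
  -- the value of `2 c`
  have hval : ∀ c : (ZMod p)ˣ, (((tw * c : (ZMod p)ˣ) : ZMod p).val : ℂ) =
      2 * ((c : ZMod p).val : ℂ) - (p : ℂ) / 2 + (p : ℂ) / 2 * (eps c : ℂ) := by
    intro c
    have e1 : ((tw * c : (ZMod p)ˣ) : ZMod p) = ((2 * c.val.val : ℕ) : ZMod p) := by
      rw [Units.val_mul, htw, Units.val_mk0]
      push_cast
      rw [ZMod.natCast_val, ZMod.cast_id', id]
    rw [e1, ZMod.val_natCast]
    have hc := ZMod.val_lt c.val
    by_cases h : Half c
    · have h' : c.val.val ≤ (p - 1) / 2 := h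
      rw [eps, if_pos h, Nat.mod_eq_of_lt (by omega)]
      push_cast
      ring
    · have h' : ¬ c.val.val ≤ (p - 1) / 2 := h
      have h3 : (2 * c.val.val) % p = 2 * c.val.val - p := by
        rw [Nat.mod_eq_sub_mod (by omega), Nat.mod_eq_of_lt (by omega)]
      rw [eps, if_neg h, h3, Nat.cast_sub (by omega)]
      push_cast
      ring
  have h3 : T = χ 2 * (2 * T) := by
    have h4 : T = ∑ c : (ZMod p)ˣ, χ (tw * c : (ZMod p)ˣ) * (((tw * c : (ZMod p)ˣ) : ZMod p).val : ℂ) := by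
      rw [hTdef]
      exact (Fintype.sum_equiv (Equiv.mulLeft tw) _ _ (fun c => rfl)).symm
    have h5 : ∀ c : (ZMod p)ˣ, χ (tw * c : (ZMod p)ˣ) * (((tw * c : (ZMod p)ˣ) : ZMod p).val : ℂ) =
        χ 2 * (2 * (χ c * ((c : ZMod p).val : ℂ)) - (p : ℂ) / 2 * χ c +
          (p : ℂ) / 2 * (χ c * (eps c : ℂ))) := by
      intro c
      rw [hval c, Units.val_mul, map_mul, htw, Units.val_mk0]
      ring
    calc T = _ := h4
      _ = ∑ c : (ZMod p)ˣ, χ 2 * (2 * (χ c * ((c : ZMod p).val : ℂ)) - (p : ℂ) / 2 * χ c +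
          (p : ℂ) / 2 * (χ c * (eps c : ℂ))) := sum_congr rfl (fun c _ => h5 c)
      _ = χ 2 * (2 * T - (p : ℂ) / 2 * (∑ c : (ZMod p)ˣ, χ c) +
          (p : ℂ) / 2 * (∑ c : (ZMod p)ˣ, χ c * (eps c : ℂ))) := by
        rw [hTdef, mul_sum, mul_sum, mul_sum, ← sum_sub_distrib, ← sum_add_distrib, mul_sum]
      _ = _ := by rw [hsum, hS]; ring
  have h4 : ‖χ 2‖ = 1 := by
    have : ‖χ (tw : ZMod p)‖ = 1 := χ.unit_norm_eq_one tw
    rwa [htw, Units.val_mk0] at this
  have h5 := congrArg norm h3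
  rw [norm_mul, norm_mul, h4, one_mul] at h5
  have h6 : ‖(2 : ℂ)‖ = 2 := by norm_num
  rw [h6] at h5
  have h7 : ‖T‖ = 0 := by linarith
  exact hT (norm_eq_zero.1 h7)

theorem eq_zero_of_conv (hp2 : p ≠ 2) (y : (ZMod p)ˣ → ℂ) (hy : ∀ a, y (-a) = - y a)
    (h : ∀ e : (ZMod p)ˣ, ∑ a, y a * (eps (a * e⁻¹) : ℂ) = 0) : y = 0 := by
  have : NeZero p := ⟨hp.out.ne_zero⟩
  have key : ∀ χ : DirichletCharacter ℂ p, ∑ a : (ZMod p)ˣ, y a * χ a = 0 := by
    intro χ
    rcases χ.even_or_odd with hχ | hχ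
    · -- even
      have h1 : ∑ a : (ZMod p)ˣ, y a * χ a = ∑ a : (ZMod p)ˣ, y (-a) * χ (-a : (ZMod p)ˣ) :=
        (Fintype.sum_equiv (Equiv.neg _) _ _ (fun c => rfl)).symm
      have h2 : ∑ a : (ZMod p)ˣ, y (-a) * χ (-a : (ZMod p)ˣ) = - ∑ a : (ZMod p)ˣ, y a * χ a := by
        rw [← sum_neg_distrib]
        apply sum_congr rfl
        intro a _
        rw [hy, Units.val_neg, hχ.eval_neg]
        ring
      rw [h2] at h1
      have h3 : (2 : ℂ) * ∑ a : (ZMod p)ˣ, y a * χ a = 0 := by linear_combination h1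
      simpa using h3
    · -- odd
      have h1 : ∑ e : (ZMod p)ˣ, χ e * ∑ a, y a * (eps (a * e⁻¹) : ℂ) = 0 := by
        apply sum_eq_zero
        intro e _
        rw [h e, mul_zero]
      have h2 : ∑ e : (ZMod p)ˣ, χ e * ∑ a, y a * (eps (a * e⁻¹) : ℂ) =
          (∑ a : (ZMod p)ˣ, y a * χ a) * ∑ c : (ZMod p)ˣ, χ⁻¹ c * (eps c : ℂ) := by
        rw [sum_mul]
        simp_rw [mul_sum]
        rw [sum_comm]
        apply sum_congr rfl
        intro a _
        refine Fintype.sum_equiv ((Equiv.inv _).trans (Equiv.mulLeft a)) _ _ ?_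
        intro e
        simp only [Equiv.trans_apply, Equiv.inv_apply, Equiv.coe_mulLeft]
        have h3 : χ e = χ a * χ⁻¹ (a * e⁻¹ : (ZMod p)ˣ) := by
          have h4 : χ ((e⁻¹ : (ZMod p)ˣ) : ZMod p) * χ e = 1 := by
            rw [← map_mul, Units.inv_mul, map_one]
          have h5 : χ a ≠ 0 := (a.isUnit.map χ).ne_zero
          have h6 : χ e ≠ 0 := (e.isUnit.map χ).ne_zero
          have h7 : χ ((e⁻¹ : (ZMod p)ˣ) : ZMod p) = (χ e)⁻¹ := eq_inv_of_mul_eq_one_left h4
          rw [MulChar.inv_apply_eq_inv', Units.val_mul, map_mul, h7]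
          field_simp
        rw [h3]
        ring
      rw [h2] at h1
      rcases mul_eq_zero.1 h1 with h3 | h3
      · exact h3
      · exfalso
        have hodd : (χ⁻¹ : DirichletCharacter ℂ p).Odd := by
          have h4 : χ (-1) = -1 := hχ
          change χ⁻¹ (-1) = -1
          rw [MulChar.inv_apply_eq_inv', h4]
          norm_num
        exact sum_eps_ne_zero hp2 χ⁻¹ hodd h3
  funext b
  have h1 : ∑ χ : DirichletCharacter ℂ p, χ ((b : ZMod p)⁻¹) * ∑ a : (ZMod p)ˣ, y a * χ a =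
      y b * (p.totient : ℂ) := by
    simp_rw [mul_sum]
    rw [sum_comm]
    have h2 : ∀ a : (ZMod p)ˣ, ∑ χ : DirichletCharacter ℂ p, χ ((b : ZMod p)⁻¹) * (y a * χ a) =
        y a * (if (b : ZMod p) = a then (p.totient : ℂ) else 0) := by
      intro a
      rw [← DirichletCharacter.sum_char_inv_mul_char_eq ℂ b.isUnit (a : ZMod p), mul_sum]
      apply sum_congr rfl
      intro χ _
      ring
    simp_rw [h2]
    rw [sum_eq_single b]
    · rw [if_pos rfl]
    · intro a _ hab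
      rw [if_neg, mul_zero]
      intro h3
      exact hab (Units.ext h3.symm)
    · intro h3
      exact absurd (mem_univ b) h3
  have h2 : ∑ χ : DirichletCharacter ℂ p, χ ((b : ZMod p)⁻¹) * ∑ a : (ZMod p)ˣ, y a * χ a = 0 := by
    apply sum_eq_zero
    intro χ _
    rw [key, mul_zero]
  rw [h2] at h1
  have h3 : (p.totient : ℂ) ≠ 0 := by
    have := Nat.totient_pos.2 hp.out.pos
    exact_mod_cast this.ne'
  rcases mul_eq_zero.1 h1.symm with h4 | h4
  · exact h4
  · exact absurd h4 h3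

/-- the half systems have full rank -/
theorem exists_indep (hp2 : p ≠ 2) {k : ℕ} (hk : k ≤ (p - 1) / 2) :
    ∃ a : Fin k → (ZMod p)ˣ, Indep a := by
  classical
  have hodd : p % 2 = 1 := Nat.odd_iff.1 (hp.out.odd_of_ne_two hp2)
  have hlt : ∀ i : Fin k, (i : ℕ) + 1 < p := fun i => by have := i.2; omega
  have hne : ∀ i : Fin k, (((i : ℕ) + 1 : ℕ) : ZMod p) ≠ 0 := by
    intro i
    rw [Ne, ZMod.natCast_eq_zero_iff]
    intro hd
    have := Nat.le_of_dvd (Nat.succ_pos _) hd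
    have := hlt i
    omega
  refine ⟨fun i => Units.mk0 _ (hne i), ?_⟩
  set a : Fin k → (ZMod p)ˣ := fun i => Units.mk0 _ (hne i) with ha
  have hval : ∀ i, (a i).val.val = (i : ℕ) + 1 := by
    intro i
    rw [ha, Units.val_mk0, ZMod.val_natCast_of_lt (hlt i)]
  have hhalf : ∀ i, Half (a i) := by
    intro i
    unfold Half
    rw [hval]
    have := i.2
    omega
  have hinj : Function.Injective a := by
    intro i j h
    have h1 := hval i
    rw [h, hval j] at h1
    exact Fin.ext (by omega)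
  have hneg : ∀ i j, a i ≠ -(a j) := by
    intro i j h
    have h1 := hhalf i
    rw [h, half_neg hp2] at h1
    exact h1 (hhalf j)
  intro y hy
  set Y : (ZMod p)ˣ → ℂ := fun g => ∑ i, (if g = a i then (y i : ℂ) else 0) -
    ∑ i, (if g = -(a i) then (y i : ℂ) else 0) with hY
  have hYneg : ∀ g, Y (-g) = - Y g := by
    intro g
    rw [hY]
    simp only
    have e1 : ∀ i, (-g = a i ↔ g = -(a i)) := fun i => neg_eq_iff_eq_neg
    have e2 : ∀ i, (-g = -(a i) ↔ g = a i) := fun i => neg_inj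
    simp_rw [e1, e2]
    ring
  have hconv : ∀ e : (ZMod p)ˣ, ∑ g, Y g * (eps (g * e⁻¹) : ℂ) = 0 := by
    intro e
    have h1 : ∀ (b : Fin k → (ZMod p)ˣ), ∑ g : (ZMod p)ˣ, (∑ i, (if g = b i then (y i : ℂ) else 0)) *
        (eps (g * e⁻¹) : ℂ) = ∑ i, (y i : ℂ) * (eps (b i * e⁻¹) : ℂ) := by
      intro b
      simp_rw [sum_mul]
      rw [sum_comm]
      apply sum_congr rfl
      intro i _
      rw [sum_eq_single (b i)]
      · rw [if_pos rfl]
      · intro g _ hg
        rw [if_neg hg, zero_mul]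
      · intro h
        exact absurd (mem_univ _) h
    have h2 : ∑ g, Y g * (eps (g * e⁻¹) : ℂ) = ∑ i, (y i : ℂ) * (eps (a i * e⁻¹) : ℂ) -
        ∑ i, (y i : ℂ) * (eps (-(a i) * e⁻¹) : ℂ) := by
      rw [← h1 a, ← h1 (fun i => -(a i)), ← sum_sub_distrib]
      apply sum_congr rfl
      intro g _
      rw [hY]
      simp only
      ring
    have h3 : ∑ i, (y i : ℂ) * (eps (-(a i) * e⁻¹) : ℂ) =
        - ∑ i, (y i : ℂ) * (eps (a i * e⁻¹) : ℂ) := by
      rw [← sum_neg_distrib]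
      apply sum_congr rfl
      intro i _
      rw [neg_mul, eps_neg hp2]
      push_cast
      ring
    have h4 : ∑ i, (y i : ℂ) * (eps (a i * e⁻¹) : ℂ) = 0 := by
      have h5 := hy e
      have h6 : ((∑ i, (if Half (a i * e⁻¹) then y i else - y i) : ℤ) : ℂ) =
          ∑ i, (y i : ℂ) * (eps (a i * e⁻¹) : ℂ) := by
        push_cast
        apply sum_congr rfl
        intro i _
        unfold eps
        split_ifs <;> push_cast <;> ring
      rw [← h6, h5, Int.cast_zero]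
    rw [h2, h3, h4]
    ring
  have hY0 := eq_zero_of_conv hp2 Y hYneg hconv
  funext j
  have h1 := congrFun hY0 (a j)
  rw [hY] at h1
  simp only [Pi.zero_apply] at h1
  rw [sum_eq_single j, if_pos rfl, sum_eq_zero, sub_zero] at h1
  · exact_mod_cast h1
  · intro i _
    rw [if_neg (hneg j i)]
  · intro i _ hij
    rw [if_neg]
    intro h
    exact hij (hinj h).symm
  · intro h
    exact absurd (mem_univ _) h

end Pool.Agent.Lib.MP_509488_nt.Stick
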