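import Mathlib
import Pool.Agent.Lib.MP_509488_nt.Stick.Rank

set_option autoImplicit false

namespace Pool.Agent.Lib.MP_509488_nt.Stick

open Finset

variable {p : ℕ} [hp : Fact p.Prime]

theorem card_units' : Fintype.card (ZMod p)ˣ = p - 1 := by
  rw [ZMod.card_units_eq_totient, Nat.totient_prime hp.out]

/-- there are more than `c` exponent vectors of bounded mutual distance -/
def Fam (p : ℕ) [Fact p.Prime] (t c : ℕ) : Prop :=
  ∃ (k n : ℕ) (a : Fin k → (ZMod p)ˣ) (S : Finset (Fin k → Fin (n + 1))), Indep a ∧ c < S.card ∧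
    ∀ x ∈ S, ∀ x' ∈ S, ∑ e, |(Ex a n (fun i => (x i : ℕ)) e : ℤ) -
      Ex a n (fun i => (x' i : ℕ)) e| ≤ ((p - 1 : ℕ) : ℤ) * t

theorem Fam.mono {t c c' : ℕ} (h : Fam p t c) (hc : c' ≤ c) : Fam p t c' := by
  obtain ⟨k, n, a, S, h1, h2, h3⟩ := h
  exact ⟨k, n, a, S, h1, lt_of_le_of_lt hc h2, h3⟩

theorem fam_cube (hp2 : p ≠ 2) {n k c : ℕ} (hk : k ≤ (p - 1) / 2) (hc : c < (n + 1) ^ k) :
    Fam p (n * k) c := by
  obtain ⟨a, ha⟩ := exists_indep hp2 hk
  refine ⟨k, n, a, univ, ha, ?_, ?_⟩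
  · rw [card_univ, Fintype.card_fun, Fintype.card_fin, Fintype.card_fin]
    exact hc
  · intro x _ x' _
    have hle : ∀ x : Fin k → Fin (n + 1), ∀ i, ((fun i => (x i : ℕ)) : Fin k → ℕ) i ≤ n :=
      fun x i => Nat.le_of_lt_succ (x i).2
    have h1 : ∀ e ∈ (univ : Finset (ZMod p)ˣ), |(Ex a n (fun i => (x i : ℕ)) e : ℤ) -
        Ex a n (fun i => (x' i : ℕ)) e| ≤ ((n * k : ℕ) : ℤ) := by
      intro e _
      have h2 := Ex_le a (hle x) e
      have h3 := Ex_le a (hle x') e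
      rw [abs_le]
      constructor <;> omega
    refine (sum_le_sum h1).trans (le_of_eq ?_)
    rw [sum_const, card_univ, card_units', nsmul_eq_mul]

theorem sum_lin (m : ℕ) (c : ℤ) : ∑ s ∈ range m, (2 * (s : ℤ) - c) = m * (m - 1) - c * m := by
  induction m with
  | zero => simp
  | succ m ih => rw [sum_range_succ, ih]; push_cast; ring

theorem sum_sq (m : ℕ) (c : ℤ) : 3 * ∑ s ∈ range m, (2 * (s : ℤ) - c) ^ 2 =
    2 * m * (m - 1) * (2 * m - 1) - 6 * c * m * (m - 1) + 3 * c ^ 2 * m := by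
  induction m with
  | zero => simp
  | succ m ih => rw [sum_range_succ, mul_add, ih]; push_cast; ring

theorem second_moment (n : ℕ) : ∀ (k : ℕ) (ε : Fin k → ℤ), (∀ i, ε i ^ 2 = 1) → ∀ c : ℤ,
    3 * ∑ x : Fin k → Fin (n + 1), (c + ∑ i, ε i * (2 * (x i : ℤ) - n)) ^ 2 =
      (n + 1) ^ k * (3 * c ^ 2 + k * n * (n + 2)) := by
  intro k
  induction k with
  | zero =>
    intro ε _ c
    simp
  | succ k ih =>
    intro ε hε c
    rw [← (Fin.consEquiv (fun _ => Fin (n + 1))).sum_comp, Fintype.sum_prod_type]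
    have h1 : ∀ s : Fin (n + 1), 3 * ∑ y : Fin k → Fin (n + 1),
        (c + ∑ i, ε i * (2 * (((Fin.consEquiv (fun _ => Fin (n + 1))) (s, y) i : Fin (n + 1)) : ℤ)
          - n)) ^ 2 =
        (n + 1) ^ k * (3 * (c + ε 0 * (2 * (s : ℤ) - n)) ^ 2 + k * n * (n + 2)) := by
      intro s
      rw [← ih (fun i => ε i.succ) (fun i => hε i.succ)]
      congr 1
      apply sum_congr rfl
      intro y _
      rw [Fin.sum_univ_succ]
      simp only [Fin.consEquiv_apply, Fin.cons_zero, Fin.cons_succ]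
      ring
    rw [mul_sum]
    simp_rw [h1]
    rw [← mul_sum]
    have h2 : ∑ s : Fin (n + 1), (3 * (c + ε 0 * (2 * (s : ℤ) - n)) ^ 2 + (k : ℤ) * n * (n + 2)) =
        ∑ s ∈ range (n + 1), (3 * (c + ε 0 * (2 * (s : ℤ) - n)) ^ 2 + (k : ℤ) * n * (n + 2)) :=
      Fin.sum_univ_eq_sum_range
        (fun s : ℕ => (3 * (c + ε 0 * (2 * (s : ℤ) - n)) ^ 2 + (k : ℤ) * n * (n + 2))) (n + 1)
    rw [h2]
    have h3 : ∀ s ∈ range (n + 1), (3 * (c + ε 0 * (2 * (s : ℤ) - n)) ^ 2 +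
        (k : ℤ) * n * (n + 2)) = (3 * c ^ 2 + (k : ℤ) * n * (n + 2)) +
        (6 * c * ε 0) * (2 * (s : ℤ) - n) + 3 * (2 * (s : ℤ) - n) ^ 2 := by
      intro s _
      linear_combination (3 * (2 * (s : ℤ) - n) ^ 2) * (hε 0)
    rw [sum_congr rfl h3, sum_add_distrib, sum_add_distrib, ← mul_sum, ← mul_sum, sum_lin, sum_sq,
      sum_const, card_range, nsmul_eq_mul]
    push_cast
    ring

theorem fam_sm (hp2 : p ≠ 2) {n k c t : ℕ} (hk : k ≤ (p - 1) / 2) (hc : 2 * c < (n + 1) ^ k)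
    (ht : 2 * k * n * (n + 2) ≤ 3 * t ^ 2) : Fam p t c := by
  classical
  obtain ⟨a, ha⟩ := exists_indep hp2 hk
  have hle : ∀ x : Fin k → Fin (n + 1), ∀ i, ((fun i => (x i : ℕ)) : Fin k → ℕ) i ≤ n :=
    fun x i => Nat.le_of_lt_succ (x i).2
  set A : (Fin k → Fin (n + 1)) → (ZMod p)ˣ → ℤ := fun x e =>
    ∑ i, (if Half (a i * e⁻¹) then 1 else -1) * (2 * (x i : ℤ) - n) with hA
  have hAE : ∀ x e, A x e = 2 * (Ex a n (fun i => (x i : ℕ)) e : ℤ) - n * k := by
    intro x e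
    rw [hA]
    unfold Ex
    have h1 : (n : ℤ) * k = ∑ _i : Fin k, (n : ℤ) := by
      rw [sum_const, card_univ, Fintype.card_fin, nsmul_eq_mul, mul_comm]
    push_cast
    rw [h1, mul_sum, ← sum_sub_distrib]
    apply sum_congr rfl
    intro i _
    have h2 : (x i : ℕ) ≤ n := Nat.le_of_lt_succ (x i).2
    split_ifs
    · ring
    · rw [Nat.cast_sub h2]; ring
  set F : (Fin k → Fin (n + 1)) → ℤ := fun x => ∑ e, A x e ^ 2 with hF
  have hsum : 3 * ∑ x, F x = (n + 1) ^ k * (((p - 1 : ℕ) : ℤ) * (k * n * (n + 2))) := by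
    rw [hF]
    rw [sum_comm, mul_sum]
    have h1 : ∀ e : (ZMod p)ˣ, 3 * ∑ x : Fin k → Fin (n + 1), A x e ^ 2 =
        (n + 1) ^ k * ((k : ℤ) * n * (n + 2)) := by
      intro e
      have h2 := second_moment n k (fun i => if Half (a i * e⁻¹) then 1 else -1)
        (fun i => by split_ifs <;> norm_num) 0
      simp only [zero_add] at h2
      rw [hA]
      simp only
      rw [h2]
      ring
    simp_rw [h1]
    rw [sum_const, card_univ, card_units', nsmul_eq_mul]
    ring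
  have hF0 : ∀ x, 0 ≤ F x := fun x => sum_nonneg fun e _ => sq_nonneg _
  set q : ℤ := ((p - 1 : ℕ) : ℤ) with hq
  have hq0 : 0 ≤ q := Int.natCast_nonneg _
  set S : Finset (Fin k → Fin (n + 1)) := univ.filter (fun x => F x ≤ q * t ^ 2) with hS
  refine ⟨k, n, a, S, ha, ?_, ?_⟩
  · -- Markov
    have h1 : ((Sᶜ).card : ℤ) * (q * t ^ 2 + 1) ≤ ∑ x, F x := by
      rw [← nsmul_eq_mul, ← sum_const]
      refine (sum_le_sum (g := F) ?_).trans (sum_le_sum_of_subset_of_nonneg (subset_univ _)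
        (fun x _ _ => hF0 x))
      intro x hx
      rw [mem_compl, hS, mem_filter, not_and, not_le] at hx
      have := hx (mem_univ _)
      omega
    have h2 : (S.card : ℤ) + (Sᶜ).card = (n + 1) ^ k := by
      have h3 := card_add_card_compl S
      rw [Fintype.card_fun, Fintype.card_fin, Fintype.card_fin] at h3
      exact_mod_cast h3
    have h3 : (2 * (k : ℤ) * n * (n + 2)) ≤ 3 * t ^ 2 := by exact_mod_cast ht
    have h4 : 2 * ((Sᶜ).card : ℤ) ≤ (n + 1) ^ k := by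
      have h5 : 2 * ((Sᶜ).card : ℤ) * (q * t ^ 2 + 1) ≤ (n + 1) ^ k * (q * t ^ 2 + 1) := by
        have h6 : (0 : ℤ) < (n + 1) ^ k := by positivity
        have h7 : 3 * (2 * (((Sᶜ).card : ℤ) * (q * t ^ 2 + 1))) ≤
            3 * ((n + 1) ^ k * (q * t ^ 2)) := by
          calc 3 * (2 * (((Sᶜ).card : ℤ) * (q * t ^ 2 + 1))) ≤ 2 * (3 * ∑ x, F x) := by linarith
            _ = (n + 1) ^ k * (q * (2 * (k : ℤ) * n * (n + 2))) := by rw [hsum]; ring
            _ ≤ (n + 1) ^ k * (q * (3 * t ^ 2)) := by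
                apply mul_le_mul_of_nonneg_left _ h6.le
                exact mul_le_mul_of_nonneg_left h3 hq0
            _ = _ := by ring
        nlinarith
      exact le_of_mul_le_mul_right h5 (by positivity)
    have h5 : 2 * (c : ℤ) < (n + 1) ^ k := by exact_mod_cast hc
    have : (c : ℤ) < S.card := by linarith
    exact_mod_cast this
  · -- Cauchy-Schwarz
    intro x hx x' hx'
    rw [hS, mem_filter] at hx hx'
    set D : (ZMod p)ˣ → ℤ := fun e => |(Ex a n (fun i => (x i : ℕ)) e : ℤ) -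
      Ex a n (fun i => (x' i : ℕ)) e| with hD
    have h1 : ∑ e, D e ^ 2 ≤ q * t ^ 2 := by
      have h2 : ∀ e ∈ (univ : Finset (ZMod p)ˣ), 4 * D e ^ 2 ≤ 2 * A x e ^ 2 + 2 * A x' e ^ 2 := by
        intro e _
        have h3 : 4 * D e ^ 2 = (A x e - A x' e) ^ 2 := by
          rw [hD]
          simp only
          rw [sq_abs, hAE, hAE]
          ring
        rw [h3]
        nlinarith [sq_nonneg (A x e + A x' e)]
      have h3 := sum_le_sum h2
      rw [← mul_sum, sum_add_distrib, ← mul_sum, ← mul_sum] at h3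
      have h4 := hx.2
      have h5 := hx'.2
      change 4 * ∑ e, D e ^ 2 ≤ 2 * F x + 2 * F x' at h3
      linarith
    have h2 := sq_sum_le_card_mul_sum_sq (s := (univ : Finset (ZMod p)ˣ)) (f := D)
    rw [card_univ, card_units'] at h2
    have h3 : (∑ e, D e) ^ 2 ≤ (q * t) ^ 2 := by
      refine h2.trans ?_
      have : (q * t) ^ 2 = q * (q * t ^ 2) := by ring
      rw [this]
      exact mul_le_mul_of_nonneg_left h1 hq0
    exact (abs_le_of_sq_le_sq' h3 (by positivity)).2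

end Pool.Agent.Lib.MP_509488_nt.Stick
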