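import Mathlib

set_option autoImplicit false

namespace Pool.Agent.Lib.MP_509488_nt

/-- The order of `l` in `(ℤ/p)ˣ/{±1}` (for a prime `p` not dividing `l`): the least `g ≥ 1` with
`l ^ g ≡ ±1 (mod p)`. -/
noncomputable def ordPM (p l : ℕ) : ℕ := orderOf ((l : ZMod p) ^ 2)

/-- The exceptional prime factors of `M`: the primes `l ≠ p` dividing `M` for which `p * r` divides
`l ^ g - 1` or `l ^ g + 1`, where `g = ordPM p l`. -/
noncomputable def excPrimes (p r : ℕ) (M : ℤ) : Finset ℕ :=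
  M.natAbs.primeFactors.filter fun l =>
    l ≠ p ∧ (p * r ∣ l ^ ordPM p l - 1 ∨ p * r ∣ l ^ ordPM p l + 1)

/-- The sum of `((p - 1) / 2) / g` over the exceptional prime factors `l` of `M`, `g = ordPM p l`:
the number of prime ideals of the real subfield of `ℚ(ζ_p)` above them. -/
noncomputable def excWeight (p r : ℕ) (M : ℤ) : ℕ :=
  ∑ l ∈ excPrimes p r M, (p - 1) / 2 / ordPM p l

/-- `(s, t)` is a good pair for the primes `p`, `r`: for some `n` and some `j ≤ (p - 1) / 2`,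
`2 * r ^ s < (n + 1) ^ j` and `2 * j * n * (n + 2) ≤ 3 * t ^ 2`. -/
def GoodPair (p r s t : ℕ) : Prop :=
  ∃ n j : ℕ, j ≤ (p - 1) / 2 ∧ 2 * r ^ s < (n + 1) ^ j ∧ 2 * j * n * (n + 2) ≤ 3 * t ^ 2

end Pool.Agent.Lib.MP_509488_nt
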