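import Mathlib
import Pool.Agent.Lib.MP_509488_nt.Stick.Base

set_option autoImplicit false

namespace Pool.Agent.Lib.MP_509488_nt.Stick

open Finset NumberField IsCyclotomicExtension.Rat

variable {p : ℕ} [hp : Fact p.Prime] {K : Type} [Field K] [NumberField K]
  [hK : IsCyclotomicExtension {p} ℚ K]

variable (K) in
theorem ncard_over {l : ℕ} (hl : l.Prime) (hlp : l ≠ p) :
    ((Ideal.span {(l : ℤ)}).primesOver (𝓞 K)).ncard = (p - 1) / orderOf (l : ZMod p) := by
  have : Fact l.Prime := ⟨hl⟩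
  have : IsGalois ℚ K := IsCyclotomicExtension.isGalois {p} ℚ K
  have hnd : ¬ l ∣ p := by
    intro h
    exact hlp ((Nat.prime_dvd_prime_iff_eq hl hp.out).1 h)
  have hprime : (Ideal.span {(l : ℤ)}).IsPrime :=
    (Ideal.span_singleton_prime (by exact_mod_cast hl.ne_zero)).2 (Nat.prime_iff_prime_int.1 hl)
  have h1 := Ideal.ncard_primesOver_mul_ramificationIdxIn_mul_inertiaDegIn
    (Ideal.span {(l : ℤ)}) (𝓞 K) Gal(K/ℚ)
  rw [ramificationIdxIn_eq_of_not_dvd l K hnd, inertiaDegIn_eq_of_not_dvd l K hnd, one_mul] at h1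
  have h2 : Nat.card Gal(K/ℚ) = p - 1 := by
    rw [IsGalois.card_aut_eq_finrank, IsCyclotomicExtension.Rat.finrank p, Nat.totient_prime hp.out]
  rw [h2] at h1
  have h3 : 0 < orderOf (l : ZMod p) := by
    rw [Nat.pos_iff_ne_zero]
    intro h0
    rw [h0, mul_zero] at h1
    have := hp.out.two_le
    omega
  rw [← h1, Nat.mul_div_cancel _ h3]

omit hp hK [NumberField K] in
theorem mem_over {l : ℕ} (hl : l.Prime) {P : Ideal (𝓞 K)} (hP : P.IsMaximal)
    (hlP : (l : 𝓞 K) ∈ P) : P ∈ (Ideal.span {(l : ℤ)}).primesOver (𝓞 K) := by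
  refine ⟨hP.isPrime, ⟨?_⟩⟩
  have hmax : (Ideal.span {(l : ℤ)}).IsMaximal :=
    PrincipalIdealRing.isMaximal_of_irreducible (Nat.prime_iff_prime_int.1 hl).irreducible
  apply hmax.eq_of_le
  · rw [Ne, Ideal.eq_top_iff_one, Ideal.mem_comap, map_one]
    intro h
    exact hP.ne_top ((Ideal.eq_top_iff_one P).2 h)
  · rw [Ideal.span_le, Set.singleton_subset_iff, SetLike.mem_coe, Ideal.mem_comap]
    simpa using hlP

omit hp hK [NumberField K] in
theorem dvd_of_mem {l : ℕ} (hl : l.Prime) {P : Ideal (𝓞 K)} (hP : P ≠ ⊤)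
    (hlP : (l : 𝓞 K) ∈ P) {n : ℤ} (hn : (n : 𝓞 K) ∈ P) : (l : ℤ) ∣ n := by
  by_contra h
  have h1 : IsCoprime (l : ℤ) n := ((Nat.prime_iff_prime_int.1 hl).coprime_iff_not_dvd).2 h
  obtain ⟨a, b, hab⟩ := h1
  apply hP
  rw [Ideal.eq_top_iff_one]
  have h2 : (a : 𝓞 K) * (l : 𝓞 K) + b * n = 1 := by
    have := congrArg (Int.cast : ℤ → 𝓞 K) hab
    push_cast at this
    exact this
  rw [← h2]
  exact P.add_mem (P.mul_mem_left _ hlP) (P.mul_mem_left _ hn)

omit hp hK [NumberField K] in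
/-- a maximal ideal containing a nonzero integer contains a prime number -/
theorem exists_prime_mem {P : Ideal (𝓞 K)} (hP : P.IsMaximal) {n : ℤ} (hn0 : n ≠ 0)
    (hn : (n : 𝓞 K) ∈ P) : ∃ l : ℕ, l.Prime ∧ (l : 𝓞 K) ∈ P ∧ (l : ℤ) ∣ n := by
  let _ : Field (𝓞 K ⧸ P) := Ideal.Quotient.field P
  obtain ⟨l, hlk⟩ := CharP.exists (𝓞 K ⧸ P)
  have hπ : ((n : ℤ) : 𝓞 K ⧸ P) = 0 := by
    have := Ideal.Quotient.eq_zero_iff_mem.2 hn
    simpa using this
  have hln : (l : ℤ) ∣ n := (CharP.intCast_eq_zero_iff (𝓞 K ⧸ P) l n).1 hπ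
  refine ⟨l, ?_, ?_, hln⟩
  · rcases CharP.char_is_prime_or_zero (𝓞 K ⧸ P) l with h | h
    · exact h
    · exfalso
      rw [h] at hln
      exact hn0 (by simpa using hln)
  · rw [← Ideal.Quotient.eq_zero_iff_mem, map_natCast]
    exact CharP.cast_eq_zero _ l

theorem orderOf_facts {l : ℕ} (hl : l.Prime) (hlp : l ≠ p) :
    0 < orderOf (l : ZMod p) ∧ orderOf (l : ZMod p) ∣ p - 1 ∧
      (l ^ orderOf (l : ZMod p)) ≡ 1 [MOD p] := by
  have h0 : (l : ZMod p) ≠ 0 := by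
    rw [Ne, ZMod.natCast_eq_zero_iff]
    intro h
    exact hlp ((Nat.prime_dvd_prime_iff_eq hp.out hl).1 h).symm
  have h1 : orderOf (l : ZMod p) ∣ p - 1 :=
    orderOf_dvd_of_pow_eq_one (ZMod.pow_card_sub_one_eq_one h0)
  refine ⟨Nat.pos_of_dvd_of_pos h1 (by have := hp.out.two_le; omega), h1, ?_⟩
  rw [← ZMod.natCast_eq_natCast_iff]
  push_cast
  exact pow_orderOf_eq_one _

/-- if `r ∤ l^f - 1`, extraction of `r`-th roots modulo `P` is unique -/
theorem sub_mem_of_good {l r : ℕ} (hl : l.Prime) (hr : r.Prime) (hpr : p < r)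
    {P : Ideal (𝓞 K)} (hP : P.IsMaximal) (hlP : (l : 𝓞 K) ∈ P)
    (hgood : l ≠ p → ¬ r ∣ l ^ orderOf (l : ZMod p) - 1) {a b : 𝓞 K} (ha : a ∉ P)
    (hab : a ^ r - b ^ r ∈ P) : a - b ∈ P := by
  let k := 𝓞 K ⧸ P
  let _ : Field k := Ideal.Quotient.field P
  let π : 𝓞 K →+* k := Ideal.Quotient.mk P
  have hπa : π a ≠ 0 := by
    rw [Ne, Ideal.Quotient.eq_zero_iff_mem]
    exact ha
  have hπl : (l : k) = 0 := by
    have : π (l : 𝓞 K) = 0 := Ideal.Quotient.eq_zero_iff_mem.2 hlP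
    simpa using this
  have : CharP k l := by
    have h1 := CharP.exists k
    obtain ⟨q, hq⟩ := h1
    have h2 : q ∣ l := (CharP.cast_eq_zero_iff k q l).1 hπl
    rcases (Nat.dvd_prime hl).1 h2 with h3 | h3
    · exfalso
      rw [h3] at hq
      exact (CharP.char_ne_one k 1) rfl
    · rwa [h3] at hq
  have : Fact l.Prime := ⟨hl⟩
  obtain ⟨f, hnr, hz⟩ : ∃ f : ℕ, ¬ r ∣ (l ^ f - 1) ∧ (π (z p K)) ^ (l ^ f) = π (z p K) := by
    by_cases hlp' : l = p
    · refine ⟨1, ?_, ?_⟩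
      · rw [pow_one]
        intro h
        have h2 := hl.two_le
        have := Nat.le_of_dvd (by omega) h
        omega
      · have h1 : (π (z p K)) ^ l = 1 := by
          rw [← map_pow, hlp', (z_prim p K).pow_eq_one, map_one]
        have h2 : (π (z p K) - 1) ^ l = 0 := by rw [sub_pow_char, h1, one_pow, sub_self]
        have h3 := sub_eq_zero.1 (pow_eq_zero_iff hl.ne_zero |>.1 h2)
        rw [h3, one_pow]
    · refine ⟨orderOf (l : ZMod p), hgood hlp', ?_⟩
      obtain ⟨-, -, h2⟩ := orderOf_facts hl hlp'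
      set f := orderOf (l : ZMod p) with hf
      have h3 : (z p K) ^ (l ^ f) = (z p K) ^ 1 := by
        rw [← Nat.mod_add_div (l ^ f) p, pow_add, pow_mul, (z_prim p K).pow_eq_one, one_pow,
          mul_one, h2, Nat.mod_eq_of_lt hp.out.one_lt]
      rw [← map_pow, h3, pow_one]
  have hfrob : (iterateFrobenius k l f).comp π = π := by
    apply hom_ext' (p := p)
    simp only [RingHom.comp_apply, iterateFrobenius_def]
    exact hz
  have hfr : ∀ x : 𝓞 K, (π x) ^ (l ^ f) = π x := by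
    intro x
    have := congrArg (fun g : 𝓞 K →+* k => g x) hfrob
    simpa [iterateFrobenius_def] using this
  have hab' : (π a) ^ r = (π b) ^ r := by
    have := Ideal.Quotient.eq_zero_iff_mem.2 hab
    rw [map_sub, map_pow, map_pow] at this
    exact sub_eq_zero.1 this
  have hπb : π b ≠ 0 := by
    intro h0
    rw [h0, zero_pow hr.ne_zero] at hab'
    exact hπa (pow_eq_zero_iff hr.ne_zero |>.1 hab')
  rw [← Ideal.Quotient.eq_zero_iff_mem, map_sub, sub_eq_zero]
  change π a = π b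
  by_contra heq
  set t := π a / π b with ht
  have htr : t ^ r = 1 := by rw [ht, div_pow, hab', div_self (pow_ne_zero _ hπb)]
  have ht1 : t ≠ 1 := by
    intro h; rw [ht, div_eq_one_iff_eq hπb] at h; exact heq h
  have htf : t ^ (l ^ f) = t := by rw [ht, div_pow, hfr, hfr]
  have ht0 : t ≠ 0 := div_ne_zero hπa hπb
  have hord : orderOf t = r := by
    rcases (Nat.dvd_prime hr).1 (orderOf_dvd_of_pow_eq_one htr) with h | h
    · exact absurd (orderOf_eq_one_iff.1 h) ht1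
    · exact h
  have h1 : t ^ (l ^ f - 1) = 1 := by
    have h2 : t ^ (l ^ f - 1) * t = 1 * t := by
      rw [← pow_succ, Nat.sub_add_cancel (Nat.one_le_pow _ _ hl.pos), htf, one_mul]
    exact mul_right_cancel₀ ht0 h2
  have := orderOf_dvd_of_pow_eq_one h1
  rw [hord] at this
  exact hnr this

end Pool.Agent.Lib.MP_509488_nt.Stick
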