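import Mathlib
import Pool.Agent.Lib.MP_509488_nt.Stick.Defs
import Pool.Agent.Lib.MP_509488_nt.Stick.Prm

set_option autoImplicit false

namespace Pool.Agent.Lib.MP_509488_nt.Stick

open Finset NumberField IsCyclotomicExtension.Rat

variable {p : ℕ} [hp : Fact p.Prime] {K : Type} [Field K] [NumberField K]
  [hK : IsCyclotomicExtension {p} ℚ K]

theorem ord_cases {l : ℕ} (hl : l.Prime) (hlp : l ≠ p) (hp2 : p ≠ 2) :
    0 < ordPM p l ∧ ordPM p l ∣ (p - 1) / 2 ∧
      ((orderOf (l : ZMod p) = ordPM p l ∧ Odd (orderOf (l : ZMod p)) ∧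
          (l : ZMod p) ^ ordPM p l = 1) ∨
        (orderOf (l : ZMod p) = 2 * ordPM p l ∧ (l : ZMod p) ^ ordPM p l = -1)) := by
  have h0 : (l : ZMod p) ≠ 0 := by
    rw [Ne, ZMod.natCast_eq_zero_iff]
    intro h
    exact hlp ((Nat.prime_dvd_prime_iff_eq hp.out hl).1 h).symm
  obtain ⟨hf0, -, -⟩ := orderOf_facts hl hlp
  have hpo : p % 2 = 1 := Nat.odd_iff.1 (hp.out.odd_of_ne_two hp2)
  have h1 : ordPM p l ∣ (p - 1) / 2 := by
    unfold ordPM
    apply orderOf_dvd_of_pow_eq_one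
    rw [← pow_mul]
    have : 2 * ((p - 1) / 2) = p - 1 := by omega
    rw [this]
    exact ZMod.pow_card_sub_one_eq_one h0
  have h2 : 0 < ordPM p l := Nat.pos_of_dvd_of_pos h1 (by have := hp.out.two_le; omega)
  refine ⟨h2, h1, ?_⟩
  have h3 : ordPM p l = orderOf (l : ZMod p) / Nat.gcd (orderOf (l : ZMod p)) 2 :=
    orderOf_pow' _ (by norm_num)
  rcases Nat.even_or_odd (orderOf (l : ZMod p)) with he | ho
  · right
    have h4 : Nat.gcd (orderOf (l : ZMod p)) 2 = 2 := Nat.gcd_eq_right he.two_dvd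
    rw [h4] at h3
    have h5 : orderOf (l : ZMod p) = 2 * ordPM p l := by
      rw [h3]; exact (Nat.mul_div_cancel' he.two_dvd).symm
    refine ⟨h5, ?_⟩
    have h6 : ((l : ZMod p) ^ ordPM p l) ^ 2 = 1 := by
      rw [← pow_mul, mul_comm, ← h5, pow_orderOf_eq_one]
    have h7 : ((l : ZMod p) ^ ordPM p l - 1) * ((l : ZMod p) ^ ordPM p l + 1) = 0 := by
      linear_combination h6
    rcases mul_eq_zero.1 h7 with h8 | h8
    · exfalso
      have h9 := orderOf_dvd_of_pow_eq_one (sub_eq_zero.1 h8)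
      rw [h5] at h9
      have := Nat.le_of_dvd h2 h9
      omega
    · exact eq_neg_of_add_eq_zero_left h8
  · left
    have h4 : Nat.gcd (orderOf (l : ZMod p)) 2 = 1 := by
      rw [Nat.gcd_comm]
      exact (Nat.coprime_two_left).2 ho
    rw [h4, Nat.div_one] at h3
    exact ⟨h3.symm, ho, by rw [h3, pow_orderOf_eq_one]⟩

/-- the conjugate of an ideal -/
noncomputable def cj (P : Ideal (𝓞 K)) : Ideal (𝓞 K) := P.comap (sg p K (-1))

theorem mem_cj {P : Ideal (𝓞 K)} {x : 𝓞 K} : x ∈ cj (p := p) P ↔ sg p K (-1) x ∈ P := Iff.rfl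

theorem sg_neg_sg_neg (x : 𝓞 K) : sg p K (-1) (sg p K (-1) x) = x := by
  rw [← sg_mul]
  have : (-1 : (ZMod p)ˣ) * -1 = 1 := by rw [neg_mul_neg, one_mul]
  rw [this, sg_one]

theorem cj_cj (P : Ideal (𝓞 K)) : cj (p := p) (cj (p := p) P) = P := by
  ext x
  rw [mem_cj, mem_cj, sg_neg_sg_neg]

theorem cj_isMaximal {P : Ideal (𝓞 K)} (hP : P.IsMaximal) : (cj (p := p) P).IsMaximal :=
  Ideal.comap_isMaximal_of_equiv (sg p K (-1))

theorem natCast_mem_cj {P : Ideal (𝓞 K)} {n : ℕ} : (n : 𝓞 K) ∈ cj (p := p) P ↔ (n : 𝓞 K) ∈ P := by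
  rw [mem_cj, map_natCast]

omit [NumberField K] in
theorem charP_quot {l : ℕ} (hl : l.Prime) {P : Ideal (𝓞 K)} (hP : P.IsMaximal)
    (hlP : (l : 𝓞 K) ∈ P) : CharP (𝓞 K ⧸ P) l := by
  let _ : Field (𝓞 K ⧸ P) := Ideal.Quotient.field P
  have hπl : ((l : ℕ) : 𝓞 K ⧸ P) = 0 := by
    have := Ideal.Quotient.eq_zero_iff_mem.2 hlP
    simpa using this
  obtain ⟨q, hq⟩ := CharP.exists (𝓞 K ⧸ P)
  have h2 : q ∣ l := (CharP.cast_eq_zero_iff (𝓞 K ⧸ P) q l).1 hπl
  rcases (Nat.dvd_prime hl).1 h2 with h3 | h3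
  · exfalso
    rw [h3] at hq
    exact (CharP.char_ne_one (𝓞 K ⧸ P) 1) rfl
  · rwa [h3] at hq

/-- the image of `ζ` in a residue field of characteristic `≠ p` has order `p` -/
theorem orderOf_mk_z (hp2 : 2 < p) {l : ℕ} (hl : l.Prime) (hlp : l ≠ p) {P : Ideal (𝓞 K)}
    (hP : P.IsMaximal) (hlP : (l : 𝓞 K) ∈ P) :
    orderOf (Ideal.Quotient.mk P (z p K)) = p := by
  have h1 : (Ideal.Quotient.mk P (z p K)) ^ p = 1 := by
    rw [← map_pow, (z_prim p K).pow_eq_one, map_one]
  rcases (Nat.dvd_prime hp.out).1 (orderOf_dvd_of_pow_eq_one h1) with h2 | h2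
  · exfalso
    rw [orderOf_eq_one_iff] at h2
    have h3 : (1 - z p K) ∈ P := by
      rw [← Ideal.Quotient.eq_zero_iff_mem, map_sub, map_one, h2, sub_self]
    have h4 : (p : 𝓞 K) ∈ P := by
      have h5 := ((cycRing (IsCyclotomicExtension.zeta_spec p ℚ K) hp2).dvd_int (p : ℤ)).2 dvd_rfl
      rw [Int.cast_natCast] at h5
      obtain ⟨y, hy⟩ := h5
      rw [hy]
      exact P.mul_mem_right _ h3
    have h5 : (l : ℤ) ∣ (p : ℤ) := dvd_of_mem hl hP.ne_top hlP (by rw [Int.cast_natCast]; exact h4)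
    exact hlp ((Nat.prime_dvd_prime_iff_eq hl hp.out).1 (Int.natCast_dvd_natCast.1 h5))
  · exact h2

theorem sg_neg_z : sg p K (-1) (z p K) * z p K = 1 := by
  rw [sg_z, ← pow_succ]
  have h5 : ((-1 : (ZMod p)ˣ) : ZMod p).val + 1 = p := by
    rw [Units.val_neg, Units.val_one]
    have : (-1 : ZMod p).val = p - 1 := by
      obtain ⟨n, rfl⟩ : ∃ n, p = n + 1 := ⟨p - 1, by have := hp.out.pos; omega⟩
      rw [ZMod.val_neg_one, Nat.add_sub_cancel]
    rw [this]
    have := hp.out.pos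
    omega
  rw [h5, (z_prim p K).pow_eq_one]

/-- conjugation moves a prime ideal above `l` if `l` has odd order mod `p` -/
theorem cj_ne (hp2 : 2 < p) {l : ℕ} (hl : l.Prime) (hlp : l ≠ p)
    (hodd : Odd (orderOf (l : ZMod p))) {P : Ideal (𝓞 K)} (hP : P.IsMaximal)
    (hlP : (l : 𝓞 K) ∈ P) : cj (p := p) P ≠ P := by
  intro hcj
  let k := 𝓞 K ⧸ P
  let _ : Field k := Ideal.Quotient.field P
  have hchar : CharP k l := charP_quot hl hP hlP
  have : Fact l.Prime := ⟨hl⟩
  let _ : Algebra (ZMod l) k := ZMod.algebra k l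
  have hne : P ≠ ⊥ := by
    rintro rfl
    have h1 : ((l : ℕ) : 𝓞 K) = 0 := by simpa using hlP
    exact hl.ne_zero (by exact_mod_cast h1)
  have hfin : Finite k := Ideal.finiteQuotientOfFreeOfNeBot P hne
  let τ : k →+* k := Ideal.quotientMap P (sg p K (-1) : 𝓞 K →+* 𝓞 K) (by
    intro x hx
    rw [← hcj] at hx
    exact hx)
  have hτ : ∀ x : 𝓞 K, τ (Ideal.Quotient.mk P x) = Ideal.Quotient.mk P (sg p K (-1) x) := by
    intro x
    exact Ideal.quotientMap_mk
  let τ' : k →ₐ[ZMod l] k := AlgHom.mk τ (fun c => RingHom.congr_fun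
    (Subsingleton.elim (τ.comp (algebraMap (ZMod l) k)) (algebraMap (ZMod l) k)) c)
  obtain ⟨n, hn⟩ := (FiniteField.bijective_frobeniusAlgHom_pow (ZMod l) k).2 τ'
  have hpow : ∀ x : k, τ x = x ^ (l ^ (n : ℕ)) := by
    intro x
    have h1 : τ' x = τ x := rfl
    rw [← h1, ← hn]
    simp only
    rw [AlgHom.coe_pow, FiniteField.coe_frobeniusAlgHom, pow_iterate, ZMod.card]
  set π := Ideal.Quotient.mk P with hπ
  have h1 : (π (z p K)) ^ (l ^ (n : ℕ) + 1) = 1 := by
    rw [pow_succ, ← hpow, hτ, ← map_mul, sg_neg_z, map_one]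
  have h2 := orderOf_dvd_of_pow_eq_one h1
  rw [orderOf_mk_z hp2 hl hlp hP hlP] at h2
  have h3 : (l : ZMod p) ^ (n : ℕ) = -1 := by
    have h4 := (ZMod.natCast_eq_zero_iff _ _).2 h2
    push_cast at h4
    exact eq_neg_of_add_eq_zero_left h4
  have h4 : (l : ZMod p) ^ (2 * (n : ℕ)) = 1 := by
    rw [mul_comm, pow_mul, h3]; norm_num
  have h5 := orderOf_dvd_of_pow_eq_one h4
  have h6 : orderOf (l : ZMod p) ∣ (n : ℕ) :=
    (Nat.Coprime.dvd_of_dvd_mul_left ((Nat.coprime_comm.1 (Nat.coprime_two_left.2 hodd))) h5)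
  have h7 := orderOf_dvd_iff_pow_eq_one.1 h6
  rw [h7] at h3
  have h8 : ((2 : ℕ) : ZMod p) = 0 := by
    push_cast
    linear_combination h3
  rw [ZMod.natCast_eq_zero_iff] at h8
  have := Nat.le_of_dvd (by norm_num) h8
  omega

theorem exists_transversal {α : Type*} [DecidableEq α] (σ : α → α) (hσ : ∀ x, σ (σ x) = x) :
    ∀ S : Finset α, (∀ x ∈ S, σ x ∈ S) → (∀ x ∈ S, σ x ≠ x) →
      ∃ T ⊆ S, 2 * T.card ≤ S.card ∧ ∀ x ∈ S, x ∈ T ∨ σ x ∈ T := by
  intro S
  induction S using Finset.strongInduction with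
  | H S ih =>
    intro h1 h2
    rcases S.eq_empty_or_nonempty with rfl | ⟨x, hx⟩
    · exact ⟨∅, subset_rfl, by simp, by simp⟩
    · have hx' := h1 x hx
      have hne := h2 x hx
      have hmem : σ x ∈ S.erase x := mem_erase.2 ⟨hne, hx'⟩
      have hc : ((S.erase x).erase (σ x)).card + 2 = S.card := by
        have e1 := card_erase_add_one hx
        have e2 := card_erase_add_one hmem
        omega
      have hsub : (S.erase x).erase (σ x) ⊆ S := (erase_subset _ _).trans (erase_subset _ _)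
      have hss : (S.erase x).erase (σ x) ⊂ S := by
        refine ⟨hsub, fun h => ?_⟩
        have := card_le_card h
        omega
      obtain ⟨T, hT, hTc, hTx⟩ := ih _ hss
        (by
          intro y hy
          rw [mem_erase, mem_erase] at hy ⊢
          refine ⟨?_, ?_, h1 y hy.2.2⟩
          · intro h
            apply hy.2.1
            rw [← hσ y, h, hσ]
          · intro h
            apply hy.1
            rw [← h, hσ])
        (by
          intro y hy
          exact h2 y (hsub hy))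
      refine ⟨insert x T, ?_, ?_, ?_⟩
      · intro y hy
        rcases mem_insert.1 hy with rfl | hy
        · exact hx
        · exact hsub (hT hy)
      · have := card_insert_le x T
        omega
      · intro y hy
        by_cases hyx : y = x
        · exact Or.inl (by rw [hyx]; exact mem_insert_self _ _)
        by_cases hyx' : y = σ x
        · right
          rw [hyx', hσ]
          exact mem_insert_self _ _
        · rcases hTx y (mem_erase.2 ⟨hyx', mem_erase.2 ⟨hyx, hy⟩⟩) with h | h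
          · exact Or.inl (mem_insert_of_mem h)
          · exact Or.inr (mem_insert_of_mem h)

/-- uniqueness of `r`-th roots with a given product with the conjugate, if `l ^ g ≡ -1` mod `p` -/
theorem sub_mem_of_good' {l r : ℕ} (hl : l.Prime) (hr : r.Prime) {P : Ideal (𝓞 K)}
    (hP : P.IsMaximal) (hlP : (l : 𝓞 K) ∈ P) {g : ℕ} (hg : (l : ZMod p) ^ g = -1)
    (hgood : ¬ r ∣ l ^ g + 1) {a b : 𝓞 K} (ha : a ∉ P) (hab : a ^ r - b ^ r ∈ P)
    (hn : a * sg p K (-1) a = b * sg p K (-1) b) : a - b ∈ P := by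
  let k := 𝓞 K ⧸ P
  let _ : Field k := Ideal.Quotient.field P
  let π : 𝓞 K →+* k := Ideal.Quotient.mk P
  have hπa : π a ≠ 0 := by
    rw [Ne, Ideal.Quotient.eq_zero_iff_mem]
    exact ha
  have : CharP k l := charP_quot hl hP hlP
  have : Fact l.Prime := ⟨hl⟩
  have hfrob : (iterateFrobenius k l g).comp π = π.comp (sg p K (-1) : 𝓞 K →+* 𝓞 K) := by
    apply hom_ext' (p := p)
    have hz0 : π (z p K) ≠ 0 := by
      intro h0
      have h1 : (π (z p K)) ^ p = 1 := by rw [← map_pow, (z_prim p K).pow_eq_one, map_one]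
      rw [h0, zero_pow hp.out.ne_zero] at h1
      exact zero_ne_one h1
    have h2 : p ∣ l ^ g + 1 := by
      rw [← ZMod.natCast_eq_zero_iff]
      push_cast
      rw [hg]; ring
    have h3 : (π (z p K)) ^ (l ^ g) * π (z p K) = 1 := by
      obtain ⟨c, hc⟩ := h2
      rw [← pow_succ, ← map_pow, hc, pow_mul, (z_prim p K).pow_eq_one, one_pow, map_one]
    have h4 : π (sg p K (-1) (z p K)) * π (z p K) = 1 := by
      rw [← map_mul, sg_neg_z, map_one]
    change (iterateFrobenius k l g) (π (z p K)) = π (sg p K (-1) (z p K))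
    rw [iterateFrobenius_def]
    exact mul_right_cancel₀ hz0 (h3.trans h4.symm)
  have hfr : ∀ x : 𝓞 K, π (sg p K (-1) x) = (π x) ^ (l ^ g) := by
    intro x
    have := congrArg (fun g : 𝓞 K →+* k => g x) hfrob
    simp only [RingHom.comp_apply, iterateFrobenius_def] at this
    exact this.symm
  have hab' : (π a) ^ r = (π b) ^ r := by
    have := Ideal.Quotient.eq_zero_iff_mem.2 hab
    rw [map_sub, map_pow, map_pow] at this
    exact sub_eq_zero.1 this
  have hπb : π b ≠ 0 := by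
    intro h0
    rw [h0, zero_pow hr.ne_zero] at hab'
    exact hπa (pow_eq_zero_iff hr.ne_zero |>.1 hab')
  have hab2 : (π a) ^ (l ^ g + 1) = (π b) ^ (l ^ g + 1) := by
    have h1 := congrArg π hn
    rw [map_mul, map_mul, hfr, hfr] at h1
    rw [pow_succ, pow_succ, mul_comm, mul_comm ((π b) ^ _)]
    exact h1
  rw [← Ideal.Quotient.eq_zero_iff_mem, map_sub, sub_eq_zero]
  change π a = π b
  have h1 : (π a / π b) ^ r = 1 := by rw [div_pow, hab', div_self (pow_ne_zero _ hπb)]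
  have h2 : (π a / π b) ^ (l ^ g + 1) = 1 := by
    rw [div_pow, hab2, div_self (pow_ne_zero _ hπb)]
  have h3 : (π a / π b) ^ (Nat.gcd r (l ^ g + 1)) = 1 := pow_gcd_eq_one.2 ⟨h1, h2⟩
  rw [(Nat.Prime.coprime_iff_not_dvd hr).2 hgood, pow_one] at h3
  exact (div_eq_one_iff_eq hπb).1 h3

/-- passing to the conjugate prime -/
theorem sub_mem_of_cj {P : Ideal (𝓞 K)} (hP : P.IsMaximal) {a b : 𝓞 K}
    (ha : sg p K (-1) a ∉ P) (hab : a - b ∈ cj (p := p) P)
    (hn : a * sg p K (-1) a = b * sg p K (-1) b) : a - b ∈ P := by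
  rw [mem_cj, map_sub] at hab
  have h1 : (a - b) * sg p K (-1) a ∈ P := by
    have h2 : (a - b) * sg p K (-1) a = (-b) * (sg p K (-1) a - sg p K (-1) b) := by
      linear_combination hn
    rw [h2]
    exact P.mul_mem_left _ hab
  rcases hP.isPrime.mem_or_mem h1 with h | h
  · exact h
  · exact absurd h ha

theorem finite_over' {l : ℕ} (hl : l.Prime) :
    ((Ideal.span {(l : ℤ)}).primesOver (𝓞 K)).Finite := by
  have hprime : (Ideal.span {(l : ℤ)}).IsPrime :=
    (Ideal.span_singleton_prime (by exact_mod_cast hl.ne_zero)).2 (Nat.prime_iff_prime_int.1 hl)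
  exact Algebra.QuasiFinite.finite_primesOver _

/-- the finite set of primes above an exceptional prime to be considered -/
theorem exists_T (hp2 : 2 < p) {l : ℕ} (hl : l.Prime) (hlp : l ≠ p) :
    ∃ T : Finset (Ideal (𝓞 K)), T.card ≤ (p - 1) / 2 / ordPM p l ∧
      (∀ P ∈ T, P.IsPrime ∧ (l : 𝓞 K) ∈ P) ∧
      ∀ P : Ideal (𝓞 K), P.IsMaximal → (l : 𝓞 K) ∈ P → P ∈ T ∨ cj (p := p) P ∈ T := by
  classical
  obtain ⟨hg0, hgd, hcases⟩ := ord_cases hl hlp (by omega)
  set S := (finite_over' (K := K) hl).toFinset with hS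
  have hScard : S.card = (p - 1) / orderOf (l : ZMod p) := by
    rw [hS, ← Set.ncard_eq_toFinset_card _ (finite_over' (K := K) hl), ncard_over K hl hlp]
  have hlne : (Ideal.span {(l : ℤ)}) ≠ ⊥ := by
    rw [Ne, Ideal.span_singleton_eq_bot]
    exact_mod_cast hl.ne_zero
  have hSmem : ∀ P : Ideal (𝓞 K), P ∈ S ↔ P.IsMaximal ∧ (l : 𝓞 K) ∈ P := by
    intro P
    rw [hS, Set.Finite.mem_toFinset]
    constructor
    · intro hP
      have h1 : (l : ℤ) ∈ P.under ℤ := by
        rw [← hP.2.over]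
        exact Ideal.mem_span_singleton_self _
      have h2 : (l : 𝓞 K) ∈ P := by
        have : algebraMap ℤ (𝓞 K) (l : ℤ) ∈ P := h1
        simpa using this
      refine ⟨hP.1.isMaximal ?_, h2⟩
      rintro rfl
      have h3 : ((l : ℕ) : 𝓞 K) = 0 := by simpa using h2
      exact hl.ne_zero (by exact_mod_cast h3)
    · rintro ⟨hP, hlP⟩
      exact mem_over hl hP hlP
  have hSP : ∀ P ∈ S, P.IsPrime ∧ (l : 𝓞 K) ∈ P := fun P hP =>
    ⟨((hSmem P).1 hP).1.isPrime, ((hSmem P).1 hP).2⟩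
  rcases hcases with ⟨h1, h2, -⟩ | ⟨h1, -⟩
  · obtain ⟨T, hTS, hTc, hT⟩ := exists_transversal (cj (p := p)) cj_cj S
      (by
        intro P hP
        rw [hSmem] at hP ⊢
        exact ⟨cj_isMaximal hP.1, natCast_mem_cj.2 hP.2⟩)
      (by
        intro P hP
        rw [hSmem] at hP
        exact cj_ne hp2 hl hlp h2 hP.1 hP.2)
    refine ⟨T, ?_, fun P hP => hSP P (hTS hP), fun P hP hlP => hT P ((hSmem P).2 ⟨hP, hlP⟩)⟩
    rw [hScard, h1] at hTc
    rw [Nat.div_div_eq_div_mul, mul_comm 2, ← Nat.div_div_eq_div_mul]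
    omega
  · refine ⟨S, ?_, hSP, fun P hP hlP => Or.inl ((hSmem P).2 ⟨hP, hlP⟩)⟩
    rw [hScard, h1, Nat.div_div_eq_div_mul]

end Pool.Agent.Lib.MP_509488_nt.Stick
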