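import Mathlib
import Pool.Agent.Lib.MP_509488_nt.Stick.Defs
import Pool.Agent.Lib.MP_509488_nt.Stick.Prm
import Pool.Agent.Lib.MP_509488_nt.Stick.Prm2

set_option autoImplicit false

namespace Pool.Agent.Lib.MP_509488_nt.Stick

open Finset NumberField IsCyclotomicExtension.Rat

variable {p : ℕ} [hp : Fact p.Prime] {K : Type} [Field K] [NumberField K]
  [hK : IsCyclotomicExtension {p} ℚ K]

/-- the prime `r` if it divides `M`, and `1` otherwise -/
def rho (r : ℕ) (M : ℤ) : ℕ := if (r : ℤ) ∣ M then r else 1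

theorem exists_finset (hp2 : 2 < p) (r : ℕ) (M : ℤ) :
    ∃ Pf : Finset (Ideal (𝓞 K)), Pf.card ≤ excWeight p r M ∧
    (∀ P ∈ Pf, P.IsPrime ∧ (M : 𝓞 K) ∈ P) ∧ ∀ l ∈ excPrimes p r M, ∀ P : Ideal (𝓞 K), P.IsMaximal →
      (l : 𝓞 K) ∈ P → P ∈ Pf ∨ cj (p := p) P ∈ Pf := by
  classical
  have hl : ∀ l ∈ excPrimes p r M, l.Prime ∧ l ≠ p ∧ (l : ℤ) ∣ M := by
    intro l hl
    rw [excPrimes, mem_filter] at hl
    exact ⟨Nat.prime_of_mem_primeFactors hl.1, hl.2.1,
      Int.natCast_dvd.2 (Nat.dvd_of_mem_primeFactors hl.1)⟩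
  have key : ∀ l : ℕ, ∃ T : Finset (Ideal (𝓞 K)), l ∈ excPrimes p r M →
      T.card ≤ (p - 1) / 2 / ordPM p l ∧ (∀ P ∈ T, P.IsPrime ∧ (l : 𝓞 K) ∈ P) ∧
      ∀ P : Ideal (𝓞 K), P.IsMaximal → (l : 𝓞 K) ∈ P → P ∈ T ∨ cj (p := p) P ∈ T := by
    intro l
    by_cases h : l ∈ excPrimes p r M
    · obtain ⟨T, hT⟩ := exists_T (K := K) hp2 (hl l h).1 (hl l h).2.1
      exact ⟨T, fun _ => hT⟩
    · exact ⟨∅, fun h' => absurd h' h⟩
  choose g hg using key
  refine ⟨(excPrimes p r M).biUnion g, ?_, ?_, ?_⟩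
  · refine card_biUnion_le.trans ?_
    unfold excWeight
    exact sum_le_sum fun l hlm => (hg l hlm).1
  · intro P hP
    rw [mem_biUnion] at hP
    obtain ⟨l, hlm, hP⟩ := hP
    obtain ⟨h1, h2⟩ := (hg l hlm).2.1 P hP
    refine ⟨h1, ?_⟩
    obtain ⟨c, hc⟩ := (hl l hlm).2.2
    rw [hc]
    push_cast
    exact P.mul_mem_right _ h2
  · intro l hlm P hP hlP
    rcases (hg l hlm).2.2 P hP hlP with h | h
    · exact Or.inl (mem_biUnion.2 ⟨l, hlm, h⟩)
    · exact Or.inr (mem_biUnion.2 ⟨l, hlm, h⟩)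

/-- a residue of an integer modulo `r` unramified: `r`-th powers determine the residue -/
theorem r_dvd_sub {r : ℕ} (hr : r.Prime) (hrp : r ≠ p) {X X' : 𝓞 K}
    (h : (r : 𝓞 K) ∣ X ^ r - X' ^ r) : (r : 𝓞 K) ∣ X - X' := by
  have : Fact r.Prime := ⟨hr⟩
  have hnu : (r : 𝓞 K) ∈ nonunits (𝓞 K) := by
    intro hu
    have h1 := hu.map (Algebra.norm ℤ)
    have h3 : ((r : ℕ) : 𝓞 K) = algebraMap ℤ (𝓞 K) (r : ℕ) := by simp
    rw [h3, Algebra.norm_algebraMap, RingOfIntegers.rank, IsCyclotomicExtension.Rat.finrank p,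
      Nat.totient_prime hp.out, isUnit_pow_iff (by have := hp.out.two_le; omega)] at h1
    exact (Nat.prime_iff_prime_int.1 hr).not_isUnit h1
  have hchar : CharP (𝓞 K ⧸ (Ideal.span {(r : 𝓞 K)})) r := CharP.quotient (𝓞 K) r hnu
  set mk := Ideal.Quotient.mk (Ideal.span {(r : 𝓞 K)}) with hmk
  have hr0 : (r : ZMod p) ≠ 0 := by
    rw [Ne, ZMod.natCast_eq_zero_iff]
    intro h
    exact hrp ((Nat.prime_dvd_prime_iff_eq hp.out hr).1 h).symm
  let c : (ZMod p)ˣ := Units.mk0 _ hr0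
  have hfrob : (frobenius (𝓞 K ⧸ (Ideal.span {(r : 𝓞 K)})) r).comp mk =
      mk.comp (sg p K c : 𝓞 K →+* 𝓞 K) := by
    apply hom_ext' (p := p)
    change (mk (z p K)) ^ r = mk (sg p K c (z p K))
    rw [sg_z, ← map_pow]
    congr 1
    have h1 : (c : ZMod p).val = r % p := by
      change ((r : ZMod p)).val = r % p
      exact ZMod.val_natCast _ _
    rw [h1]
    conv_lhs => rw [← Nat.mod_add_div r p, pow_add, pow_mul, (z_prim p K).pow_eq_one, one_pow,
      mul_one]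
  have hfr : ∀ x : 𝓞 K, mk (sg p K c x) = (mk x) ^ r := by
    intro x
    have := congrArg (fun g : 𝓞 K →+* _ => g x) hfrob
    exact this.symm
  have h1 : mk (sg p K c X) = mk (sg p K c X') := by
    rw [hfr, hfr, ← map_pow, ← map_pow, Ideal.Quotient.eq, Ideal.mem_span_singleton]
    exact h
  rw [Ideal.Quotient.eq, Ideal.mem_span_singleton, ← map_sub] at h1
  have h2 := map_dvd (sg p K c⁻¹) h1
  rwa [sg_inv_sg, map_natCast] at h2

/-- the pigeonhole step for congruences -/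
theorem exists_cong {r : ℕ} (hr : r.Prime) (hp2 : 2 < p) (hpr : p < r) {M : ℤ} (hM0 : M ≠ 0)
    {ι : Type*} (S : Finset ι) (X : ι → 𝓞 K)
    (hcop : ∀ x ∈ S, IsCoprime (X x) (M : 𝓞 K))
    (hX : ∀ x ∈ S, ∀ x' ∈ S, (M : 𝓞 K) ∣ X x ^ r - X x' ^ r)
    (hn : ∀ x ∈ S, ∀ x' ∈ S, X x * sg p K (-1) (X x) = X x' * sg p K (-1) (X x'))
    (hcard : r ^ excWeight p r M < S.card) :
    ∃ x ∈ S, ∃ x' ∈ S, x ≠ x' ∧ (M : 𝓞 K) ∣ (rho r M : 𝓞 K) * (X x - X x') := by
  classical
  obtain ⟨Pf, hPc, hPp, hPm⟩ := exists_finset (p := p) (K := K) hp2 r M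
  have hdom : ∀ P : Pf, IsDomain (𝓞 K ⧸ P.1) := fun P =>
    (Ideal.Quotient.isDomain_iff_prime P.1).2 (hPp P.1 P.2).1
  have hne : S.Nonempty := card_pos.1 (lt_of_le_of_lt (Nat.zero_le _) hcard)
  obtain ⟨x0, hx0⟩ := hne
  let f : ι → (P : Pf) → 𝓞 K ⧸ P.1 := fun x P => Ideal.Quotient.mk P.1 (X x)
  let t : (P : Pf) → Finset (𝓞 K ⧸ P.1) := fun P => (Polynomial.nthRoots r ((f x0 P) ^ r)).toFinset
  -- every value of `X` is prime to `M`
  have hXM : ∀ x ∈ S, ∀ P : Ideal (𝓞 K), P.IsMaximal → (M : 𝓞 K) ∈ P → X x ∉ P := by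
    intro x hxS P hP hM hx
    obtain ⟨a, b, hab⟩ := hcop x hxS
    apply hP.ne_top
    rw [Ideal.eq_top_iff_one, ← hab]
    exact P.add_mem (P.mul_mem_left _ hx) (P.mul_mem_left _ hM)
  have hmaps : ∀ x ∈ S, f x ∈ (Fintype.piFinset t) := by
    intro x hxS
    rw [Fintype.mem_piFinset]
    intro P
    rw [Multiset.mem_toFinset, Polynomial.mem_nthRoots hr.pos]
    change (Ideal.Quotient.mk P.1 (X x)) ^ r = (Ideal.Quotient.mk P.1 (X x0)) ^ r
    rw [← map_pow, ← map_pow, Ideal.Quotient.eq]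
    obtain ⟨c, hc⟩ := hX x hxS x0 hx0
    rw [hc]
    exact P.1.mul_mem_right _ (hPp P.1 P.2).2
  have hcardt : (Fintype.piFinset t).card ≤ r ^ excWeight p r M := by
    rw [Fintype.card_piFinset]
    calc ∏ P : Pf, (t P).card ≤ ∏ _P : Pf, r := by
          apply prod_le_prod (fun _ _ => Nat.zero_le _)
          intro P _
          exact (Multiset.toFinset_card_le _).trans (Polynomial.card_nthRoots _ _)
      _ = r ^ Pf.card := by rw [prod_const, card_univ, Fintype.card_coe]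
      _ ≤ _ := Nat.pow_le_pow_right hr.pos hPc
  obtain ⟨x, hx, x', hx', hxx', hff⟩ := Finset.exists_ne_map_eq_of_card_lt_of_maps_to
    (s := S) (t := Fintype.piFinset t) (f := f)
    (lt_of_le_of_lt hcardt hcard) (fun x hx => by exact_mod_cast hmaps x hx)
  refine ⟨x, hx, x', hx', hxx', ?_⟩
  have hmem : ∀ P : Ideal (𝓞 K), P.IsMaximal → (M : 𝓞 K) ∈ P → X x - X x' ∈ P := by
    intro P hP hMP
    obtain ⟨l, hl, hlP, hlM⟩ := exists_prime_mem hP hM0 hMP
    have hab : X x ^ r - X x' ^ r ∈ P := by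
      obtain ⟨c, hc⟩ := hX x hx x' hx'
      rw [hc]
      exact P.mul_mem_right _ hMP
    by_cases hlb : l ∈ excPrimes p r M
    · rcases hPm l hlb P hP hlP with h1 | h1
      · have h2 := congrFun hff ⟨P, h1⟩
        exact (Ideal.Quotient.eq).1 h2
      · have h2 := congrFun hff ⟨cj (p := p) P, h1⟩
        refine sub_mem_of_cj hP ?_ ((Ideal.Quotient.eq).1 h2) (hn x hx x' hx')
        intro h3
        refine hXM x hx (cj (p := p) P) (cj_isMaximal hP) ?_ h3
        rw [mem_cj, map_intCast]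
        exact hMP
    · by_cases hlp : l = p
      · exact sub_mem_of_good hl hr hpr hP hlP (fun h => absurd hlp h) (hXM x hx P hP hMP) hab
      · have hlf : l ∈ M.natAbs.primeFactors := by
          rw [Nat.mem_primeFactors]
          exact ⟨hl, Int.natCast_dvd.1 hlM, Int.natAbs_ne_zero.2 hM0⟩
        have hnot : ¬ (p * r ∣ l ^ ordPM p l - 1 ∨ p * r ∣ l ^ ordPM p l + 1) := by
          intro h
          apply hlb
          rw [excPrimes, mem_filter]
          exact ⟨hlf, hlp, h⟩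
        have hcop' : Nat.Coprime p r := (Nat.coprime_primes hp.out hr).2 (by omega)
        obtain ⟨hg0, -, hcases⟩ := ord_cases hl hlp (by omega : p ≠ 2)
        rcases hcases with ⟨h1, -, h3⟩ | ⟨-, h3⟩
        · refine sub_mem_of_good hl hr hpr hP hlP (fun _ hrd => hnot (Or.inl ?_))
            (hXM x hx P hP hMP) hab
          rw [h1] at hrd
          refine hcop'.mul_dvd_of_dvd_of_dvd ?_ hrd
          rw [← ZMod.natCast_eq_zero_iff, Nat.cast_sub (Nat.one_le_pow _ _ hl.pos)]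
          push_cast
          rw [h3, sub_self]
        · refine sub_mem_of_good' hl hr hP hlP h3 (fun hrd => hnot (Or.inr ?_))
            (hXM x hx P hP hMP) hab (hn x hx x' hx')
          refine hcop'.mul_dvd_of_dvd_of_dvd ?_ hrd
          rw [← ZMod.natCast_eq_zero_iff]
          push_cast
          rw [h3]; ring
  set G := ∑ i ∈ range r, X x ^ i * X x' ^ (r - 1 - i) with hG
  -- away from `r`
  have haway : ∀ P : Ideal (𝓞 K), P.IsMaximal → (M : 𝓞 K) ∈ P → (r : 𝓞 K) ∉ P → G ∉ P := by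
    intro P hP hMP hrP hSP
    have h1 := hmem P hP hMP
    obtain ⟨c, hc⟩ := sub_dvd_geom (X x) (X x') r
    have h2 : (r : 𝓞 K) * X x' ^ (r - 1) ∈ P := by
      have h3 : (r : 𝓞 K) * X x' ^ (r - 1) = G - (X x - X x') * c := by
        rw [hG]
        linear_combination -hc
      rw [h3]
      exact P.sub_mem hSP (P.mul_mem_right _ h1)
    rcases hP.isPrime.mem_or_mem h2 with h3 | h3
    · exact hrP h3
    · exact hXM x' hx' P hP hMP (hP.isPrime.mem_of_pow_mem _ h3)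
  have hd := hX x hx x' hx'
  rw [← geom_mul, ← hG] at hd
  unfold rho
  by_cases hrM : (r : ℤ) ∣ M
  · rw [if_pos hrM]
    -- `G = r * G'` with `G'` prime to `M`
    have hrM' : (r : 𝓞 K) ∣ (M : 𝓞 K) := by
      obtain ⟨c, hc⟩ := hrM
      exact ⟨c, by rw [hc]; push_cast; rfl⟩
    obtain ⟨b, hb⟩ := r_dvd_sub hr (by omega : r ≠ p) (hrM'.trans (hX x hx x' hx'))
    have hXx : X x = X x' + (r : 𝓞 K) * b := by linear_combination hb
    have hro : Odd r := hr.odd_of_ne_two (by omega)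
    obtain ⟨c, hc⟩ := odd_sq_dvd_geom_sum₂_sub (a := X x') (b := b) hro
    rw [← hXx, ← hG] at hc
    have hG' : G = (r : 𝓞 K) * (X x' ^ (r - 1) + r * c) := by linear_combination hc
    have hcopS : IsCoprime (X x' ^ (r - 1) + r * c) (M : 𝓞 K) := by
      by_contra hV
      rw [← Ideal.isCoprime_span_singleton_iff, Ideal.isCoprime_iff_sup_eq] at hV
      obtain ⟨P, hP, hVP⟩ := Ideal.exists_le_maximal _ hV
      have hSP : (X x' ^ (r - 1) + r * c) ∈ P :=
        hVP (Ideal.mem_sup_left (Ideal.mem_span_singleton_self _))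
      have hMP : (M : 𝓞 K) ∈ P := hVP (Ideal.mem_sup_right (Ideal.mem_span_singleton_self _))
      by_cases hrP : (r : 𝓞 K) ∈ P
      · have h1 : X x' ^ (r - 1) ∈ P := by
          have h2 : X x' ^ (r - 1) = (X x' ^ (r - 1) + r * c) - r * c := by ring
          rw [h2]
          exact P.sub_mem hSP (P.mul_mem_right _ hrP)
        exact hXM x' hx' P hP hMP (hP.isPrime.mem_of_pow_mem _ h1)
      · apply haway P hP hMP hrP
        rw [hG']
        exact P.mul_mem_left _ hSP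
    rw [hG', ← mul_assoc] at hd
    have h1 := hcopS.symm.dvd_of_dvd_mul_right hd
    rwa [mul_comm] at h1
  · rw [if_neg hrM, Nat.cast_one, one_mul]
    have hcopS : IsCoprime G (M : 𝓞 K) := by
      by_contra hV
      rw [← Ideal.isCoprime_span_singleton_iff, Ideal.isCoprime_iff_sup_eq] at hV
      obtain ⟨P, hP, hVP⟩ := Ideal.exists_le_maximal _ hV
      have hSP : G ∈ P := hVP (Ideal.mem_sup_left (Ideal.mem_span_singleton_self _))
      have hMP : (M : 𝓞 K) ∈ P := hVP (Ideal.mem_sup_right (Ideal.mem_span_singleton_self _))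
      exact haway P hP hMP (fun h3 => hrM (dvd_of_mem hr hP.ne_top h3 hMP)) hSP
    exact hcopS.symm.dvd_of_dvd_mul_right hd

end Pool.Agent.Lib.MP_509488_nt.Stick
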