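import Mathlib
import Pool.Agent.Lib.MP_509488_nt.Stick.Fam
import Pool.Agent.Lib.MP_509488_nt.Stick.Pig

set_option autoImplicit false

namespace Pool.Agent.Lib.MP_509488_nt.Stick

open Finset NumberField IsCyclotomicExtension.Rat

variable {p : ℕ} [hp : Fact p.Prime] {K : Type} [Field K] [NumberField K]
  [hK : IsCyclotomicExtension {p} ℚ K]

theorem prod_norm_phi (D : 𝓞 K) (φ : 𝓞 K →+* ℂ) :
    ∏ c : (ZMod p)ˣ, ‖φ (sg p K c D)‖ = ((Algebra.norm ℤ D).natAbs : ℝ) := by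
  have h4 : ∏ c : (ZMod p)ˣ, ‖φ (sg p K c D)‖ = |((Algebra.norm ℤ D : ℤ) : ℝ)| := by
    rw [← _root_.norm_prod univ (fun c : (ZMod p)ˣ => φ (sg p K c D)), ← map_prod, ← norm_eq,
      map_intCast, Complex.norm_intCast]
  rw [h4, Nat.cast_natAbs, Int.cast_abs]

theorem absNorm_int (M : ℤ) : Ideal.absNorm (Ideal.span {(M : 𝓞 K)}) = M.natAbs ^ (p - 1) := by
  rw [Ideal.absNorm_span_singleton]
  have h3 : (M : 𝓞 K) = algebraMap ℤ (𝓞 K) M := by simp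
  rw [h3, Algebra.norm_algebraMap, Int.natAbs_pow, RingOfIntegers.rank,
    IsCyclotomicExtension.Rat.finrank p, Nat.totient_prime hp.out]

theorem norm_ge {I : Ideal (𝓞 K)} {D : 𝓞 K} (hD : D ≠ 0) {m : (ZMod p)ˣ → ℕ}
    (hI : (∏ e : (ZMod p)ˣ, (I.map (sg p K e)) ^ m e) ∣ Ideal.span {D}) {M : ℤ} {ρ : ℕ}
    (hρ : ρ ≠ 0) (hM : (M : 𝓞 K) ∣ (ρ : 𝓞 K) * D)
    (hc : IsCoprime ((Ideal.absNorm I : ℕ) : 𝓞 K) (M : 𝓞 K)) (φ : 𝓞 K →+* ℂ) :
    (Ideal.absNorm I : ℝ) ^ (∑ e, m e) * |(M : ℝ)| ^ (p - 1) ≤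
      (ρ : ℝ) ^ (p - 1) * ∏ c : (ZMod p)ˣ, ‖φ (sg p K c D)‖ := by
  have h1 : IsCoprime (∏ e : (ZMod p)ˣ, (I.map (sg p K e)) ^ m e) (Ideal.span {(M : 𝓞 K)}) := by
    apply IsCoprime.prod_left
    intro e _
    apply IsCoprime.pow_left
    have h2 : IsCoprime (Ideal.span {((Ideal.absNorm I : ℕ) : 𝓞 K)}) (Ideal.span {(M : 𝓞 K)}) :=
      (Ideal.isCoprime_span_singleton_iff _ _).2 hc
    refine h2.of_isCoprime_of_dvd_left ?_
    rw [Ideal.dvd_span_singleton, mem_map, map_natCast]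
    exact Ideal.absNorm_mem I
  have h2 : Ideal.span {(M : 𝓞 K)} ∣ Ideal.span {(ρ : 𝓞 K) * D} := by
    rw [Ideal.dvd_span_singleton, Ideal.mem_span_singleton]
    exact hM
  have h3 : (∏ e : (ZMod p)ˣ, (I.map (sg p K e)) ^ m e) ∣ Ideal.span {(ρ : 𝓞 K) * D} := by
    rw [← Ideal.span_singleton_mul_span_singleton]
    exact hI.mul_left _
  have h4 := map_dvd (Ideal.absNorm) (h1.mul_dvd h3 h2)
  have hρ0 : (ρ : 𝓞 K) ≠ 0 := by exact_mod_cast hρ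
  have h5 : Ideal.absNorm (Ideal.span {(ρ : 𝓞 K) * D}) ≠ 0 := by
    rw [Ne, Ideal.absNorm_eq_zero_iff, Ideal.span_singleton_eq_bot]
    exact mul_ne_zero hρ0 hD
  have h6 := Nat.le_of_dvd (Nat.pos_of_ne_zero h5) h4
  have h7 : ((ρ : ℤ) : 𝓞 K) = (ρ : 𝓞 K) := Int.cast_natCast _
  rw [← Ideal.span_singleton_mul_span_singleton, map_mul, map_mul, absNorm_int (p := p), ← h7,
    absNorm_int (p := p), map_prod, Ideal.absNorm_span_singleton, Int.natAbs_natCast] at h6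
  simp_rw [map_pow, absNorm_map] at h6
  rw [prod_pow_eq_pow_sum] at h6
  rw [prod_norm_phi]
  have h8 : |(M : ℝ)| = (M.natAbs : ℝ) := by rw [Nat.cast_natAbs, Int.cast_abs]
  rw [h8]
  exact_mod_cast h6

omit [NumberField K] hK in
theorem norm_XX {B : (ZMod p)ˣ → 𝓞 K} {d : ℤ}
    (hB : ∀ a (φ : 𝓞 K →+* ℂ), ‖φ (B a)‖ ^ 2 = d) {k : ℕ} (a : Fin k → (ZMod p)ˣ) {n : ℕ}
    {x : Fin k → ℕ} (hx : ∀ i, x i ≤ n) (φ : 𝓞 K →+* ℂ) :
    ‖φ (XX a B n x)‖ = Real.sqrt ((d : ℝ) ^ (n * k)) := by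
  have h1 : ‖φ (XX a B n x)‖ ^ 2 = (d : ℝ) ^ (n * k) := by
    unfold XX
    rw [map_prod, _root_.norm_prod, ← prod_pow]
    have h2 : (d : ℝ) ^ (n * k) = ∏ _i : Fin k, (d : ℝ) ^ n := by
      rw [prod_const, card_univ, Fintype.card_fin, ← pow_mul]
    rw [h2]
    apply prod_congr rfl
    intro i _
    rw [map_mul, map_pow, map_pow, norm_mul, norm_pow, norm_pow, mul_pow, ← pow_mul, ← pow_mul,
      mul_comm (x i) 2, mul_comm (n - x i) 2, pow_mul, pow_mul, hB, hB, ← pow_add,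
      Nat.add_sub_cancel' (hx i)]
  rw [← h1, Real.sqrt_sq (norm_nonneg _)]

/-- abstract properties of the system of `r`-th roots -/
structure Sys (d : ℤ) (I : Ideal (𝓞 K)) (B : (ZMod p)ˣ → 𝓞 K) : Prop where
  hd : 0 < d
  hI : (Ideal.absNorm I : ℤ) = d
  hspan : ∀ a, Ideal.span {B a} = ∏ e ∈ HS a, I.map (sg p K e)
  hnorm : ∀ a (φ : 𝓞 K →+* ℂ), ‖φ (B a)‖ ^ 2 = d
  hinj : ∀ {k : ℕ} {a : Fin k → (ZMod p)ˣ}, Indep a → ∀ {n : ℕ} {x x' : Fin k → ℕ},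
    (∀ i, x i ≤ n) → (∀ i, x' i ≤ n) → XX a B n x = XX a B n x' → x = x'

section
variable {d : ℤ} {I : Ideal (𝓞 K)} {B : (ZMod p)ˣ → 𝓞 K}

theorem Sys.sub_ne_zero (hS : Sys d I B) {k : ℕ}
    {a : Fin k → (ZMod p)ˣ} (ha : Indep a) {n : ℕ} {x x' : Fin k → Fin (n + 1)} (h : x ≠ x') :
    XX a B n (fun i => (x i : ℕ)) - XX a B n (fun i => (x' i : ℕ)) ≠ 0 := by
  intro h0
  apply h
  have h1 := hS.hinj ha (n := n) (fun i => Nat.le_of_lt_succ (x i).2)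
    (fun i => Nat.le_of_lt_succ (x' i).2) (sub_eq_zero.1 h0)
  funext i
  exact Fin.ext (congrFun h1 i)

theorem Sys.norm_sub_le (hS : Sys d I B) {k : ℕ}
    (a : Fin k → (ZMod p)ˣ) {n : ℕ} {x x' : Fin k → ℕ} (hx : ∀ i, x i ≤ n) (hx' : ∀ i, x' i ≤ n)
    (φ : 𝓞 K →+* ℂ) (c : (ZMod p)ˣ) :
    ‖φ (sg p K c (XX a B n x - XX a B n x'))‖ ≤ 2 * Real.sqrt ((d : ℝ) ^ (n * k)) := by
  have h1 := norm_XX hS.hnorm a hx (φ.comp (sg p K c : 𝓞 K →+* 𝓞 K))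
  have h2 := norm_XX hS.hnorm a hx' (φ.comp (sg p K c : 𝓞 K →+* 𝓞 K))
  rw [map_sub, map_sub]
  refine (_root_.norm_sub_le _ _).trans ?_
  change ‖φ (sg p K c (XX a B n x))‖ = _ at h1
  change ‖φ (sg p K c (XX a B n x'))‖ = _ at h2
  rw [h1, h2]
  linarith

variable (K) in
omit hp hK in
theorem exists_phi : ∃ _φ : 𝓞 K →+* ℂ, True := by
  obtain ⟨φ⟩ : Nonempty (K →+* ℂ) := inferInstance
  exact ⟨φ.comp (algebraMap (𝓞 K) K), trivial⟩

/-- the product with the complex conjugate is constant -/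
theorem Sys.conj_eq (hS : Sys d I B) {k : ℕ} (a : Fin k → (ZMod p)ˣ) {n : ℕ} {x : Fin k → ℕ}
    (hx : ∀ i, x i ≤ n) : XX a B n x * sg p K (-1) (XX a B n x) = ((d ^ (n * k) : ℤ) : 𝓞 K) := by
  obtain ⟨φ, -⟩ := exists_phi K
  apply phi_injective (p := p) φ
  rw [map_mul, phi_conj, Complex.mul_conj', norm_XX hS.hnorm a hx φ, map_intCast]
  have h0 : (0 : ℝ) < d := by exact_mod_cast hS.hd
  have h1 : (Real.sqrt ((d : ℝ) ^ (n * k))) ^ 2 = (d : ℝ) ^ (n * k) :=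
    Real.sq_sqrt (by positivity)
  push_cast
  rw [← Complex.ofReal_pow, h1]
  push_cast
  rfl

/-- the ideal generated by `XX` -/
theorem Sys.span_XX (hS : Sys d I B) (hp2 : p ≠ 2) {k : ℕ} (a : Fin k → (ZMod p)ˣ) {n : ℕ}
    {x : Fin k → ℕ} (hx : ∀ i, x i ≤ n) :
    Ideal.span {XX a B n x} = ∏ e : (ZMod p)ˣ, (I.map (sg p K e)) ^ Ex a n x e := by
  let sp : 𝓞 K →* Ideal (𝓞 K) :=
    { toFun := fun x => Ideal.span {x}
      map_one' := Ideal.span_singleton_one.trans Ideal.one_eq_top.symm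
      map_mul' := fun x y => (Ideal.span_singleton_mul_span_singleton x y).symm }
  have h1 : Ideal.span {XX a B n x} = XX a (fun c => Ideal.span {B c}) n x := map_XX a B n x sp
  have h2 := XX_pow hp2 a (r := 1) (f := fun e => I.map (sg p K e)) (g := 1)
    (B := fun c => Ideal.span {B c}) (fun c => by rw [pow_one, mul_one, hS.hspan]) n x hx
  rw [pow_one, one_pow, mul_one] at h2
  rw [h1, h2]

theorem Sys.gcd_dvd (hS : Sys d I B) (hp2 : p ≠ 2) {k : ℕ} (a : Fin k → (ZMod p)ˣ) {n : ℕ}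
    {x x' : Fin k → ℕ} (hx : ∀ i, x i ≤ n) (hx' : ∀ i, x' i ≤ n) :
    (∏ e : (ZMod p)ˣ, (I.map (sg p K e)) ^ min (Ex a n x e) (Ex a n x' e)) ∣
      Ideal.span {XX a B n x - XX a B n x'} := by
  rw [Ideal.dvd_span_singleton]
  apply Ideal.sub_mem
  · rw [← Ideal.dvd_span_singleton, hS.span_XX hp2 a hx]
    exact prod_dvd_prod_of_dvd _ _ fun e _ => pow_dvd_pow _ (min_le_left _ _)
  · rw [← Ideal.dvd_span_singleton, hS.span_XX hp2 a hx']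
    exact prod_dvd_prod_of_dvd _ _ fun e _ => pow_dvd_pow _ (min_le_right _ _)

omit hp [NumberField K] hK in
theorem two_sum_min {n k t : ℕ} [hp : Fact p.Prime] (hp2 : p ≠ 2) (a : Fin k → (ZMod p)ˣ)
    {x x' : Fin k → ℕ}
    (hx : ∀ i, x i ≤ n) (hx' : ∀ i, x' i ≤ n)
    (ht : ∑ e, |(Ex a n x e : ℤ) - Ex a n x' e| ≤ ((p - 1 : ℕ) : ℤ) * t) :
    n * k * (p - 1) ≤ 2 * (∑ e, min (Ex a n x e) (Ex a n x' e)) + (p - 1) * t := by
  have h1 := sum_Ex hp2 a hx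
  have h2 := sum_Ex hp2 a hx'
  have hpo : 2 * ((p - 1) / 2) = p - 1 := by
    obtain ⟨m, hm⟩ := hp.out.odd_of_ne_two hp2
    omega
  have h3 : ∀ e : (ZMod p)ˣ, (2 * (min (Ex a n x e) (Ex a n x' e) : ℕ) : ℤ) +
      |(Ex a n x e : ℤ) - Ex a n x' e| = (Ex a n x e : ℤ) + Ex a n x' e := by
    intro e
    rcases le_total (Ex a n x e) (Ex a n x' e) with h | h
    · rw [min_eq_left h, abs_of_nonpos (by omega)]
      ring
    · rw [min_eq_right h, abs_of_nonneg (by omega)]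
      ring
  have h4 : (2 * ∑ e, ((min (Ex a n x e) (Ex a n x' e) : ℕ) : ℤ)) +
      ∑ e, |(Ex a n x e : ℤ) - Ex a n x' e| =
      ((∑ e, Ex a n x e : ℕ) : ℤ) + ((∑ e, Ex a n x' e : ℕ) : ℤ) := by
    push_cast
    rw [mul_sum, ← sum_add_distrib, ← sum_add_distrib]
    apply sum_congr rfl
    intro e _
    have := h3 e
    push_cast at this
    exact this
  rw [h1, h2] at h4
  have h5 : ((n * k * ((p - 1) / 2) : ℕ) : ℤ) + ((n * k * ((p - 1) / 2) : ℕ) : ℤ) =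
      ((n * k * (p - 1) : ℕ) : ℤ) := by
    rw [← hpo]
    have : 2 * ((p - 1) / 2) / 2 = (p - 1) / 2 := by omega
    rw [this]
    push_cast
    ring
  rw [h5] at h4
  have h6 : ((n * k * (p - 1) : ℕ) : ℤ) ≤
      ((2 * (∑ e, min (Ex a n x e) (Ex a n x' e)) + (p - 1) * t : ℕ) : ℤ) := by
    push_cast
    push_cast at h4 ht
    linarith
  exact_mod_cast h6

/-- the congruence bound -/
theorem Sys.bound_cong (hS : Sys d I B) (hp2 : 2 < p) {r : ℕ}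
    (hr : r.Prime) (hpr : p < r) {M : ℤ} (hM0 : M ≠ 0)
    (hcop : ∀ a, IsCoprime (B a) (M : 𝓞 K)) (hB : ∀ a b, (M : 𝓞 K) ∣ B a ^ r - B b ^ r)
    {t : ℕ} (hF : Fam p t (r ^ excWeight p r M)) :
    M ^ 2 ≤ 4 * (rho r M : ℤ) ^ 2 * d ^ t := by
  have hp2' : p ≠ 2 := by omega
  obtain ⟨k, n, a, S, ha, hcard, hdist⟩ := hF
  have hle : ∀ x : Fin k → Fin (n + 1), ∀ i, ((fun i => (x i : ℕ)) : Fin k → ℕ) i ≤ n :=
    fun x i => Nat.le_of_lt_succ (x i).2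
  -- the congruences
  have hmod : ∀ a b, (Ideal.Quotient.mk (Ideal.span {(M : 𝓞 K)}) (B a)) ^ r =
      (Ideal.Quotient.mk (Ideal.span {(M : 𝓞 K)}) (B b)) ^ r := by
    intro a b
    rw [← map_pow, ← map_pow, Ideal.Quotient.eq, Ideal.mem_span_singleton]
    exact hB a b
  have hXr : ∀ x : Fin k → Fin (n + 1), (Ideal.Quotient.mk (Ideal.span {(M : 𝓞 K)})
      (XX a B n (fun i => (x i : ℕ)))) ^ r =
      (Ideal.Quotient.mk (Ideal.span {(M : 𝓞 K)}) (B 1)) ^ (r * (n * k)) := by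
    intro x
    rw [map_XX]
    unfold XX
    rw [← prod_pow]
    have h2 : (Ideal.Quotient.mk (Ideal.span {(M : 𝓞 K)}) (B 1)) ^ (r * (n * k)) =
        ∏ _i : Fin k, ((Ideal.Quotient.mk (Ideal.span {(M : 𝓞 K)}) (B 1)) ^ r) ^ n := by
      rw [prod_const, card_univ, Fintype.card_fin, ← pow_mul, ← pow_mul]
    rw [h2]
    apply prod_congr rfl
    intro i _
    rw [mul_pow, ← pow_mul, ← pow_mul, mul_comm _ r, mul_comm _ r, pow_mul, pow_mul,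
      hmod (a i) 1, hmod (-(a i)) 1, ← pow_add, Nat.add_sub_cancel' (hle x i)]
  have hdM : IsCoprime (d : 𝓞 K) (M : 𝓞 K) := by
    have h1 := hcop 1
    have h2 := h1.map (sg p K (-1) : 𝓞 K →+* 𝓞 K)
    rw [map_intCast] at h2
    have h3 := h1.mul_left h2
    have h4 : B 1 * sg p K (-1) (B 1) = (d : 𝓞 K) := by
      obtain ⟨φ, -⟩ := exists_phi K
      apply phi_injective (p := p) φ
      rw [map_mul, phi_conj, Complex.mul_conj', map_intCast]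
      have h5 := hS.hnorm 1 φ
      exact_mod_cast congrArg (fun x : ℝ => (x : ℂ)) h5
    change IsCoprime (B 1 * sg p K (-1) (B 1)) (M : 𝓞 K) at h3
    rwa [h4] at h3
  obtain ⟨x, hx, x', hx', hxx, hdvd⟩ := exists_cong (p := p) (K := K) hr hp2 hpr hM0 S
    (fun x => XX a B n (fun i => (x i : ℕ)))
    (by
      intro x _
      unfold XX
      apply IsCoprime.prod_left
      intro i _
      exact (hcop _).pow_left.mul_left (hcop _).pow_left)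
    (by
      intro x _ x' _
      rw [← Ideal.mem_span_singleton, ← Ideal.Quotient.eq, map_pow, map_pow, hXr, hXr])
    (by
      intro x _ x' _
      rw [hS.conj_eq a (hle x), hS.conj_eq a (hle x')])
    hcard
  obtain ⟨φ, -⟩ := exists_phi K
  have hρ0 : rho r M ≠ 0 := by
    unfold rho
    split_ifs
    · exact hr.ne_zero
    · exact one_ne_zero
  have hdI : ((Ideal.absNorm I : ℕ) : 𝓞 K) = (d : 𝓞 K) := by
    rw [← hS.hI, Int.cast_natCast]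
  have h1 := norm_ge (p := p) (hS.sub_ne_zero ha hxx) (hS.gcd_dvd hp2' a (hle x) (hle x')) hρ0
    hdvd (by rw [hdI]; exact hdM) φ
  set s := ∑ e, min (Ex a n (fun i => (x i : ℕ)) e) (Ex a n (fun i => (x' i : ℕ)) e) with hs
  have h2s := two_sum_min hp2' a (hle x) (hle x') (hdist x hx x' hx')
  rw [← hs] at h2s
  set R := Real.sqrt ((d : ℝ) ^ (n * k)) with hR
  have hdR : (0 : ℝ) < d := by exact_mod_cast hS.hd
  have hd1 : (1 : ℝ) ≤ d := by exact_mod_cast hS.hd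
  have hRsq : R ^ 2 = (d : ℝ) ^ (n * k) := by
    rw [hR, Real.sq_sqrt]
    positivity
  have h2 : ∏ c : (ZMod p)ˣ, ‖φ (sg p K c (XX a B n (fun i => (x i : ℕ)) -
      XX a B n (fun i => (x' i : ℕ))))‖ ≤ (2 * R) ^ (p - 1) := by
    rw [← card_units', ← card_univ, ← prod_const]
    apply prod_le_prod (fun _ _ => norm_nonneg _)
    intro c _
    exact hS.norm_sub_le a (hle x) (hle x') φ c
  have hdI' : ((Ideal.absNorm I : ℕ) : ℝ) = (d : ℝ) := by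
    rw [← hS.hI, Int.cast_natCast]
  rw [hdI'] at h1
  have hpp : p - 1 ≠ 0 := by omega
  have h3 : (d : ℝ) ^ s * |(M : ℝ)| ^ (p - 1) ≤ ((rho r M : ℝ) * (2 * R)) ^ (p - 1) := by
    refine h1.trans ?_
    rw [mul_pow]
    exact mul_le_mul_of_nonneg_left h2 (by positivity)
  have h4 : ((d : ℝ) ^ s * |(M : ℝ)| ^ (p - 1)) ^ 2 ≤
      (((rho r M : ℝ) * (2 * R)) ^ (p - 1)) ^ 2 :=
    pow_le_pow_left₀ (by positivity) h3 2
  have h5 : ((d : ℝ) ^ s * |(M : ℝ)| ^ (p - 1)) ^ 2 = (d : ℝ) ^ (2 * s) * ((M : ℝ) ^ 2) ^ (p - 1) := by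
    rw [mul_pow, ← pow_mul, mul_comm s 2, ← pow_mul, mul_comm (p - 1) 2, pow_mul (|(M : ℝ)|),
      sq_abs]
  have h6 : (((rho r M : ℝ) * (2 * R)) ^ (p - 1)) ^ 2 =
      (4 * (rho r M : ℝ) ^ 2) ^ (p - 1) * (d : ℝ) ^ (n * k * (p - 1)) := by
    rw [← pow_mul, mul_comm (p - 1) 2, pow_mul, pow_mul (d : ℝ) (n * k), ← hRsq, ← mul_pow]
    congr 1
    ring
  rw [h5, h6] at h4
  have h7 : (d : ℝ) ^ (n * k * (p - 1)) ≤ (d : ℝ) ^ (2 * s) * ((d : ℝ) ^ t) ^ (p - 1) := by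
    rw [← pow_mul, ← pow_add, mul_comm t]
    exact pow_le_pow_right₀ hd1 h2s
  have h8 : (d : ℝ) ^ (2 * s) * ((M : ℝ) ^ 2) ^ (p - 1) ≤
      (d : ℝ) ^ (2 * s) * (4 * (rho r M : ℝ) ^ 2 * (d : ℝ) ^ t) ^ (p - 1) := by
    refine h4.trans ?_
    refine (mul_le_mul_of_nonneg_left h7 (by positivity)).trans (le_of_eq ?_)
    rw [mul_pow _ ((d : ℝ) ^ t)]
    ring
  have h9 := le_of_mul_le_mul_left h8 (by positivity)
  have h10 := le_of_pow_le_pow_left₀ hpp (by positivity) h9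
  exact_mod_cast h10

end

end Pool.Agent.Lib.MP_509488_nt.Stick
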