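import Mathlib
import Pool.Agent.Lib.MP_509488_nt.Stick.Ana
import Pool.Agent.Lib.MP_509488_nt.Stick.Nrm

set_option autoImplicit false

namespace Pool.Agent.Lib.MP_509488_nt.Stick

open Finset NumberField IsCyclotomicExtension.Rat

variable {p : ℕ} [hp : Fact p.Prime] {K : Type} [Field K] [NumberField K]
  [hK : IsCyclotomicExtension {p} ℚ K]

/-- the archimedean bound -/
theorem Sys.bound_arch {d : ℤ} {I : Ideal (𝓞 K)} {B : (ZMod p)ˣ → 𝓞 K} (hS : Sys d I B)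
    (hp5 : 5 ≤ p) {r : ℕ}
    (hr : 0 < r) {c M : ℤ} (hc : c ≠ 0) (hcM : (p + 1) * |M| ≤ |c|) (φ : 𝓞 K →+* ℂ)
    {ξ : (ZMod p)ˣ → ℂ} (hξ : ∀ e, ‖ξ e‖ ≤ ((p : ℝ) + 1) / 2) {G : ℂ} (hG : G ≠ 0)
    (hB : ∀ a, φ (B a) ^ r * G = ∏ e ∈ HS a, ((c : ℂ) + ξ e * M))
    {t : ℕ} (hF : Fam p t r) (hsmall : t * (p - 1) ^ 2 ≤ 4 * r) :
    c ^ 4 ≤ 2 ^ (2 * p + 3) * M ^ 4 * d ^ (t * (p - 1)) := by
  have hp2 : p ≠ 2 := by omega
  obtain ⟨k, n, a, S, ha, hcard, hdist⟩ := hF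
  have hle : ∀ x : Fin k → Fin (n + 1), ∀ i, ((fun i => (x i : ℕ)) : Fin k → ℕ) i ≤ n :=
    fun x i => Nat.le_of_lt_succ (x i).2
  have hd : (0 : ℝ) < d := by exact_mod_cast hS.hd
  have hd1 : (1 : ℝ) ≤ d := by exact_mod_cast hS.hd
  set R := Real.sqrt ((d : ℝ) ^ (n * k)) with hR
  have hR0 : 0 < R := Real.sqrt_pos.2 (by positivity)
  have hR2 : R ^ 2 = (d : ℝ) ^ (n * k) := by
    rw [hR, Real.sq_sqrt]
    positivity
  have hr0 : (0 : ℝ) < r := by exact_mod_cast hr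
  have hc0 : (0 : ℝ) < |(c : ℝ)| := abs_pos.2 (by exact_mod_cast hc)
  have hp1 : ((p - 1 : ℕ) : ℝ) = (p : ℝ) - 1 := by
    rw [Nat.cast_sub (by omega)]; norm_num
  obtain ⟨x, hx, x', hx', hxx, hcl⟩ := pigeon S hr hcard (u := c) (v := M) hc
    (T := ((p : ℝ) + 1) / 2) (by positivity)
    (by
      have : ((p : ℝ) + 1) * |(M : ℝ)| ≤ |(c : ℝ)| := by exact_mod_cast hcM
      linarith) ξ hξ (fun x => Ex a n (fun i => (x i : ℕ)))
    (fun x => sum_Ex hp2 a (hle x)) (A := ((p : ℝ) - 1) * t)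
    (by
      intro x hx x' hx'
      have := hdist x hx x' hx'
      rw [← hp1]
      exact_mod_cast this)
    (fun x => φ (XX a B n (fun i => (x i : ℕ)))) (G ^ (n * k)) (pow_ne_zero _ hG)
    (by
      intro x
      rw [map_XX]
      exact XX_pow hp2 a hB n _ (hle x)) (R := R) hR0
    (fun x => norm_XX hS.hnorm a (hle x) φ)
  rw [← map_sub] at hcl
  have hgcd := hS.gcd_dvd hp2 a (hle x) (hle x')
  set s := ∑ e, min (Ex a n (fun i => (x i : ℕ)) e) (Ex a n (fun i => (x' i : ℕ)) e) with hs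
  have h2s := two_sum_min hp2 a (hle x) (hle x') (hdist x hx x' hx')
  rw [← hs] at h2s
  set D := XX a B n (fun i => (x i : ℕ)) - XX a B n (fun i => (x' i : ℕ)) with hD
  set δ : ℝ := 9 / 2 * (|(M : ℝ)| / |(c : ℝ)|) with hδ
  have hδ0 : 0 ≤ δ := by positivity
  have hDφ : ‖φ D‖ ≤ R * δ := by
    refine hcl.trans ?_
    apply mul_le_mul_of_nonneg_left _ hR0.le
    rw [div_le_iff₀ hr0, hδ]
    have h2 : (t : ℝ) * ((p : ℝ) - 1) ^ 2 ≤ 4 * r := by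
      rw [← hp1]
      exact_mod_cast hsmall
    have h3 : (5 : ℝ) ≤ p := by exact_mod_cast hp5
    have h4 : 0 ≤ |(M : ℝ)| / |(c : ℝ)| := by positivity
    have h5 : (t : ℝ) * (((p : ℝ) - 1) * ((p : ℝ) + 1)) ≤ 6 * r := by
      have h6 : ((p : ℝ) - 1) * ((p : ℝ) + 1) ≤ 3 / 2 * ((p : ℝ) - 1) ^ 2 := by nlinarith
      have h7 : (0 : ℝ) ≤ t := Nat.cast_nonneg _
      have := mul_le_mul_of_nonneg_left h6 h7
      linarith
    have h8 := mul_le_mul_of_nonneg_right h5 h4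
    nlinarith
  obtain hge := norm_ge (p := p) (hS.sub_ne_zero ha hxx) hgcd (M := 1) (ρ := 1) one_ne_zero
    (by simp) (by rw [Int.cast_one]; exact isCoprime_one_right) φ
  have hdI' : ((Ideal.absNorm I : ℕ) : ℝ) = (d : ℝ) := by
    rw [← hS.hI, Int.cast_natCast]
  rw [Int.cast_one, abs_one, one_pow, Nat.cast_one, one_pow, one_mul, mul_one, ← hD, ← hs,
    hdI'] at hge
  classical
  have hne : (-1 : (ZMod p)ˣ) ≠ 1 := by
    intro h
    have h1 := half_neg hp2 (1 : (ZMod p)ˣ)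
    rw [h] at h1
    by_cases h2 : Half (1 : (ZMod p)ˣ)
    · exact (h1.1 h2) h2
    · exact h2 (h1.2 h2)
  have hprod : ∏ c : (ZMod p)ˣ, ‖φ (sg p K c D)‖ ≤ (R * δ) * ((R * δ) * (2 * R) ^ (p - 3)) := by
    rw [← mul_prod_erase univ _ (mem_univ (1 : (ZMod p)ˣ)),
      ← mul_prod_erase (univ.erase (1 : (ZMod p)ˣ)) _ (mem_erase.2 ⟨hne, mem_univ _⟩)]
    apply mul_le_mul
    · rw [sg_one]; exact hDφ
    · apply mul_le_mul
      · rw [phi_conj, RCLike.norm_conj]; exact hDφ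
      · have hcard : ((univ.erase (1 : (ZMod p)ˣ)).erase (-1)).card = p - 3 := by
          rw [card_erase_of_mem (mem_erase.2 ⟨hne, mem_univ _⟩), card_erase_of_mem (mem_univ _),
            card_univ, card_units']
          omega
        rw [← hcard, ← prod_const]
        apply prod_le_prod (fun _ _ => norm_nonneg _)
        intro e _
        exact hS.norm_sub_le a (hle x) (hle x') φ e
      · exact prod_nonneg (fun _ _ => norm_nonneg _)
      · positivity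
    · exact mul_nonneg (norm_nonneg _) (prod_nonneg (fun _ _ => norm_nonneg _))
    · positivity
  have h1 : (d : ℝ) ^ s ≤ (R * δ) * ((R * δ) * (2 * R) ^ (p - 3)) := hge.trans hprod
  obtain ⟨q, hq⟩ : ∃ q, p = q + 3 := ⟨p - 3, by omega⟩
  have h2 : (R * δ) * ((R * δ) * (2 * R) ^ (p - 3)) = δ ^ 2 * 2 ^ q * R ^ (q + 2) := by
    have : p - 3 = q := by omega
    rw [this]; ring
  rw [h2] at h1
  have h3 : ((d : ℝ) ^ s) ^ 2 ≤ (δ ^ 2 * 2 ^ q * R ^ (q + 2)) ^ 2 :=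
    pow_le_pow_left₀ (by positivity) h1 2
  have h4 : (δ ^ 2 * 2 ^ q * R ^ (q + 2)) ^ 2 = δ ^ 4 * 4 ^ q * (d : ℝ) ^ (n * k * (p - 1)) := by
    have e1 : p - 1 = q + 2 := by omega
    have e2 : (4 : ℝ) ^ q = (2 ^ q) ^ 2 := by rw [← pow_mul, mul_comm, pow_mul]; norm_num
    have e3 : (d : ℝ) ^ (n * k * (p - 1)) = (R ^ (q + 2)) ^ 2 := by
      rw [e1, pow_mul, ← hR2, ← pow_mul, ← pow_mul, mul_comm]
    rw [e2, e3]; ring
  rw [h4, ← pow_mul, mul_comm s 2] at h3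
  have h3' : (d : ℝ) ^ (2 * s) * 1 ≤ (d : ℝ) ^ (2 * s) *
      (δ ^ 4 * 4 ^ q * (d : ℝ) ^ (t * (p - 1))) := by
    rw [mul_one]
    refine h3.trans ?_
    have h5 : (d : ℝ) ^ (n * k * (p - 1)) ≤ (d : ℝ) ^ (2 * s) * (d : ℝ) ^ (t * (p - 1)) := by
      rw [← pow_add, mul_comm t]
      exact pow_le_pow_right₀ hd1 h2s
    refine (mul_le_mul_of_nonneg_left h5 (by positivity)).trans (le_of_eq ?_)
    ring
  have h3 := le_of_mul_le_mul_left h3' (by positivity)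
  have h5 : δ ^ 4 ≤ 512 * (|(M : ℝ)| ^ 4 / |(c : ℝ)| ^ 4) := by
    rw [hδ, mul_pow, ← div_pow]
    apply mul_le_mul_of_nonneg_right _ (by positivity)
    norm_num
  have h6 : (1 : ℝ) ≤ 512 * (|(M : ℝ)| ^ 4 / |(c : ℝ)| ^ 4) * 4 ^ q *
      (d : ℝ) ^ (t * (p - 1)) := by
    refine h3.trans ?_
    apply mul_le_mul_of_nonneg_right _ (by positivity)
    exact mul_le_mul_of_nonneg_right h5 (by positivity)
  have h7 : |(c : ℝ)| ^ 4 ≤ 512 * |(M : ℝ)| ^ 4 * 4 ^ q * (d : ℝ) ^ (t * (p - 1)) := by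
    have h8 := mul_le_mul_of_nonneg_left h6 (by positivity : 0 ≤ |(c : ℝ)| ^ 4)
    rw [mul_one] at h8
    refine h8.trans (le_of_eq ?_)
    field_simp
  have h8 : (2 : ℝ) ^ (2 * p + 3) = 512 * 4 ^ q := by
    rw [hq]
    have : 2 * (q + 3) + 3 = 9 + 2 * q := by ring
    rw [this, pow_add, pow_mul]; norm_num
  have e4 : |(c : ℝ)| ^ 4 = (c : ℝ) ^ 4 := by
    rw [← abs_pow]; exact abs_of_nonneg (by positivity)
  have e5 : |(M : ℝ)| ^ 4 = (M : ℝ) ^ 4 := by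
    rw [← abs_pow]; exact abs_of_nonneg (by positivity)
  rw [e4, e5] at h7
  have h9 : (c : ℝ) ^ 4 ≤ 2 ^ (2 * p + 3) * (M : ℝ) ^ 4 * (d : ℝ) ^ (t * (p - 1)) := by
    rw [h8]
    refine h7.trans (le_of_eq ?_)
    ring
  exact_mod_cast h9

end Pool.Agent.Lib.MP_509488_nt.Stick
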