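import Mathlib
import Pool.Agent.Lib.MP_509488_nt.Stick.Prm2

set_option autoImplicit false

namespace Pool.Agent.Lib.MP_509488_nt.Stick

open Finset

/-- the exceptional primes below `N * (p * r)` in a residue class modulo `p` -/
theorem fiber_card {p r : ℕ} [hp : Fact p.Prime] (hr : r.Prime) (hpr : p < r) (hp2 : 2 < p)
    {M : ℤ} {N : ℕ} (h : ∀ l ∈ excPrimes p r M, l < N * (p * r)) (x : ZMod p) :
    ((excPrimes p r M).filter (fun l : ℕ => (l : ZMod p) = x)).card ≤ orderOf (x ^ 2) * N := by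
  classical
  have hrf : Fact r.Prime := ⟨hr⟩
  set g := orderOf (x ^ 2) with hg
  have hinj : ∀ l l' : ℕ, (l : ZMod p) = (l' : ZMod p) → (l : ZMod r) = (l' : ZMod r) →
      l / (p * r) = l' / (p * r) → l = l' := by
    intro l l' h1 h2 h3
    rw [ZMod.natCast_eq_natCast_iff] at h1 h2
    have hcop : Nat.Coprime p r := (Nat.coprime_primes hp.out hr).2 (by omega)
    have h4 : l ≡ l' [MOD (p * r)] := (Nat.modEq_and_modEq_iff_modEq_mul hcop).1 ⟨h1, h2⟩
    unfold Nat.ModEq at h4
    rw [← Nat.div_add_mod l (p * r), ← Nat.div_add_mod l' (p * r), h3, h4]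
  set ε : ZMod r := if x ^ g = 1 then 1 else -1 with hε
  have hroot : ∀ l ∈ (excPrimes p r M).filter (fun l : ℕ => (l : ZMod p) = x),
      ((l : ZMod r)) ^ g = ε ∧ 0 < g := by
    intro l hl
    rw [mem_filter] at hl
    obtain ⟨hl1, hlx⟩ := hl
    rw [excPrimes, mem_filter] at hl1
    obtain ⟨hlM, hlp, hdvd⟩ := hl1
    have hlprime := Nat.prime_of_mem_primeFactors hlM
    obtain ⟨hg0, -, hcases⟩ := ord_cases hlprime hlp (by omega : p ≠ 2)
    have hgl : ordPM p l = g := by rw [hg, ← hlx]; rfl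
    rw [hgl] at hg0 hcases hdvd
    refine ⟨?_, hg0⟩
    have h1 : 1 ≤ l ^ g := Nat.one_le_pow _ _ hlprime.pos
    have h2p : (1 : ZMod p) ≠ -1 := by
      intro h0
      have h8 : ((2 : ℕ) : ZMod p) = 0 := by push_cast; linear_combination h0
      rw [ZMod.natCast_eq_zero_iff] at h8
      have := Nat.le_of_dvd (by norm_num) h8
      omega
    have e1 : p * r ∣ l ^ g - 1 → (l : ZMod p) ^ g = 1 ∧ (l : ZMod r) ^ g = 1 := by
      intro hd
      constructor
      · have h3 := (ZMod.natCast_eq_zero_iff _ p).2 ((dvd_mul_right p r).trans hd)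
        rw [Nat.cast_sub h1] at h3
        push_cast at h3
        exact sub_eq_zero.1 h3
      · have h3 := (ZMod.natCast_eq_zero_iff _ r).2 ((dvd_mul_left r p).trans hd)
        rw [Nat.cast_sub h1] at h3
        push_cast at h3
        exact sub_eq_zero.1 h3
    have e2 : p * r ∣ l ^ g + 1 → (l : ZMod p) ^ g = -1 ∧ (l : ZMod r) ^ g = -1 := by
      intro hd
      constructor
      · have h3 := (ZMod.natCast_eq_zero_iff _ p).2 ((dvd_mul_right p r).trans hd)
        push_cast at h3
        exact eq_neg_of_add_eq_zero_left h3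
      · have h3 := (ZMod.natCast_eq_zero_iff _ r).2 ((dvd_mul_left r p).trans hd)
        push_cast at h3
        exact eq_neg_of_add_eq_zero_left h3
    rcases hdvd with hd | hd
    · obtain ⟨h3, h4⟩ := e1 hd
      rw [hε, ← hlx, if_pos h3, h4]
    · obtain ⟨h3, h4⟩ := e2 hd
      rw [hε, ← hlx, if_neg (by rw [h3]; exact h2p.symm), h4]
  rcases ((excPrimes p r M).filter (fun l : ℕ => (l : ZMod p) = x)).eq_empty_or_nonempty with h0 | ⟨l0, hl0⟩
  · rw [h0, card_empty]
    exact Nat.zero_le _
  have hg0 := (hroot l0 hl0).2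
  have hmaps : ∀ l ∈ (excPrimes p r M).filter (fun l : ℕ => (l : ZMod p) = x),
      ((l : ZMod r), l / (p * r)) ∈ (Polynomial.nthRoots g ε).toFinset ×ˢ range N := by
    intro l hl
    rw [mem_product, Multiset.mem_toFinset, Polynomial.mem_nthRoots hg0, mem_range]
    refine ⟨(hroot l hl).1, ?_⟩
    have h1 := h l (mem_filter.1 hl).1
    have h2 : 0 < p * r := Nat.mul_pos hp.out.pos hr.pos
    exact (Nat.div_lt_iff_lt_mul h2).2 h1
  calc ((excPrimes p r M).filter (fun l : ℕ => (l : ZMod p) = x)).card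
      ≤ ((Polynomial.nthRoots g ε).toFinset ×ˢ range N).card := by
        refine card_le_card_of_injOn (fun l : ℕ => ((l : ZMod r), l / (p * r)))
          (fun l hl => by exact_mod_cast hmaps l hl) ?_
        intro l hl l' hl' heq
        rw [mem_coe, mem_filter] at hl hl'
        simp only [Prod.mk.injEq] at heq
        exact hinj l l' (hl.2.trans hl'.2.symm) heq.1 heq.2
    _ ≤ g * N := by
        rw [card_product, card_range]
        exact Nat.mul_le_mul_right _ ((Multiset.toFinset_card_le _).trans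
          (Polynomial.card_nthRoots _ _))

/-- the total weight of the exceptional primes, if all are below `N * (p * r)` -/
theorem weight_le_of_lt {p r : ℕ} [hp : Fact p.Prime] (hr : r.Prime) (hpr : p < r) (hp2 : 2 < p)
    {M : ℤ} {N : ℕ} (h : ∀ l ∈ excPrimes p r M, l < N * (p * r)) :
    excWeight p r M ≤ (p - 1) * ((p - 1) / 2 * N) := by
  classical
  have hmaps : ∀ l ∈ excPrimes p r M, (l : ZMod p) ∈ (univ.erase (0 : ZMod p)) := by
    intro l hl
    rw [mem_erase]
    refine ⟨?_, mem_univ _⟩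
    rw [excPrimes, mem_filter] at hl
    rw [Ne, ZMod.natCast_eq_zero_iff]
    intro h0
    exact hl.2.1 ((Nat.prime_dvd_prime_iff_eq hp.out (Nat.prime_of_mem_primeFactors hl.1)).1 h0).symm
  unfold excWeight
  rw [← sum_fiberwise_of_maps_to hmaps]
  have hcard : (univ.erase (0 : ZMod p)).card = p - 1 := by
    rw [card_erase_of_mem (mem_univ _), card_univ, ZMod.card]
  rw [← hcard]
  rw [← smul_eq_mul, ← sum_const]
  apply sum_le_sum
  intro x _
  rw [hcard]
  calc ∑ l ∈ (excPrimes p r M).filter (fun l : ℕ => (l : ZMod p) = x), (p - 1) / 2 / ordPM p l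
      = ∑ _l ∈ (excPrimes p r M).filter (fun l : ℕ => (l : ZMod p) = x),
        (p - 1) / 2 / orderOf (x ^ 2) := by
        apply sum_congr rfl
        intro l hl
        rw [mem_filter] at hl
        rw [← hl.2]
        rfl
    _ = ((excPrimes p r M).filter (fun l : ℕ => (l : ZMod p) = x)).card *
        ((p - 1) / 2 / orderOf (x ^ 2)) := by rw [sum_const, smul_eq_mul]
    _ ≤ orderOf (x ^ 2) * N * ((p - 1) / 2 / orderOf (x ^ 2)) :=
        Nat.mul_le_mul_right _ (fiber_card hr hpr hp2 h x)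
    _ = orderOf (x ^ 2) * ((p - 1) / 2 / orderOf (x ^ 2)) * N := by ring
    _ ≤ (p - 1) / 2 * N := Nat.mul_le_mul_right _ (Nat.mul_div_le _ _)

/-- the weight is at most `(p - 1) / 2` times the number of exceptional primes -/
theorem weight_le_card {p r : ℕ} {M : ℤ} :
    excWeight p r M ≤ (p - 1) / 2 * (excPrimes p r M).card := by
  unfold excWeight
  calc ∑ l ∈ excPrimes p r M, (p - 1) / 2 / ordPM p l
      ≤ ∑ _l ∈ excPrimes p r M, (p - 1) / 2 := sum_le_sum fun l _ => Nat.div_le_self _ _
    _ = _ := by rw [sum_const, smul_eq_mul, mul_comm]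

end Pool.Agent.Lib.MP_509488_nt.Stick
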