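import Mathlib

set_option autoImplicit false

namespace Pool.Agent.Lib.MP_509488_nt.Stick

/-- all powers of small numbers are absorbed by a power of `A = H^(p-1)` -/
theorem absorb {p r N A : ℕ} (hp5 : 5 ≤ p) (hpr : p < r) (hA : (2 * p + 1) ^ r ≤ p * A)
    (hN : N ≤ r) : 2 ^ ((2 * p + 4) * r) * p ^ N ≤ A ^ (2 * p) := by
  have hp0 : 0 < p := by omega
  have h1 : ((2 * p + 1) ^ r) ^ (2 * p) ≤ (p * A) ^ (2 * p) := Nat.pow_le_pow_left hA _
  have h2 : 2 ^ ((2 * p + 4) * r) ≤ (2 * p + 1) ^ (r * p) := by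
    have e1 : (8 : ℕ) ^ (r * p) ≤ (2 * p + 1) ^ (r * p) := Nat.pow_le_pow_left (by omega) _
    have e2 : (8 : ℕ) ^ (r * p) = 2 ^ (3 * (r * p)) := by rw [pow_mul 2 3]; norm_num
    rw [e2] at e1
    refine le_trans (Nat.pow_le_pow_right (by norm_num) ?_) e1
    nlinarith
  have h3 : p ^ (N + 2 * p) ≤ (2 * p + 1) ^ (r * p) := by
    have e1 : p ^ (r * p) ≤ (2 * p + 1) ^ (r * p) := Nat.pow_le_pow_left (by omega) _
    refine le_trans (Nat.pow_le_pow_right hp0 ?_) e1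
    nlinarith
  have h4 : (2 ^ ((2 * p + 4) * r) * p ^ N) * p ^ (2 * p) ≤ A ^ (2 * p) * p ^ (2 * p) := by
    calc (2 ^ ((2 * p + 4) * r) * p ^ N) * p ^ (2 * p)
        = 2 ^ ((2 * p + 4) * r) * p ^ (N + 2 * p) := by rw [pow_add]; ring
      _ ≤ (2 * p + 1) ^ (r * p) * (2 * p + 1) ^ (r * p) := Nat.mul_le_mul h2 h3
      _ = ((2 * p + 1) ^ r) ^ (2 * p) := by rw [← pow_add, ← pow_mul]; congr 1; ring
      _ ≤ (p * A) ^ (2 * p) := h1
      _ = A ^ (2 * p) * p ^ (2 * p) := by rw [mul_pow, mul_comm]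
  exact Nat.le_of_mul_le_mul_right h4 (by positivity)

theorem absorb_aux {p : ℕ} (hp5 : 5 ≤ p) : 2 ^ (10 * p + 20) * p ^ 6 ≤ (2 * p + 1) ^ (5 * p) := by
  induction p, hp5 using Nat.le_induction with
  | base => norm_num
  | succ p hp ih =>
    have e1 : (p + 1) ^ 6 ≤ 2 ^ 6 * p ^ 6 := by
      rw [← mul_pow]
      exact Nat.pow_le_pow_left (by omega) 6
    have e2 : (65536 : ℕ) ≤ (2 * (p + 1) + 1) ^ 5 :=
      le_trans (by norm_num) (Nat.pow_le_pow_left (by omega : 13 ≤ 2 * (p + 1) + 1) 5)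
    have e3 : (2 * p + 1) ^ (5 * p) ≤ (2 * (p + 1) + 1) ^ (5 * p) :=
      Nat.pow_le_pow_left (by omega) _
    calc 2 ^ (10 * (p + 1) + 20) * (p + 1) ^ 6 = 2 ^ 10 * 2 ^ (10 * p + 20) * (p + 1) ^ 6 := by
          rw [← pow_add]; congr 2; ring
      _ ≤ 2 ^ 10 * 2 ^ (10 * p + 20) * (2 ^ 6 * p ^ 6) := Nat.mul_le_mul_left _ e1
      _ = 65536 * (2 ^ (10 * p + 20) * p ^ 6) := by
          norm_num
          ring
      _ ≤ (2 * (p + 1) + 1) ^ 5 * (2 * (p + 1) + 1) ^ (5 * p) :=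
          Nat.mul_le_mul e2 (ih.trans e3)
      _ = _ := by rw [← pow_add]; congr 1; ring

/-- sharper form of `absorb` for `p ^ 2 ≤ r` -/
theorem absorb' {p r N A : ℕ} (hp5 : 5 ≤ p) (hpr : p ^ 2 ≤ r) (hA : (2 * p + 1) ^ r ≤ p * A)
    (hN : N ≤ r) : 2 ^ ((2 * p + 4) * r) * p ^ N ≤ A ^ p := by
  have hp0 : 0 < p := by omega
  have h1 : ((2 * p + 1) ^ r) ^ p ≤ (p * A) ^ p := Nat.pow_le_pow_left hA _
  have h2 : 2 ^ ((2 * p + 4) * r) * p ^ (N + p) ≤ (2 * p + 1) ^ (r * p) := by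
    have e0 : (2 ^ ((2 * p + 4) * r) * p ^ (N + p)) ^ 5 ≤ ((2 * p + 1) ^ (r * p)) ^ 5 := by
      calc (2 ^ ((2 * p + 4) * r) * p ^ (N + p)) ^ 5
          = 2 ^ ((10 * p + 20) * r) * p ^ (5 * (N + p)) := by
            rw [mul_pow, ← pow_mul, ← pow_mul]
            congr 2 <;> ring
        _ ≤ 2 ^ ((10 * p + 20) * r) * p ^ (6 * r) := by
            apply Nat.mul_le_mul_left
            apply Nat.pow_le_pow_right hp0
            nlinarith
        _ = (2 ^ (10 * p + 20) * p ^ 6) ^ r := by rw [mul_pow, ← pow_mul, ← pow_mul]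
        _ ≤ ((2 * p + 1) ^ (5 * p)) ^ r := Nat.pow_le_pow_left (absorb_aux hp5) r
        _ = ((2 * p + 1) ^ (r * p)) ^ 5 := by rw [← pow_mul, ← pow_mul]; congr 1; ring
    exact (Nat.pow_le_pow_iff_left (by norm_num)).1 e0
  have h4 : (2 ^ ((2 * p + 4) * r) * p ^ N) * p ^ p ≤ A ^ p * p ^ p := by
    calc (2 ^ ((2 * p + 4) * r) * p ^ N) * p ^ p
        = 2 ^ ((2 * p + 4) * r) * p ^ (N + p) := by rw [pow_add]; ring
      _ ≤ (2 * p + 1) ^ (r * p) := h2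
      _ = ((2 * p + 1) ^ r) ^ p := by rw [← pow_mul]
      _ ≤ (p * A) ^ p := h1
      _ = A ^ p * p ^ p := by rw [mul_pow, mul_comm]
  exact Nat.le_of_mul_le_mul_right h4 (by positivity)

theorem A_ge {p r A : ℕ} (hp5 : 5 ≤ p) (hpr : p < r) (hA : (2 * p + 1) ^ r ≤ p * A) :
    p ^ 5 ≤ A := by
  have hp0 : 0 < p := by omega
  have h1 : p ^ r ≤ (2 * p + 1) ^ r := Nat.pow_le_pow_left (by omega) _
  have h2 : p * p ^ 5 ≤ p ^ r := by
    rw [← pow_succ']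
    exact Nat.pow_le_pow_right hp0 (by omega)
  exact Nat.le_of_mul_le_mul_left (h2.trans (h1.trans hA)) hp0

/-- final form of the archimedean inequality, small case -/
theorem num_small {p r N H C m d E : ℕ} (hp5 : 5 ≤ p)
    (hdH : d ^ r ≤ p * H ^ (p - 1)) (hHC : H ≤ C + m)
    (hCm : (p + 1) * m ≤ C)
    (habs : 2 ^ ((2 * p + 4) * r) * p ^ (N * (p - 1)) ≤ (H ^ (p - 1)) ^ E)
    (hc : C ^ 4 ≤ 2 ^ (2 * p + 3) * m ^ 4 * d ^ (N * (p - 1))) :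
    H ^ (4 * r) ≤ m ^ (4 * r) * H ^ (N * (p - 1) ^ 2 + E * (p - 1)) := by
  have h67 : 6 * H ≤ 7 * C := by
    have h1 : (p + 1) * (6 * H) ≤ (p + 1) * (7 * C) := by nlinarith
    exact Nat.le_of_mul_le_mul_left h1 (by omega)
  have h2 : H ^ 4 ≤ 2 * C ^ 4 := by
    have h3 : (6 * H) ^ 4 ≤ (7 * C) ^ 4 := Nat.pow_le_pow_left h67 4
    rw [mul_pow, mul_pow] at h3
    norm_num at h3
    omega
  have h3 : H ^ 4 ≤ 2 ^ (2 * p + 4) * m ^ 4 * d ^ (N * (p - 1)) := by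
    refine h2.trans ((Nat.mul_le_mul_left 2 hc).trans (le_of_eq ?_))
    ring
  have h4 : H ^ (4 * r) ≤ 2 ^ ((2 * p + 4) * r) * m ^ (4 * r) * (d ^ r) ^ (N * (p - 1)) := by
    rw [pow_mul]
    refine (Nat.pow_le_pow_left h3 r).trans (le_of_eq ?_)
    rw [mul_pow, mul_pow, ← pow_mul, ← pow_mul, ← pow_mul, ← pow_mul, mul_comm r (N * (p - 1))]
  have h5 : (d ^ r) ^ (N * (p - 1)) ≤ p ^ (N * (p - 1)) * H ^ (N * (p - 1) ^ 2) := by
    refine (Nat.pow_le_pow_left hdH _).trans (le_of_eq ?_)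
    rw [mul_pow, ← pow_mul]
    congr 2
    ring
  calc H ^ (4 * r) ≤ 2 ^ ((2 * p + 4) * r) * m ^ (4 * r) * (d ^ r) ^ (N * (p - 1)) := h4
    _ ≤ 2 ^ ((2 * p + 4) * r) * m ^ (4 * r) * (p ^ (N * (p - 1)) * H ^ (N * (p - 1) ^ 2)) :=
        Nat.mul_le_mul_left _ h5
    _ = m ^ (4 * r) * H ^ (N * (p - 1) ^ 2) * (2 ^ ((2 * p + 4) * r) * p ^ (N * (p - 1))) := by ring
    _ ≤ m ^ (4 * r) * H ^ (N * (p - 1) ^ 2) * (H ^ (p - 1)) ^ E := Nat.mul_le_mul_left _ habs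
    _ = _ := by rw [pow_add, ← pow_mul, mul_comm E]; ring

theorem H_pos {p r H d : ℕ} (hp5 : 5 ≤ p) (hpr : p < r) (hd : 2 * p + 1 ≤ d)
    (hdH : d ^ r ≤ p * H ^ (p - 1)) : 2 ≤ H := by
  have hA : (2 * p + 1) ^ r ≤ p * H ^ (p - 1) := (Nat.pow_le_pow_left hd _).trans hdH
  have hA5 := A_ge hp5 hpr hA
  by_contra hlt
  have h3 : H ≤ 1 := by omega
  have h4 : H ^ (p - 1) ≤ 1 := by
    calc H ^ (p - 1) ≤ 1 ^ (p - 1) := Nat.pow_le_pow_left h3 _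
      _ = 1 := one_pow _
  have h5 : 5 ^ 5 ≤ p ^ 5 := Nat.pow_le_pow_left hp5 5
  norm_num at h5
  omega

/-- final form of the archimedean inequality, large case -/
theorem num_large {p r N H C m d E : ℕ} (hp5 : 5 ≤ p) (hpr : p < r)
    (hd : 2 * p + 1 ≤ d) (hdH : d ^ r ≤ p * H ^ (p - 1)) (hHC : H ≤ C + m)
    (hCm : C < (p + 1) * m) (hE : 5 ≤ E) :
    H ^ (4 * r) ≤ m ^ (4 * r) * H ^ (N * (p - 1) ^ 2 + E * (p - 1)) := by
  have hA : (2 * p + 1) ^ r ≤ p * H ^ (p - 1) := (Nat.pow_le_pow_left hd _).trans hdH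
  have hA5 := A_ge hp5 hpr hA
  have hH0 : 0 < H := by
    have := H_pos hp5 hpr hd hdH
    omega
  have h1 : H ≤ (2 * p + 1) * m := by nlinarith
  have h2 : ((2 * p + 1) ^ r) ^ 4 ≤ (H ^ (p - 1)) ^ E := by
    calc ((2 * p + 1) ^ r) ^ 4 ≤ (p * H ^ (p - 1)) ^ 4 := Nat.pow_le_pow_left hA 4
      _ = p ^ 4 * (H ^ (p - 1)) ^ 4 := by rw [mul_pow]
      _ ≤ (H ^ (p - 1)) * (H ^ (p - 1)) ^ 4 := by
          apply Nat.mul_le_mul_right
          exact le_trans (Nat.pow_le_pow_right (by omega) (by norm_num)) hA5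
      _ = (H ^ (p - 1)) ^ 5 := by ring
      _ ≤ (H ^ (p - 1)) ^ E := Nat.pow_le_pow_right (by positivity) hE
  calc H ^ (4 * r) ≤ ((2 * p + 1) * m) ^ (4 * r) := Nat.pow_le_pow_left h1 _
    _ = m ^ (4 * r) * ((2 * p + 1) ^ r) ^ 4 := by
        rw [mul_pow, ← pow_mul (2 * p + 1), mul_comm r 4, mul_comm]
    _ ≤ m ^ (4 * r) * (H ^ (p - 1)) ^ E := Nat.mul_le_mul_left _ h2
    _ = m ^ (4 * r) * H ^ (E * (p - 1)) := by rw [← pow_mul, mul_comm E]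
    _ ≤ _ := by
        apply Nat.mul_le_mul_left
        exact Nat.pow_le_pow_right hH0 (by omega)

/-- final form of the archimedean inequality -/
theorem num_arch {p r N H C m d E : ℕ} (hp5 : 5 ≤ p) (hpr : p < r) (hm : 0 < m)
    (hd : 2 * p + 1 ≤ d) (hdH : d ^ r ≤ p * H ^ (p - 1)) (hHC : H ≤ C + m) (hE : 5 ≤ E)
    (habs : N * (p - 1) ≤ r →
      2 ^ ((2 * p + 4) * r) * p ^ (N * (p - 1)) ≤ (H ^ (p - 1)) ^ E)
    (hc : (p + 1) * m ≤ C → N * (p - 1) ^ 2 ≤ 4 * r →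
      C ^ 4 ≤ 2 ^ (2 * p + 3) * m ^ 4 * d ^ (N * (p - 1))) :
    H ^ (4 * r) ≤ m ^ (4 * r) * H ^ (N * (p - 1) ^ 2 + E * (p - 1)) := by
  by_cases h1 : (p + 1) * m ≤ C
  · by_cases h2 : N * (p - 1) ^ 2 ≤ 4 * r
    · have hNr : N * (p - 1) ≤ r := by
        have : 4 * (N * (p - 1)) ≤ N * (p - 1) ^ 2 := by
          have e : 4 ≤ p - 1 := by omega
          calc 4 * (N * (p - 1)) = N * (p - 1) * 4 := by ring
            _ ≤ N * (p - 1) * (p - 1) := Nat.mul_le_mul_left _ e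
            _ = _ := by ring
        omega
      exact num_small hp5 hdH hHC h1 (habs hNr) (hc h1 h2)
    · have hH0 : 0 < H := by
        have := H_pos hp5 hpr hd hdH
        omega
      calc H ^ (4 * r) ≤ H ^ (N * (p - 1) ^ 2 + E * (p - 1)) :=
            Nat.pow_le_pow_right hH0 (by omega)
        _ ≤ _ := Nat.le_mul_of_pos_left _ (by positivity)
  · exact num_large hp5 hpr hd hdH hHC (by omega) hE

/-- the combination of the two inequalities -/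
theorem combine {p r t b J H m d κ ρ : ℕ} (hp5 : 5 ≤ p) (hpr : p < r)
    (hd : 2 * p + 1 ≤ d) (hdH : d ^ r ≤ p * H ^ (p - 1)) (hN : b + 2 * t ≤ r)
    (hκ : κ ≤ p) (hρ : ρ ^ 4 ≤ (2 * p + 1) ^ b)
    (h1 : H ^ (4 * r) ≤ m ^ (4 * r) * H ^ J) (h2 : m ^ 2 ≤ 4 * κ ^ 2 * ρ ^ 2 * d ^ t) :
    4 * r ≤ (2 * t + 6 + b) * (p - 1) + J := by
  have hp0 : 0 < p := by omega
  have hA : (2 * p + 1) ^ r ≤ p * H ^ (p - 1) := (Nat.pow_le_pow_left hd _).trans hdH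
  have hA5 := A_ge hp5 hpr hA
  have hH2 := H_pos hp5 hpr hd hdH
  set A := H ^ (p - 1) with hAdef
  have hA0 : 0 < A := lt_of_lt_of_le (by positivity) hA5
  have h3 : m ^ (4 * r) ≤ A ^ (2 * t + 6 + b) := by
    calc m ^ (4 * r) = ((m ^ 2) ^ 2) ^ r := by rw [← pow_mul, ← pow_mul]; congr 1; ring
      _ ≤ ((4 * κ ^ 2 * ρ ^ 2 * d ^ t) ^ 2) ^ r :=
          Nat.pow_le_pow_left (Nat.pow_le_pow_left h2 2) r
      _ = ((2 * κ) ^ 4 * ρ ^ 4) ^ r * (d ^ r) ^ (2 * t) := by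
          rw [← pow_mul d r, mul_comm r (2 * t), pow_mul d (2 * t), ← mul_pow]
          congr 1
          ring
      _ ≤ ((2 * p + 1) ^ 4 * (2 * p + 1) ^ b) ^ r * (p * A) ^ (2 * t) := by
          apply Nat.mul_le_mul
          · apply Nat.pow_le_pow_left
            apply Nat.mul_le_mul _ hρ
            exact Nat.pow_le_pow_left (by omega) 4
          · exact Nat.pow_le_pow_left hdH _
      _ = ((2 * p + 1) ^ r) ^ (4 + b) * (p * A) ^ (2 * t) := by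
          rw [← pow_add, ← pow_mul, ← pow_mul, mul_comm r]
      _ ≤ (p * A) ^ (4 + b) * (p * A) ^ (2 * t) :=
          Nat.mul_le_mul_right _ (Nat.pow_le_pow_left hA _)
      _ = p ^ 4 * p ^ (b + 2 * t) * A ^ (4 + b + 2 * t) := by
          rw [← pow_add, mul_pow, ← pow_add]
          congr 2
          ring
      _ ≤ p ^ 4 * (p * A) * A ^ (4 + b + 2 * t) := by
          apply Nat.mul_le_mul_right
          apply Nat.mul_le_mul_left
          calc p ^ (b + 2 * t) ≤ p ^ r := Nat.pow_le_pow_right hp0 hN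
            _ ≤ (2 * p + 1) ^ r := Nat.pow_le_pow_left (by omega) r
            _ ≤ p * A := hA
      _ = p ^ 5 * A ^ (5 + b + 2 * t) := by ring
      _ ≤ A * A ^ (5 + b + 2 * t) := Nat.mul_le_mul_right _ hA5
      _ = A ^ (2 * t + 6 + b) := by rw [← pow_succ']; congr 1; ring
  have h4 : H ^ (4 * r) ≤ H ^ ((2 * t + 6 + b) * (p - 1) + J) := by
    calc H ^ (4 * r) ≤ m ^ (4 * r) * H ^ J := h1
      _ ≤ A ^ (2 * t + 6 + b) * H ^ J := Nat.mul_le_mul_right _ h3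
      _ = _ := by rw [hAdef, ← pow_mul, ← pow_add, mul_comm (p - 1)]
  exact (Nat.pow_le_pow_iff_right (by omega)).1 h4

/-- the combination in the case `H ≤ 2 * m` -/
theorem combine' {p r t H m d κ : ℕ} (hp5 : 5 ≤ p) (hpr : p < r)
    (hd : 2 * p + 1 ≤ d) (hdH : d ^ r ≤ p * H ^ (p - 1)) (hN : t ≤ r)
    (hκ : κ ≤ p) (h1 : H ≤ 2 * m) (h2 : m ^ 2 ≤ 4 * κ ^ 2 * d ^ t) :
    2 * r ≤ (t + 5) * (p - 1) := by
  have hp0 : 0 < p := by omega
  have hA : (2 * p + 1) ^ r ≤ p * H ^ (p - 1) := (Nat.pow_le_pow_left hd _).trans hdH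
  have hA5 := A_ge hp5 hpr hA
  have hH2 := H_pos hp5 hpr hd hdH
  set A := H ^ (p - 1) with hAdef
  have hA0 : 0 < A := lt_of_lt_of_le (by positivity) hA5
  have h3 : H ^ (2 * r) ≤ A ^ (t + 5) := by
    calc H ^ (2 * r) = (H ^ 2) ^ r := by rw [← pow_mul]
      _ ≤ ((2 * p + 1) ^ 3 * d ^ t) ^ r := by
          apply Nat.pow_le_pow_left
          calc H ^ 2 ≤ (2 * m) ^ 2 := Nat.pow_le_pow_left h1 2
            _ = 4 * m ^ 2 := by ring
            _ ≤ 4 * (4 * κ ^ 2 * d ^ t) := Nat.mul_le_mul_left _ h2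
            _ = 16 * κ ^ 2 * d ^ t := by ring
            _ ≤ (2 * p + 1) ^ 3 * d ^ t := by
                apply Nat.mul_le_mul_right
                have : κ ^ 2 ≤ p ^ 2 := Nat.pow_le_pow_left hκ 2
                nlinarith
      _ = ((2 * p + 1) ^ r) ^ 3 * (d ^ r) ^ t := by
          rw [mul_pow, ← pow_mul, ← pow_mul, ← pow_mul, ← pow_mul, mul_comm 3, mul_comm t]
      _ ≤ (p * A) ^ 3 * (p * A) ^ t :=
          Nat.mul_le_mul (Nat.pow_le_pow_left hA 3) (Nat.pow_le_pow_left hdH _)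
      _ = p ^ 3 * p ^ t * A ^ (3 + t) := by
          rw [mul_pow, mul_pow, pow_add]; ring
      _ ≤ p ^ 3 * (p * A) * A ^ (3 + t) := by
          apply Nat.mul_le_mul_right
          apply Nat.mul_le_mul_left
          calc p ^ t ≤ p ^ r := Nat.pow_le_pow_right hp0 hN
            _ ≤ (2 * p + 1) ^ r := Nat.pow_le_pow_left (by omega) r
            _ ≤ p * A := hA
      _ = p ^ 4 * A ^ (4 + t) := by ring
      _ ≤ A * A ^ (4 + t) := by
          apply Nat.mul_le_mul_right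
          exact le_trans (Nat.pow_le_pow_right hp0 (by norm_num)) hA5
      _ = A ^ (t + 5) := by rw [← pow_succ']; congr 1; ring
  have h4 : H ^ (2 * r) ≤ H ^ ((t + 5) * (p - 1)) := by
    refine h3.trans (le_of_eq ?_)
    rw [hAdef, ← pow_mul, mul_comm (p - 1)]
  exact (Nat.pow_le_pow_iff_right (by omega)).1 h4

/-- there is an exceptional prime if `H ≤ 2 * m` -/
theorem no_exc {p r H m d κ : ℕ} (hp5 : 5 ≤ p) (hpr : p + 2 ≤ r)
    (hd : 2 * p + 1 ≤ d) (hdH : d ^ r ≤ p * H ^ (p - 1))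
    (hκ : κ = 1 ∨ κ = p ∧ p ^ (r - 1) ≤ m) (h1 : H ≤ 2 * m) (h2 : m ^ 2 ≤ 4 * κ ^ 2 * d) :
    False := by
  have hp0 : 0 < p := by omega
  have hd0 : 0 < d := by omega
  have hH : H ^ 2 ≤ 16 * κ ^ 2 * d := by
    calc H ^ 2 ≤ (2 * m) ^ 2 := Nat.pow_le_pow_left h1 2
      _ = 4 * m ^ 2 := by ring
      _ ≤ 4 * (4 * κ ^ 2 * d) := Nat.mul_le_mul_left _ h2
      _ = 16 * κ ^ 2 * d := by ring
  have hsq : d ^ (2 * r) ≤ p ^ 2 * (H ^ 2) ^ (p - 1) := by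
    calc d ^ (2 * r) = (d ^ r) ^ 2 := by rw [← pow_mul, mul_comm]
      _ ≤ (p * H ^ (p - 1)) ^ 2 := Nat.pow_le_pow_left hdH 2
      _ = p ^ 2 * (H ^ 2) ^ (p - 1) := by rw [mul_pow, ← pow_mul, ← pow_mul, mul_comm (p - 1)]
  -- the case `16 κ² ≤ d`
  have hbig : ¬ 16 * κ ^ 2 ≤ d := by
    intro hle
    have h3 : H ^ 2 ≤ d ^ 2 := by
      refine hH.trans ?_
      rw [sq d]
      exact Nat.mul_le_mul_right _ hle
    have h4 : d ^ (2 * r) ≤ p ^ 2 * d ^ (2 * (p - 1)) := by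
      refine hsq.trans ?_
      rw [pow_mul]
      exact Nat.mul_le_mul_left _ (Nat.pow_le_pow_left h3 _)
    have h5 : d ^ (2 * r) = d ^ (2 * (r - p + 1)) * d ^ (2 * (p - 1)) := by
      rw [← pow_add]; congr 1; omega
    rw [h5] at h4
    have h6 := Nat.le_of_mul_le_mul_right h4 (by positivity)
    have h7 : d ^ 2 ≤ d ^ (2 * (r - p + 1)) := Nat.pow_le_pow_right hd0 (by omega)
    have h8 : p ^ 2 < d ^ 2 := Nat.pow_lt_pow_left (by omega) (by norm_num)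
    omega
  rcases hκ with rfl | ⟨rfl, hm⟩
  · rw [one_pow, mul_one] at hbig hH
    have hp7 : p ≤ 7 := by omega
    have h3 : d ^ (2 * r) ≤ p ^ 2 * 16 ^ (p - 1) * d ^ (p - 1) := by
      refine hsq.trans ?_
      rw [mul_assoc, ← mul_pow]
      exact Nat.mul_le_mul_left _ (Nat.pow_le_pow_left hH _)
    have h4 : d ^ (2 * r) = d ^ (2 * r - (p - 1)) * d ^ (p - 1) := by
      rw [← pow_add]; congr 1; omega
    rw [h4] at h3
    have h5 := Nat.le_of_mul_le_mul_right h3 (by positivity)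
    have h6 : (2 * p + 1) ^ (p + 5) ≤ d ^ (2 * r - (p - 1)) :=
      (Nat.pow_le_pow_left hd _).trans (Nat.pow_le_pow_right hd0 (by omega))
    have h7 := h6.trans h5
    interval_cases p <;> norm_num at h7
  · apply hbig
    have h3 : (κ ^ (r - 1)) ^ 2 ≤ 4 * κ ^ 2 * d := (Nat.pow_le_pow_left hm 2).trans h2
    have h4 : (κ ^ (r - 1)) ^ 2 = κ ^ 2 * κ ^ (2 * (r - 2)) := by
      rw [← pow_mul, ← pow_add]; congr 1; omega
    have h5 : κ ^ 2 * κ ^ (2 * (r - 2)) ≤ κ ^ 2 * (4 * d) := by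
      rw [← h4]; refine h3.trans (le_of_eq ?_); ring
    have h6 := Nat.le_of_mul_le_mul_left h5 (by positivity)
    have h7 : κ ^ 10 ≤ κ ^ (2 * (r - 2)) := Nat.pow_le_pow_right hp0 (by omega)
    have h8 : 5 ^ 8 * κ ^ 2 ≤ κ ^ 10 := by
      have : κ ^ 10 = κ ^ 8 * κ ^ 2 := by ring
      rw [this]
      exact Nat.mul_le_mul_right _ (Nat.pow_le_pow_left hp5 8)
    norm_num at h8
    omega

end Pool.Agent.Lib.MP_509488_nt.Stick
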