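import Mathlib
import Pool.Agent.Lib.MP_509488_nt.Stick.Num

set_option autoImplicit false

namespace Pool.Agent.Lib.MP_509488_nt.Stick

/-- the bound for `m` in terms of `A = H ^ (p - 1)` -/
theorem m_le {p r t b q H m d κ ρ C : ℕ} (hp5 : 5 ≤ p) (hpr : p < r)
    (hd : 2 * p + 1 ≤ d) (hdH : d ^ r ≤ p * H ^ (p - 1)) (hN : (p - 1) * (q * (t + 1) + b) ≤ 2 * r)
    (hb : (C * κ * ρ) ^ 2 ≤ (2 * p + 1) ^ b)
    (h2 : m ^ 2 ≤ κ ^ 2 * ρ ^ 2 * (4 * d ^ t) ^ q) :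
    ((C * m) ^ (2 * r)) ^ (p - 1) ≤ (H ^ (p - 1)) ^ ((p - 1) * (q * (t + 1) + b) + 3) := by
  have hp0 : 0 < p := by omega
  have hA : (2 * p + 1) ^ r ≤ p * H ^ (p - 1) := (Nat.pow_le_pow_left hd _).trans hdH
  have hA5 := A_ge hp5 hpr hA
  set A := H ^ (p - 1) with hAdef
  have hA0 : 0 < A := lt_of_lt_of_le (by positivity) hA5
  set N := q * (t + 1) + b with hNdef
  have h3 : (C * m) ^ (2 * r) ≤ (p * A) ^ N := by
    calc (C * m) ^ (2 * r) = (C ^ 2 * m ^ 2) ^ r := by rw [pow_mul, mul_pow]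
      _ ≤ (C ^ 2 * (κ ^ 2 * ρ ^ 2 * (4 * d ^ t) ^ q)) ^ r :=
          Nat.pow_le_pow_left (Nat.mul_le_mul_left _ h2) r
      _ = ((C * κ * ρ) ^ 2) ^ r * ((4 ^ q) ^ r * (d ^ r) ^ (t * q)) := by
          rw [mul_pow 4, ← pow_mul d t q, ← pow_mul d r, mul_comm r (t * q), pow_mul d (t * q),
            ← mul_pow, ← mul_pow]
          congr 1
          ring
      _ ≤ ((2 * p + 1) ^ b) ^ r * (((2 * p + 1) ^ q) ^ r * (p * A) ^ (t * q)) := by
          apply Nat.mul_le_mul (Nat.pow_le_pow_left hb r)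
          apply Nat.mul_le_mul
          · exact Nat.pow_le_pow_left (Nat.pow_le_pow_left (by omega) q) r
          · exact Nat.pow_le_pow_left hdH _
      _ = ((2 * p + 1) ^ r) ^ (b + q) * (p * A) ^ (t * q) := by
          rw [← mul_assoc, ← mul_pow, ← pow_add, ← pow_mul, ← pow_mul, mul_comm r]
      _ ≤ (p * A) ^ (b + q) * (p * A) ^ (t * q) :=
          Nat.mul_le_mul_right _ (Nat.pow_le_pow_left hA _)
      _ = (p * A) ^ N := by rw [← pow_add]; congr 1; rw [hNdef]; ring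
  calc ((C * m) ^ (2 * r)) ^ (p - 1) ≤ ((p * A) ^ N) ^ (p - 1) := Nat.pow_le_pow_left h3 _
    _ = p ^ ((p - 1) * N) * A ^ ((p - 1) * N) := by
        rw [← pow_mul, mul_comm N, mul_pow]
    _ ≤ p ^ (2 * r) * A ^ ((p - 1) * N) :=
        Nat.mul_le_mul_right _ (Nat.pow_le_pow_right hp0 hN)
    _ ≤ A ^ 3 * A ^ ((p - 1) * N) := by
        apply Nat.mul_le_mul_right
        calc p ^ (2 * r) = (p ^ r) ^ 2 := by rw [← pow_mul, mul_comm]
          _ ≤ ((2 * p + 1) ^ r) ^ 2 := Nat.pow_le_pow_left (Nat.pow_le_pow_left (by omega) r) 2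
          _ ≤ (p * A) ^ 2 := Nat.pow_le_pow_left hA 2
          _ = p ^ 2 * A ^ 2 := by rw [mul_pow]
          _ ≤ A * A ^ 2 := by
              apply Nat.mul_le_mul_right
              exact le_trans (Nat.pow_le_pow_right hp0 (by norm_num)) hA5
          _ = A ^ 3 := by ring
    _ = _ := by rw [← pow_add, add_comm]

/-- the inequality without `H`, if `H ≤ 2 * m` -/
theorem combine_three {p r t b q H m d κ ρ : ℕ} (hp5 : 5 ≤ p) (hpr : p < r)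
    (hd : 2 * p + 1 ≤ d) (hdH : d ^ r ≤ p * H ^ (p - 1))
    (hb : (2 * κ * ρ) ^ 2 ≤ (2 * p + 1) ^ b) (h1 : H ≤ 2 * m)
    (h2 : m ^ 2 ≤ κ ^ 2 * ρ ^ 2 * (4 * d ^ t) ^ q) :
    2 * r ≤ (p - 1) * (q * (t + 1) + b + 1) := by
  rcases Nat.lt_or_ge (2 * r) ((p - 1) * (q * (t + 1) + b)) with hlt | hN
  · exact hlt.le.trans (Nat.mul_le_mul_left _ (by omega))
  have hH2 := H_pos hp5 hpr hd hdH
  have h3 := m_le hp5 hpr hd hdH hN hb h2
  have h4 : (H ^ (p - 1)) ^ (2 * r) ≤ (H ^ (p - 1)) ^ ((p - 1) * (q * (t + 1) + b) + 3) := by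
    refine le_trans ?_ h3
    rw [← pow_mul, mul_comm (p - 1), pow_mul]
    exact Nat.pow_le_pow_left (Nat.pow_le_pow_left h1 _) _
  have hH1 : 1 < H ^ (p - 1) := Nat.one_lt_pow (by omega) (by omega)
  have h5 := (Nat.pow_le_pow_iff_right hH1).1 h4
  have h6 : (p - 1) * (q * (t + 1) + b + 1) = (p - 1) * (q * (t + 1) + b) + (p - 1) := by ring
  omega

/-- the inequality without `H`, in general -/
theorem combine_four {p r t b q H m d κ ρ J : ℕ} (hp5 : 5 ≤ p) (hpr : p < r)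
    (hd : 2 * p + 1 ≤ d) (hdH : d ^ r ≤ p * H ^ (p - 1))
    (hb : (κ * ρ) ^ 2 ≤ (2 * p + 1) ^ b) (h1 : H ^ (4 * r) ≤ m ^ (4 * r) * H ^ J)
    (h2 : m ^ 2 ≤ κ ^ 2 * ρ ^ 2 * (4 * d ^ t) ^ q) :
    4 * r ≤ 2 * (p - 1) * (q * (t + 1) + b + 1) + J := by
  rcases Nat.lt_or_ge (2 * r) ((p - 1) * (q * (t + 1) + b)) with hlt | hN
  · have h3 : (p - 1) * (q * (t + 1) + b) ≤ (p - 1) * (q * (t + 1) + b + 1) :=
      Nat.mul_le_mul_left _ (by omega)
    have h4 : 2 * (p - 1) * (q * (t + 1) + b + 1) = 2 * ((p - 1) * (q * (t + 1) + b + 1)) := by ring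
    omega
  have hH2 := H_pos hp5 hpr hd hdH
  have h3 := m_le (C := 1) hp5 hpr hd hdH hN (by rwa [one_mul]) h2
  rw [one_mul] at h3
  have h4 : (H ^ (p - 1)) ^ (4 * r) ≤
      (H ^ (p - 1)) ^ (2 * ((p - 1) * (q * (t + 1) + b) + 3) + J) := by
    calc (H ^ (p - 1)) ^ (4 * r) = (H ^ (4 * r)) ^ (p - 1) := by
          rw [← pow_mul, ← pow_mul, mul_comm]
      _ ≤ (m ^ (4 * r) * H ^ J) ^ (p - 1) := Nat.pow_le_pow_left h1 _
      _ = (((m ^ (2 * r)) ^ (p - 1)) ^ 2) * (H ^ (p - 1)) ^ J := by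
          rw [mul_pow, ← pow_mul, ← pow_mul, ← pow_mul, ← pow_mul, ← pow_mul, mul_comm J]
          congr 2
          ring
      _ ≤ ((H ^ (p - 1)) ^ ((p - 1) * (q * (t + 1) + b) + 3)) ^ 2 * (H ^ (p - 1)) ^ J :=
          Nat.mul_le_mul_right _ (Nat.pow_le_pow_left h3 2)
      _ = _ := by rw [← pow_mul, ← pow_add]; congr 1; ring
  have hH1 : 1 < H ^ (p - 1) := Nat.one_lt_pow (by omega) (by omega)
  have h5 := (Nat.pow_le_pow_iff_right hH1).1 h4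
  have h6 : 2 * (p - 1) * (q * (t + 1) + b + 1) =
      2 * ((p - 1) * (q * (t + 1) + b)) + 2 * (p - 1) := by ring
  omega

end Pool.Agent.Lib.MP_509488_nt.Stick
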