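import Mathlib
import Pool.Agent.Lib.MP_509488_nt.Stick.Arc
import Pool.Agent.Lib.MP_509488_nt.Stick.ExB

set_option autoImplicit false

namespace Pool.Agent.Lib.MP_509488_nt.Stick

open Finset NumberField IsCyclotomicExtension.Rat

variable {p : ℕ} [hp : Fact p.Prime] {K : Type} [Field K] [NumberField K]
  [hK : IsCyclotomicExtension {p} ℚ K]

/-- half products of an element all of whose conjugates are associated differ by `r`-th powers of
roots of unity -/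
theorem exists_t (hp2 : p ≠ 2) {r : ℕ} (hr : r.Prime) (hr2 : r ≠ 2) (hrp : r ≠ p) {lam : 𝓞 K}
    (hlam : lam ≠ 0) (hassoc : ∀ c, Associated (sg p K c lam) lam) :
    ∃ t : (ZMod p)ˣ → 𝓞 K, ∀ a, t a ^ (4 * p) = 1 ∧
      t a ^ r * ∏ e ∈ HS a, sg p K e lam = ∏ e ∈ HS (1 : (ZMod p)ˣ), sg p K e lam := by
  have hass : ∀ a : (ZMod p)ˣ, Associated (∏ e ∈ HS a, sg p K e lam) (lam ^ ((p - 1) / 2)) := by
    intro a
    have h3 : Associated (∏ e ∈ HS a, sg p K e lam) (∏ e ∈ HS a, lam) :=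
      Associated.prod _ _ _ (fun e _ => hassoc e)
    rwa [prod_const, card_HS hp2] at h3
  have hn0 : ((Algebra.norm ℤ lam : ℤ) : 𝓞 K) ≠ 0 := by
    rw [Ne, Int.cast_eq_zero, Algebra.norm_eq_zero_iff]
    exact hlam
  have hp3 : 2 < p := by
    have := hp.out.two_le
    omega
  have key : ∀ a : (ZMod p)ˣ, ∃ y : 𝓞 K, y ^ (4 * p) = 1 ∧
      y ^ r * ∏ e ∈ HS a, sg p K e lam = ∏ e ∈ HS (1 : (ZMod p)ˣ), sg p K e lam := by
    intro a
    obtain ⟨e, he⟩ := (hass a).trans (hass 1).symm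
    have h1 := half_mul hp2 a lam
    have h2 := half_mul hp2 1 lam
    rw [← he, map_mul] at h2
    have h3 : (e : 𝓞 K) * sg p K (-1) e = 1 := by
      have h4 : ((Algebra.norm ℤ lam : ℤ) : 𝓞 K) * ((e : 𝓞 K) * sg p K (-1) e) =
          ((Algebra.norm ℤ lam : ℤ) : 𝓞 K) * 1 := by
        rw [mul_one]
        conv_rhs => rw [← h2]
        rw [← h1]; ring
      exact mul_left_cancel₀ hn0 h4
    obtain ⟨y, hy, hy'⟩ := exists_pow_root hr hr2 hrp (unit_root hp3 e h3)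
    exact ⟨y, hy', by rw [hy, mul_comm]; exact he⟩
  choose t ht using key
  exact ⟨t, ht⟩

section
variable {u v : ℤ} {α l : 𝓞 K} {d : ℤ} {r : ℕ} {B t : (ZMod p)ˣ → 𝓞 K}

theorem sys_of (hp2 : p ≠ 2) (huv : IsCoprime u v) (hL : L p K u v = l * α)
    (hL0 : L p K u v ≠ 0) (hα : IsCoprime α (p : 𝓞 K)) (hαu : ¬ IsUnit α) (hd : 0 < d)
    (hB : ∀ a, B a ^ r * (∏ e ∈ HS (1 : (ZMod p)ˣ), sg p K e l) =
      ∏ e ∈ HS a, sg p K e (L p K u v))
    (hB' : ∀ a (φ : 𝓞 K →+* ℂ), ‖φ (B a)‖ ^ 2 = d) (ht : ∀ a, t a ^ (4 * p) = 1)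
    {I : Ideal (𝓞 K)} (hI : (Ideal.absNorm I : ℤ) = d)
    (hBI : ∀ a, Ideal.span {B a} = ∏ e ∈ HS a, I.map (sg p K e)) :
    Sys d I (fun a => t a * B a) := by
  refine ⟨hd, hI, ?_, ?_, ?_⟩
  · intro a
    have hp0 := hp.out.pos
    have htu : IsUnit (t a) := IsUnit.of_pow_eq_one (ht a) (by omega)
    rw [← hBI, Ideal.span_singleton_eq_span_singleton]
    exact associated_unit_mul_left _ _ htu
  · intro a φ
    have hp0 := hp.out.pos
    rw [map_mul, norm_mul, norm_phi_root (by omega) (ht a), one_mul]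
    exact hB' a φ
  · intro k a ha n x x' hx hx' h
    set g := ∏ e ∈ HS (1 : (ZMod p)ˣ), sg p K e l with hg
    have h1 : ∀ a, (t a * B a) ^ (r * (4 * p)) * g ^ (4 * p) =
        ∏ e ∈ HS a, (sg p K e (L p K u v)) ^ (4 * p) := by
      intro a
      rw [prod_pow, ← hB, mul_pow, mul_pow, mul_comm r, pow_mul (t a), ht, one_pow, one_mul,
        ← pow_mul, mul_comm r]
    have h2 := XX_pow hp2 a h1 n x hx
    have h3 := XX_pow hp2 a h1 n x' hx'
    rw [h, h3] at h2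
    simp_rw [← pow_mul] at h2
    have h4 := exponent_inj hp2 huv hL hL0 hα hαu h2
    apply Ex_inj ha hx hx'
    funext e
    have h5 := congrFun h4 e
    have hp0 := hp.out.pos
    exact (Nat.eq_of_mul_eq_mul_left (by omega : 0 < 4 * p) h5).symm

theorem arch_rel {lam κ : 𝓞 K} {c M : ℤ} (hr0 : r ≠ 0) (hlam : lam ≠ 0) (hl0 : l ≠ 0)
    (hLc : L p K u v = c * lam + M * κ)
    (hB : ∀ a, B a ^ r * (∏ e ∈ HS (1 : (ZMod p)ˣ), sg p K e l) =
      ∏ e ∈ HS a, sg p K e (L p K u v))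
    (ht : ∀ a, t a ^ r * ∏ e ∈ HS a, sg p K e lam = ∏ e ∈ HS (1 : (ZMod p)ˣ), sg p K e lam)
    (φ : 𝓞 K →+* ℂ) : ∃ G : ℂ, G ≠ 0 ∧ ∀ a, φ (t a * B a) ^ r * G =
      ∏ e ∈ HS a, ((c : ℂ) + (φ (sg p K e κ) / φ (sg p K e lam)) * M) := by
  have hne : ∀ {y : 𝓞 K} (e : (ZMod p)ˣ), y ≠ 0 → φ (sg p K e y) ≠ 0 := by
    intro y e hy
    rw [Ne, map_eq_zero_iff _ (phi_injective (p := p) φ), map_eq_zero_iff _ (sg p K e).injective]
    exact hy
  have hne2 : ∀ {y : 𝓞 K} (a : (ZMod p)ˣ), y ≠ 0 → φ (∏ e ∈ HS a, sg p K e y) ≠ 0 := by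
    intro y a hy
    rw [map_prod, prod_ne_zero_iff]
    intro e _
    exact hne e hy
  refine ⟨φ (∏ e ∈ HS (1 : (ZMod p)ˣ), sg p K e l) / φ (∏ e ∈ HS (1 : (ZMod p)ˣ), sg p K e lam),
    div_ne_zero (hne2 1 hl0) (hne2 1 hlam), ?_⟩
  intro a
  have h1 : ∏ e ∈ HS a, ((c : ℂ) + (φ (sg p K e κ) / φ (sg p K e lam)) * M) =
      φ (∏ e ∈ HS a, sg p K e (L p K u v)) / φ (∏ e ∈ HS a, sg p K e lam) := by
    rw [map_prod, map_prod, ← prod_div_distrib]
    apply prod_congr rfl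
    intro e _
    rw [eq_div_iff (hne e hlam), hLc, map_add, map_add, map_mul, map_mul, map_mul, map_mul,
      map_intCast, map_intCast, map_intCast, map_intCast]
    field_simp [hne e hlam]
  rw [h1, ← hB a, ← ht a]
  have h2 := hne2 a hlam
  have h3 : φ (t a) ≠ 0 := by
    intro h0
    have h4 := hne2 1 hlam
    rw [← ht a, map_mul, map_pow, h0, zero_pow hr0, zero_mul] at h4
    exact h4 rfl
  rw [map_mul, map_mul, map_mul, map_pow, map_pow]
  field_simp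
  ring

theorem isCoprime_sg (e : (ZMod p)ˣ) {x : 𝓞 K} {M : ℤ} (h : IsCoprime x (M : 𝓞 K)) :
    IsCoprime (sg p K e x) (M : 𝓞 K) := by
  have := h.map (sg p K e : 𝓞 K →+* 𝓞 K)
  rw [map_intCast] at this
  exact this

theorem cong_of {lam κ : 𝓞 K} {c M M1 : ℤ} (hp2 : p ≠ 2) (hr0 : 0 < r)
    (hLc : L p K u v = c * lam + M * κ) (hM1 : M1 ∣ M) (hcop : IsCoprime (L p K u v) (M1 : 𝓞 K))
    (hB : ∀ a, B a ^ r * (∏ e ∈ HS (1 : (ZMod p)ˣ), sg p K e l) =
      ∏ e ∈ HS a, sg p K e (L p K u v))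
    (ht : ∀ a, t a ^ (4 * p) = 1 ∧
      t a ^ r * ∏ e ∈ HS a, sg p K e lam = ∏ e ∈ HS (1 : (ZMod p)ˣ), sg p K e lam) :
    (∀ a, IsCoprime (t a * B a) (M1 : 𝓞 K)) ∧
      ∀ a b, (M1 : 𝓞 K) ∣ (t a * B a) ^ r - (t b * B b) ^ r := by
  set g := ∏ e ∈ HS (1 : (ZMod p)ˣ), sg p K e l with hg
  have hp0 := hp.out.pos
  have h1 : ∀ a, IsCoprime (B a ^ r * g) (M1 : 𝓞 K) := by
    intro a
    rw [hB]
    exact IsCoprime.prod_left (fun e _ => isCoprime_sg e hcop)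
  have htu : ∀ a, IsUnit (t a) := fun a => IsUnit.of_pow_eq_one (ht a).1 (by omega)
  refine ⟨?_, ?_⟩
  · intro a
    have h2 : IsCoprime (B a) (M1 : 𝓞 K) := (IsCoprime.pow_left_iff hr0).1 (h1 a).of_mul_left_left
    exact (isCoprime_one_left.of_isCoprime_of_dvd_left (htu a).dvd).mul_left h2
  · intro a b
    have hgc : IsCoprime g (M1 : 𝓞 K) := (h1 1).of_mul_left_right
    apply hgc.symm.dvd_of_dvd_mul_right
    have hM0 : Ideal.Quotient.mk (Ideal.span {(M1 : 𝓞 K)}) (M : 𝓞 K) = 0 := by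
      rw [Ideal.Quotient.eq_zero_iff_mem, Ideal.mem_span_singleton]
      obtain ⟨y, rfl⟩ := hM1
      push_cast
      exact dvd_mul_right _ _
    have key : ∀ a, Ideal.Quotient.mk (Ideal.span {(M1 : 𝓞 K)}) ((t a * B a) ^ r * g) =
        Ideal.Quotient.mk (Ideal.span {(M1 : 𝓞 K)}) ((c : 𝓞 K) ^ ((p - 1) / 2) *
          ∏ e ∈ HS (1 : (ZMod p)ˣ), sg p K e lam) := by
      intro a
      have e1 : (t a * B a) ^ r * g = t a ^ r * ∏ e ∈ HS a, sg p K e (L p K u v) := by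
        rw [← hB a]; ring
      have e2 : Ideal.Quotient.mk (Ideal.span {(M1 : 𝓞 K)}) (∏ e ∈ HS a, sg p K e (L p K u v)) =
          Ideal.Quotient.mk (Ideal.span {(M1 : 𝓞 K)}) ((c : 𝓞 K) ^ ((p - 1) / 2) *
            ∏ e ∈ HS a, sg p K e lam) := by
        rw [← card_HS hp2 a, ← prod_const, ← prod_mul_distrib, map_prod, map_prod]
        apply prod_congr rfl
        intro e _
        rw [hLc, map_add, map_add, map_mul (sg p K e) (M : 𝓞 K), map_intCast (sg p K e) M, map_mul,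
          map_mul _ (M : 𝓞 K), hM0, zero_mul, add_zero, map_intCast (sg p K e) c]
      rw [e1, map_mul, e2, ← map_mul]
      congr 1
      rw [← (ht a).2]
      ring
    rw [← Ideal.mem_span_singleton, sub_mul, ← Ideal.Quotient.eq, key a, key b]

theorem cong_of' {c M1 : ℤ} (hp2 : p ≠ 2) (hr0 : 0 < r) (hl0 : l ≠ 0)
    (hL : L p K u v = l * α) (hM1 : (M1 : 𝓞 K) ∣ α - c) (hcop : IsCoprime c M1)
    (hB : ∀ a, B a ^ r * (∏ e ∈ HS (1 : (ZMod p)ˣ), sg p K e l) =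
      ∏ e ∈ HS a, sg p K e (L p K u v))
    (ht : ∀ a, t a ^ (4 * p) = 1 ∧
      t a ^ r * ∏ e ∈ HS a, sg p K e l = ∏ e ∈ HS (1 : (ZMod p)ˣ), sg p K e l) :
    (∀ a, IsCoprime (t a * B a) (M1 : 𝓞 K)) ∧
      ∀ a b, (M1 : 𝓞 K) ∣ (t a * B a) ^ r - (t b * B b) ^ r := by
  set g := ∏ e ∈ HS (1 : (ZMod p)ˣ), sg p K e l with hg
  have hg0 : g ≠ 0 := by
    rw [hg, prod_ne_zero_iff]
    intro e _
    rw [Ne, map_eq_zero_iff _ (sg p K e).injective]
    exact hl0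
  have h1 : ∀ a, (t a * B a) ^ r = ∏ e ∈ HS a, sg p K e α := by
    intro a
    apply mul_right_cancel₀ hg0
    have e1 : (t a * B a) ^ r * g = t a ^ r * ∏ e ∈ HS a, sg p K e (L p K u v) := by
      rw [← hB a]; ring
    rw [e1]
    have e2 : ∏ e ∈ HS a, sg p K e (L p K u v) = (∏ e ∈ HS a, sg p K e l) *
        ∏ e ∈ HS a, sg p K e α := by
      rw [← prod_mul_distrib]
      apply prod_congr rfl
      intro e _
      rw [hL, map_mul]
    rw [e2, ← mul_assoc, (ht a).2, mul_comm]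
  have hαc : IsCoprime α (M1 : 𝓞 K) := by
    obtain ⟨y, hy⟩ := hM1
    have h2 : IsCoprime (c : 𝓞 K) (M1 : 𝓞 K) := hcop.map (Int.castRingHom (𝓞 K))
    have h3 : α = c + M1 * y := by linear_combination hy
    rw [h3]
    exact h2.add_mul_left_left y
  refine ⟨?_, ?_⟩
  · intro a
    have h2 : IsCoprime ((t a * B a) ^ r) (M1 : 𝓞 K) := by
      rw [h1]
      exact IsCoprime.prod_left (fun e _ => isCoprime_sg e hαc)
    exact (IsCoprime.pow_left_iff hr0).1 h2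
  · intro a b
    have key : ∀ a : (ZMod p)ˣ, Ideal.Quotient.mk (Ideal.span {(M1 : 𝓞 K)})
        (∏ e ∈ HS a, sg p K e α) =
        Ideal.Quotient.mk (Ideal.span {(M1 : 𝓞 K)}) ((c : 𝓞 K) ^ ((p - 1) / 2)) := by
      intro a
      rw [← card_HS hp2 a, ← prod_const, map_prod, map_prod]
      apply prod_congr rfl
      intro e _
      rw [Ideal.Quotient.eq, Ideal.mem_span_singleton]
      have := map_dvd (sg p K e) hM1
      rwa [map_sub, map_intCast, map_intCast] at this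
    rw [← Ideal.mem_span_singleton, ← Ideal.Quotient.eq, h1, h1, key a, key b]

end

end Pool.Agent.Lib.MP_509488_nt.Stick
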