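import Mathlib
import Pool.Agent.Lib.MP_509488_nt.Stick.Nrm

set_option autoImplicit false

namespace Pool.Agent.Lib.MP_509488_nt.Stick

open Finset NumberField IsCyclotomicExtension.Rat

variable {p : ℕ} [hp : Fact p.Prime] {K : Type} [Field K] [NumberField K]
  [hK : IsCyclotomicExtension {p} ℚ K]

/-- the primes above the exceptional primes, up to conjugation -/
theorem exists_finset' (hp2 : 2 < p) (r : ℕ) (M : ℤ) :
    ∃ Pf : Finset (Ideal (𝓞 K)), Pf.card ≤ excWeight p r M ∧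
    (∀ P ∈ Pf, P.IsPrime ∧ (M : 𝓞 K) ∈ P ∧ ∃ l ∈ excPrimes p r M, (l : 𝓞 K) ∈ P) ∧
    ∀ l ∈ excPrimes p r M, ∀ P : Ideal (𝓞 K), P.IsMaximal →
      (l : 𝓞 K) ∈ P → P ∈ Pf ∨ cj (p := p) P ∈ Pf := by
  classical
  have hl : ∀ l ∈ excPrimes p r M, l.Prime ∧ l ≠ p ∧ (l : ℤ) ∣ M := by
    intro l hl
    rw [excPrimes, mem_filter] at hl
    exact ⟨Nat.prime_of_mem_primeFactors hl.1, hl.2.1,
      Int.natCast_dvd.2 (Nat.dvd_of_mem_primeFactors hl.1)⟩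
  have key : ∀ l : ℕ, ∃ T : Finset (Ideal (𝓞 K)), l ∈ excPrimes p r M →
      T.card ≤ (p - 1) / 2 / ordPM p l ∧ (∀ P ∈ T, P.IsPrime ∧ (l : 𝓞 K) ∈ P) ∧
      ∀ P : Ideal (𝓞 K), P.IsMaximal → (l : 𝓞 K) ∈ P → P ∈ T ∨ cj (p := p) P ∈ T := by
    intro l
    by_cases h : l ∈ excPrimes p r M
    · obtain ⟨T, hT⟩ := exists_T (K := K) hp2 (hl l h).1 (hl l h).2.1
      exact ⟨T, fun _ => hT⟩
    · exact ⟨∅, fun h' => absurd h' h⟩
  choose g hg using key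
  refine ⟨(excPrimes p r M).biUnion g, ?_, ?_, ?_⟩
  · refine card_biUnion_le.trans ?_
    unfold excWeight
    exact sum_le_sum fun l hlm => (hg l hlm).1
  · intro P hP
    rw [mem_biUnion] at hP
    obtain ⟨l, hlm, hP⟩ := hP
    obtain ⟨h1, h2⟩ := (hg l hlm).2.1 P hP
    refine ⟨h1, ?_, l, hlm, h2⟩
    obtain ⟨c, hc⟩ := (hl l hlm).2.2
    rw [hc]
    push_cast
    exact P.mul_mem_right _ h2
  · intro l hlm P hP hlP
    rcases (hg l hlm).2.2 P hP hlP with h | h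
    · exact Or.inl (mem_biUnion.2 ⟨l, hlm, h⟩)
    · exact Or.inr (mem_biUnion.2 ⟨l, hlm, h⟩)

/-- division by an element prime to the ideal -/
theorem mem_of_mul_mem {J : Ideal (𝓞 K)} {a g : 𝓞 K} (h : a * g ∈ J)
    (hg : ∀ P : Ideal (𝓞 K), P.IsMaximal → J ≤ P → g ∉ P) : a ∈ J := by
  have h1 : Ideal.span {g} ⊔ J = ⊤ := by
    by_contra hne
    obtain ⟨P, hP, hle⟩ := Ideal.exists_le_maximal _ hne
    exact hg P hP (le_sup_right.trans hle) (hle (Ideal.mem_sup_left (Ideal.mem_span_singleton_self _)))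
  have h2 : (1 : 𝓞 K) ∈ Ideal.span {g} ⊔ J := by rw [h1]; trivial
  obtain ⟨x, hx, y, hy, hxy⟩ := Submodule.mem_sup.1 h2
  obtain ⟨c, rfl⟩ := Ideal.mem_span_singleton'.1 hx
  have h3 : a = c * (a * g) + a * y := by linear_combination (-a) * hxy
  rw [h3]
  exact J.add_mem (J.mul_mem_left _ h) (J.mul_mem_left _ hy)

/-- the pigeonhole step for congruences modulo an ideal -/
theorem exists_cong_ideal {r : ℕ} (hr : r.Prime) (hp2 : 2 < p) (hpr : p < r) {M : ℤ} (hM0 : M ≠ 0)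
    {J : Ideal (𝓞 K)} (hJ : (M : 𝓞 K) ∈ J) (Pf : Finset (Ideal (𝓞 K)))
    (hPp : ∀ P ∈ Pf, P.IsPrime ∧ (M : 𝓞 K) ∈ P)
    (hPm : ∀ l ∈ excPrimes p r M, ∀ P : Ideal (𝓞 K), P.IsMaximal → J ≤ P → (l : 𝓞 K) ∈ P →
      P ∈ Pf ∨ cj (p := p) P ∈ Pf)
    {ι : Type*} (S : Finset ι) (X : ι → 𝓞 K)
    (hcop : ∀ x ∈ S, IsCoprime (X x) (M : 𝓞 K))
    (hX : ∀ x ∈ S, ∀ x' ∈ S, (M : 𝓞 K) ∣ X x ^ r - X x' ^ r)
    (hn : ∀ x ∈ S, ∀ x' ∈ S, X x * sg p K (-1) (X x) = X x' * sg p K (-1) (X x'))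
    (hcard : r ^ Pf.card < S.card) {ρ : ℕ}
    (hρ : ρ = rho r M ∨ ρ = 1 ∧ ∀ P : Ideal (𝓞 K), P.IsMaximal → J ≤ P → (r : 𝓞 K) ∉ P) :
    ∃ x ∈ S, ∃ x' ∈ S, x ≠ x' ∧ (ρ : 𝓞 K) * (X x - X x') ∈ J := by
  classical
  have hdom : ∀ P : Pf, IsDomain (𝓞 K ⧸ P.1) := fun P =>
    (Ideal.Quotient.isDomain_iff_prime P.1).2 (hPp P.1 P.2).1
  have hne : S.Nonempty := card_pos.1 (lt_of_le_of_lt (Nat.zero_le _) hcard)
  obtain ⟨x0, hx0⟩ := hne
  let f : ι → (P : Pf) → 𝓞 K ⧸ P.1 := fun x P => Ideal.Quotient.mk P.1 (X x)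
  let t : (P : Pf) → Finset (𝓞 K ⧸ P.1) := fun P => (Polynomial.nthRoots r ((f x0 P) ^ r)).toFinset
  -- every value of `X` is prime to `M`
  have hXM : ∀ x ∈ S, ∀ P : Ideal (𝓞 K), P.IsMaximal → (M : 𝓞 K) ∈ P → X x ∉ P := by
    intro x hxS P hP hM hx
    obtain ⟨a, b, hab⟩ := hcop x hxS
    apply hP.ne_top
    rw [Ideal.eq_top_iff_one, ← hab]
    exact P.add_mem (P.mul_mem_left _ hx) (P.mul_mem_left _ hM)
  have hmaps : ∀ x ∈ S, f x ∈ (Fintype.piFinset t) := by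
    intro x hxS
    rw [Fintype.mem_piFinset]
    intro P
    rw [Multiset.mem_toFinset, Polynomial.mem_nthRoots hr.pos]
    change (Ideal.Quotient.mk P.1 (X x)) ^ r = (Ideal.Quotient.mk P.1 (X x0)) ^ r
    rw [← map_pow, ← map_pow, Ideal.Quotient.eq]
    obtain ⟨c, hc⟩ := hX x hxS x0 hx0
    rw [hc]
    exact P.1.mul_mem_right _ (hPp P.1 P.2).2
  have hcardt : (Fintype.piFinset t).card ≤ r ^ Pf.card := by
    rw [Fintype.card_piFinset]
    calc ∏ P : Pf, (t P).card ≤ ∏ _P : Pf, r := by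
          apply prod_le_prod (fun _ _ => Nat.zero_le _)
          intro P _
          exact (Multiset.toFinset_card_le _).trans (Polynomial.card_nthRoots _ _)
      _ = r ^ Pf.card := by rw [prod_const, card_univ, Fintype.card_coe]
  obtain ⟨x, hx, x', hx', hxx', hff⟩ := Finset.exists_ne_map_eq_of_card_lt_of_maps_to
    (s := S) (t := Fintype.piFinset t) (f := f)
    (lt_of_le_of_lt hcardt hcard) (fun x hx => by exact_mod_cast hmaps x hx)
  refine ⟨x, hx, x', hx', hxx', ?_⟩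
  have hmem : ∀ P : Ideal (𝓞 K), P.IsMaximal → J ≤ P → X x - X x' ∈ P := by
    intro P hP hJP
    have hMP : (M : 𝓞 K) ∈ P := hJP hJ
    obtain ⟨l, hl, hlP, hlM⟩ := exists_prime_mem hP hM0 hMP
    have hab : X x ^ r - X x' ^ r ∈ P := by
      obtain ⟨c, hc⟩ := hX x hx x' hx'
      rw [hc]
      exact P.mul_mem_right _ hMP
    by_cases hlb : l ∈ excPrimes p r M
    · rcases hPm l hlb P hP hJP hlP with h1 | h1
      · have h2 := congrFun hff ⟨P, h1⟩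
        exact (Ideal.Quotient.eq).1 h2
      · have h2 := congrFun hff ⟨cj (p := p) P, h1⟩
        refine sub_mem_of_cj hP ?_ ((Ideal.Quotient.eq).1 h2) (hn x hx x' hx')
        intro h3
        refine hXM x hx (cj (p := p) P) (cj_isMaximal hP) ?_ h3
        rw [mem_cj, map_intCast]
        exact hMP
    · by_cases hlp : l = p
      · exact sub_mem_of_good hl hr hpr hP hlP (fun h => absurd hlp h) (hXM x hx P hP hMP) hab
      · have hlf : l ∈ M.natAbs.primeFactors := by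
          rw [Nat.mem_primeFactors]
          exact ⟨hl, Int.natCast_dvd.1 hlM, Int.natAbs_ne_zero.2 hM0⟩
        have hnot : ¬ (p * r ∣ l ^ ordPM p l - 1 ∨ p * r ∣ l ^ ordPM p l + 1) := by
          intro h
          apply hlb
          rw [excPrimes, mem_filter]
          exact ⟨hlf, hlp, h⟩
        have hcop' : Nat.Coprime p r := (Nat.coprime_primes hp.out hr).2 (by omega)
        obtain ⟨hg0, -, hcases⟩ := ord_cases hl hlp (by omega : p ≠ 2)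
        rcases hcases with ⟨h1, -, h3⟩ | ⟨-, h3⟩
        · refine sub_mem_of_good hl hr hpr hP hlP (fun _ hrd => hnot (Or.inl ?_))
            (hXM x hx P hP hMP) hab
          rw [h1] at hrd
          refine hcop'.mul_dvd_of_dvd_of_dvd ?_ hrd
          rw [← ZMod.natCast_eq_zero_iff, Nat.cast_sub (Nat.one_le_pow _ _ hl.pos)]
          push_cast
          rw [h3, sub_self]
        · refine sub_mem_of_good' hl hr hP hlP h3 (fun hrd => hnot (Or.inr ?_))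
            (hXM x hx P hP hMP) hab (hn x hx x' hx')
          refine hcop'.mul_dvd_of_dvd_of_dvd ?_ hrd
          rw [← ZMod.natCast_eq_zero_iff]
          push_cast
          rw [h3]; ring
  set G := ∑ i ∈ range r, X x ^ i * X x' ^ (r - 1 - i) with hG
  -- away from `r`
  have haway : ∀ P : Ideal (𝓞 K), P.IsMaximal → J ≤ P → (r : 𝓞 K) ∉ P → G ∉ P := by
    intro P hP hJP hrP hSP
    have hMP : (M : 𝓞 K) ∈ P := hJP hJ
    have h1 := hmem P hP hJP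
    obtain ⟨c, hc⟩ := sub_dvd_geom (X x) (X x') r
    have h2 : (r : 𝓞 K) * X x' ^ (r - 1) ∈ P := by
      have h3 : (r : 𝓞 K) * X x' ^ (r - 1) = G - (X x - X x') * c := by
        rw [hG]
        linear_combination -hc
      rw [h3]
      exact P.sub_mem hSP (P.mul_mem_right _ h1)
    rcases hP.isPrime.mem_or_mem h2 with h3 | h3
    · exact hrP h3
    · exact hXM x' hx' P hP hMP (hP.isPrime.mem_of_pow_mem _ h3)
  have hd := hX x hx x' hx'
  rw [← geom_mul, ← hG] at hd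
  have hdJ : (X x - X x') * G ∈ J := by
    obtain ⟨c, hc⟩ := hd
    have : (X x - X x') * G = (M : 𝓞 K) * c := by rw [← hc]
    rw [this]
    exact J.mul_mem_right _ hJ
  have hcase : ρ = 1 ∧ (∀ P : Ideal (𝓞 K), P.IsMaximal → J ≤ P → (r : 𝓞 K) ∉ P) ∨
      ρ = r ∧ (r : ℤ) ∣ M := by
    rcases hρ with h1 | h1
    · unfold rho at h1
      by_cases hrM : (r : ℤ) ∣ M
      · rw [if_pos hrM] at h1
        exact Or.inr ⟨h1, hrM⟩
      · rw [if_neg hrM] at h1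
        refine Or.inl ⟨h1, fun P hP hJP h3 => hrM (dvd_of_mem hr hP.ne_top h3 (hJP hJ))⟩
    · exact Or.inl h1
  rcases hcase with ⟨rfl, hrP⟩ | ⟨rfl, hrM⟩
  · rw [Nat.cast_one, one_mul]
    exact mem_of_mul_mem hdJ fun P hP hJP => haway P hP hJP (hrP P hP hJP)
  · -- `G = r * G'` with `G'` prime to `J`
    have hrM' : ((ρ : ℕ) : 𝓞 K) ∣ (M : 𝓞 K) := by
      obtain ⟨c, hc⟩ := hrM
      exact ⟨c, by rw [hc]; push_cast; rfl⟩
    obtain ⟨b, hb⟩ := r_dvd_sub hr (by omega : ρ ≠ p) (hrM'.trans (hX x hx x' hx'))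
    have hXx : X x = X x' + (ρ : 𝓞 K) * b := by linear_combination hb
    have hro : Odd ρ := hr.odd_of_ne_two (by omega)
    obtain ⟨c, hc⟩ := odd_sq_dvd_geom_sum₂_sub (a := X x') (b := b) hro
    rw [← hXx, ← hG] at hc
    have hG' : G = (ρ : 𝓞 K) * (X x' ^ (ρ - 1) + ρ * c) := by linear_combination hc
    refine mem_of_mul_mem (g := X x' ^ (ρ - 1) + ρ * c) ?_ ?_
    · have h1 : (ρ : 𝓞 K) * (X x - X x') * (X x' ^ (ρ - 1) + ρ * c) = (X x - X x') * G := by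
        rw [hG']; ring
      rw [h1]
      exact hdJ
    · intro P hP hJP hSP
      have hMP : (M : 𝓞 K) ∈ P := hJP hJ
      by_cases hrP : (ρ : 𝓞 K) ∈ P
      · have h1 : X x' ^ (ρ - 1) ∈ P := by
          have h2 : X x' ^ (ρ - 1) = (X x' ^ (ρ - 1) + ρ * c) - ρ * c := by ring
          rw [h2]
          exact P.sub_mem hSP (P.mul_mem_right _ hrP)
        exact hXM x' hx' P hP hMP (hP.isPrime.mem_of_pow_mem _ h1)
      · apply haway P hP hJP hrP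
        rw [hG']
        exact P.mul_mem_left _ hSP

theorem norm_ge_ideal {I J : Ideal (𝓞 K)} {D : 𝓞 K} (hD : D ≠ 0) {m : (ZMod p)ˣ → ℕ}
    (hI : (∏ e : (ZMod p)ˣ, (I.map (sg p K e)) ^ m e) ∣ Ideal.span {D}) {M : ℤ} {ρ : ℕ}
    (hρ : ρ ≠ 0) (hMJ : (M : 𝓞 K) ∈ J) (hJ : (ρ : 𝓞 K) * D ∈ J)
    (hc : IsCoprime ((Ideal.absNorm I : ℕ) : 𝓞 K) (M : 𝓞 K)) (φ : 𝓞 K →+* ℂ) :
    (Ideal.absNorm I : ℝ) ^ (∑ e, m e) * (Ideal.absNorm J : ℝ) ≤
      (ρ : ℝ) ^ (p - 1) * ∏ c : (ZMod p)ˣ, ‖φ (sg p K c D)‖ := by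
  have h1 : IsCoprime (∏ e : (ZMod p)ˣ, (I.map (sg p K e)) ^ m e) J := by
    apply IsCoprime.prod_left
    intro e _
    apply IsCoprime.pow_left
    have h2 : IsCoprime (Ideal.span {((Ideal.absNorm I : ℕ) : 𝓞 K)}) (Ideal.span {(M : 𝓞 K)}) :=
      (Ideal.isCoprime_span_singleton_iff _ _).2 hc
    have h3 : J ∣ Ideal.span {(M : 𝓞 K)} := by rw [Ideal.dvd_span_singleton]; exact hMJ
    refine (h2.of_isCoprime_of_dvd_left ?_).of_isCoprime_of_dvd_right h3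
    rw [Ideal.dvd_span_singleton, mem_map, map_natCast]
    exact Ideal.absNorm_mem I
  have h2 : J ∣ Ideal.span {(ρ : 𝓞 K) * D} := by
    rw [Ideal.dvd_span_singleton]
    exact hJ
  have h3 : (∏ e : (ZMod p)ˣ, (I.map (sg p K e)) ^ m e) ∣ Ideal.span {(ρ : 𝓞 K) * D} := by
    rw [← Ideal.span_singleton_mul_span_singleton]
    exact hI.mul_left _
  have h4 := map_dvd (Ideal.absNorm) (h1.mul_dvd h3 h2)
  have hρ0 : (ρ : 𝓞 K) ≠ 0 := by exact_mod_cast hρ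
  have h5 : Ideal.absNorm (Ideal.span {(ρ : 𝓞 K) * D}) ≠ 0 := by
    rw [Ne, Ideal.absNorm_eq_zero_iff, Ideal.span_singleton_eq_bot]
    exact mul_ne_zero hρ0 hD
  have h6 := Nat.le_of_dvd (Nat.pos_of_ne_zero h5) h4
  have h7 : ((ρ : ℤ) : 𝓞 K) = (ρ : 𝓞 K) := Int.cast_natCast _
  rw [← Ideal.span_singleton_mul_span_singleton, map_mul, map_mul, ← h7,
    absNorm_int (p := p), map_prod, Ideal.absNorm_span_singleton, Int.natAbs_natCast] at h6
  simp_rw [map_pow, absNorm_map] at h6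
  rw [prod_pow_eq_pow_sum] at h6
  rw [prod_norm_phi]
  exact_mod_cast h6

section
variable {d : ℤ} {I : Ideal (𝓞 K)} {B : (ZMod p)ˣ → 𝓞 K}

/-- the congruence bound for an ideal -/
theorem Sys.bound_ideal (hS : Sys d I B) (hp2 : 2 < p) {r : ℕ}
    (hr : r.Prime) (hpr : p < r) {M : ℤ} (hM0 : M ≠ 0)
    (hcop : ∀ a, IsCoprime (B a) (M : 𝓞 K)) (hB : ∀ a b, (M : 𝓞 K) ∣ B a ^ r - B b ^ r)
    {J : Ideal (𝓞 K)} (hJ : (M : 𝓞 K) ∈ J) (Pf : Finset (Ideal (𝓞 K)))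
    (hPp : ∀ P ∈ Pf, P.IsPrime ∧ (M : 𝓞 K) ∈ P)
    (hPm : ∀ l ∈ excPrimes p r M, ∀ P : Ideal (𝓞 K), P.IsMaximal → J ≤ P → (l : 𝓞 K) ∈ P →
      P ∈ Pf ∨ cj (p := p) P ∈ Pf) {ρ : ℕ}
    (hρ : ρ = rho r M ∨ ρ = 1 ∧ ∀ P : Ideal (𝓞 K), P.IsMaximal → J ≤ P → (r : 𝓞 K) ∉ P)
    {t : ℕ} (hF : Fam p t (r ^ Pf.card)) :
    ((Ideal.absNorm J : ℕ) : ℤ) ^ 2 ≤ (4 * (ρ : ℤ) ^ 2 * d ^ t) ^ (p - 1) := by
  have hp2' : p ≠ 2 := by omega
  obtain ⟨k, n, a, S, ha, hcard, hdist⟩ := hF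
  have hle : ∀ x : Fin k → Fin (n + 1), ∀ i, ((fun i => (x i : ℕ)) : Fin k → ℕ) i ≤ n :=
    fun x i => Nat.le_of_lt_succ (x i).2
  -- the congruences
  have hmod : ∀ a b, (Ideal.Quotient.mk (Ideal.span {(M : 𝓞 K)}) (B a)) ^ r =
      (Ideal.Quotient.mk (Ideal.span {(M : 𝓞 K)}) (B b)) ^ r := by
    intro a b
    rw [← map_pow, ← map_pow, Ideal.Quotient.eq, Ideal.mem_span_singleton]
    exact hB a b
  have hXr : ∀ x : Fin k → Fin (n + 1), (Ideal.Quotient.mk (Ideal.span {(M : 𝓞 K)})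
      (XX a B n (fun i => (x i : ℕ)))) ^ r =
      (Ideal.Quotient.mk (Ideal.span {(M : 𝓞 K)}) (B 1)) ^ (r * (n * k)) := by
    intro x
    rw [map_XX]
    unfold XX
    rw [← prod_pow]
    have h2 : (Ideal.Quotient.mk (Ideal.span {(M : 𝓞 K)}) (B 1)) ^ (r * (n * k)) =
        ∏ _i : Fin k, ((Ideal.Quotient.mk (Ideal.span {(M : 𝓞 K)}) (B 1)) ^ r) ^ n := by
      rw [prod_const, card_univ, Fintype.card_fin, ← pow_mul, ← pow_mul]
    rw [h2]
    apply prod_congr rfl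
    intro i _
    rw [mul_pow, ← pow_mul, ← pow_mul, mul_comm _ r, mul_comm _ r, pow_mul, pow_mul,
      hmod (a i) 1, hmod (-(a i)) 1, ← pow_add, Nat.add_sub_cancel' (hle x i)]
  have hdM : IsCoprime (d : 𝓞 K) (M : 𝓞 K) := by
    have h1 := hcop 1
    have h2 := h1.map (sg p K (-1) : 𝓞 K →+* 𝓞 K)
    rw [map_intCast] at h2
    have h3 := h1.mul_left h2
    have h4 : B 1 * sg p K (-1) (B 1) = (d : 𝓞 K) := by
      obtain ⟨φ, -⟩ := exists_phi K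
      apply phi_injective (p := p) φ
      rw [map_mul, phi_conj, Complex.mul_conj', map_intCast]
      have h5 := hS.hnorm 1 φ
      exact_mod_cast congrArg (fun x : ℝ => (x : ℂ)) h5
    change IsCoprime (B 1 * sg p K (-1) (B 1)) (M : 𝓞 K) at h3
    rwa [h4] at h3
  obtain ⟨x, hx, x', hx', hxx, hdvd⟩ := exists_cong_ideal (p := p) (K := K) hr hp2 hpr hM0 hJ Pf
    hPp hPm S (fun x => XX a B n (fun i => (x i : ℕ)))
    (by
      intro x _
      unfold XX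
      apply IsCoprime.prod_left
      intro i _
      exact (hcop _).pow_left.mul_left (hcop _).pow_left)
    (by
      intro x _ x' _
      rw [← Ideal.mem_span_singleton, ← Ideal.Quotient.eq, map_pow, map_pow, hXr, hXr])
    (by
      intro x _ x' _
      rw [hS.conj_eq a (hle x), hS.conj_eq a (hle x')])
    hcard hρ
  obtain ⟨φ, -⟩ := exists_phi K
  have hρ0 : ρ ≠ 0 := by
    rcases hρ with rfl | ⟨rfl, -⟩
    · unfold rho
      split_ifs
      · exact hr.ne_zero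
      · exact one_ne_zero
    · exact one_ne_zero
  have hdI : ((Ideal.absNorm I : ℕ) : 𝓞 K) = (d : 𝓞 K) := by
    rw [← hS.hI, Int.cast_natCast]
  have h1 := norm_ge_ideal (p := p) (hS.sub_ne_zero ha hxx)
    (hS.gcd_dvd hp2' a (hle x) (hle x')) hρ0 hJ hdvd (by rw [hdI]; exact hdM) φ
  set s := ∑ e, min (Ex a n (fun i => (x i : ℕ)) e) (Ex a n (fun i => (x' i : ℕ)) e) with hs
  have h2s := two_sum_min hp2' a (hle x) (hle x') (hdist x hx x' hx')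
  rw [← hs] at h2s
  set R := Real.sqrt ((d : ℝ) ^ (n * k)) with hR
  have hdR : (0 : ℝ) < d := by exact_mod_cast hS.hd
  have hd1 : (1 : ℝ) ≤ d := by exact_mod_cast hS.hd
  have hRsq : R ^ 2 = (d : ℝ) ^ (n * k) := by
    rw [hR, Real.sq_sqrt]
    positivity
  have h2 : ∏ c : (ZMod p)ˣ, ‖φ (sg p K c (XX a B n (fun i => (x i : ℕ)) -
      XX a B n (fun i => (x' i : ℕ))))‖ ≤ (2 * R) ^ (p - 1) := by
    rw [← card_units', ← card_univ, ← prod_const]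
    apply prod_le_prod (fun _ _ => norm_nonneg _)
    intro c _
    exact hS.norm_sub_le a (hle x) (hle x') φ c
  have hdI' : ((Ideal.absNorm I : ℕ) : ℝ) = (d : ℝ) := by
    rw [← hS.hI, Int.cast_natCast]
  rw [hdI'] at h1
  have h3 : (d : ℝ) ^ s * (Ideal.absNorm J : ℝ) ≤ ((ρ : ℝ) * (2 * R)) ^ (p - 1) := by
    refine h1.trans ?_
    rw [mul_pow]
    exact mul_le_mul_of_nonneg_left h2 (by positivity)
  have h4 : ((d : ℝ) ^ s * (Ideal.absNorm J : ℝ)) ^ 2 ≤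
      (((ρ : ℝ) * (2 * R)) ^ (p - 1)) ^ 2 :=
    pow_le_pow_left₀ (by positivity) h3 2
  have h5 : ((d : ℝ) ^ s * (Ideal.absNorm J : ℝ)) ^ 2 =
      (d : ℝ) ^ (2 * s) * (Ideal.absNorm J : ℝ) ^ 2 := by
    rw [mul_pow, ← pow_mul, mul_comm s 2]
  have h6 : (((ρ : ℝ) * (2 * R)) ^ (p - 1)) ^ 2 =
      (4 * (ρ : ℝ) ^ 2) ^ (p - 1) * (d : ℝ) ^ (n * k * (p - 1)) := by
    rw [← pow_mul, mul_comm (p - 1) 2, pow_mul, pow_mul (d : ℝ) (n * k), ← hRsq, ← mul_pow]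
    congr 1
    ring
  rw [h5, h6] at h4
  have h7 : (d : ℝ) ^ (n * k * (p - 1)) ≤ (d : ℝ) ^ (2 * s) * ((d : ℝ) ^ t) ^ (p - 1) := by
    rw [← pow_mul, ← pow_add, mul_comm t]
    exact pow_le_pow_right₀ hd1 h2s
  have h8 : (d : ℝ) ^ (2 * s) * (Ideal.absNorm J : ℝ) ^ 2 ≤
      (d : ℝ) ^ (2 * s) * (4 * (ρ : ℝ) ^ 2 * (d : ℝ) ^ t) ^ (p - 1) := by
    refine h4.trans ?_
    refine (mul_le_mul_of_nonneg_left h7 (by positivity)).trans (le_of_eq ?_)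
    rw [mul_pow _ ((d : ℝ) ^ t)]
    ring
  have h9 := le_of_mul_le_mul_left h8 (by positivity)
  exact_mod_cast h9

end

end Pool.Agent.Lib.MP_509488_nt.Stick
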