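import Mathlib
import Pool.Agent.Lib.MP_509488_nt.Stick.PigI

set_option autoImplicit false

namespace Pool.Agent.Lib.MP_509488_nt.Stick

open Finset NumberField IsCyclotomicExtension.Rat UniqueFactorizationMonoid

/-- a finite set of at most `q * w` elements is divided into `q` parts of at most `w` elements -/
theorem exists_parts {α : Type*} [DecidableEq α] (w : ℕ) : ∀ (q : ℕ) (s : Finset α),
    s.card ≤ q * w → ∃ f : α → ℕ, (∀ x ∈ s, f x < q) ∧ ∀ i, (s.filter (fun x => f x = i)).card ≤ w := by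
  intro q
  induction q with
  | zero =>
    intro s hs
    rw [Nat.zero_mul, Nat.le_zero, card_eq_zero] at hs
    subst hs
    exact ⟨fun _ => 0, by simp, by simp⟩
  | succ q ih =>
    intro s hs
    obtain ⟨T, hT, hTc⟩ := exists_subset_card_eq (s := s) (n := min w s.card) (min_le_right _ _)
    have h1 : (s \ T).card ≤ q * w := by
      rw [card_sdiff_of_subset hT, hTc]
      have : (q + 1) * w = q * w + w := by ring
      omega
    obtain ⟨f, hf, hfc⟩ := ih (s \ T) h1
    refine ⟨fun x => if x ∈ T then q else f x, ?_, ?_⟩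
    · intro x hx
      simp only
      split_ifs with h
      · omega
      · have := hf x (mem_sdiff.2 ⟨hx, h⟩)
        omega
    · intro i
      by_cases hi : i = q
      · have h2 : (s.filter (fun x => (if x ∈ T then q else f x) = i)) ⊆ T := by
          intro x hx
          rw [mem_filter] at hx
          by_contra hxT
          rw [if_neg hxT] at hx
          have := hf x (mem_sdiff.2 ⟨hx.1, hxT⟩)
          omega
        refine (card_le_card h2).trans ?_
        rw [hTc]
        exact min_le_left _ _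
      · refine le_trans (card_le_card ?_) (hfc i)
        intro x hx
        rw [mem_filter] at hx ⊢
        obtain ⟨hx1, hx2⟩ := hx
        by_cases hxT : x ∈ T
        · simp only [if_pos hxT] at hx2
          exact absurd hx2.symm hi
        · simp only [if_neg hxT] at hx2
          exact ⟨mem_sdiff.2 ⟨hx1, hxT⟩, hx2⟩

/-- a product over a multiset divided into parts -/
theorem prod_parts {α : Type*} [CommMonoid α] (c : α → ℕ) (q : ℕ) (N : Multiset α)
    (hc : ∀ x ∈ N, c x < q) : ∏ i ∈ range q, (N.filter (fun x => c x = i)).prod = N.prod := by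
  classical
  induction N using Multiset.induction_on with
  | empty => simp
  | cons a N ih =>
    have h1 : ∀ x ∈ N, c x < q := fun x hx => hc x (Multiset.mem_cons_of_mem hx)
    have h2 : c a < q := hc a (Multiset.mem_cons_self _ _)
    rw [Multiset.prod_cons, ← ih h1]
    have h3 : ∀ i ∈ range q, ((a ::ₘ N).filter (fun x => c x = i)).prod =
        (if i = c a then a else 1) * (N.filter (fun x => c x = i)).prod := by
      intro i _
      by_cases h : c a = i
      · rw [Multiset.filter_cons_of_pos (p := fun x => c x = i) _ h, Multiset.prod_cons,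
          if_pos h.symm]
      · rw [Multiset.filter_cons_of_neg (p := fun x => c x = i) _ h, if_neg (Ne.symm h), one_mul]
    rw [prod_congr rfl h3, prod_mul_distrib, prod_ite_eq' , if_pos (mem_range.2 h2)]

variable {p : ℕ} [hp : Fact p.Prime] {K : Type} [Field K] [NumberField K]
  [hK : IsCyclotomicExtension {p} ℚ K]

omit hp in
theorem r_notMem_exc [hp : Fact p.Prime] {r : ℕ} (hr : r.Prime) (hp2 : p ≠ 2) {M : ℤ} :
    r ∉ excPrimes p r M := by
  intro h
  rw [excPrimes, mem_filter] at h
  obtain ⟨-, hrp, h1⟩ := h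
  obtain ⟨hg0, -, -⟩ := ord_cases hr hrp hp2
  have h2 : r ∣ r ^ ordPM p r := dvd_pow_self _ hg0.ne'
  have h3 : 1 ≤ r ^ ordPM p r := Nat.one_le_pow _ _ hr.pos
  rcases h1 with h4 | h4
  · have h5 : r ∣ r ^ ordPM p r - 1 := (dvd_mul_left _ _).trans h4
    have h6 := (Nat.dvd_sub_iff_right h3 h2).1 h5
    exact hr.one_lt.ne' (Nat.dvd_one.1 h6)
  · have h5 : r ∣ r ^ ordPM p r + 1 := (dvd_mul_left _ _).trans h4
    have h6 := (Nat.dvd_add_right h2).1 h5
    exact hr.one_lt.ne' (Nat.dvd_one.1 h6)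

omit [NumberField K] in
theorem notMem_of_ne {l r : ℕ} (hl : l.Prime) (hr : r.Prime) (hlr : l ≠ r) {P : Ideal (𝓞 K)}
    (hP : P ≠ ⊤) (hlP : (l : 𝓞 K) ∈ P) : (r : 𝓞 K) ∉ P := by
  intro hrP
  apply hP
  rw [Ideal.eq_top_iff_one]
  have h1 : IsCoprime (l : ℤ) (r : ℤ) := Nat.isCoprime_iff_coprime.2 ((Nat.coprime_primes hl hr).2 hlr)
  obtain ⟨a, b, hab⟩ := h1
  have h2 : ((a * l + b * r : ℤ) : 𝓞 K) = 1 := by rw [hab]; simp
  rw [← h2]
  push_cast
  exact P.add_mem (P.mul_mem_left _ hlP) (P.mul_mem_left _ hrP)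

section
variable {d : ℤ} {I : Ideal (𝓞 K)} {B : (ZMod p)ˣ → 𝓞 K}

/-- the congruence bound with the primes divided into groups -/
theorem Sys.bound_group (hS : Sys d I B) (hp2 : 2 < p) {r : ℕ}
    (hr : r.Prime) (hpr : p < r) {M : ℤ} (hM0 : M ≠ 0)
    (hcop : ∀ a, IsCoprime (B a) (M : 𝓞 K)) (hB : ∀ a b, (M : 𝓞 K) ∣ B a ^ r - B b ^ r)
    {t q w : ℕ} (hq : 1 ≤ q) (hW : excWeight p r M ≤ q * w) (hF : Fam p t (r ^ w)) :
    M ^ 2 ≤ (rho r M : ℤ) ^ 2 * (4 * d ^ t) ^ q := by
  classical
  obtain ⟨Pf, hPc, hPp, hPm⟩ := exists_finset' (p := p) (K := K) hp2 r M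
  obtain ⟨f, hf, hfc⟩ := exists_parts w q Pf (hPc.trans hW)
  set c : Ideal (𝓞 K) → ℕ := fun P => if P ∈ Pf then f P else
    if cj (p := p) P ∈ Pf then f (cj (p := p) P) else 0 with hc
  have hcq : ∀ P, c P < q := by
    intro P
    simp only [hc]
    split_ifs with h1 h2
    · exact hf _ h1
    · exact hf _ h2
    · omega
  have hM0' : (M : 𝓞 K) ≠ 0 := by exact_mod_cast hM0
  have hspan0 : Ideal.span {(M : 𝓞 K)} ≠ 0 := by
    rw [Ne, Ideal.zero_eq_bot, Ideal.span_singleton_eq_bot]
    exact hM0'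
  set N := normalizedFactors (Ideal.span {(M : 𝓞 K)}) with hN
  have hNprod : N.prod = Ideal.span {(M : 𝓞 K)} :=
    associated_iff_eq.1 (prod_normalizedFactors hspan0)
  set J : ℕ → Ideal (𝓞 K) := fun i => (N.filter (fun P => c P = i)).prod with hJdef
  have hJprod : ∏ i ∈ range q, J i = Ideal.span {(M : 𝓞 K)} := by
    rw [← hNprod]
    exact prod_parts c q N fun P _ => hcq P
  have hMJ : ∀ i, (M : 𝓞 K) ∈ J i := by
    intro i
    rw [← Ideal.dvd_span_singleton, ← hNprod]
    exact Multiset.prod_dvd_prod_of_le (Multiset.filter_le _ _)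
  have hJP : ∀ i, ∀ P : Ideal (𝓞 K), P.IsMaximal → J i ≤ P → c P = i := by
    intro i P hP hle
    obtain ⟨Q, hQ, hQP⟩ := (Ideal.IsPrime.multiset_prod_le hP.isPrime).1 hle
    rw [Multiset.mem_filter] at hQ
    have hQp := prime_of_normalized_factor Q hQ.1
    have hQm : Q.IsMaximal := (Ideal.isPrime_of_prime hQp).isMaximal hQp.ne_zero
    rw [← hQm.eq_of_le hP.ne_top hQP]
    exact hQ.2
  set ρ : ℕ → ℕ := fun i => if i = 0 then rho r M else 1 with hρdef
  have hkey : ∀ i, ((Ideal.absNorm (J i) : ℕ) : ℤ) ^ 2 ≤ (4 * (ρ i : ℤ) ^ 2 * d ^ t) ^ (p - 1) := by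
    intro i
    refine hS.bound_ideal hp2 hr hpr hM0 hcop hB (hMJ i) (Pf.filter (fun P => f P = i)) ?_ ?_ ?_
      (hF.mono (Nat.pow_le_pow_right hr.pos (hfc i)))
    · intro P hP
      rw [mem_filter] at hP
      exact ⟨(hPp P hP.1).1, (hPp P hP.1).2.1⟩
    · intro l hl P hP hle hlP
      have hcP := hJP i P hP hle
      by_cases h1 : P ∈ Pf
      · left
        rw [mem_filter]
        refine ⟨h1, ?_⟩
        simp only [hc, if_pos h1] at hcP
        exact hcP
      · right
        have h2 : cj (p := p) P ∈ Pf := by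
          rcases hPm l hl P hP hlP with h | h
          · exact absurd h h1
          · exact h
        rw [mem_filter]
        refine ⟨h2, ?_⟩
        simp only [hc, if_neg h1, if_pos h2] at hcP
        exact hcP
    · by_cases hi : i = 0
      · left
        simp only [hρdef, if_pos hi]
      · right
        refine ⟨by simp only [hρdef, if_neg hi], ?_⟩
        intro P hP hle
        have hcP := hJP i P hP hle
        have hex : ∃ l ∈ excPrimes p r M, (l : 𝓞 K) ∈ P := by
          by_cases h1 : P ∈ Pf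
          · exact (hPp P h1).2.2
          · by_cases h2 : cj (p := p) P ∈ Pf
            · obtain ⟨l, hl, hlP⟩ := (hPp _ h2).2.2
              exact ⟨l, hl, natCast_mem_cj.1 hlP⟩
            · simp only [hc, if_neg h1, if_neg h2] at hcP
              exact absurd hcP.symm hi
        obtain ⟨l, hl, hlP⟩ := hex
        have hl' := hl
        rw [excPrimes, mem_filter] at hl'
        refine notMem_of_ne (Nat.prime_of_mem_primeFactors hl'.1) hr ?_ hP.ne_top hlP
        rintro rfl
        exact r_notMem_exc hr (by omega) hl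
  have hnorm : (M.natAbs : ℤ) ^ (p - 1) = ∏ i ∈ range q, ((Ideal.absNorm (J i) : ℕ) : ℤ) := by
    have h1 := absNorm_int (p := p) (K := K) M
    rw [← hJprod, map_prod] at h1
    exact_mod_cast h1.symm
  have hd0 : 0 < d := hS.hd
  have hfin : (M ^ 2) ^ (p - 1) ≤ ((rho r M : ℤ) ^ 2 * (4 * d ^ t) ^ q) ^ (p - 1) := by
    calc (M ^ 2) ^ (p - 1) = ((M.natAbs : ℤ) ^ (p - 1)) ^ 2 := by
          rw [← Int.natAbs_sq M, ← pow_mul, ← pow_mul, mul_comm]
      _ = ∏ i ∈ range q, ((Ideal.absNorm (J i) : ℕ) : ℤ) ^ 2 := by rw [hnorm, prod_pow]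
      _ ≤ ∏ i ∈ range q, (4 * (ρ i : ℤ) ^ 2 * d ^ t) ^ (p - 1) :=
          prod_le_prod (fun i _ => by positivity) fun i _ => hkey i
      _ = (∏ i ∈ range q, (4 * (ρ i : ℤ) ^ 2 * d ^ t)) ^ (p - 1) := prod_pow _ _ _
      _ = _ := by
          congr 1
          have h2 : ∀ i ∈ range q, (4 * (ρ i : ℤ) ^ 2 * d ^ t) = (ρ i : ℤ) ^ 2 * (4 * d ^ t) :=
            fun i _ => by ring
          rw [prod_congr rfl h2, prod_mul_distrib, prod_const, card_range]
          congr 1
          have h3 : ∀ i ∈ range q, (ρ i : ℤ) ^ 2 = if i = 0 then (rho r M : ℤ) ^ 2 else 1 := by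
            intro i _
            simp only [hρdef]
            split_ifs
            · rfl
            · simp
          rw [prod_congr rfl h3, prod_ite_eq', if_pos (mem_range.2 (by omega))]
  have hpp : p - 1 ≠ 0 := by omega
  exact (pow_le_pow_iff_left₀ (sq_nonneg M) (by positivity) hpp).1 hfin

end

end Pool.Agent.Lib.MP_509488_nt.Stick
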