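import Mathlib

set_option autoImplicit false

namespace Pool.Agent.Lib.MP_509488_nt.Stick

open Finset

theorem norm_one_of_pow {ω : ℂ} {p : ℕ} (hp : p ≠ 0) (h : ω ^ p = 1) : ‖ω‖ = 1 := by
  refine (pow_eq_one_iff_of_nonneg (norm_nonneg _) hp).1 ?_
  rw [← norm_pow, h, norm_one]

theorem norm_one_sub_pow_le {ω : ℂ} (h : ‖ω‖ = 1) (j : ℕ) : ‖1 - ω ^ j‖ ≤ j * ‖1 - ω‖ := by
  induction j with
  | zero => simp
  | succ j ih =>
    have e : 1 - ω ^ (j + 1) = (1 - ω ^ j) + ω ^ j * (1 - ω) := by ring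
    rw [e]
    refine (norm_add_le _ _).trans ?_
    rw [norm_mul, norm_pow, h, one_pow, one_mul]
    push_cast
    linarith

theorem one_le_norm_one_sub {ω : ℂ} {p : ℕ} (hp : 0 < p) (h : ω ^ p = 1) (h1 : ω ≠ 1) :
    1 ≤ ((p : ℝ) + 1) / 2 * ‖1 - ω‖ := by
  have hn := norm_one_of_pow hp.ne' h
  have hp0 : (0 : ℝ) < p := by exact_mod_cast hp
  have hsum : ∑ j ∈ range p, ω ^ j = 0 := by
    have h2 := mul_neg_geom_sum ω p
    rw [h, sub_self] at h2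
    rcases mul_eq_zero.1 h2 with h3 | h3
    · exact absurd (sub_eq_zero.1 h3).symm h1
    · exact h3
  have h2 : ∑ j ∈ range p, (1 - ω ^ j) = p := by
    rw [sum_sub_distrib, hsum, sum_const, card_range, sub_zero, nsmul_eq_mul, mul_one]
  have h3 : (p : ℝ) ≤ ∑ j ∈ range p, (j : ℝ) * ‖1 - ω‖ := by
    have h4 : (p : ℝ) = ‖∑ j ∈ range p, (1 - ω ^ j)‖ := by rw [h2, Complex.norm_natCast]
    rw [h4]
    exact (norm_sum_le _ _).trans (sum_le_sum fun j _ => norm_one_sub_pow_le hn j)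
  rw [← sum_mul] at h3
  have h4 : (∑ j ∈ range p, (j : ℝ)) = p * (p - 1) / 2 := by
    have h5 := Finset.sum_range_id_mul_two p
    have h6 : ((∑ i ∈ range p, i : ℕ) : ℝ) * 2 = p * ((p : ℝ) - 1) := by
      have : ((p * (p - 1) : ℕ) : ℝ) = p * ((p : ℝ) - 1) := by
        push_cast [Nat.cast_sub (by omega : 1 ≤ p)]
        ring
      rw [← this, ← h5]
      push_cast
      ring
    push_cast at h6
    linarith
  rw [h4] at h3
  have h5 : 0 ≤ ‖1 - ω‖ := norm_nonneg _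
  have h6 : (p : ℝ) * 1 ≤ p * (((p : ℝ) - 1) / 2 * ‖1 - ω‖) := by linarith
  have h7 := le_of_mul_le_mul_left h6 hp0
  linarith

theorem one_le_norm_one_add {ω : ℂ} {p : ℕ} (hp : Odd p) (h : ω ^ p = 1) (h1 : ω ≠ 1) :
    1 ≤ ((p : ℝ) + 1) / 2 * ‖1 + ω‖ := by
  obtain ⟨m, rfl⟩ := hp
  have hn := norm_one_of_pow (by omega) h
  have h2 : (1 + ω) * ∑ j ∈ range (m + 1), (ω ^ 2) ^ j = 1 := by
    have h3 := mul_neg_geom_sum (ω ^ 2) (m + 1)
    have h4 : (ω ^ 2) ^ (m + 1) = ω := by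
      rw [← pow_mul]
      have : 2 * (m + 1) = (2 * m + 1) + 1 := by ring
      rw [this, pow_succ, h, one_mul]
    rw [h4] at h3
    have h5 : (1 - ω) * ((1 + ω) * ∑ j ∈ range (m + 1), (ω ^ 2) ^ j) = (1 - ω) * 1 := by
      linear_combination h3
    exact mul_left_cancel₀ (sub_ne_zero.2 (Ne.symm h1)) h5
  have h3 := congrArg norm h2
  rw [norm_mul, norm_one] at h3
  have h4 : ‖∑ j ∈ range (m + 1), (ω ^ 2) ^ j‖ ≤ (m : ℝ) + 1 := by
    refine (norm_sum_le _ _).trans ?_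
    have : ∀ j ∈ range (m + 1), ‖(ω ^ 2) ^ j‖ ≤ 1 := by
      intro j _
      rw [norm_pow, norm_pow, hn, one_pow, one_pow]
    refine (sum_le_sum this).trans (le_of_eq ?_)
    simp
  have h5 : (((2 * m + 1 : ℕ) : ℝ) + 1) / 2 = (m : ℝ) + 1 := by push_cast; ring
  rw [h5]
  have h6 := mul_le_mul_of_nonneg_right h4 (norm_nonneg (1 + ω))
  linarith

end Pool.Agent.Lib.MP_509488_nt.Stick
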