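import Mathlib
import Pool.Agent.Lib.MP_509488_nt.SecondCase

set_option autoImplicit false

namespace Pool.Agent.Lib.MP_509488_nt.Stick

open Finset

/-- upper bound for the cofactor -/
theorem F_le {p : ℕ} (u v : ℤ) (H : ℤ) (hu : |u| ≤ H) (hv : |v| ≤ H) :
    F p u v ≤ p * H ^ (p - 1) := by
  unfold F
  have h : ∀ i ∈ range p, u ^ i * v ^ (p - 1 - i) ≤ H ^ (p - 1) := by
    intro i hi
    have hi' := mem_range.1 hi
    refine (le_abs_self _).trans ?_
    rw [abs_mul, abs_pow, abs_pow]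
    have e : H ^ (p - 1) = H ^ i * H ^ (p - 1 - i) := by
      rw [← pow_add]; congr 1; omega
    rw [e]
    exact mul_le_mul (pow_le_pow_left₀ (abs_nonneg _) hu _) (pow_le_pow_left₀ (abs_nonneg _) hv _)
      (by positivity) (pow_nonneg ((abs_nonneg u).trans hu) _)
  refine (sum_le_sum h).trans (le_of_eq ?_)
  rw [sum_const, card_range, nsmul_eq_mul]

/-- lower bound for the cofactor -/
theorem F_ge {p : ℕ} (hp : Odd p) {u v : ℤ} (huv : 0 < |u| + |v|) :
    (|u| + |v|) ^ (p - 1) ≤ 2 ^ (p - 1) * F p u v := by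
  obtain ⟨m, rfl⟩ := hp
  have h1 : F (2 * m + 1) (|u|) (-|v|) ≤ F (2 * m + 1) u v := by
    unfold F
    apply sum_le_sum
    intro i hi
    have hi' := mem_range.1 hi
    rcases Nat.even_or_odd i with he | ho
    · have he' : Even (2 * m + 1 - 1 - i) := by
        have : 2 * m + 1 - 1 - i = 2 * m - i := by omega
        rw [this]
        exact (Nat.even_sub (by omega)).2 ⟨fun _ => he, fun _ => even_two_mul m⟩
      rw [he.pow_abs, he'.neg_pow, he'.pow_abs]
    · have ho' : Odd (2 * m + 1 - 1 - i) := by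
        have : 2 * m + 1 - 1 - i = 2 * m - i := by omega
        rw [this, Nat.odd_iff]
        have := Nat.odd_iff.1 ho
        omega
      rw [ho'.neg_pow, mul_neg, ← abs_pow, ← abs_pow, ← abs_mul]
      exact neg_abs_le _
  have h2 := F_mul (2 * m + 1) (|u|) (-|v|)
  rw [(odd_two_mul_add_one m).neg_pow, sub_neg_eq_add, sub_neg_eq_add] at h2
  have h3 : (|u| + |v|) ^ (2 * m + 1) ≤ 2 ^ (2 * m + 1 - 1) * (|u| ^ (2 * m + 1) + |v| ^ (2 * m + 1)) :=
    add_pow_le (abs_nonneg u) (abs_nonneg v) _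
  rw [← h2] at h3
  have e : 2 * m + 1 - 1 = 2 * m := by omega
  rw [e] at h3 ⊢
  have h4 : (|u| + |v|) * (|u| + |v|) ^ (2 * m) ≤
      (|u| + |v|) * (2 ^ (2 * m) * F (2 * m + 1) (|u|) (-|v|)) := by
    rw [← pow_succ']
    refine h3.trans (le_of_eq ?_)
    ring
  have h5 := le_of_mul_le_mul_left h4 huv
  refine h5.trans ?_
  exact mul_le_mul_of_nonneg_left h1 (by positivity)

theorem pow_ne_two {r : ℕ} (hr : 2 ≤ r) {w : ℤ} : w ^ r ≠ 2 ∧ w ^ r ≠ -2 := by
  have key : |w ^ r| ≠ 2 := by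
    rw [abs_pow]
    intro h
    have h0 : 0 ≤ |w| := abs_nonneg w
    rcases lt_or_ge (|w|) 2 with h1 | h1
    · have : |w| ^ r ≤ 1 := pow_le_one₀ h0 (by omega)
      omega
    · have h2 : (2 : ℤ) ^ 2 ≤ |w| ^ r :=
        (pow_le_pow_left₀ (by norm_num) h1 2).trans (pow_le_pow_right₀ (by omega) hr)
      norm_num at h2
      omega
  constructor
  · intro h; rw [h] at key; norm_num at key
  · intro h; rw [h] at key; norm_num at key

theorem abs_add_abs_ge {p r : ℕ} (hp : Odd p) (hr : 2 ≤ r) {u v w : ℤ} (hu : u ≠ 0)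
    (hv : v ≠ 0) (huv' : u ≠ v) (h : u ^ p - v ^ p = w ^ r) : 3 ≤ |u| + |v| := by
  have h1 : 1 ≤ |u| := Int.one_le_abs hu
  have h2 : 1 ≤ |v| := Int.one_le_abs hv
  by_contra hlt
  have h3 : |u| = 1 := by omega
  have h4 : |v| = 1 := by omega
  have hw := pow_ne_two hr (w := w)
  rcases eq_or_eq_neg_of_abs_eq h3 with h5 | h5 <;> rcases eq_or_eq_neg_of_abs_eq h4 with h6 | h6
  · exact huv' (h5.trans h6.symm)
  · rw [h5, h6, hp.neg_pow, one_pow] at h
    exact hw.1 (by linarith)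
  · rw [h5, h6, hp.neg_pow, one_pow] at h
    exact hw.2 (by linarith)
  · exact huv' (h5.trans h6.symm)

theorem three_pow_gt : ∀ n : ℕ, 4 ≤ n → (n + 1) * 2 ^ n < 3 ^ n := by
  intro n hn
  induction n, hn using Nat.le_induction with
  | base => norm_num
  | succ n hn ih =>
    rw [pow_succ, pow_succ]
    have : 0 < 2 ^ n := by positivity
    nlinarith

theorem p_lt_F {p r : ℕ} (hpo : Odd p) (hp5 : 5 ≤ p) (hr : 2 ≤ r) {u v w : ℤ} (hu : u ≠ 0)
    (hv : v ≠ 0) (huv' : u ≠ v) (h : u ^ p - v ^ p = w ^ r) : (p : ℤ) < F p u v := by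
  have h1 := abs_add_abs_ge hpo hr hu hv huv' h
  have h2 := F_ge hpo (u := u) (v := v) (by omega)
  have h3 : (3 : ℤ) ^ (p - 1) ≤ 2 ^ (p - 1) * F p u v :=
    (pow_le_pow_left₀ (by norm_num) h1 _).trans h2
  have h4 := three_pow_gt (p - 1) (by omega)
  have h5 : ((p : ℤ)) * 2 ^ (p - 1) < 3 ^ (p - 1) := by
    have : p - 1 + 1 = p := by omega
    rw [this] at h4
    exact_mod_cast h4
  have h6 : (2 : ℤ) ^ (p - 1) * p < 2 ^ (p - 1) * F p u v := by linarith
  exact lt_of_mul_lt_mul_left h6 (by positivity)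

/-- a divisor of the cofactor prime to `p` is large -/
theorem d_ge {p : ℕ} (hp : p.Prime) (hp5 : 5 ≤ p) {u v d : ℤ} (huv : IsCoprime u v)
    (hd1 : 1 < d) (hdF : d ∣ F p u v) (hpd : ¬ (p : ℤ) ∣ d) : 2 * (p : ℤ) + 1 ≤ d := by
  obtain ⟨q, hq, hqd⟩ := Int.exists_prime_and_dvd (n := d) (by
    intro h
    have : d.natAbs = 1 := h
    omega)
  set l := q.natAbs with hl
  have hlp : l.Prime := Int.prime_iff_natAbs_prime.1 hq
  have hlZ := Nat.prime_iff_prime_int.1 hlp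
  have hld : (l : ℤ) ∣ d := by rw [hl, Int.natAbs_dvd]; exact hqd
  have hlF : (l : ℤ) ∣ F p u v := hld.trans hdF
  have hlne : l ≠ p := by rintro h; rw [h] at hld; exact hpd hld
  have hlpow : (l : ℤ) ∣ u ^ p - v ^ p := by rw [← F_mul]; exact hlF.mul_left _
  have hlv : ¬ (l : ℤ) ∣ v := by
    intro hv
    have h1 : (l : ℤ) ∣ u ^ p := by
      have := dvd_add hlpow (dvd_pow hv hp.ne_zero)
      rwa [sub_add_cancel] at this
    exact hlZ.not_isUnit (huv.isUnit_of_dvd' (hlZ.dvd_of_dvd_pow h1) hv)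
  have hmod : l ≡ 1 [MOD p] := by
    by_contra h1
    exact not_dvd_F hp hlp hlne h1 hlv hlpow hlF
  have hle : (l : ℤ) ≤ d := Int.le_of_dvd (by omega) hld
  have h2 : p ∣ l - 1 := (Nat.modEq_iff_dvd' hlp.one_le).1 hmod.symm
  have hl2 : l ≠ 2 := by
    intro h
    rw [h] at h2
    have := Nat.le_of_dvd (by norm_num) h2
    omega
  have hlo : l % 2 = 1 := Nat.odd_iff.1 (hlp.odd_of_ne_two hl2)
  have hpo : p % 2 = 1 := Nat.odd_iff.1 (hp.odd_of_ne_two (by omega))
  obtain ⟨j, hj⟩ := h2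
  have hl1 := hlp.two_le
  have hj2 : 2 ≤ j := by
    rcases Nat.lt_or_ge j 2 with h | h
    · interval_cases j
      · omega
      · omega
    · exact h
  have hj3 := Nat.mul_le_mul_left p hj2
  have : 2 * p + 1 ≤ l := by omega
  have h3 : (2 * (p : ℤ) + 1) ≤ l := by exact_mod_cast this
  linarith

end Pool.Agent.Lib.MP_509488_nt.Stick
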