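import Mathlib
import Pool.Agent.Lib.MP_509488_nt.Stick.Gen
import Pool.Agent.Lib.MP_509488_nt.Stick.Est

set_option autoImplicit false

namespace Pool.Agent.Lib.MP_509488_nt.Stick

open Finset NumberField IsCyclotomicExtension.Rat

variable {p : ℕ} [hp : Fact p.Prime] {K : Type} [Field K] [NumberField K]
  [hK : IsCyclotomicExtension {p} ℚ K]

theorem assoc_one_sub (c : (ZMod p)ˣ) : Associated (sg p K c (1 - z p K)) (1 - z p K) := by
  have h1 : sg p K c (1 - z p K) = 1 - z p K ^ c.val.val := by rw [map_sub, map_one, sg_z]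
  rw [h1]
  have h2 : (c.val.val).Coprime p := by
    rw [Nat.coprime_comm, Nat.Prime.coprime_iff_not_dvd hp.out]
    intro hd
    have h3 := ZMod.val_lt c.val
    have h4 := val_pos c
    have := Nat.le_of_dvd h4 hd
    omega
  have h3 := (z_prim p K).associated_sub_one_pow_sub_one_of_coprime h2
  have h4 := h3.symm.neg_left.neg_right
  rwa [neg_sub, neg_sub] at h4

theorem lam_dvd_int (hp2 : 2 < p) (n : ℤ) : (1 - z p K) ∣ (n : 𝓞 K) ↔ (p : ℤ) ∣ n :=
  (cycRing (IsCyclotomicExtension.zeta_spec p ℚ K) hp2).dvd_int n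

theorem coprime_of_not_lam_dvd (hp2 : 2 < p) (x : 𝓞 K) (h : ¬ (1 - z p K) ∣ x) :
    IsCoprime x (p : 𝓞 K) :=
  ((cycRing (IsCyclotomicExtension.zeta_spec p ℚ K) hp2).coprime x h).symm

theorem norm_one_sub (hp2 : p ≠ 2) : Algebra.norm ℤ (1 - z p K) = p := by
  have h1 := (IsCyclotomicExtension.zeta_spec p ℚ K).norm_toInteger_sub_one_of_prime_ne_two' hp2
  have h2 : Algebra.norm ℤ (1 - z p K) = Algebra.norm ℤ (z p K - 1) := by
    have h3 : ((Algebra.norm ℤ (1 - z p K) : ℤ) : 𝓞 K) =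
        ((Algebra.norm ℤ (z p K - 1) : ℤ) : 𝓞 K) := by
      rw [norm_eq (p := p), norm_eq (p := p)]
      have h4 : ∀ c : (ZMod p)ˣ, sg p K c (1 - z p K) = (-1) * sg p K c (z p K - 1) := by
        intro c
        rw [← neg_sub, map_neg]; ring
      simp_rw [h4]
      rw [prod_mul_distrib, prod_const, card_univ, ZMod.card_units_eq_totient,
        Nat.totient_prime hp.out]
      have h5 : Even (p - 1) := Nat.Odd.sub_odd (hp.out.odd_of_ne_two hp2) odd_one
      rw [h5.neg_one_pow, one_mul]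
    exact_mod_cast h3
  rw [h2]
  exact h1

theorem setup (hp5 : 5 ≤ p) {r : ℕ} (hr : r.Prime) (hpr : p < r) {u v w : ℤ}
    (huv : IsCoprime u v) (hu0 : u ≠ 0) (hv0 : v ≠ 0) (huv' : u ≠ v)
    (h : u ^ p - v ^ p = w ^ r) :
    ∃ (α l : 𝓞 K) (d : ℤ), L p K u v = l * α ∧ l ≠ 0 ∧ IsCoprime α (p : 𝓞 K) ∧
      (∀ c, Associated (sg p K c l) l) ∧ Algebra.norm ℤ α = d ^ r ∧ 2 * (p : ℤ) + 1 ≤ d ∧
      d ^ r ≤ F p u v ∧
      ((l = 1 ∧ ¬ (p : ℤ) ∣ u - v) ∨ (l = 1 - z p K ∧ (p : ℤ) ∣ u - v ∧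
        (p : ℤ) ^ (r - 1) ∣ u - v ∧ ∀ M1 : ℤ, (p : ℤ) * M1 ∣ u - v → (M1 : 𝓞 K) ∣ α - v)) := by
  have hp2 : p ≠ 2 := by omega
  have hr2 : r ≠ 2 := by omega
  have hpo := hp.out.odd_of_ne_two hp2
  have hpZ := Nat.prime_iff_prime_int.1 hp.out
  have hpF := p_lt_F hpo hp5 hr.two_le hu0 hv0 huv' h
  have hp0 : (0 : ℤ) < p := by exact_mod_cast hp.out.pos
  by_cases hpw : (p : ℤ) ∣ w
  · -- second case
    obtain ⟨g, d, -, hF, hd0, -, hpow, hpd, hpv⟩ := exists_gd hp.out hr hp2 hr2 huv huv' h hpw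
    have hpp : (p : ℤ) * p ∣ u - v := by
      refine dvd_trans ?_ hpow
      rw [← sq]
      exact pow_dvd_pow _ (by omega)
    obtain ⟨s, hs⟩ := hpp
    have hlp : (1 - z p K) ∣ (p : 𝓞 K) := by
      have := (lam_dvd_int (K := K) (by omega : 2 < p) (p : ℤ)).2 dvd_rfl
      rwa [Int.cast_natCast] at this
    obtain ⟨m, hm⟩ := hlp
    have hl0 : (1 - z p K) ≠ 0 := by
      intro h0
      rw [h0, zero_mul] at hm
      exact hp.out.ne_zero (by exact_mod_cast hm)
    set α : 𝓞 K := v + m * (p * s) with hα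
    have hL : L p K u v = (1 - z p K) * α := by
      have hu : u = v + p * p * s := by linear_combination hs
      unfold L
      rw [hα, hu]
      push_cast
      linear_combination ((p : 𝓞 K) * s) * hm
    have hαl : ¬ (1 - z p K) ∣ α := by
      intro hd'
      apply hpv
      rw [← lam_dvd_int (K := K) (by omega : 2 < p)]
      have h0 : (1 - z p K) ∣ (p : 𝓞 K) := Dvd.intro m hm.symm
      have h1 : (1 - z p K) ∣ m * ((p : 𝓞 K) * s) := (h0.mul_right _).mul_left _
      have h2 := dvd_sub hd' h1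
      rwa [hα, add_sub_cancel_right] at h2
    have hnorm : Algebra.norm ℤ α = d ^ r := by
      have h1 := norm_L (p := p) (K := K) huv'
      rw [hL, map_mul, norm_one_sub hp2, hF] at h1
      exact mul_left_cancel₀ hp0.ne' h1
    refine ⟨α, 1 - z p K, d, hL, hl0, coprime_of_not_lam_dvd (by omega) α hαl, assoc_one_sub,
      hnorm, ?_, ?_, Or.inr ⟨rfl, ⟨p * s, by rw [hs]; ring⟩, hpow, ?_⟩⟩
    · apply d_ge hp.out hp5 huv
      · by_contra h1
        have : d = 1 := by omega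
        rw [this, one_pow, mul_one] at hF
        omega
      · rw [hF]
        exact (dvd_pow_self d hr.ne_zero).mul_left _
      · exact hpd
    · rw [hF]
      have : 0 < d ^ r := by positivity
      nlinarith
    · intro M1 hM1
      rw [hs, mul_assoc] at hM1
      obtain ⟨y, hy⟩ := (mul_dvd_mul_iff_left hp0.ne').1 hM1
      have hy' : (p : 𝓞 K) * s = M1 * y := by exact_mod_cast congrArg (Int.cast : ℤ → 𝓞 K) hy
      rw [hα, add_sub_cancel_left, hy']
      exact ⟨m * y, by ring⟩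
  · -- first case
    obtain ⟨c, d, -, hF, hd0⟩ := exists_cd hp.out hr hp2 hr2 huv h hpw
    have hpuv : ¬ (p : ℤ) ∣ u - v := by
      intro hd
      apply hpw
      apply hpZ.dvd_of_dvd_pow (n := r)
      rw [← h, ← F_mul]
      exact hd.mul_right _
    refine ⟨L p K u v, 1, d, (one_mul _).symm, one_ne_zero, ?_, ?_, ?_, ?_, ?_, Or.inl ⟨rfl, hpuv⟩⟩
    · apply coprime_of_not_lam_dvd (by omega)
      intro hd
      apply hpuv
      rw [← lam_dvd_int (K := K) (by omega : 2 < p)]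
      have h1 : (1 - z p K) ∣ (1 - z p K) * (v : 𝓞 K) := dvd_mul_right _ _
      have h2 := dvd_sub hd h1
      have h3 : L p K u v - (1 - z p K) * (v : 𝓞 K) = ((u - v : ℤ) : 𝓞 K) := by
        unfold L; push_cast; ring
      rwa [h3] at h2
    · intro c
      rw [map_one]
    · rw [norm_L huv', hF]
    · apply d_ge hp.out hp5 huv
      · by_contra h1
        have : d = 1 := by omega
        rw [this, one_pow] at hF
        omega
      · rw [hF]
        exact dvd_pow_self d hr.ne_zero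
      · intro hpd
        apply hpw
        apply hpZ.dvd_of_dvd_pow (n := r)
        rw [← h, ← F_mul, hF]
        exact (dvd_pow hpd hr.ne_zero).mul_left _
    · rw [hF]

end Pool.Agent.Lib.MP_509488_nt.Stick
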