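import Mathlib
import Pool.Agent.Lib.MP_509488_nt.Stick.Cusp
import Pool.Agent.Lib.MP_509488_nt.Stick.Setup
import Pool.Agent.Lib.MP_509488_nt.Stick.Root
import Pool.Agent.Lib.MP_509488_nt.Stick.Grp

set_option autoImplicit false

namespace Pool.Agent.Lib.MP_509488_nt.Stick

open Finset NumberField IsCyclotomicExtension.Rat

variable {p : ℕ} [hp : Fact p.Prime] {K : Type} [Field K] [NumberField K]
  [hK : IsCyclotomicExtension {p} ℚ K]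

theorem cusp_main (hp5 : 5 ≤ p) {r : ℕ} (hr : r.Prime) (hpr : p < r) {u v : ℤ}
    (huv : IsCoprime u v) {α l : 𝓞 K} (hL : L p K u v = l * α) (hl0 : l ≠ 0)
    (hα : IsCoprime α (p : 𝓞 K)) (hassoc : ∀ c, Associated (sg p K c l) l) {d : ℤ}
    (hd : Algebra.norm ℤ α = d ^ r) (hd1 : 1 < d) {lam κ : 𝓞 K} {c M : ℤ}
    (hLc : L p K u v = c * lam + M * κ) (hlam : lam ≠ 0)
    (hassoc' : ∀ e, Associated (sg p K e lam) lam)
    (hκ : ∀ (φ : 𝓞 K →+* ℂ) (e : (ZMod p)ˣ),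
      ‖φ (sg p K e κ) / φ (sg p K e lam)‖ ≤ ((p : ℝ) + 1) / 2) (hc : c ≠ 0) :
    (∀ t : ℕ, Fam p t r → (p + 1) * |M| ≤ |c| →
      t * (p - 1) ^ 2 ≤ 4 * r → c ^ 4 ≤ 2 ^ (2 * p + 3) * M ^ 4 * d ^ (t * (p - 1))) ∧
    (∀ M1 : ℤ, M1 ≠ 0 →
      ((M1 ∣ M ∧ IsCoprime (L p K u v) (M1 : 𝓞 K)) ∨
        (lam = l ∧ (M1 : 𝓞 K) ∣ α - c ∧ IsCoprime c M1)) →
      ∀ t q w : ℕ, 1 ≤ q → excWeight p r M1 ≤ q * w → Fam p t (r ^ w) →
        M1 ^ 2 ≤ (rho r M1 : ℤ) ^ 2 * (4 * d ^ t) ^ q) := by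
  have hp2 : p ≠ 2 := by omega
  have hr2 : r ≠ 2 := by omega
  have hd0 : 0 < d := by omega
  obtain ⟨I, B, hI, hB⟩ := exists_B hp2 hr hr2 (by omega) huv hL hl0 hα hassoc hd hd0
  obtain ⟨t, ht⟩ := exists_t hp2 hr hr2 (by omega) hlam hassoc'
  have hα0 : α ≠ 0 := by
    rintro rfl
    rw [Algebra.norm_zero] at hd
    exact (pow_ne_zero r hd0.ne') hd.symm
  have hL0 : L p K u v ≠ 0 := by rw [hL]; exact mul_ne_zero hl0 hα0
  have hαu : ¬ IsUnit α := by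
    intro hu
    have h1 : IsUnit (Algebra.norm ℤ α) := hu.map _
    rw [hd, isUnit_pow_iff hr.ne_zero, Int.isUnit_iff] at h1
    omega
  have hS : Sys d I (fun a => t a * B a) :=
    sys_of hp2 huv hL hL0 hα hαu hd0 (fun a => (hB a).1) (fun a => (hB a).2.1)
      (fun a => (ht a).1) hI (fun a => (hB a).2.2)
  refine ⟨?_, ?_⟩
  · intro t' hF hcM hsmall
    obtain ⟨φ, -⟩ := exists_phi K
    obtain ⟨G, hG, hrel⟩ := arch_rel hr.ne_zero hlam hl0 hLc (fun a => (hB a).1)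
      (fun a => (ht a).2) φ
    exact hS.bound_arch hp5 hr.pos hc hcM φ (hκ φ) hG hrel hF hsmall
  · intro M1 hM10 hcase t' q w hq hW hF
    have hcong : (∀ a, IsCoprime (t a * B a) (M1 : 𝓞 K)) ∧
        ∀ a b, (M1 : 𝓞 K) ∣ (t a * B a) ^ r - (t b * B b) ^ r := by
      rcases hcase with ⟨h1, h2⟩ | ⟨rfl, h2, h3⟩
      · exact cong_of hp2 hr.pos hLc h1 h2 (fun a => (hB a).1) ht
      · exact cong_of' hp2 hr.pos hl0 hL h2 h3 (fun a => (hB a).1) ht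
    exact hS.bound_group (by omega) hr hpr hM10 hcong.1 hcong.2 hq hW hF

end Pool.Agent.Lib.MP_509488_nt.Stick
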