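import Mathlib
import Pool.Agent.Lib.MP_509488_nt.Stick.CuspMain
import Pool.Agent.Lib.MP_509488_nt.Stick.Num

set_option autoImplicit false

namespace Pool.Agent.Lib.MP_509488_nt.Stick

open Finset NumberField IsCyclotomicExtension.Rat

variable {p : ℕ} [hp : Fact p.Prime] {K : Type} [Field K] [NumberField K]
  [hK : IsCyclotomicExtension {p} ℚ K]

omit hp in
theorem excWeight_mono {r : ℕ} {M M1 : ℤ} (hM : M ≠ 0) (h : M1 ∣ M) :
    excWeight p r M1 ≤ excWeight p r M := by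
  unfold excWeight excPrimes
  apply sum_le_sum_of_subset
  intro l hl
  rw [mem_filter] at hl ⊢
  refine ⟨?_, hl.2⟩
  exact Nat.primeFactors_mono (Int.natAbs_dvd_natAbs.2 h) (Int.natAbs_ne_zero.2 hM) hl.1

theorem rho_mono {r : ℕ} (hr : r.Prime) {M M1 : ℤ} (h : M1 ∣ M) : rho r M1 ≤ rho r M := by
  unfold rho
  split_ifs with h1 h2
  · exact le_rfl
  · exact absurd (h1.trans h) h2
  · exact hr.one_le
  · exact le_rfl

theorem assoc_of_isUnit {x : 𝓞 K} (hx : IsUnit x) (e : (ZMod p)ˣ) :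
    Associated (sg p K e x) x :=
  (associated_one_iff_isUnit.2 (hx.map (sg p K e))).trans (associated_one_iff_isUnit.2 hx).symm

theorem z_isUnit : IsUnit (z p K) := (z_prim p K).isUnit hp.out.ne_zero

theorem one_add_z_isUnit (hp2 : p ≠ 2) : IsUnit (1 + z p K) := by
  have h2p : Nat.Coprime 2 p := (Nat.coprime_primes Nat.prime_two hp.out).2 (Ne.symm hp2)
  have := (z_prim p K).geom_sum_isUnit hp.out.two_le h2p
  simpa [sum_range_succ, add_comm] using this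

theorem root_facts (φ : 𝓞 K →+* ℂ) (e : (ZMod p)ˣ) :
    (φ (sg p K e (z p K))) ^ p = 1 ∧ φ (sg p K e (z p K)) ≠ 1 := by
  refine ⟨by rw [← map_pow, ← map_pow, (z_prim p K).pow_eq_one, map_one, map_one], ?_⟩
  intro h
  have h1 : sg p K e (z p K) = 1 := phi_injective (p := p) φ (h.trans (map_one φ).symm)
  have h2 : z p K = 1 := (sg p K e).injective (h1.trans (map_one _).symm)
  have h3 := (z_prim p K).ne_one hp.out.one_lt
  exact h3 h2

/-- the pairs `(c, M)` for the four cusps -/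
theorem four_core (hp5 : 5 ≤ p) {r : ℕ} (hr : r.Prime) (hpr : p < r) {u v : ℤ}
    (huv : IsCoprime u v) (hu0 : u ≠ 0) (hv0 : v ≠ 0) {α l : 𝓞 K}
    (hL : L p K u v = l * α) (hl0 : l ≠ 0)
    (hα : IsCoprime α (p : 𝓞 K)) (hassoc : ∀ c, Associated (sg p K c l) l) {d : ℤ}
    (hd : Algebra.norm ℤ α = d ^ r) (hd1 : 1 < d)
    (hcase : (l = 1 ∧ ¬ (p : ℤ) ∣ u - v) ∨ (l = 1 - z p K ∧ (p : ℤ) ∣ u - v ∧
        (p : ℤ) ^ (r - 1) ∣ u - v ∧ ∀ M1 : ℤ, (p : ℤ) * M1 ∣ u - v → (M1 : 𝓞 K) ∣ α - v))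
    {M : ℤ} (hM : M = u ∨ M = v ∨ M = u - v ∨ M = u + v) :
    ∃ c : ℤ, (c = u ∨ c = v) ∧ (|u| ≤ |c| + |M|) ∧ (|v| ≤ |c| + |M|) ∧
    (∀ t : ℕ, Fam p t r → (p + 1) * |M| ≤ |c| →
      t * (p - 1) ^ 2 ≤ 4 * r → c ^ 4 ≤ 2 ^ (2 * p + 3) * M ^ 4 * d ^ (t * (p - 1))) ∧
    ∃ κ : ℕ, (κ = 1 ∨ κ = p ∧ (p : ℤ) ^ (r - 1) ∣ M) ∧
    (∀ M1 : ℤ, M1 ≠ 0 → M1 ∣ M → ∀ t q w : ℕ, 1 ≤ q → excWeight p r M1 ≤ q * w →
        Fam p t (r ^ w) →
        M1 ^ 2 ≤ (κ : ℤ) ^ 2 * (rho r M1 : ℤ) ^ 2 * (4 * d ^ t) ^ q) := by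
  have hp2 : p ≠ 2 := by omega
  have hpo := hp.out.odd_of_ne_two hp2
  have hpZ := Nat.prime_iff_prime_int.1 hp.out
  have hp1 : (1 : ℤ) ≤ p := by exact_mod_cast hp.out.one_le
  have hpR : (1 : ℝ) ≤ ((p : ℝ) + 1) / 2 := by
    have : (5 : ℝ) ≤ p := by exact_mod_cast hp5
    linarith
  have hd0 : 0 < d := by omega
  have hup : ∀ (M1 : ℤ) (N q : ℕ), M1 ^ 2 ≤ (rho r M1 : ℤ) ^ 2 * (4 * d ^ N) ^ q →
      M1 ^ 2 ≤ ((1 : ℕ) : ℤ) ^ 2 * (rho r M1 : ℤ) ^ 2 * (4 * d ^ N) ^ q := by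
    intro M1 N q h
    rwa [Nat.cast_one, one_pow, one_mul]
  rcases hM with rfl | rfl | rfl | rfl
  · -- `M = u`
    have hLc : L p K M v = (v : 𝓞 K) * (-(z p K)) + (M : 𝓞 K) * 1 := by unfold L; ring
    have hu : IsUnit (-(z p K)) := z_isUnit.neg
    obtain ⟨h1, h2⟩ := cusp_main hp5 hr hpr huv hL hl0 hα hassoc hd hd1 hLc hu.ne_zero
      (assoc_of_isUnit hu) (by
        intro φ e
        rw [map_one, map_one, map_neg, map_neg, norm_div, norm_one, norm_neg,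
          norm_one_of_pow hp.out.ne_zero (root_facts φ e).1, div_one]
        exact hpR) hv0
    refine ⟨v, Or.inr rfl, ?_, ?_, h1, 1, Or.inl rfl, ?_⟩
    · linarith [abs_nonneg v]
    · linarith [abs_nonneg M]
    · intro M1 hM10 hM1 t q w hq hW hF
      apply hup
      refine h2 M1 hM10 (Or.inl ⟨hM1, ?_⟩) t q w hq hW hF
      have h3 : IsCoprime (v : 𝓞 K) (M1 : 𝓞 K) :=
        (huv.symm.of_isCoprime_of_dvd_right hM1).map (Int.castRingHom (𝓞 K))
      obtain ⟨y, hy⟩ := hM1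
      have h4 : IsCoprime ((v : 𝓞 K) * (-(z p K))) (M1 : 𝓞 K) :=
        h3.mul_left (isCoprime_one_left.of_isCoprime_of_dvd_left hu.dvd)
      have h5 : L p K M v = (v : 𝓞 K) * (-(z p K)) + (M1 : 𝓞 K) * y := by
        rw [hLc, hy]; push_cast; ring
      rw [h5]
      exact h4.add_mul_left_left _
  · -- `M = v`
    have hLc : L p K u M = (u : 𝓞 K) * 1 + (M : 𝓞 K) * (-(z p K)) := by unfold L; ring
    obtain ⟨h1, h2⟩ := cusp_main hp5 hr hpr huv hL hl0 hα hassoc hd hd1 hLc one_ne_zero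
      (assoc_of_isUnit isUnit_one) (by
        intro φ e
        rw [map_one, map_one, map_neg, map_neg, norm_div, norm_one, norm_neg,
          norm_one_of_pow hp.out.ne_zero (root_facts φ e).1, div_one]
        exact hpR) hu0
    refine ⟨u, Or.inl rfl, ?_, ?_, h1, 1, Or.inl rfl, ?_⟩
    · linarith [abs_nonneg M]
    · linarith [abs_nonneg u]
    · intro M1 hM10 hM1 t q w hq hW hF
      apply hup
      refine h2 M1 hM10 (Or.inl ⟨hM1, ?_⟩) t q w hq hW hF
      have h3 : IsCoprime (u : 𝓞 K) (M1 : 𝓞 K) :=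
        (huv.of_isCoprime_of_dvd_right hM1).map (Int.castRingHom (𝓞 K))
      obtain ⟨y, hy⟩ := hM1
      have h5 : L p K u M = (u : 𝓞 K) + (M1 : 𝓞 K) * (y * (-(z p K))) := by
        rw [hLc, hy]; push_cast; ring
      rw [h5]
      exact h3.add_mul_left_left _
  · -- `M = u - v`
    have hLc : L p K u v = (v : 𝓞 K) * (1 - z p K) + ((u - v : ℤ) : 𝓞 K) * 1 := by
      unfold L; push_cast; ring
    have hlam0 : (1 - z p K) ≠ 0 := by
      rw [sub_ne_zero]
      exact ((z_prim p K).ne_one hp.out.one_lt).symm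
    obtain ⟨h1, h2⟩ := cusp_main hp5 hr hpr huv hL hl0 hα hassoc hd hd1 hLc hlam0
      assoc_one_sub (by
        intro φ e
        obtain ⟨e1, e2⟩ := root_facts φ e
        have e3 := one_le_norm_one_sub hp.out.pos e1 e2
        rw [map_one, map_one, map_sub, map_sub, map_one, map_one, norm_div, norm_one,
          div_le_iff₀ (norm_pos_iff.2 (sub_ne_zero.2 (Ne.symm e2)))]
        exact e3) hv0
    refine ⟨v, Or.inr rfl, ?_, ?_, h1, ?_⟩
    · have := abs_add_le v (u - v)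
      rwa [add_sub_cancel] at this
    · linarith [abs_nonneg (u - v)]
    · have hcv : IsCoprime v (u - v) := (isCoprime_sub huv).symm
      rcases hcase with ⟨-, hpuv⟩ | ⟨hl, hpuv, hpow, hmod⟩
      · refine ⟨1, Or.inl rfl, ?_⟩
        intro M1 hM10 hM1 t q w hq hW hF
        apply hup
        refine h2 M1 hM10 (Or.inl ⟨hM1, ?_⟩) t q w hq hW hF
        have h3 : IsCoprime (v : 𝓞 K) (M1 : 𝓞 K) :=
          (hcv.of_isCoprime_of_dvd_right hM1).map (Int.castRingHom (𝓞 K))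
        have h6 : IsCoprime (p : ℤ) M1 := by
          rw [hpZ.coprime_iff_not_dvd]
          intro h7
          exact hpuv (h7.trans hM1)
        have h7 : IsCoprime ((p : ℤ) : 𝓞 K) (M1 : 𝓞 K) := h6.map (Int.castRingHom (𝓞 K))
        have h8 : (1 - z p K) ∣ ((p : ℤ) : 𝓞 K) :=
          (lam_dvd_int (K := K) (by omega : 2 < p) (p : ℤ)).2 dvd_rfl
        have h4 : IsCoprime ((v : 𝓞 K) * (1 - z p K)) (M1 : 𝓞 K) :=
          h3.mul_left (h7.of_isCoprime_of_dvd_left h8)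
        obtain ⟨y, hy⟩ := hM1
        have h5 : L p K u v = (v : 𝓞 K) * (1 - z p K) + (M1 : 𝓞 K) * y := by
          rw [hLc, hy]; push_cast; ring
        rw [h5]
        exact h4.add_mul_left_left _
      · -- second case
        refine ⟨p, Or.inr ⟨rfl, hpow⟩, ?_⟩
        intro M1 hM10 hM1 t q w hq hW hF
        obtain ⟨M2, hM2, hM2', hM12⟩ : ∃ M2 : ℤ, (p : ℤ) * M2 ∣ u - v ∧ M2 ∣ M1 ∧
            M1 ^ 2 ≤ (p : ℤ) ^ 2 * M2 ^ 2 := by
          by_cases h3 : (p : ℤ) ∣ M1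
          · obtain ⟨M2, rfl⟩ := h3
            exact ⟨M2, hM1, dvd_mul_left _ _, by rw [mul_pow]⟩
          · have h4 : IsCoprime (p : ℤ) M1 := (hpZ.coprime_iff_not_dvd).2 h3
            refine ⟨M1, h4.mul_dvd hpuv hM1, dvd_rfl, ?_⟩
            have h5 : (1 : ℤ) ≤ (p : ℤ) ^ 2 := one_le_pow₀ hp1
            nlinarith [sq_nonneg M1]
        have hM20 : M2 ≠ 0 := by
          rintro rfl
          exact hM10 (by simpa using hM2')
        have hw : excWeight p r M2 ≤ q * w := (excWeight_mono hM10 hM2').trans hW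
        have h3 := h2 M2 hM20 (Or.inr ⟨hl.symm, hmod M2 hM2,
          hcv.of_isCoprime_of_dvd_right ((dvd_mul_left _ _).trans hM2)⟩) t q w hq hw hF
        have h4 : (0 : ℤ) < (p : ℤ) ^ 2 := by positivity
        have h5 : (rho r M2 : ℤ) ^ 2 ≤ (rho r M1 : ℤ) ^ 2 := by
          have h6 : rho r M2 ≤ rho r M1 := rho_mono hr hM2'
          exact_mod_cast Nat.pow_le_pow_left h6 2
        have h6 : (rho r M2 : ℤ) ^ 2 * (4 * d ^ t) ^ q ≤ (rho r M1 : ℤ) ^ 2 * (4 * d ^ t) ^ q :=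
          mul_le_mul_of_nonneg_right h5 (by positivity)
        calc M1 ^ 2 ≤ (p : ℤ) ^ 2 * M2 ^ 2 := hM12
          _ ≤ (p : ℤ) ^ 2 * ((rho r M1 : ℤ) ^ 2 * (4 * d ^ t) ^ q) :=
              mul_le_mul_of_nonneg_left (h3.trans h6) h4.le
          _ = _ := by ring
  · -- `M = u + v`
    have hLc : L p K u v = (v : 𝓞 K) * (-(1 + z p K)) + ((u + v : ℤ) : 𝓞 K) * 1 := by
      unfold L; push_cast; ring
    have hu : IsUnit (-(1 + z p K)) := (one_add_z_isUnit hp2).neg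
    obtain ⟨h1, h2⟩ := cusp_main hp5 hr hpr huv hL hl0 hα hassoc hd hd1 hLc hu.ne_zero
      (assoc_of_isUnit hu) (by
        intro φ e
        obtain ⟨e1, e2⟩ := root_facts φ e
        have e3 := one_le_norm_one_add hpo e1 e2
        rw [map_one, map_one, map_neg, map_neg, map_add, map_add, map_one, map_one, norm_div,
          norm_one, norm_neg, div_le_iff₀ ?_]
        · exact e3
        · rw [norm_pos_iff]
          intro h0
          rw [h0, norm_zero, mul_zero] at e3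
          linarith) hv0
    refine ⟨v, Or.inr rfl, ?_, ?_, h1, 1, Or.inl rfl, ?_⟩
    · have := abs_sub (u + v) v
      rw [add_sub_cancel_right] at this
      linarith
    · linarith [abs_nonneg (u + v)]
    · intro M1 hM10 hM1 t q w hq hW hF
      apply hup
      refine h2 M1 hM10 (Or.inl ⟨hM1, ?_⟩) t q w hq hW hF
      have hcv : IsCoprime v (u + v) := by
        obtain ⟨a, b, hab⟩ := huv
        exact ⟨b - a, a, by linear_combination hab⟩
      have h3 : IsCoprime (v : 𝓞 K) (M1 : 𝓞 K) :=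
        (hcv.of_isCoprime_of_dvd_right hM1).map (Int.castRingHom (𝓞 K))
      have h4 : IsCoprime ((v : 𝓞 K) * (-(1 + z p K))) (M1 : 𝓞 K) :=
        h3.mul_left (isCoprime_one_left.of_isCoprime_of_dvd_left hu.dvd)
      obtain ⟨y, hy⟩ := hM1
      have h5 : L p K u v = (v : 𝓞 K) * (-(1 + z p K)) + (M1 : 𝓞 K) * y := by
        rw [hLc, hy]; push_cast; ring
      rw [h5]
      exact h4.add_mul_left_left _

end Pool.Agent.Lib.MP_509488_nt.Stick
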