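import Mathlib
import Pool.Agent.Lib.MP_509488_nt.Second
import Pool.Agent.Lib.MP_509488_nt.Stick.Four
import Pool.Agent.Lib.MP_509488_nt.Stick.Num

set_option autoImplicit false

namespace Pool.Agent.Lib.MP_509488_nt.Stick

open Finset NumberField

/-- the statement in terms of `H`, with the number `d` -/
theorem four {p r : ℕ} [hpf : Fact p.Prime] (hr : r.Prime) (hp5 : 5 ≤ p) (hpr : p < r)
    {u v w : ℤ} (huv : IsCoprime u v) (hu0 : u ≠ 0) (hv0 : v ≠ 0) (huv' : u ≠ v)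
    (h : u ^ p - v ^ p = w ^ r) :
    ∃ d : ℕ, 2 * p + 1 ≤ d ∧ d ^ r ≤ p * (max u.natAbs v.natAbs) ^ (p - 1) ∧
      ∀ M : ℤ, (M = u ∨ M = v ∨ M = u - v ∨ M = u + v) → M ≠ 0 ∧
        (∀ t : ℕ, Fam p t r →
          (max u.natAbs v.natAbs) ^ (4 * r) ≤ M.natAbs ^ (4 * r) *
            (max u.natAbs v.natAbs) ^ (t * (p - 1) ^ 2 + 2 * p * (p - 1))) ∧
        (p ^ 2 ≤ r → ∀ t : ℕ, Fam p t r →
          (max u.natAbs v.natAbs) ^ (4 * r) ≤ M.natAbs ^ (4 * r) *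
            (max u.natAbs v.natAbs) ^ (t * (p - 1) ^ 2 + p * (p - 1))) ∧
        ∃ κ : ℕ, (κ = 1 ∨ κ = p ∧ p ^ (r - 1) ≤ M.natAbs) ∧
          ∀ M1 : ℤ, M1 ∣ M → ∀ t q w : ℕ, 1 ≤ q → excWeight p r M1 ≤ q * w → Fam p t (r ^ w) →
            M1.natAbs ^ 2 ≤ κ ^ 2 * rho r M1 ^ 2 * (4 * d ^ t) ^ q := by
  have hp := hpf.out
  have hpn : NeZero p := ⟨hp.ne_zero⟩
  have hcyc := cyc_inst p
  obtain ⟨α, l, d, hL, hl0, hα, hassoc, hd, hd1, hdF, hcase⟩ :=
    setup (K := CyclotomicField p ℚ) hp5 hr hpr huv hu0 hv0 huv' h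
  have hp0 : (0 : ℤ) < p := by exact_mod_cast hp.pos
  have hd0 : 0 < d := by omega
  obtain ⟨D, rfl⟩ : ∃ D : ℕ, d = D := ⟨d.toNat, (Int.toNat_of_nonneg hd0.le).symm⟩
  set H := max u.natAbs v.natAbs with hH
  have hHu : |u| ≤ (H : ℤ) := by
    rw [Int.abs_eq_natAbs]; exact_mod_cast le_max_left _ _
  have hHv : |v| ≤ (H : ℤ) := by
    rw [Int.abs_eq_natAbs]; exact_mod_cast le_max_right _ _
  have hFle := F_le (p := p) u v H hHu hHv
  have hdH : D ^ r ≤ p * H ^ (p - 1) := by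
    have : ((D : ℤ)) ^ r ≤ p * (H : ℤ) ^ (p - 1) := hdF.trans hFle
    exact_mod_cast this
  have hD1 : 2 * p + 1 ≤ D := by exact_mod_cast hd1
  refine ⟨D, hD1, hdH, ?_⟩
  intro M hM
  have hM0 : M ≠ 0 := by
    rcases hM with rfl | rfl | rfl | rfl
    · exact hu0
    · exact hv0
    · exact sub_ne_zero.2 huv'
    · intro h0
      have h1 := abs_add_abs_ge (hp.odd_of_ne_two (by omega)) hr.two_le hu0 hv0 huv' h
      have h2 : u = -v := by linarith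
      rw [h2] at huv
      have h3 : IsUnit v := by
        have : IsCoprime v v := (IsCoprime.neg_left_iff v v).1 huv
        exact isCoprime_self.1 this
      rw [h2, abs_neg] at h1
      rcases Int.isUnit_iff.1 h3 with h4 | h4 <;> rw [h4] at h1 <;> norm_num at h1
  obtain ⟨c, hc, h1, h2, h3, κ, hκ, h4⟩ := four_core hp5 hr hpr huv hu0 hv0 hL hl0 hα hassoc hd
    (by omega) hcase hM
  have hHC : H ≤ c.natAbs + M.natAbs := by
    rw [hH]
    apply max_le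
    · rw [Int.abs_eq_natAbs, Int.abs_eq_natAbs, Int.abs_eq_natAbs] at h1
      exact_mod_cast h1
    · rw [Int.abs_eq_natAbs, Int.abs_eq_natAbs, Int.abs_eq_natAbs] at h2
      exact_mod_cast h2
  have hA : (2 * p + 1) ^ r ≤ p * H ^ (p - 1) := (Nat.pow_le_pow_left hD1 _).trans hdH
  have harch : ∀ E : ℕ, 5 ≤ E → (∀ N : ℕ, N ≤ r →
      2 ^ ((2 * p + 4) * r) * p ^ N ≤ (H ^ (p - 1)) ^ E) → ∀ t : ℕ, Fam p t r →
      H ^ (4 * r) ≤ M.natAbs ^ (4 * r) * H ^ (t * (p - 1) ^ 2 + E * (p - 1)) := by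
    intro E hE habs t hF
    refine num_arch hp5 hpr (N := t) (C := c.natAbs) (d := D)
      (Int.natAbs_pos.2 hM0) hD1 hdH hHC hE (habs _) ?_
    intro h5 h6
    have h7 := h3 t hF (by
      rw [Int.abs_eq_natAbs, Int.abs_eq_natAbs]; exact_mod_cast h5) h6
    have e1 : c ^ 4 = ((c.natAbs : ℤ)) ^ 4 := by
      have : (4 : ℕ) = 2 * 2 := rfl
      rw [this, pow_mul, pow_mul, Int.natAbs_sq]
    have e2 : M ^ 4 = ((M.natAbs : ℤ)) ^ 4 := by
      have : (4 : ℕ) = 2 * 2 := rfl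
      rw [this, pow_mul, pow_mul, Int.natAbs_sq]
    rw [e1, e2] at h7
    exact_mod_cast h7
  refine ⟨hM0, harch (2 * p) (by omega) (fun N hN => absorb hp5 hpr hA hN),
    fun hpr2 => harch p hp5 (fun N hN => absorb' hp5 hpr2 hA hN), κ, ?_, ?_⟩
  · rcases hκ with h5 | ⟨h5, h6⟩
    · exact Or.inl h5
    · right
      refine ⟨h5, ?_⟩
      have h7 := Int.natAbs_dvd_natAbs.2 h6
      rw [Int.natAbs_pow, Int.natAbs_natCast] at h7
      exact Nat.le_of_dvd (Int.natAbs_pos.2 hM0) h7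
  · intro M1 hM1 t q w hq hW hF
    have hM10 : M1 ≠ 0 := by
      rintro rfl
      exact hM0 (by simpa using hM1)
    have h5 := h4 M1 hM10 hM1 t q w hq hW hF
    rw [← Int.natAbs_sq M1] at h5
    exact_mod_cast h5

end Pool.Agent.Lib.MP_509488_nt.Stick
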