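import Mathlib
import Pool.Agent.Lib.MP_509488_nt.Stick.Fam

set_option autoImplicit false

namespace Pool.Agent.Lib.MP_509488_nt.Stick

open Finset

theorem exists_root_floor (j r : ℕ) (hj : 1 ≤ j) : ∃ m : ℕ, m ^ j ≤ r ∧ r < (m + 1) ^ j := by
  have hex : ∃ m : ℕ, r < (m + 1) ^ j := by
    refine ⟨r, ?_⟩
    calc r < (r + 1) ^ 1 := by rw [pow_one]; omega
      _ ≤ (r + 1) ^ j := Nat.pow_le_pow_right (by omega) hj
  classical
  refine ⟨Nat.find hex, ?_, Nat.find_spec hex⟩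
  rcases Nat.eq_zero_or_pos (Nat.find hex) with h | h
  · rw [h, zero_pow (by omega)]; omega
  · have h1 := Nat.find_min hex (m := Nat.find hex - 1) (by omega)
    rw [Nat.sub_add_cancel h] at h1
    omega

/-- the least `t` with `N ≤ 3 * t ^ 2` -/
theorem exists_sqrt_ceil {N : ℕ} (hN : 0 < N) : ∃ t s : ℕ, N ≤ 3 * t ^ 2 ∧ t = s + 1 ∧
    3 * s ^ 2 < N := by
  have hex : ∃ t : ℕ, N ≤ 3 * t ^ 2 := ⟨N, by nlinarith⟩
  classical
  have h0 : Nat.find hex ≠ 0 := by
    intro h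
    have := Nat.find_spec hex
    rw [h] at this
    omega
  refine ⟨Nat.find hex, Nat.find hex - 1, Nat.find_spec hex, by omega, ?_⟩
  have h1 := Nat.find_min hex (m := Nat.find hex - 1) (by omega)
  omega

theorem pow_aux (c : ℕ) : (c + 25) ^ 4 ≤ 15 ^ (c + 12) := by
  induction c with
  | zero => norm_num
  | succ c ih =>
    have h1 : (c + 1 + 25) ^ 4 ≤ 15 * (c + 25) ^ 4 := by
      have h2 : (25 * (c + 1 + 25)) ^ 4 ≤ (26 * (c + 25)) ^ 4 :=
        Nat.pow_le_pow_left (by omega) 4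
      rw [mul_pow, mul_pow] at h2
      norm_num at h2
      omega
    have h3 : 15 ^ (c + 1 + 12) = 15 * 15 ^ (c + 12) := by rw [← pow_succ']
    rw [h3]
    omega

theorem pow_aux5 (c : ℕ) : (15 * (c + 10)) ^ 4 ≤ 11 ^ (c + 9) := by
  induction c with
  | zero => norm_num
  | succ c ih =>
    have h1 : (15 * (c + 1 + 10)) ^ 4 ≤ 11 * (15 * (c + 10)) ^ 4 := by
      have h2 : (10 * (15 * (c + 1 + 10))) ^ 4 ≤ (11 * (15 * (c + 10))) ^ 4 :=
        Nat.pow_le_pow_left (by omega) 4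
      rw [mul_pow, mul_pow 11] at h2
      norm_num at h2
      omega
    have h3 : 11 ^ (c + 1 + 9) = 11 * 11 ^ (c + 9) := by rw [← pow_succ']
    rw [h3]
    omega

theorem s_bound {p r s : ℕ} (hp0 : 0 < p) (hr0 : 0 < r)
    (hs : 3 * p ^ 3 * s ^ 2 < (p - 1) * r ^ 2) : 12 * p * s < 7 * r := by
  by_contra hcon
  rw [not_lt] at hcon
  have h2 : (7 * r) ^ 2 ≤ (12 * p * s) ^ 2 := Nat.pow_le_pow_left hcon 2
  have h3 : 144 * p ^ 3 * s ^ 2 ≤ 48 * p * r ^ 2 := by
    have h4 : (p - 1) * r ^ 2 ≤ p * r ^ 2 := Nat.mul_le_mul_right _ (by omega)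
    nlinarith
  have h4 : p * (49 * r ^ 2) ≤ p * (48 * r ^ 2) := by
    calc p * (49 * r ^ 2) = p * (7 * r) ^ 2 := by ring
      _ ≤ p * (12 * p * s) ^ 2 := Nat.mul_le_mul_left _ h2
      _ = 144 * p ^ 3 * s ^ 2 := by ring
      _ ≤ 48 * p * r ^ 2 := h3
      _ = _ := by ring
  have h5 := Nat.le_of_mul_le_mul_left h4 hp0
  have h6 : 0 < r ^ 2 := by positivity
  omega

/-- the numbers for `p ≥ 7` -/
theorem lin7 {p r n1 t1 s1 t s : ℕ} (hp7 : 7 ≤ p) (hr3 : p ^ 3 ≤ r)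
    (hn1 : n1 ^ 3 ≤ 2 * r) (ht1 : t1 = s1 + 1) (hs1 : 3 * s1 ^ 2 < 6 * n1 * (n1 + 2))
    (hts : t ≤ s + 1) (hs : 3 * p ^ 3 * s ^ 2 < (p - 1) * r ^ 2) :
    (t1 * (p - 1) ^ 2 + p * (p - 1) ≤ 3 * r) ∧ ∃ b : ℕ, b + 2 * t ≤ r ∧
      r ^ 4 ≤ (2 * p + 1) ^ b ∧
      (2 * t + 6 + b) * (p - 1) + (t1 * (p - 1) ^ 2 + p * (p - 1)) < 4 * r := by
  obtain ⟨q, rfl⟩ : ∃ q, p = q + 1 := ⟨p - 1, by omega⟩
  rw [Nat.add_sub_cancel] at hs ⊢
  set p := q + 1 with hp
  have hp0 : 0 < p := by omega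
  have hr0 : 0 < r := lt_of_lt_of_le (by positivity) hr3
  -- linear bounds
  have h1 : 12 * p * s < 7 * r := s_bound hp0 hr0 hs
  have h2 : 12 * s1 < 17 * (n1 + 1) := by
    by_contra hcon
    rw [not_lt] at hcon
    have h3 : (17 * (n1 + 1)) ^ 2 ≤ (12 * s1) ^ 2 := Nat.pow_le_pow_left hcon 2
    nlinarith
  have h3 : 50 * p ^ 2 * n1 ≤ 63 * r := by
    by_contra hcon
    rw [not_le] at hcon
    have h4 : (63 * r) ^ 3 < (50 * p ^ 2 * n1) ^ 3 := Nat.pow_lt_pow_left hcon (by norm_num)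
    have h5 : (50 * p ^ 2 * n1) ^ 3 = 125000 * (p ^ 3) ^ 2 * n1 ^ 3 := by ring
    have h6 : 125000 * (p ^ 3) ^ 2 * n1 ^ 3 ≤ 125000 * r ^ 2 * (2 * r) :=
      Nat.mul_le_mul (Nat.mul_le_mul_left _ (Nat.pow_le_pow_left hr3 2)) hn1
    have h7 : 0 < r ^ 3 := by positivity
    nlinarith
  have h4 : 12 * t1 ≤ 17 * n1 + 28 := by omega
  -- the bound for `J`
  have hqp : q * q ≤ p * p := by nlinarith
  have hJ : 600 * p ^ 2 * (t1 * q ^ 2 + p * q) ≤ 1071 * (r * (q * q)) + 2000 * p ^ 4 := by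
    have e1 : 50 * p ^ 2 * (12 * t1) ≤ 50 * p ^ 2 * (17 * n1 + 28) := Nat.mul_le_mul_left _ h4
    have e2 : 50 * p ^ 2 * (17 * n1 + 28) ≤ 1071 * r + 1400 * p ^ 2 := by nlinarith
    have e3 : 50 * p ^ 2 * (12 * t1) * (q * q) ≤ (1071 * r + 1400 * p ^ 2) * (q * q) :=
      Nat.mul_le_mul_right _ (e1.trans e2)
    have e4 : p ^ 2 * (q * q) ≤ p ^ 2 * (p * p) := Nat.mul_le_mul_left _ hqp
    have e5 : p ^ 3 * q ≤ p ^ 3 * p := Nat.mul_le_mul_left _ (by omega)
    nlinarith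
  have hp4 : 2000 * p ^ 4 ≤ 286 * (p ^ 2 * r) := by
    have e1 : 7 * p ^ 4 ≤ p ^ 2 * r := by
      calc 7 * p ^ 4 ≤ p * p ^ 4 := Nat.mul_le_mul_right _ hp7
        _ = p ^ 2 * p ^ 3 := by ring
        _ ≤ p ^ 2 * r := Nat.mul_le_mul_left _ hr3
    omega
  have hrq : r * (q * q) ≤ p ^ 2 * r := by
    have := Nat.mul_le_mul_left r hqp
    nlinarith
  refine ⟨?_, ?_⟩
  · have e1 : 600 * p ^ 2 * (t1 * q ^ 2 + p * q) ≤ 600 * p ^ 2 * (3 * r) := by
      refine hJ.trans ?_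
      nlinarith
    exact Nat.le_of_mul_le_mul_left e1 (by positivity)
  · -- the choice of `b`
    have hq6 : 6 ≤ q := by omega
    have h48 : 2 * q * 24 ≤ r := by
      have : 49 * p ≤ p ^ 3 := by nlinarith
      omega
    have hdiv : 24 ≤ r / (2 * q) := (Nat.le_div_iff_mul_le (by omega)).2 (by linarith)
    obtain ⟨c, hc⟩ : ∃ c, r / (2 * q) = c + 24 := ⟨r / (2 * q) - 24, by omega⟩
    have hlow : 2 * q * (c + 24) ≤ r := by
      rw [← hc]; exact Nat.mul_div_le _ _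
    have hupp : r < 2 * q * (c + 25) := by
      have := Nat.lt_mul_div_succ r (by omega : 0 < 2 * q)
      rw [hc] at this
      exact this
    have hb4 : r ^ 4 ≤ (2 * p + 1) ^ (c + 16) := by
      calc r ^ 4 ≤ (2 * q * (c + 25)) ^ 4 := Nat.pow_le_pow_left hupp.le 4
        _ = (2 * q) ^ 4 * (c + 25) ^ 4 := by rw [mul_pow]
        _ ≤ (2 * p + 1) ^ 4 * (2 * p + 1) ^ (c + 12) := by
            apply Nat.mul_le_mul
            · exact Nat.pow_le_pow_left (by omega) 4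
            · exact (pow_aux c).trans (Nat.pow_le_pow_left (by omega) _)
        _ = _ := by rw [← pow_add]; congr 1; omega
    have h12 : 12 * (c + 24) ≤ 2 * q * (c + 24) := Nat.mul_le_mul_right _ (by omega)
    have hs12 : 12 * s < r := by
      have : 84 * s ≤ 12 * p * s := Nat.mul_le_mul_right _ (by omega)
      omega
    refine ⟨c + 16, by omega, hb4, ?_⟩
    -- the final inequality
    have e1 : 6 * p * ((2 * t + 6 + (c + 16)) * q) ≤ 7 * (r * q) + 3 * (p * r) := by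
      have e2 : 12 * p * t ≤ 7 * r + 12 * p := by nlinarith
      have e3 : 12 * p * t * q ≤ (7 * r + 12 * p) * q := Nat.mul_le_mul_right _ e2
      have e4 : 3 * p * (2 * q * (c + 24)) ≤ 3 * p * r := Nat.mul_le_mul_left _ hlow
      nlinarith
    have e2 : r * q ≤ p * r := by nlinarith
    have e3 : 600 * p ^ 2 * ((2 * t + 6 + (c + 16)) * q + (t1 * q ^ 2 + p * q)) <
        600 * p ^ 2 * (4 * r) := by
      have e4 : 600 * p ^ 2 * ((2 * t + 6 + (c + 16)) * q) ≤ 1000 * (p ^ 2 * r) := by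
        have e5 : 100 * p * (6 * p * ((2 * t + 6 + (c + 16)) * q)) ≤
            100 * p * (7 * (r * q) + 3 * (p * r)) := Nat.mul_le_mul_left _ e1
        have e6 : 100 * p * (7 * (r * q) + 3 * (p * r)) ≤ 100 * p * (10 * (p * r)) := by
          apply Nat.mul_le_mul_left
          omega
        nlinarith
      have e7 : 0 < p ^ 2 * r := by positivity
      nlinarith
    exact Nat.lt_of_mul_lt_mul_left e3

/-- the numbers for `p = 5` -/
theorem lin5 {r n1 t1 s1 t s : ℕ} (hr : r.Prime) (hr3 : 125 ≤ r)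
    (hn1 : n1 ^ 2 ≤ 2 * r) (ht1 : t1 = s1 + 1) (hs1 : 3 * s1 ^ 2 < 4 * n1 * (n1 + 2))
    (hts : t ≤ s + 1) (hs : 375 * s ^ 2 < 4 * r ^ 2) :
    (16 * t1 + 20 ≤ 3 * r) ∧ ∃ b : ℕ, b + 2 * t ≤ r ∧ r ^ 4 ≤ 11 ^ b ∧
      (2 * t + 6 + b) * 4 + (16 * t1 + 20) < 4 * r := by
  have h1 : 29 * s < 3 * r := by
    by_contra hcon
    rw [not_lt] at hcon
    have h2 : (3 * r) ^ 2 ≤ (29 * s) ^ 2 := Nat.pow_le_pow_left hcon 2
    nlinarith
  have h2 : 45 * s1 < 52 * (n1 + 1) := by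
    by_contra hcon
    rw [not_lt] at hcon
    have h3 : (52 * (n1 + 1)) ^ 2 ≤ (45 * s1) ^ 2 := Nat.pow_le_pow_left hcon 2
    nlinarith
  have h3 : 34 * n1 ≤ 2 * r + 289 := by
    have : (34 : ℤ) * n1 ≤ 2 * r + 289 := by
      have h4 : ((n1 : ℤ)) ^ 2 ≤ 2 * r := by exact_mod_cast hn1
      nlinarith [sq_nonneg ((n1 : ℤ) - 17)]
    exact_mod_cast this
  refine ⟨by omega, ?_⟩
  have hcase : r = 127 ∨ r = 131 ∨ 135 ≤ r := by
    rcases Nat.lt_or_ge r 135 with h | h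
    · interval_cases r <;> first | (left; rfl) | (right; left; rfl) | (exfalso; revert hr; norm_num)
    · exact Or.inr (Or.inr h)
  rcases hcase with rfl | rfl | h135
  · exact ⟨9, by omega, by norm_num, by omega⟩
  · exact ⟨9, by omega, by norm_num, by omega⟩
  · obtain ⟨c, hc⟩ : ∃ c, r / 15 = c + 9 := ⟨r / 15 - 9, by omega⟩
    refine ⟨c + 9, by omega, ?_, by omega⟩
    exact (Nat.pow_le_pow_left (by omega : r ≤ 15 * (c + 10)) 4).trans (pow_aux5 c)

/-- the numbers -/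
theorem exists_t1 {p r : ℕ} [hpf : Fact p.Prime] (hr : r.Prime) (hp5 : 5 ≤ p) (hr3 : p ^ 3 ≤ r) :
    ∃ t1 : ℕ, Fam p t1 r ∧ ∀ t s : ℕ, t ≤ s + 1 → 3 * p ^ 3 * s ^ 2 < (p - 1) * r ^ 2 →
      (t1 * (p - 1) ^ 2 + p * (p - 1) ≤ 3 * r) ∧ ∃ b : ℕ, b + 2 * t ≤ r ∧
      r ^ 4 ≤ (2 * p + 1) ^ b ∧
      (2 * t + 6 + b) * (p - 1) + (t1 * (p - 1) ^ 2 + p * (p - 1)) < 4 * r := by
  have hp := hpf.out
  rcases Nat.lt_or_ge p 7 with h7 | h7
  · have h5 : p = 5 := by
      interval_cases p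
      · rfl
      · exact absurd hp (by norm_num)
    subst h5
    norm_num at hr3
    obtain ⟨n1, hn1, hn1'⟩ := exists_root_floor 2 (2 * r) (by norm_num)
    have hn0 : 0 < n1 := by
      rcases Nat.eq_zero_or_pos n1 with h | h
      · rw [h] at hn1'; omega
      · exact h
    obtain ⟨t1, s1, h1, h2, h3⟩ := exists_sqrt_ceil (N := 4 * n1 * (n1 + 2)) (by positivity)
    refine ⟨t1, fam_sm (by norm_num) (k := 2) (n := n1) (by norm_num) hn1' (by linarith), ?_⟩
    intro t s hts hs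
    have h4 := lin5 hr hr3 hn1 h2 h3 hts (by norm_num at hs; exact hs)
    norm_num
    obtain ⟨h5, b, h6, h7, h8⟩ := h4
    exact ⟨by omega, b, h6, h7, by omega⟩
  · obtain ⟨n1, hn1, hn1'⟩ := exists_root_floor 3 (2 * r) (by norm_num)
    have hn0 : 0 < n1 := by
      rcases Nat.eq_zero_or_pos n1 with h | h
      · rw [h] at hn1'
        have : 1 ≤ p ^ 3 := Nat.one_le_pow _ _ (by omega)
        omega
      · exact h
    obtain ⟨t1, s1, h1, h2, h3⟩ := exists_sqrt_ceil (N := 6 * n1 * (n1 + 2)) (by positivity)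
    refine ⟨t1, fam_sm (by omega) (k := 3) (n := n1) (by omega) hn1' (by linarith), ?_⟩
    intro t s hts hs
    exact lin7 h7 hr3 hn1 h2 h3 hts hs

/-- the families in the middle range -/
theorem exists_t1_mid {p r : ℕ} [hpf : Fact p.Prime] (hp7 : 7 ≤ p)
    (hlog : p ^ 2 * (Nat.log 2 p + 3) ≤ r) (hr : r < p ^ 3) :
    ∃ t1 : ℕ, Fam p t1 r ∧ 120 * (p - 1) + 6 * (t1 * (p - 1) ^ 2 + p * (p - 1)) ≤ 17 * r := by
  have hp := hpf.out
  have hlow : ∀ j : ℕ, 2 ^ j ≤ p → p ^ 2 * (j + 3) ≤ r := by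
    intro j hj
    have h1 : j ≤ Nat.log 2 p := Nat.le_log_of_pow_le (by norm_num) hj
    exact le_trans (Nat.mul_le_mul_left _ (by omega)) hlog
  rcases Nat.lt_or_ge p 41 with h41 | h41
  · have hcases : p = 7 ∨ p = 11 ∨ p = 13 ∨ p = 17 ∨ p = 19 ∨ p = 23 ∨ p = 29 ∨ p = 31 ∨
        p = 37 := by
      clear hlow hlog hr
      interval_cases p <;> first | omega | (exact absurd hp (by norm_num))
    rcases hcases with rfl | rfl | rfl | rfl | rfl | rfl | rfl | rfl | rfl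
    · have h1 := hlow 2 (by norm_num)
      clear hlow hlog
      norm_num at hr h1
      exact ⟨13, fam_sm (by norm_num) (k := 3) (n := 8) (by norm_num) (by norm_num; omega)
        (by norm_num), by norm_num; omega⟩
    · have h1 := hlow 3 (by norm_num)
      clear hlow hlog
      norm_num at hr h1
      exact ⟨9, fam_sm (by norm_num) (k := 5) (n := 4) (by norm_num) (by norm_num; omega)
        (by norm_num), by norm_num; omega⟩
    · have h1 := hlow 3 (by norm_num)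
      clear hlow hlog
      norm_num at hr h1
      exact ⟨10, fam_sm (by norm_num) (k := 6) (n := 4) (by norm_num) (by norm_num; omega)
        (by norm_num), by norm_num; omega⟩
    · have h1 := hlow 4 (by norm_num)
      clear hlow hlog
      norm_num at hr h1
      exact ⟨9, fam_sm (by norm_num) (k := 8) (n := 3) (by norm_num) (by norm_num; omega)
        (by norm_num), by norm_num; omega⟩
    · have h1 := hlow 4 (by norm_num)
      clear hlow hlog
      norm_num at hr h1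
      exact ⟨7, fam_sm (by norm_num) (k := 9) (n := 2) (by norm_num) (by norm_num; omega)
        (by norm_num), by norm_num; omega⟩
    · have h1 := hlow 4 (by norm_num)
      clear hlow hlog
      norm_num at hr h1
      exact ⟨8, fam_sm (by norm_num) (k := 10) (n := 2) (by norm_num) (by norm_num; omega)
        (by norm_num), by norm_num; omega⟩
    · have h1 := hlow 4 (by norm_num)
      clear hlow hlog
      norm_num at hr h1
      exact ⟨8, fam_sm (by norm_num) (k := 10) (n := 2) (by norm_num) (by norm_num; omega)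
        (by norm_num), by norm_num; omega⟩
    · have h1 := hlow 4 (by norm_num)
      clear hlow hlog
      norm_num at hr h1
      exact ⟨8, fam_sm (by norm_num) (k := 11) (n := 2) (by norm_num) (by norm_num; omega)
        (by norm_num), by norm_num; omega⟩
    · have h1 := hlow 5 (by norm_num)
      clear hlow hlog
      norm_num at hr h1
      exact ⟨6, fam_sm (by norm_num) (k := 17) (n := 1) (by norm_num) (by norm_num; omega)
        (by norm_num), by norm_num; omega⟩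
  · set lam := Nat.log 2 p with hlam
    have hlt : p < 2 ^ (lam + 1) := Nat.lt_pow_succ_log_self (by norm_num) p
    have hle : 2 ^ lam ≤ p := Nat.pow_log_le_self 2 (by omega)
    have h5 : 5 ≤ lam := Nat.le_log_of_pow_le (by norm_num) (by omega)
    have hk : 3 * lam + 4 ≤ (p - 1) / 2 := by
      rcases Nat.lt_or_ge lam 6 with h6 | h6
      · have : lam = 5 := by omega
        rw [this]
        omega
      · have h7 : ∀ j : ℕ, 6 ≤ j → 6 * j + 9 ≤ 2 ^ j := by
          intro j hj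
          induction j, hj using Nat.le_induction with
          | base => norm_num
          | succ j hj ih => rw [pow_succ]; omega
        have := h7 lam h6
        omega
    refine ⟨lam + 2, fam_sm (by omega) (k := 3 * lam + 4) (n := 1) hk ?_ (by nlinarith), ?_⟩
    · have h6 : p ^ 3 < (2 ^ (lam + 1)) ^ 3 := Nat.pow_lt_pow_left hlt (by norm_num)
      have h7 : (1 + 1) ^ (3 * lam + 4) = 2 * (2 ^ (lam + 1)) ^ 3 := by
        rw [← pow_mul, ← pow_succ']
        norm_num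
        ring
      rw [h7]
      omega
    · have h6 : (lam + 2) * (p - 1) ^ 2 + p * (p - 1) ≤ p ^ 2 * (lam + 3) := by
        have e1 : (p - 1) ^ 2 ≤ p ^ 2 := Nat.pow_le_pow_left (by omega) 2
        have e2 : p * (p - 1) ≤ p * p := Nat.mul_le_mul_left _ (by omega)
        nlinarith
      have h7 : 120 * (p - 1) ≤ 11 * r := by
        have e1 : p * (p * 3) ≤ p ^ 2 * (lam + 3) := by nlinarith
        have e2 : 41 * (p * 3) ≤ p * (p * 3) := Nat.mul_le_mul_right _ h41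
        omega
      omega

/-- the numbers -/
theorem exists_t1' {p r : ℕ} [hpf : Fact p.Prime] (hr : r.Prime) (hp5 : 5 ≤ p)
    (hlog : p ^ 2 * (Nat.log 2 p + 3) ≤ r) :
    ∃ t1 : ℕ, Fam p t1 r ∧ ∀ t s : ℕ, t ≤ s + 1 → 3 * p ^ 3 * s ^ 2 < (p - 1) * r ^ 2 →
      (t1 * (p - 1) ^ 2 + p * (p - 1) ≤ 3 * r) ∧ ∃ b : ℕ, b + 2 * t ≤ r ∧
      r ^ 4 ≤ (2 * p + 1) ^ b ∧
      (2 * t + 6 + b) * (p - 1) + (t1 * (p - 1) ^ 2 + p * (p - 1)) < 4 * r := by
  have hp := hpf.out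
  rcases Nat.lt_or_ge r (p ^ 3) with hlt | hge
  swap
  · exact exists_t1 hr hp5 hge
  have hp7 : 7 ≤ p := by
    by_contra hcon
    have h5 : p = 5 := by
      have h6 : p < 7 := by omega
      clear hlog hlt
      interval_cases p
      · rfl
      · exact absurd hp (by norm_num)
    have h2 : 2 ≤ Nat.log 2 p := Nat.le_log_of_pow_le (by norm_num) (by omega)
    have h3 : p ^ 3 ≤ p ^ 2 * (Nat.log 2 p + 3) := by
      have : p ^ 3 = p ^ 2 * p := by ring
      rw [this]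
      exact Nat.mul_le_mul_left _ (by omega)
    omega
  obtain ⟨t1, hF, ht1⟩ := exists_t1_mid hp7 hlog hlt
  refine ⟨t1, hF, ?_⟩
  intro t s hts hs
  have hr245 : 245 ≤ r := by
    have h2 : 2 ≤ Nat.log 2 p := Nat.le_log_of_pow_le (by norm_num) (by omega)
    have h3 : 7 ^ 2 ≤ p ^ 2 := Nat.pow_le_pow_left hp7 2
    have h4 : 7 ^ 2 * 5 ≤ p ^ 2 * (Nat.log 2 p + 3) := Nat.mul_le_mul h3 (by omega)
    omega
  have h1 := s_bound (by omega : 0 < p) hr.pos hs
  have h84 : 84 * s ≤ 12 * p * s := Nat.mul_le_mul_right _ (by omega)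
  refine ⟨by omega, 12, by omega, ?_, ?_⟩
  · calc r ^ 4 ≤ (p ^ 3) ^ 4 := Nat.pow_le_pow_left hlt.le 4
      _ = p ^ 12 := by rw [← pow_mul]
      _ ≤ (2 * p + 1) ^ 12 := Nat.pow_le_pow_left (by omega) 12
  · set J := t1 * (p - 1) ^ 2 + p * (p - 1) with hJ
    have h2 : 6 * ((2 * t + 6 + 12) * (p - 1)) ≤ 12 * p * s + 120 * (p - 1) := by
      have h3 : (2 * t + 6 + 12) * (p - 1) ≤ (2 * s + 20) * (p - 1) :=
        Nat.mul_le_mul_right _ (by omega)
      have h4 : s * (p - 1) ≤ s * p := Nat.mul_le_mul_left _ (by omega)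
      nlinarith
    omega

end Pool.Agent.Lib.MP_509488_nt.Stick
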