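import Mathlib
import Pool.Agent.Lib.MP_509488_nt.Stick.Num

set_option autoImplicit false

namespace Pool.Agent.Lib.MP_509488_nt.Stick

theorem bern_nat (r : ℕ) : ∀ N : ℕ, N ≤ r + 1 → (r + 1) ^ N * (r + 1 - N) ≤ r ^ N * (r + 1) := by
  intro N
  induction N with
  | zero => intro _; simp
  | succ N ih =>
    intro hN
    have h1 := ih (by omega)
    obtain ⟨c, hc⟩ : ∃ c, r = N + c := ⟨r - N, by omega⟩
    have e1 : r + 1 - (N + 1) = c := by omega
    have e2 : r + 1 - N = c + 1 := by omega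
    rw [e2] at h1
    rw [e1]
    calc (r + 1) ^ (N + 1) * c = (r + 1) ^ N * ((r + 1) * c) := by ring
      _ ≤ (r + 1) ^ N * (r * (c + 1)) := by
          apply Nat.mul_le_mul_left
          rw [hc]
          nlinarith
      _ = r * ((r + 1) ^ N * (c + 1)) := by ring
      _ ≤ r * (r ^ N * (r + 1)) := Nat.mul_le_mul_left _ h1
      _ = _ := by ring

theorem succ_pow_le {r N : ℕ} (h : 2 * N ≤ r + 1) : (r + 1) ^ N ≤ 2 * r ^ N := by
  have h1 := bern_nat r N (by omega)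
  have h2 : (r + 1) ^ N * (r + 1) ≤ 2 * r ^ N * (r + 1) := by
    calc (r + 1) ^ N * (r + 1) ≤ (r + 1) ^ N * (2 * (r + 1 - N)) :=
          Nat.mul_le_mul_left _ (by omega)
      _ = 2 * ((r + 1) ^ N * (r + 1 - N)) := by ring
      _ ≤ 2 * (r ^ N * (r + 1)) := Nat.mul_le_mul_left _ h1
      _ = _ := by ring
  exact Nat.le_of_mul_le_mul_right h2 (by omega)

theorem aux_base {p : ℕ} (hp5 : 5 ≤ p) : p ^ 2 * 16 ^ (p - 1) < (2 * p + 1) ^ (p + 5) := by
  rcases Nat.lt_or_ge p 8 with h | h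
  · interval_cases p <;> norm_num
  · have h1 : 16 ^ (p - 1) ≤ (2 * p + 1) ^ (p + 3) :=
      (Nat.pow_le_pow_left (by omega : 16 ≤ 2 * p + 1) _).trans
        (Nat.pow_le_pow_right (by omega) (by omega))
    have h2 : p ^ 2 < (2 * p + 1) ^ 2 := Nat.pow_lt_pow_left (by omega) (by norm_num)
    calc p ^ 2 * 16 ^ (p - 1) < (2 * p + 1) ^ 2 * (2 * p + 1) ^ (p + 3) :=
          Nat.mul_lt_mul_of_lt_of_le h2 h1 (by positivity)
      _ = _ := by rw [← pow_add]; congr 1; omega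

theorem aux_step {p : ℕ} (hp5 : 5 ≤ p) {r : ℕ} (hr : 2 * p + 1 ≤ r) :
    p ^ 2 * (16 * r ^ 2) ^ (p - 1) < (2 * p + 1) ^ (2 * r - (p - 1)) := by
  induction r, hr using Nat.le_induction with
  | base =>
    have h1 := aux_base hp5
    have e1 : 2 * (2 * p + 1) - (p - 1) = (p + 5) + 2 * (p - 1) := by omega
    rw [e1, pow_add, mul_pow, ← mul_assoc, ← pow_mul]
    exact Nat.mul_lt_mul_of_pos_right h1 (by positivity)
  | succ r hr ih =>
    have h1 := succ_pow_le (r := r) (N := p - 1) (by omega)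
    have e1 : 2 * (r + 1) - (p - 1) = (2 * r - (p - 1)) + 2 := by omega
    rw [e1, pow_add]
    calc p ^ 2 * (16 * (r + 1) ^ 2) ^ (p - 1)
        = p ^ 2 * 16 ^ (p - 1) * ((r + 1) ^ (p - 1)) ^ 2 := by
          rw [mul_pow, ← pow_mul, ← pow_mul, mul_comm 2 (p - 1)]; ring
      _ ≤ p ^ 2 * 16 ^ (p - 1) * (2 * r ^ (p - 1)) ^ 2 :=
          Nat.mul_le_mul_left _ (Nat.pow_le_pow_left h1 2)
      _ = p ^ 2 * (16 * r ^ 2) ^ (p - 1) * 4 := by
          rw [mul_pow 16, mul_pow, ← pow_mul, ← pow_mul, mul_comm 2 (p - 1)]; ring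
      _ < (2 * p + 1) ^ (2 * r - (p - 1)) * (2 * p + 1) ^ 2 := by
          apply Nat.mul_lt_mul_of_lt_of_le ih _ (by norm_num)
          calc 4 ≤ 11 ^ 2 := by norm_num
            _ ≤ _ := Nat.pow_le_pow_left (by omega) 2

theorem five_pow {r : ℕ} (hr : 7 ≤ r) : 8 * r ^ 2 < 5 ^ (r - 3) := by
  induction r, hr using Nat.le_induction with
  | base => norm_num
  | succ r hr ih =>
    have e1 : 5 ^ (r + 1 - 3) = 5 * 5 ^ (r - 3) := by
      rw [← pow_succ']; congr 1; omega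
    rw [e1]
    nlinarith

/-- there is an exceptional prime if `H ≤ 2 * m` and `2 * p < r` -/
theorem no_exc' {p r H m d κ ρ : ℕ} (hp5 : 5 ≤ p) (hpr : 2 * p + 1 ≤ r)
    (hd : 2 * p + 1 ≤ d) (hdH : d ^ r ≤ p * H ^ (p - 1)) (hρ : ρ ≤ r)
    (hκ : κ = 1 ∨ κ = p ∧ p ^ (r - 1) ≤ m) (h1 : H ≤ 2 * m)
    (h2 : m ^ 2 ≤ 4 * κ ^ 2 * ρ ^ 2 * d) : False := by
  have hp0 : 0 < p := by omega
  have hd0 : 0 < d := by omega
  have hr0 : 0 < r := by omega
  have hρ2 : ρ ^ 2 ≤ r ^ 2 := Nat.pow_le_pow_left hρ 2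
  have h2' : m ^ 2 ≤ 4 * κ ^ 2 * r ^ 2 * d := by
    refine h2.trans ?_
    apply Nat.mul_le_mul_right
    exact Nat.mul_le_mul_left _ hρ2
  have hH : H ^ 2 ≤ 16 * κ ^ 2 * r ^ 2 * d := by
    calc H ^ 2 ≤ (2 * m) ^ 2 := Nat.pow_le_pow_left h1 2
      _ = 4 * m ^ 2 := by ring
      _ ≤ 4 * (4 * κ ^ 2 * r ^ 2 * d) := Nat.mul_le_mul_left _ h2'
      _ = _ := by ring
  have hsq : d ^ (2 * r) ≤ p ^ 2 * (H ^ 2) ^ (p - 1) := by
    calc d ^ (2 * r) = (d ^ r) ^ 2 := by rw [← pow_mul, mul_comm]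
      _ ≤ (p * H ^ (p - 1)) ^ 2 := Nat.pow_le_pow_left hdH 2
      _ = p ^ 2 * (H ^ 2) ^ (p - 1) := by rw [mul_pow, ← pow_mul, ← pow_mul, mul_comm (p - 1)]
  rcases hκ with rfl | ⟨rfl, hm⟩
  · rw [one_pow, mul_one] at hH
    have h3 : d ^ (2 * r) ≤ p ^ 2 * (16 * r ^ 2) ^ (p - 1) * d ^ (p - 1) := by
      refine hsq.trans ?_
      rw [mul_assoc, ← mul_pow]
      exact Nat.mul_le_mul_left _ (Nat.pow_le_pow_left hH _)
    have h4 : d ^ (2 * r) = d ^ (2 * r - (p - 1)) * d ^ (p - 1) := by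
      rw [← pow_add]; congr 1; omega
    rw [h4] at h3
    have h5 := Nat.le_of_mul_le_mul_right h3 (by positivity)
    have h6 : (2 * p + 1) ^ (2 * r - (p - 1)) ≤ d ^ (2 * r - (p - 1)) :=
      Nat.pow_le_pow_left hd _
    have h7 := aux_step hp5 hpr
    omega
  · -- `16 κ² r² ≤ d`
    have hbig : 16 * κ ^ 2 * r ^ 2 ≤ d := by
      by_contra hlt
      rw [not_le] at hlt
      have h3 : (κ ^ (r - 1)) ^ 2 ≤ 4 * κ ^ 2 * r ^ 2 * d := (Nat.pow_le_pow_left hm 2).trans h2'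
      have h4 : (κ ^ (r - 1)) ^ 2 = κ ^ 4 * (κ ^ (r - 3)) ^ 2 := by
        rw [← pow_mul, ← pow_mul, ← pow_add]; congr 1; omega
      have h5 : κ ^ 4 * (κ ^ (r - 3)) ^ 2 ≤ κ ^ 4 * (8 * r ^ 2) ^ 2 := by
        rw [← h4]
        refine h3.trans ?_
        calc 4 * κ ^ 2 * r ^ 2 * d ≤ 4 * κ ^ 2 * r ^ 2 * (16 * κ ^ 2 * r ^ 2) :=
              Nat.mul_le_mul_left _ hlt.le
          _ = _ := by ring
      have h6 := Nat.le_of_mul_le_mul_left h5 (by positivity)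
      have h7 := (Nat.pow_le_pow_iff_left (by norm_num)).1 h6
      have h8 := five_pow (by omega : 7 ≤ r)
      have h9 : 5 ^ (r - 3) ≤ κ ^ (r - 3) := Nat.pow_le_pow_left hp5 _
      omega
    have h3 : H ^ 2 ≤ d ^ 2 := by
      refine hH.trans ?_
      rw [sq d]
      exact Nat.mul_le_mul_right _ hbig
    have h4 : d ^ (2 * r) ≤ κ ^ 2 * d ^ (2 * (κ - 1)) := by
      refine hsq.trans ?_
      rw [pow_mul]
      exact Nat.mul_le_mul_left _ (Nat.pow_le_pow_left h3 _)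
    have h5 : d ^ (2 * r) = d ^ (2 * (r - κ + 1)) * d ^ (2 * (κ - 1)) := by
      rw [← pow_add]; congr 1; omega
    rw [h5] at h4
    have h6 := Nat.le_of_mul_le_mul_right h4 (by positivity)
    have h7 : d ^ 2 ≤ d ^ (2 * (r - κ + 1)) := Nat.pow_le_pow_right hd0 (by omega)
    have h8 : κ ^ 2 < d ^ 2 := Nat.pow_lt_pow_left (by omega) (by norm_num)
    omega

/-- the combination in the case `H ≤ 2 * m`, with `r ∣ M` allowed -/
theorem combine'' {p r t b H m d κ ρ : ℕ} (hp5 : 5 ≤ p) (hpr : p < r)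
    (hd : 2 * p + 1 ≤ d) (hdH : d ^ r ≤ p * H ^ (p - 1)) (hN : b + t ≤ r)
    (hκ : κ ≤ p) (hρ : ρ ^ 2 ≤ (2 * p + 1) ^ b) (h1 : H ≤ 2 * m)
    (h2 : m ^ 2 ≤ 4 * κ ^ 2 * ρ ^ 2 * d ^ t) :
    2 * r ≤ (t + 5 + b) * (p - 1) := by
  have hp0 : 0 < p := by omega
  have hA : (2 * p + 1) ^ r ≤ p * H ^ (p - 1) := (Nat.pow_le_pow_left hd _).trans hdH
  have hA5 := A_ge hp5 hpr hA
  have hH2 := H_pos hp5 hpr hd hdH
  set A := H ^ (p - 1) with hAdef
  have hA0 : 0 < A := lt_of_lt_of_le (by positivity) hA5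
  have h3 : H ^ (2 * r) ≤ A ^ (t + 5 + b) := by
    calc H ^ (2 * r) = (H ^ 2) ^ r := by rw [← pow_mul]
      _ ≤ ((2 * p + 1) ^ (3 + b) * d ^ t) ^ r := by
          apply Nat.pow_le_pow_left
          calc H ^ 2 ≤ (2 * m) ^ 2 := Nat.pow_le_pow_left h1 2
            _ = 4 * m ^ 2 := by ring
            _ ≤ 4 * (4 * κ ^ 2 * ρ ^ 2 * d ^ t) := Nat.mul_le_mul_left _ h2
            _ = 16 * κ ^ 2 * ρ ^ 2 * d ^ t := by ring
            _ ≤ (2 * p + 1) ^ 3 * (2 * p + 1) ^ b * d ^ t := by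
                apply Nat.mul_le_mul_right
                apply Nat.mul_le_mul _ hρ
                have : κ ^ 2 ≤ p ^ 2 := Nat.pow_le_pow_left hκ 2
                nlinarith
            _ = _ := by rw [← pow_add]
      _ = ((2 * p + 1) ^ r) ^ (3 + b) * (d ^ r) ^ t := by
          rw [mul_pow, ← pow_mul, ← pow_mul, ← pow_mul, ← pow_mul, mul_comm (3 + b), mul_comm t]
      _ ≤ (p * A) ^ (3 + b) * (p * A) ^ t :=
          Nat.mul_le_mul (Nat.pow_le_pow_left hA _) (Nat.pow_le_pow_left hdH _)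
      _ = p ^ 3 * p ^ (b + t) * A ^ (3 + b + t) := by
          rw [mul_pow, mul_pow, pow_add, pow_add p b t]; ring
      _ ≤ p ^ 3 * (p * A) * A ^ (3 + b + t) := by
          apply Nat.mul_le_mul_right
          apply Nat.mul_le_mul_left
          calc p ^ (b + t) ≤ p ^ r := Nat.pow_le_pow_right hp0 hN
            _ ≤ (2 * p + 1) ^ r := Nat.pow_le_pow_left (by omega) r
            _ ≤ p * A := hA
      _ = p ^ 4 * A ^ (4 + b + t) := by ring
      _ ≤ A * A ^ (4 + b + t) := by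
          apply Nat.mul_le_mul_right
          exact le_trans (Nat.pow_le_pow_right hp0 (by norm_num)) hA5
      _ = A ^ (t + 5 + b) := by rw [← pow_succ']; congr 1; ring
  have h4 : H ^ (2 * r) ≤ H ^ ((t + 5 + b) * (p - 1)) := by
    refine h3.trans (le_of_eq ?_)
    rw [hAdef, ← pow_mul, mul_comm (p - 1)]
  exact (Nat.pow_le_pow_iff_right (by omega)).1 h4

theorem log_sq {p : ℕ} (hp5 : 5 ≤ p) : (Nat.log 2 p + 3) ^ 2 ≤ 32 * p := by
  have h1 : ∀ l : ℕ, (l + 3) ^ 2 ≤ 32 * 2 ^ l := by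
    intro l
    induction l with
    | zero => norm_num
    | succ l ih =>
      have h2 : 2 * (l + 3) ^ 2 = (l + 1 + 3) ^ 2 + (l ^ 2 + 4 * l + 2) := by ring
      rw [pow_succ 2 l]
      omega
  exact (h1 _).trans (Nat.mul_le_mul_left _ (Nat.pow_log_le_self 2 (by omega)))

/-- the numbers in the case `H ≤ 2 * m` -/
theorem lin_large {p r t s : ℕ} (hp : p.Prime) (hp5 : 5 ≤ p)
    (h4 : 4 * p ^ 3 ≤ r ^ 2) (hlt : r < p ^ 2 * (Nat.log 2 p + 3)) (hts : t ≤ s + 1)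
    (hs : 12 * p * s < 7 * r) : ∃ b : ℕ, b + t ≤ r ∧ r ^ 2 ≤ (2 * p + 1) ^ b ∧
      (t + 5 + b) * (p - 1) < 2 * r := by
  have h60 : 60 * s ≤ 12 * p * s := Nat.mul_le_mul_right _ (by omega)
  have h5 : r ^ 2 ≤ (2 * p + 1) ^ 5 := by
    calc r ^ 2 ≤ (p ^ 2 * (Nat.log 2 p + 3)) ^ 2 := Nat.pow_le_pow_left hlt.le 2
      _ = p ^ 4 * (Nat.log 2 p + 3) ^ 2 := by ring
      _ ≤ p ^ 4 * (32 * p) := Nat.mul_le_mul_left _ (log_sq hp5)
      _ = (2 * p) ^ 5 := by ring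
      _ ≤ _ := Nat.pow_le_pow_left (by omega) 5
  have h22 : 22 < r := by
    have h6 : 5 ^ 3 ≤ p ^ 3 := Nat.pow_le_pow_left hp5 3
    by_contra hcon
    have h7 : r ^ 2 ≤ 22 ^ 2 := Nat.pow_le_pow_left (by omega) 2
    omega
  rcases Nat.lt_or_ge p 13 with h13 | h13
  · have hcases : p = 5 ∨ p = 7 ∨ p = 11 := by
      clear hlt h4 h5 hs h60
      interval_cases p <;> first | omega | (exact absurd hp (by norm_num))
    rcases hcases with rfl | rfl | rfl
    · rcases Nat.lt_or_ge r 37 with h37 | h37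
      · refine ⟨3, by omega, ?_, ?_⟩
        · exact (Nat.pow_le_pow_left (by omega : r ≤ 36) 2).trans (by norm_num)
        · have : r = 23 ∨ 24 ≤ r := by omega
          norm_num
          omega
      · refine ⟨5, by omega, h5, ?_⟩
        norm_num
        omega
    · have h38 : 38 ≤ r := by
        by_contra hcon
        have h7 : r ≤ 37 := by omega
        have h8 : r ^ 2 ≤ 37 ^ 2 := Nat.pow_le_pow_left h7 2
        norm_num at h4 h8
        omega
      rcases Nat.lt_or_ge r 59 with h37 | h37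
      · refine ⟨3, by omega, ?_, ?_⟩
        · exact (Nat.pow_le_pow_left (by omega : r ≤ 58) 2).trans (by norm_num)
        · norm_num
          omega
      · refine ⟨5, by omega, h5, ?_⟩
        norm_num
        omega
    · have h38 : 72 ≤ r := by
        by_contra hcon
        have h7 : r ≤ 71 := by omega
        have h8 : r ^ 2 ≤ 71 ^ 2 := Nat.pow_le_pow_left h7 2
        norm_num at h4 h8
        omega
      rcases Nat.lt_or_ge r 110 with h37 | h37
      · refine ⟨3, by omega, ?_, ?_⟩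
        · exact (Nat.pow_le_pow_left (by omega : r ≤ 110) 2).trans (by norm_num)
        · norm_num
          omega
      · refine ⟨5, by omega, h5, ?_⟩
        norm_num
        omega
  · refine ⟨5, by omega, h5, ?_⟩
    have h6 : 132 * (p - 1) < 17 * r := by
      by_contra hcon
      rw [not_lt] at hcon
      have h7 : (17 * r) ^ 2 ≤ (132 * (p - 1)) ^ 2 := Nat.pow_le_pow_left hcon 2
      obtain ⟨q, rfl⟩ : ∃ q, p = q + 13 := ⟨p - 13, by omega⟩
      have e1 : q + 13 - 1 = q + 12 := by omega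
      rw [e1] at h7
      have h8 : 1156 * (q + 13) ^ 3 ≤ 17424 * (q + 12) ^ 2 := by
        calc 1156 * (q + 13) ^ 3 = 289 * (4 * (q + 13) ^ 3) := by ring
          _ ≤ 289 * r ^ 2 := Nat.mul_le_mul_left _ h4
          _ = (17 * r) ^ 2 := by ring
          _ ≤ _ := h7
          _ = _ := by ring
      have h9 : 1156 * (q + 13) ^ 3 = 17424 * (q + 12) ^ 2 +
          (1156 * q ^ 3 + 27660 * q ^ 2 + 167916 * q + 30676) := by ring
      omega
    have h7 : 12 * ((t + 5 + 5) * (p - 1)) ≤ 12 * p * s + 132 * (p - 1) := by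
      have h8 : (t + 5 + 5) * (p - 1) ≤ (s + 11) * (p - 1) := Nat.mul_le_mul_right _ (by omega)
      have h9 : s * (p - 1) ≤ s * p := Nat.mul_le_mul_left _ (by omega)
      nlinarith
    omega

end Pool.Agent.Lib.MP_509488_nt.Stick
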