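import Mathlib
import Pool.Agent.Lib.MP_509488_nt.Stick.Fam
import Pool.Agent.Lib.MP_509488_nt.Stick.Lin

set_option autoImplicit false

namespace Pool.Agent.Lib.MP_509488_nt.Stick

theorem two_half' {p : ℕ} (hp : p.Prime) (hp5 : 5 ≤ p) : 2 * ((p - 1) / 2) = p - 1 := by
  have := Nat.odd_iff.1 (hp.odd_of_ne_two (by omega))
  omega

/-- the auxiliary power inequality for the choice of `b` -/
theorem exists_b' {p r : ℕ} (hp5 : 5 ≤ p) :
    (2 * p * r) ^ 2 ≤ (2 * p + 1) ^ (7 + r / (50 * p)) := by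
  have key : ∀ j : ℕ, (50 * p * (j + 1)) ^ 2 ≤ (2 * p + 1) ^ (5 + j) := by
    intro j
    induction j with
    | zero =>
      have h1 : (2 * p) ^ 5 ≤ (2 * p + 1) ^ 5 := Nat.pow_le_pow_left (by omega) 5
      have h2 : 125 * p ^ 2 ≤ p ^ 5 := by
        calc 125 * p ^ 2 = 5 ^ 3 * p ^ 2 := by norm_num
          _ ≤ p ^ 3 * p ^ 2 := Nat.mul_le_mul_right _ (Nat.pow_le_pow_left hp5 3)
          _ = p ^ 5 := by ring
      have h3 : (2 * p) ^ 5 = 32 * p ^ 5 := by ring
      have h4 : (50 * p * (0 + 1)) ^ 2 = 2500 * p ^ 2 := by ring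
      rw [h4]
      have h5 : 5 + 0 = 5 := rfl
      rw [h5]
      omega
    | succ j ih =>
      have h1 : (50 * p * (j + 1 + 1)) ^ 2 ≤ 4 * (50 * p * (j + 1)) ^ 2 := by
        have : (50 * p * (j + 1 + 1)) ^ 2 ≤ (2 * (50 * p * (j + 1))) ^ 2 := by
          apply Nat.pow_le_pow_left
          nlinarith
        nlinarith
      have h2 : (2 * p + 1) ^ (5 + (j + 1)) = (2 * p + 1) * (2 * p + 1) ^ (5 + j) := by
        rw [← add_assoc, pow_succ']
      rw [h2]
      calc (50 * p * (j + 1 + 1)) ^ 2 ≤ 4 * (50 * p * (j + 1)) ^ 2 := h1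
        _ ≤ (2 * p + 1) * (2 * p + 1) ^ (5 + j) := Nat.mul_le_mul (by omega) ih
  have h1 : r ^ 2 ≤ (2 * p + 1) ^ (5 + r / (50 * p)) := by
    refine le_trans (Nat.pow_le_pow_left ?_ 2) (key _)
    exact (Nat.lt_mul_div_succ r (by omega : 0 < 50 * p)).le
  calc (2 * p * r) ^ 2 = (2 * p) ^ 2 * r ^ 2 := by rw [mul_pow]
    _ ≤ (2 * p + 1) ^ 2 * (2 * p + 1) ^ (5 + r / (50 * p)) :=
        Nat.mul_le_mul (Nat.pow_le_pow_left (by omega) 2) h1
    _ = _ := by rw [← pow_add]; congr 1; omega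

/-- the families with parameters scaled by `k` -/
theorem reg2 {p r k a j τ : ℕ} [hp : Fact p.Prime] (hp2 : p ≠ 2) (hj2 : 2 ≤ j)
    (hj : j ≤ (p - 1) / 2) (ha : 4 * p ^ 3 < a ^ j) (hτ : 2 * j * a ^ 2 ≤ 3 * τ ^ 2) (hk : 1 ≤ k)
    (hr : r < 2 * (k ^ 2 * p ^ 3)) : Fam p (k * τ) r := by
  have ha0 : 0 < a := by
    rcases Nat.eq_zero_or_pos a with h | h
    · rw [h, zero_pow (by omega)] at ha; omega
    · exact h
  have hka : 0 < k * a := by positivity
  have h1 : k * a - 1 + 1 = k * a := Nat.sub_add_cancel hka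
  refine fam_sm hp2 (n := k * a - 1) hj ?_ ?_
  · rw [h1, mul_pow]
    have h2 : k ^ 2 ≤ k ^ j := Nat.pow_le_pow_right hk hj2
    calc 2 * r < 2 * (2 * (k ^ 2 * p ^ 3)) := by omega
      _ = k ^ 2 * (4 * p ^ 3) := by ring
      _ ≤ k ^ j * a ^ j := Nat.mul_le_mul h2 ha.le
  · have h2 : (k * a - 1) * (k * a - 1 + 2) ≤ (k * a) ^ 2 := by
      obtain ⟨c, hc⟩ : ∃ c, k * a = c + 1 := ⟨k * a - 1, by omega⟩
      rw [hc, Nat.add_sub_cancel]
      nlinarith
    calc 2 * j * (k * a - 1) * (k * a - 1 + 2) = 2 * j * ((k * a - 1) * (k * a - 1 + 2)) := by ring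
      _ ≤ 2 * j * (k * a) ^ 2 := Nat.mul_le_mul_left _ h2
      _ = k ^ 2 * (2 * j * a ^ 2) := by ring
      _ ≤ k ^ 2 * (3 * τ ^ 2) := Nat.mul_le_mul_left _ hτ
      _ = 3 * (k * τ) ^ 2 := by ring

/-- the parameters -/
theorem exists_param {p : ℕ} [hpf : Fact p.Prime] (hp7 : 7 ≤ p) :
    ∃ a j τ : ℕ, 2 ≤ j ∧ j ≤ (p - 1) / 2 ∧ 4 * p ^ 3 < a ^ j ∧ 2 * j * a ^ 2 ≤ 3 * τ ^ 2 ∧
      100 * ((τ + 1) * (p - 1) ^ 2 + 16 * (p - 1)) < 395 * (p ^ 2 * (Nat.log 2 p + 3)) ∧
      100 * ((2 * τ + 1) * (p - 1) ^ 2 + (p - 1) * (16 + p)) <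
        790 * (p ^ 2 * (Nat.log 2 p + 3)) := by
  have hp := hpf.out
  have hlow : ∀ j : ℕ, 2 ^ j ≤ p → j ≤ Nat.log 2 p := fun j hj =>
    Nat.le_log_of_pow_le (by norm_num) hj
  rcases Nat.lt_or_ge p 41 with h41 | h41
  · have hcases : p = 7 ∨ p = 11 ∨ p = 13 ∨ p = 17 ∨ p = 19 ∨ p = 23 ∨ p = 29 ∨ p = 31 ∨
        p = 37 := by
      clear hlow
      interval_cases p <;> first | omega | (exact absurd hp (by norm_num))
    rcases hcases with rfl | rfl | rfl | rfl | rfl | rfl | rfl | rfl | rfl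
    · have h1 := hlow 2 (by norm_num)
      exact ⟨12, 3, 17, by norm_num, by norm_num, by norm_num, by norm_num, by omega, by omega⟩
    · have h1 := hlow 3 (by norm_num)
      exact ⟨6, 5, 11, by norm_num, by norm_num, by norm_num, by norm_num, by omega, by omega⟩
    · have h1 := hlow 3 (by norm_num)
      exact ⟨5, 6, 10, by norm_num, by norm_num, by norm_num, by norm_num, by omega, by omega⟩
    · have h1 := hlow 4 (by norm_num)
      exact ⟨4, 8, 10, by norm_num, by norm_num, by norm_num, by norm_num, by omega, by omega⟩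
    · have h1 := hlow 4 (by norm_num)
      exact ⟨4, 8, 10, by norm_num, by norm_num, by norm_num, by norm_num, by omega, by omega⟩
    · have h1 := hlow 4 (by norm_num)
      exact ⟨3, 10, 8, by norm_num, by norm_num, by norm_num, by norm_num, by omega, by omega⟩
    · have h1 := hlow 4 (by norm_num)
      exact ⟨3, 11, 9, by norm_num, by norm_num, by norm_num, by norm_num, by omega, by omega⟩
    · have h1 := hlow 4 (by norm_num)
      exact ⟨3, 11, 9, by norm_num, by norm_num, by norm_num, by norm_num, by omega, by omega⟩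
    · have h1 := hlow 5 (by norm_num)
      exact ⟨3, 12, 9, by norm_num, by norm_num, by norm_num, by norm_num, by omega, by omega⟩
  · set lam := Nat.log 2 p with hlam
    have hlt : p < 2 ^ (lam + 1) := Nat.lt_pow_succ_log_self (by norm_num) p
    have hle : 2 ^ lam ≤ p := Nat.pow_log_le_self 2 (by omega)
    have h5 : 5 ≤ lam := Nat.le_log_of_pow_le (by norm_num) (by omega)
    have hk : 3 * lam + 5 ≤ (p - 1) / 2 := by
      rcases Nat.lt_or_ge lam 6 with h6 | h6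
      · have : lam = 5 := by omega
        rw [this]
        omega
      · have h7 : ∀ j : ℕ, 6 ≤ j → 6 * j + 11 ≤ 2 ^ j := by
          intro j hj
          induction j, hj using Nat.le_induction with
          | base => norm_num
          | succ j hj ih => rw [pow_succ]; omega
        have := h7 lam h6
        omega
    refine ⟨2, 3 * lam + 5, lam + 4, by omega, hk, ?_, by nlinarith, ?_, ?_⟩
    · have h6 : p ^ 3 < (2 ^ (lam + 1)) ^ 3 := Nat.pow_lt_pow_left hlt (by norm_num)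
      have h7 : 2 ^ (3 * lam + 5) = 4 * (2 ^ (lam + 1)) ^ 3 := by
        rw [← pow_mul]
        have : 3 * lam + 5 = 2 + (lam + 1) * 3 := by ring
        rw [this, pow_add]
        norm_num
      rw [h7]
      omega
    · have e1 : (p - 1) ^ 2 ≤ p ^ 2 := Nat.pow_le_pow_left (by omega) 2
      have e2 : (lam + 4 + 1) * (p - 1) ^ 2 ≤ (lam + 5) * p ^ 2 := Nat.mul_le_mul_left _ e1
      have e3 : 41 * p ≤ p ^ 2 := by nlinarith
      have e4 : (lam + 5) * p ^ 2 = lam * p ^ 2 + 5 * p ^ 2 := by ring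
      have e5 : p ^ 2 * (lam + 3) = lam * p ^ 2 + 3 * p ^ 2 := by ring
      have e6 : 5 * p ^ 2 ≤ lam * p ^ 2 := Nat.mul_le_mul_right _ h5
      omega
    · have e1 : (p - 1) ^ 2 ≤ p ^ 2 := Nat.pow_le_pow_left (by omega) 2
      have e2 : (2 * (lam + 4) + 1) * (p - 1) ^ 2 ≤ (2 * lam + 9) * p ^ 2 := by
        calc (2 * (lam + 4) + 1) * (p - 1) ^ 2 ≤ (2 * (lam + 4) + 1) * p ^ 2 :=
              Nat.mul_le_mul_left _ e1
          _ = _ := by ring
      have e3 : 41 * p ≤ p ^ 2 := by nlinarith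
      have e4 : (p - 1) * (16 + p) ≤ p * (16 + p) := Nat.mul_le_mul_right _ (by omega)
      have e7 : p * (16 + p) = 16 * p + p ^ 2 := by ring
      have e8 : (2 * lam + 9) * p ^ 2 = 2 * (lam * p ^ 2) + 9 * p ^ 2 := by ring
      have e5 : p ^ 2 * (lam + 3) = lam * p ^ 2 + 3 * p ^ 2 := by ring
      have e6 : 5 * p ^ 2 ≤ lam * p ^ 2 := Nat.mul_le_mul_right _ h5
      omega

/-- the numbers `n`, `t` for `k = 3` -/
theorem exists_three {p r : ℕ} [hp : Fact p.Prime] (hp7 : 7 ≤ p) (hr : 0 < r) :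
    ∃ n t : ℕ, n ^ 3 ≤ 2 * r ∧ 12 * (t + 1) ≤ 17 * n + 40 ∧ Fam p t r := by
  obtain ⟨n, hn, hn'⟩ := exists_root_floor 3 (2 * r) (by norm_num)
  have hn0 : 0 < n := by
    rcases Nat.eq_zero_or_pos n with h | h
    · rw [h] at hn'; omega
    · exact h
  obtain ⟨t, s, h1, h2, h3⟩ := exists_sqrt_ceil (N := 6 * n * (n + 2)) (by positivity)
  refine ⟨n, t, hn, ?_, fam_sm (by omega) (k := 3) (n := n) (by omega) hn' (by linarith)⟩
  have h4 : 12 * s < 17 * (n + 1) := by
    by_contra hcon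
    rw [not_lt] at hcon
    have h5 : (17 * (n + 1)) ^ 2 ≤ (12 * s) ^ 2 := Nat.pow_le_pow_left hcon 2
    nlinarith
  omega

theorem kqn_le {p r k n c : ℕ} (hk : 1 ≤ k) (hc : c * (k ^ 2 * p ^ 3) ≤ r)
    (hn : n ^ 3 ≤ 2 * r) : c ^ 2 * (k * (p - 1) ^ 2 * n) ^ 3 ≤ 2 * r ^ 3 := by
  have h1 : (p - 1) ^ 6 ≤ p ^ 6 := Nat.pow_le_pow_left (by omega) 6
  have h2 : k ^ 3 ≤ k ^ 4 := Nat.pow_le_pow_right hk (by norm_num)
  calc c ^ 2 * (k * (p - 1) ^ 2 * n) ^ 3 = c ^ 2 * (k ^ 3 * (p - 1) ^ 6 * n ^ 3) := by ring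
    _ ≤ c ^ 2 * (k ^ 4 * p ^ 6 * (2 * r)) := by
        apply Nat.mul_le_mul_left
        exact Nat.mul_le_mul (Nat.mul_le_mul h2 h1) hn
    _ = (c * (k ^ 2 * p ^ 3)) ^ 2 * (2 * r) := by ring
    _ ≤ r ^ 2 * (2 * r) := Nat.mul_le_mul_right _ (Nat.pow_le_pow_left hc 2)
    _ = 2 * r ^ 3 := by ring

theorem fifty {p r : ℕ} : (p - 1) * (2 * (r / (50 * p))) * 25 ≤ r := by
  calc (p - 1) * (2 * (r / (50 * p))) * 25 ≤ p * (2 * (r / (50 * p))) * 25 :=
        Nat.mul_le_mul_right _ (Nat.mul_le_mul_right _ (by omega))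
    _ = 50 * p * (r / (50 * p)) := by ring
    _ ≤ r := Nat.mul_div_le _ _

/-- the numbers for three of the four -/
theorem numA {p r k : ℕ} [hpf : Fact p.Prime] (hp5 : 5 ≤ p) (hk : 1 ≤ k)
    (hr : k ^ 2 * (p ^ 2 * (Nat.log 2 p + 3)) ≤ r) :
    ∃ t : ℕ, Fam p t r ∧
      (p - 1) ^ 2 * (k * (t + 1)) + (p - 1) * (2 * (7 + r / (50 * p) + 1)) < 4 * r := by
  have hp := hpf.out
  have hp0 : 0 < p := by omega
  have h50 : (p - 1) * (2 * (r / (50 * p))) * 25 ≤ r := fifty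
  have hsplit : (p - 1) * (2 * (7 + r / (50 * p) + 1)) =
      16 * (p - 1) + (p - 1) * (2 * (r / (50 * p))) := by ring
  rw [hsplit]
  have hkk : k ≤ k ^ 2 := Nat.le_self_pow (by norm_num) k
  have hr0 : 0 < r := lt_of_lt_of_le (by positivity) hr
  rcases Nat.lt_or_ge p 7 with h7 | h7
  · -- `p = 5`
    have h5 : p = 5 := by
      interval_cases p
      · rfl
      · exact absurd hp (by norm_num)
    subst h5
    have hlog : 2 ≤ Nat.log 2 5 := Nat.le_log_of_pow_le (by norm_num) (by norm_num)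
    have hr' : 125 * k ^ 2 ≤ r := by
      refine le_trans ?_ hr
      calc 125 * k ^ 2 = k ^ 2 * (5 ^ 2 * (2 + 3)) := by ring
        _ ≤ _ := Nat.mul_le_mul_left _ (Nat.mul_le_mul_left _ (by omega))
    clear hr hlog
    obtain ⟨n, hn, hn'⟩ := exists_root_floor 2 (2 * r) (by norm_num)
    have hn0 : 0 < n := by
      rcases Nat.eq_zero_or_pos n with h | h
      · rw [h] at hn'; omega
      · exact h
    obtain ⟨t, s, h1, h2, h3⟩ := exists_sqrt_ceil (N := 4 * n * (n + 2)) (by positivity)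
    refine ⟨t, fam_sm (by norm_num) (k := 2) (n := n) (by norm_num) hn' (by linarith), ?_⟩
    have h4 : 45 * s < 52 * (n + 1) := by
      by_contra hcon
      rw [not_lt] at hcon
      have h5 : (52 * (n + 1)) ^ 2 ≤ (45 * s) ^ 2 := Nat.pow_le_pow_left hcon 2
      nlinarith
    have h5 : 100 * (k * n) ≤ 13 * r := by
      by_contra hcon
      rw [not_le] at hcon
      have e1 : (13 * r) ^ 2 < (100 * (k * n)) ^ 2 := Nat.pow_lt_pow_left hcon (by norm_num)
      have e2 : 125 * k ^ 2 * n ^ 2 ≤ r * (2 * r) := Nat.mul_le_mul hr' hn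
      nlinarith
    have h6 : 45 * (k * s) ≤ 52 * (k * n) + 52 * k := by
      have : k * (45 * s) ≤ k * (52 * (n + 1)) := Nat.mul_le_mul_left _ h4.le
      nlinarith
    have h7' : (5 - 1) ^ 2 * (k * (t + 1)) = 16 * (k * s) + 32 * k := by rw [h2]; ring
    rw [h7']
    norm_num at h50 ⊢
    omega
  · have hkp : 7 * (k * p ^ 2) ≤ k ^ 2 * p ^ 3 := by
      calc 7 * (k * p ^ 2) ≤ p * (k ^ 2 * p ^ 2) :=
            Nat.mul_le_mul h7 (Nat.mul_le_mul_right _ hkk)
        _ = _ := by ring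
    rcases Nat.lt_or_ge r (k ^ 2 * p ^ 3) with hlt | hge
    · obtain ⟨a, j, τ, hj2, hj, ha, hτ, hA, -⟩ := exists_param h7
      refine ⟨k * τ, reg2 (by omega) hj2 hj ha hτ hk (by omega), ?_⟩
      have e1 : (p - 1) ^ 2 * (k * (k * τ + 1)) ≤ k ^ 2 * ((τ + 1) * (p - 1) ^ 2) := by
        have e2 : k * (k * τ + 1) ≤ k ^ 2 * (τ + 1) := by nlinarith
        calc (p - 1) ^ 2 * (k * (k * τ + 1)) ≤ (p - 1) ^ 2 * (k ^ 2 * (τ + 1)) :=
              Nat.mul_le_mul_left _ e2
          _ = _ := by ring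
      have e2 : 16 * (p - 1) ≤ k ^ 2 * (16 * (p - 1)) := Nat.le_mul_of_pos_left _ (by positivity)
      have e3 : k ^ 2 * (100 * ((τ + 1) * (p - 1) ^ 2 + 16 * (p - 1))) <
          k ^ 2 * (395 * (p ^ 2 * (Nat.log 2 p + 3))) :=
        Nat.mul_lt_mul_of_pos_left hA (by positivity)
      have e4 : k ^ 2 * (100 * ((τ + 1) * (p - 1) ^ 2 + 16 * (p - 1))) =
          100 * (k ^ 2 * ((τ + 1) * (p - 1) ^ 2)) + 100 * (k ^ 2 * (16 * (p - 1))) := by ring
      have e5 : k ^ 2 * (395 * (p ^ 2 * (Nat.log 2 p + 3))) =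
          395 * (k ^ 2 * (p ^ 2 * (Nat.log 2 p + 3))) := by ring
      omega
    · obtain ⟨n, t, hn, ht, hF⟩ := exists_three h7 hr0
      refine ⟨t, hF, ?_⟩
      have h1 := kqn_le (c := 1) hk (by rw [one_mul]; exact hge) hn
      rw [one_pow, one_mul] at h1
      have h2 : 50 * (k * (p - 1) ^ 2 * n) ≤ 63 * r := by
        by_contra hcon
        rw [not_le] at hcon
        have e1 : (63 * r) ^ 3 < (50 * (k * (p - 1) ^ 2 * n)) ^ 3 :=
          Nat.pow_lt_pow_left hcon (by norm_num)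
        have e2 : 0 < r ^ 3 := by positivity
        rw [mul_pow, mul_pow 50] at e1
        norm_num at e1
        omega
      have h3 : 12 * ((p - 1) ^ 2 * (k * (t + 1))) ≤
          17 * (k * (p - 1) ^ 2 * n) + 40 * (k * p ^ 2) := by
        have e1 : (p - 1) ^ 2 ≤ p ^ 2 := Nat.pow_le_pow_left (by omega) 2
        calc 12 * ((p - 1) ^ 2 * (k * (t + 1))) = (k * (p - 1) ^ 2) * (12 * (t + 1)) := by ring
          _ ≤ (k * (p - 1) ^ 2) * (17 * n + 40) := Nat.mul_le_mul_left _ ht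
          _ = 17 * (k * (p - 1) ^ 2 * n) + 40 * (k * (p - 1) ^ 2) := by ring
          _ ≤ _ := by
              apply Nat.add_le_add_left
              exact Nat.mul_le_mul_left _ (Nat.mul_le_mul_left _ e1)
      have h4 : 49 * (p - 1) ≤ r := by
        have e1 : 49 * p ≤ p ^ 3 := by nlinarith
        have e2 : p ^ 3 ≤ k ^ 2 * p ^ 3 := Nat.le_mul_of_pos_left _ (by positivity)
        omega
      omega

/-- the numbers for all four -/
theorem numB {p r k : ℕ} [hpf : Fact p.Prime] (hp5 : 5 ≤ p) (hk : 1 ≤ k)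
    (hr : 2 * (k ^ 2 * (p ^ 2 * (Nat.log 2 p + 3))) ≤ r) :
    ∃ t : ℕ, Fam p t r ∧
      (p - 1) ^ 2 * (k * (t + 1) + t) + (p - 1) * (2 * (7 + r / (50 * p) + 1) + p) < 4 * r := by
  have hp := hpf.out
  have hp0 : 0 < p := by omega
  have h50 : (p - 1) * (2 * (r / (50 * p))) * 25 ≤ r := fifty
  have hsplit : (p - 1) * (2 * (7 + r / (50 * p) + 1) + p) =
      (p - 1) * (16 + p) + (p - 1) * (2 * (r / (50 * p))) := by ring
  rw [hsplit]
  have hkk : k ≤ k ^ 2 := Nat.le_self_pow (by norm_num) k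
  have hr0 : 0 < r := lt_of_lt_of_le (by positivity) hr
  rcases Nat.lt_or_ge p 7 with h7 | h7
  · -- `p = 5`
    have h5 : p = 5 := by
      interval_cases p
      · rfl
      · exact absurd hp (by norm_num)
    subst h5
    have hlog : 2 ≤ Nat.log 2 5 := Nat.le_log_of_pow_le (by norm_num) (by norm_num)
    have hr' : 250 * k ^ 2 ≤ r := by
      refine le_trans ?_ hr
      calc 250 * k ^ 2 = 2 * (k ^ 2 * (5 ^ 2 * (2 + 3))) := by ring
        _ ≤ _ := Nat.mul_le_mul_left _ (Nat.mul_le_mul_left _ (Nat.mul_le_mul_left _ (by omega)))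
    clear hr hlog
    obtain ⟨n, hn, hn'⟩ := exists_root_floor 2 (2 * r) (by norm_num)
    have hn0 : 0 < n := by
      rcases Nat.eq_zero_or_pos n with h | h
      · rw [h] at hn'; omega
      · exact h
    obtain ⟨t, s, h1, h2, h3⟩ := exists_sqrt_ceil (N := 4 * n * (n + 2)) (by positivity)
    refine ⟨t, fam_sm (by norm_num) (k := 2) (n := n) (by norm_num) hn' (by linarith), ?_⟩
    have h4 : 45 * s < 52 * (n + 1) := by
      by_contra hcon
      rw [not_lt] at hcon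
      have h5 : (52 * (n + 1)) ^ 2 ≤ (45 * s) ^ 2 := Nat.pow_le_pow_left hcon 2
      nlinarith
    have h7' : (5 - 1) ^ 2 * (k * (t + 1) + t) = 16 * (k * s) + 32 * k + 16 * s + 16 := by
      rw [h2]; ring
    rw [h7']
    norm_num at h50 ⊢
    rcases Nat.lt_or_ge 1 k with hk2 | hk1
    · have h5 : 100 * (k * n) ≤ 9 * r := by
        by_contra hcon
        rw [not_le] at hcon
        have e1 : (9 * r) ^ 2 < (100 * (k * n)) ^ 2 := Nat.pow_lt_pow_left hcon (by norm_num)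
        have e2 : 250 * k ^ 2 * n ^ 2 ≤ r * (2 * r) := Nat.mul_le_mul hr' hn
        nlinarith
      have h6 : 45 * (k * s) ≤ 52 * (k * n) + 52 * k := by
        have : k * (45 * s) ≤ k * (52 * (n + 1)) := Nat.mul_le_mul_left _ h4.le
        nlinarith
      have h8 : 2 * k ≤ k ^ 2 := by nlinarith
      have h9 : 1000 ≤ r := by nlinarith
      have h10 : 20 * n ≤ r := by
        by_contra hcon
        rw [not_le] at hcon
        nlinarith
      omega
    · have hk' : k = 1 := by omega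
      subst hk'
      norm_num at hr'
      have hn22 : 22 ≤ n := by
        by_contra hcon
        have : (n + 1) ^ 2 ≤ 22 ^ 2 := Nat.pow_le_pow_left (by omega) 2
        omega
      rcases Nat.lt_or_ge n 24 with h24 | h24
      · interval_cases n
        · norm_num at hn
          omega
        · norm_num at hn
          omega
      · have e1 : 24 * n ≤ n ^ 2 := by nlinarith
        rw [one_mul]
        nlinarith
  · have hkp : 14 * (k * p ^ 2) ≤ 2 * (k ^ 2 * p ^ 3) := by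
      have : 7 * (k * p ^ 2) ≤ k ^ 2 * p ^ 3 := by
        calc 7 * (k * p ^ 2) ≤ p * (k ^ 2 * p ^ 2) :=
              Nat.mul_le_mul h7 (Nat.mul_le_mul_right _ hkk)
          _ = _ := by ring
      omega
    rcases Nat.lt_or_ge r (2 * (k ^ 2 * p ^ 3)) with hlt | hge
    · obtain ⟨a, j, τ, hj2, hj, ha, hτ, -, hB⟩ := exists_param h7
      refine ⟨k * τ, reg2 (by omega) hj2 hj ha hτ hk hlt, ?_⟩
      have e1 : (p - 1) ^ 2 * (k * (k * τ + 1) + k * τ) ≤ k ^ 2 * ((2 * τ + 1) * (p - 1) ^ 2) := by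
        have e2 : k * (k * τ + 1) + k * τ ≤ k ^ 2 * (2 * τ + 1) := by nlinarith
        calc (p - 1) ^ 2 * (k * (k * τ + 1) + k * τ) ≤ (p - 1) ^ 2 * (k ^ 2 * (2 * τ + 1)) :=
              Nat.mul_le_mul_left _ e2
          _ = _ := by ring
      have e2 : (p - 1) * (16 + p) ≤ k ^ 2 * ((p - 1) * (16 + p)) :=
        Nat.le_mul_of_pos_left _ (by positivity)
      have e3 : k ^ 2 * (100 * ((2 * τ + 1) * (p - 1) ^ 2 + (p - 1) * (16 + p))) <
          k ^ 2 * (790 * (p ^ 2 * (Nat.log 2 p + 3))) :=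
        Nat.mul_lt_mul_of_pos_left hB (by positivity)
      have e4 : k ^ 2 * (100 * ((2 * τ + 1) * (p - 1) ^ 2 + (p - 1) * (16 + p))) =
          100 * (k ^ 2 * ((2 * τ + 1) * (p - 1) ^ 2)) + 100 * (k ^ 2 * ((p - 1) * (16 + p))) := by
        ring
      have e5 : k ^ 2 * (790 * (p ^ 2 * (Nat.log 2 p + 3))) =
          790 * (k ^ 2 * (p ^ 2 * (Nat.log 2 p + 3))) := by ring
      omega
    · obtain ⟨n, t, hn, ht, hF⟩ := exists_three h7 hr0
      refine ⟨t, hF, ?_⟩
      have h1 := kqn_le (c := 2) hk hge hn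
      have h2 : 5 * (k * (p - 1) ^ 2 * n) ≤ 4 * r := by
        by_contra hcon
        rw [not_le] at hcon
        have e1 : (4 * r) ^ 3 < (5 * (k * (p - 1) ^ 2 * n)) ^ 3 :=
          Nat.pow_lt_pow_left hcon (by norm_num)
        have e2 : 0 < r ^ 3 := by positivity
        rw [mul_pow, mul_pow 5] at e1
        norm_num at e1 h1
        omega
      have h3 : 12 * ((p - 1) ^ 2 * (k * (t + 1) + t)) ≤
          34 * (k * (p - 1) ^ 2 * n) + 80 * (k * p ^ 2) := by
        have e1 : (p - 1) ^ 2 ≤ p ^ 2 := Nat.pow_le_pow_left (by omega) 2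
        have e0 : k * (t + 1) + t ≤ 2 * (k * (t + 1)) := by nlinarith
        calc 12 * ((p - 1) ^ 2 * (k * (t + 1) + t)) ≤ 12 * ((p - 1) ^ 2 * (2 * (k * (t + 1)))) :=
              Nat.mul_le_mul_left _ (Nat.mul_le_mul_left _ e0)
          _ = 2 * ((k * (p - 1) ^ 2) * (12 * (t + 1))) := by ring
          _ ≤ 2 * ((k * (p - 1) ^ 2) * (17 * n + 40)) :=
              Nat.mul_le_mul_left _ (Nat.mul_le_mul_left _ ht)
          _ = 34 * (k * (p - 1) ^ 2 * n) + 80 * (k * (p - 1) ^ 2) := by ring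
          _ ≤ _ := by
              apply Nat.add_le_add_left
              exact Nat.mul_le_mul_left _ (Nat.mul_le_mul_left _ e1)
      have h4 : 4 * ((p - 1) * (16 + p)) ≤ r := by
        have e1 : (p - 1) * (16 + p) ≤ p * (16 + p) := Nat.mul_le_mul_right _ (by omega)
        have e2 : 7 * p ^ 2 ≤ p ^ 3 := by nlinarith
        have e3 : p ^ 3 ≤ k ^ 2 * p ^ 3 := Nat.le_mul_of_pos_left _ (by positivity)
        nlinarith
      omega

end Pool.Agent.Lib.MP_509488_nt.Stick
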