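import Mathlib
import Pool.Agent.Lib.MP_509488_nt.Stick.Final
import Pool.Agent.Lib.MP_509488_nt.Stick.Lin
import Pool.Agent.Lib.MP_509488_nt.Stick.Num2
import Pool.Agent.Lib.MP_509488_nt.Stick.Comb
import Pool.Agent.Lib.MP_509488_nt.Stick.Nums
import Pool.Agent.Lib.MP_509488_nt.Stick.Cls

set_option autoImplicit false

namespace Pool.Agent.Lib.MP_509488_nt.Stick

open Finset

theorem rho_le {r : ℕ} (hr : r.Prime) (M : ℤ) : rho r M ≤ r := by
  unfold rho
  split_ifs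
  · exact le_rfl
  · exact hr.one_le

theorem thr {p r : ℕ} (hp5 : 5 ≤ p) (hlog : p ^ 2 * (Nat.log 2 p + 3) ≤ r) :
    5 * p ^ 2 ≤ r ∧ p < r ∧ p ^ 2 ≤ r ∧ 125 ≤ r := by
  have h2 : 2 ≤ Nat.log 2 p := Nat.le_log_of_pow_le (by norm_num) (by omega)
  have h3 : 5 ^ 2 ≤ p ^ 2 := Nat.pow_le_pow_left hp5 2
  have h4 : p ^ 2 * 5 ≤ p ^ 2 * (Nat.log 2 p + 3) := Nat.mul_le_mul_left _ (by omega)
  have h5 : p ≤ p ^ 2 := Nat.le_self_pow (by norm_num) p
  refine ⟨by omega, by omega, by omega, by omega⟩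

theorem GoodPair.fam {p r s t : ℕ} [hpf : Fact p.Prime] (hp2 : p ≠ 2) (h : GoodPair p r s t) :
    Fam p t (r ^ s) := by
  obtain ⟨n, j, h1, h2, h3⟩ := h
  exact fam_sm hp2 h1 h2 h3

section
variable {p r : ℕ} [hpf : Fact p.Prime] (hr : r.Prime) (hp5 : 5 ≤ p)
  {u v w : ℤ} (huv : IsCoprime u v) (hu0 : u ≠ 0) (hv0 : v ≠ 0) (huv' : u ≠ v)
  (h : u ^ p - v ^ p = w ^ r) {M : ℤ} (hM : M = u ∨ M = v ∨ M = u - v ∨ M = u + v)

include hr hp5 huv hu0 hv0 huv' h hM

theorem H_le (hr3 : p ^ 2 * (Nat.log 2 p + 3) ≤ r) :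
    max u.natAbs v.natAbs ≤ M.natAbs ^ 4 := by
  obtain ⟨-, hpr, hpr2, -⟩ := thr hp5 hr3
  obtain ⟨t1, hF1, hall⟩ := exists_t1' hr hp5 hr3
  have hrp : 0 < (p - 1) * r ^ 2 := by
    have := hr.pos
    have : 0 < p - 1 := by omega
    positivity
  obtain ⟨hJ, -⟩ := hall 0 0 (by omega) (by simpa using hrp)
  obtain ⟨d, hd, hdH, hfour⟩ := four hr hp5 hpr huv hu0 hv0 huv' h
  obtain ⟨hM0, -, hI, -⟩ := hfour M hM
  have h1 := hI hpr2 t1 hF1
  have hH2 := H_pos hp5 hpr hd hdH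
  set H := max u.natAbs v.natAbs with hH
  have h2 : H ^ r * H ^ (3 * r) ≤ (M.natAbs ^ 4) ^ r * H ^ (3 * r) := by
    calc H ^ r * H ^ (3 * r) = H ^ (4 * r) := by rw [← pow_add]; congr 1; ring
      _ ≤ M.natAbs ^ (4 * r) * H ^ (t1 * (p - 1) ^ 2 + p * (p - 1)) := h1
      _ ≤ M.natAbs ^ (4 * r) * H ^ (3 * r) :=
          Nat.mul_le_mul_left _ (Nat.pow_le_pow_right (by omega) hJ)
      _ = _ := by rw [pow_mul]
  have h3 := Nat.le_of_mul_le_mul_right h2 (by positivity)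
  exact (Nat.pow_le_pow_iff_left hr.ne_zero).1 h3

/-- the general inequality, if `M` is large -/
theorem ineq_three (hpr : p < r) (hHM : max u.natAbs v.natAbs ≤ 2 * M.natAbs) {q w' t b : ℕ}
    (hq : 1 ≤ q) (hW : excWeight p r M ≤ q * w') (hF : Fam p t (r ^ w'))
    (hb : (2 * p * r) ^ 2 ≤ (2 * p + 1) ^ b) : 2 * r ≤ (p - 1) * (q * (t + 1) + b + 1) := by
  obtain ⟨d, hd, hdH, hfour⟩ := four hr hp5 hpr huv hu0 hv0 huv' h
  obtain ⟨hM0, -, -, κ, hκ, hII⟩ := hfour M hM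
  have h2 := hII M dvd_rfl t q w' hq hW hF
  have hκp : κ ≤ p := by
    rcases hκ with rfl | ⟨rfl, -⟩
    · omega
    · exact le_rfl
  refine combine_three hp5 hpr hd hdH (le_trans (Nat.pow_le_pow_left ?_ 2) hb) hHM h2
  exact Nat.mul_le_mul (Nat.mul_le_mul_left _ hκp) (rho_le hr M)

/-- the general inequality -/
theorem ineq_four (hpr2 : p ^ 2 ≤ r) {q w' t t₀ b : ℕ}
    (hq : 1 ≤ q) (hW : excWeight p r M ≤ q * w') (hF : Fam p t (r ^ w')) (hF0 : Fam p t₀ r)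
    (hb : (2 * p * r) ^ 2 ≤ (2 * p + 1) ^ b) :
    4 * r ≤ 2 * (p - 1) * (q * (t + 1) + b + 1) + (t₀ * (p - 1) ^ 2 + p * (p - 1)) := by
  have hpr : p < r := lt_of_lt_of_le (by nlinarith) hpr2
  obtain ⟨d, hd, hdH, hfour⟩ := four hr hp5 hpr huv hu0 hv0 huv' h
  obtain ⟨hM0, -, hI, κ, hκ, hII⟩ := hfour M hM
  have hκp : κ ≤ p := by
    rcases hκ with rfl | ⟨rfl, -⟩
    · omega
    · exact le_rfl
  refine combine_four hp5 hpr hd hdH (le_trans (Nat.pow_le_pow_left ?_ 2) hb) (hI hpr2 t₀ hF0)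
    (hII M dvd_rfl t q w' hq hW hF)
  exact Nat.mul_le_mul (by omega) (rho_le hr M)

/-- the weight is large, if `M` is large -/
theorem weight_three {k : ℕ} (hk : 1 ≤ k) (hr3 : k ^ 2 * (p ^ 2 * (Nat.log 2 p + 3)) ≤ r)
    (hHM : max u.natAbs v.natAbs ≤ 2 * M.natAbs) : k * ((p - 1) / 2) < excWeight p r M := by
  by_contra hcon
  rw [not_lt] at hcon
  have h2m := two_half' hpf.out hp5
  have hR : p ^ 2 * (Nat.log 2 p + 3) ≤ r :=
    le_trans (Nat.le_mul_of_pos_left _ (by positivity)) hr3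
  obtain ⟨-, hpr, -, -⟩ := thr hp5 hR
  obtain ⟨t, hF, hnum⟩ := numA hp5 hk hr3
  have h1 := ineq_three hr hp5 huv hu0 hv0 huv' h hM hpr hHM (q := k * ((p - 1) / 2)) (w' := 1)
    (t := t) (Nat.mul_pos hk (by omega)) (by rw [mul_one]; exact hcon) (by rw [pow_one]; exact hF)
    (exists_b' hp5)
  have h3 : 2 * ((p - 1) * (k * ((p - 1) / 2) * (t + 1) + (7 + r / (50 * p)) + 1)) =
      (p - 1) ^ 2 * (k * (t + 1)) + (p - 1) * (2 * (7 + r / (50 * p) + 1)) := by
    calc 2 * ((p - 1) * (k * ((p - 1) / 2) * (t + 1) + (7 + r / (50 * p)) + 1))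
        = (p - 1) * (2 * ((p - 1) / 2)) * (k * (t + 1)) +
          (p - 1) * (2 * (7 + r / (50 * p) + 1)) := by ring
      _ = _ := by rw [h2m]; ring
  omega

/-- the weight is large -/
theorem weight_four {k : ℕ} (hk : 1 ≤ k)
    (hr3 : 2 * (k ^ 2 * (p ^ 2 * (Nat.log 2 p + 3))) ≤ r) :
    k * ((p - 1) / 2) < excWeight p r M := by
  by_contra hcon
  rw [not_lt] at hcon
  have h2m := two_half' hpf.out hp5
  have hR : p ^ 2 * (Nat.log 2 p + 3) ≤ r := by
    have : p ^ 2 * (Nat.log 2 p + 3) ≤ k ^ 2 * (p ^ 2 * (Nat.log 2 p + 3)) :=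
      Nat.le_mul_of_pos_left _ (by positivity)
    omega
  obtain ⟨-, hpr, hpr2, -⟩ := thr hp5 hR
  obtain ⟨t, hF, hnum⟩ := numB hp5 hk hr3
  obtain ⟨d, hd, hdH, hfour⟩ := four hr hp5 hpr huv hu0 hv0 huv' h
  obtain ⟨hM0, -, hI, κ, hκ, hII⟩ := hfour M hM
  have h1 := hI hpr2 t hF
  have h2 := hII M dvd_rfl t (k * ((p - 1) / 2)) 1 (Nat.mul_pos hk (by omega))
    (by rw [mul_one]; exact hcon) (by rw [pow_one]; exact hF)
  have hκp : κ ≤ p := by
    rcases hκ with rfl | ⟨rfl, -⟩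
    · omega
    · exact le_rfl
  have hb : (κ * rho r M) ^ 2 ≤ (2 * p + 1) ^ (7 + r / (50 * p)) := by
    refine le_trans (Nat.pow_le_pow_left ?_ 2) (exists_b' hp5)
    exact Nat.mul_le_mul (by omega) (rho_le hr M)
  have h3 := combine_four hp5 hpr hd hdH hb h1 h2
  have h4 : 2 * (p - 1) * (k * ((p - 1) / 2) * (t + 1) + (7 + r / (50 * p)) + 1) +
      (t * (p - 1) ^ 2 + p * (p - 1)) =
      (p - 1) ^ 2 * (k * (t + 1) + t) + (p - 1) * (2 * (7 + r / (50 * p) + 1) + p) := by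
    calc 2 * (p - 1) * (k * ((p - 1) / 2) * (t + 1) + (7 + r / (50 * p)) + 1) +
          (t * (p - 1) ^ 2 + p * (p - 1))
        = (p - 1) * (2 * ((p - 1) / 2)) * (k * (t + 1)) + t * (p - 1) ^ 2 +
          (p - 1) * (2 * (7 + r / (50 * p) + 1) + p) := by ring
      _ = _ := by rw [h2m]; ring
  omega

/-- the bounds without condition on `r`, if `M` is large -/
theorem large (hpr : p < r) (hHM : max u.natAbs v.natAbs ≤ 2 * M.natAbs) :
    (2 * p < r → (excPrimes p r M).Nonempty) ∧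
    ((r : ℤ) ∣ M ∨ (excPrimes p r M).Nonempty) := by
  have hp := hpf.out
  have hpr2 : p + 2 ≤ r := by
    by_contra hcon
    have h1 : r = p + 1 := by omega
    have h2 := Nat.odd_iff.1 (hp.odd_of_ne_two (by omega))
    have h3 := Nat.odd_iff.1 (hr.odd_of_ne_two (by omega))
    omega
  obtain ⟨d, hd, hdH, hfour⟩ := four hr hp5 hpr huv hu0 hv0 huv' h
  obtain ⟨hM0, -, hI, κ, hκ, hII⟩ := hfour M hM
  have hempty : ¬ (excPrimes p r M).Nonempty →
      M.natAbs ^ 2 ≤ 4 * κ ^ 2 * rho r M ^ 2 * d := by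
    intro hne
    rw [Finset.not_nonempty_iff_eq_empty] at hne
    have hW : excWeight p r M = 0 := by unfold excWeight; rw [hne, sum_empty]
    have hF : Fam p (1 * 1) (r ^ 0) := by
      rw [pow_zero]
      exact fam_cube (by omega) (by omega) (by norm_num)
    have h2 := hII M dvd_rfl _ 1 0 le_rfl (by rw [hW]) hF
    rw [mul_one, pow_one, pow_one] at h2
    calc M.natAbs ^ 2 ≤ κ ^ 2 * rho r M ^ 2 * (4 * d) := h2
      _ = _ := by ring
  refine ⟨?_, ?_⟩
  · intro h2p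
    by_contra hne
    exact no_exc' hp5 h2p hd hdH (rho_le hr M) hκ hHM (hempty hne)
  · by_cases hrM : (r : ℤ) ∣ M
    · exact Or.inl hrM
    · right
      by_contra hne
      have h2 := hempty hne
      have hρ : rho r M = 1 := by unfold rho; rw [if_neg hrM]
      rw [hρ, one_pow, mul_one] at h2
      exact no_exc hp5 hpr2 hd hdH hκ hHM h2

end

/-- what a large weight means for the exceptional primes -/
theorem of_weight {p r : ℕ} [hpf : Fact p.Prime] (hr : r.Prime) (hp5 : 5 ≤ p) (hpr : p < r)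
    {M : ℤ} {k : ℕ} (h : k * ((p - 1) / 2) < excWeight p r M) :
    k < (excPrimes p r M).card ∧
      ∃ l ∈ excPrimes p r M, k / (p - 1) * (p * r) ≤ l := by
  constructor
  · by_contra hcon
    rw [not_lt] at hcon
    have h1 := weight_le_card (p := p) (r := r) (M := M)
    have h2 : (p - 1) / 2 * (excPrimes p r M).card ≤ (p - 1) / 2 * k := Nat.mul_le_mul_left _ hcon
    rw [mul_comm k] at h
    omega
  · by_contra hcon
    push Not at hcon
    have h1 := weight_le_of_lt hr hpr (by omega) hcon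
    have h2 : (p - 1) * ((p - 1) / 2 * (k / (p - 1))) ≤ k * ((p - 1) / 2) := by
      calc (p - 1) * ((p - 1) / 2 * (k / (p - 1))) = (p - 1) * (k / (p - 1)) * ((p - 1) / 2) := by
            ring
        _ ≤ k * ((p - 1) / 2) := Nat.mul_le_mul_right _ (Nat.mul_div_le _ _)
    omega

/-- three of the four numbers are large -/
theorem three_of_four (u v : ℤ) : ∃ M₀ : ℤ, ∀ M : ℤ, (M = u ∨ M = v ∨ M = u - v ∨ M = u + v) →
    M ≠ M₀ → max u.natAbs v.natAbs ≤ 2 * M.natAbs := by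
  by_cases h1 : max u.natAbs v.natAbs ≤ 2 * u.natAbs
  · by_cases h2 : max u.natAbs v.natAbs ≤ 2 * v.natAbs
    · by_cases h3 : max u.natAbs v.natAbs ≤ 2 * (u - v).natAbs
      · refine ⟨u + v, ?_⟩
        rintro M (rfl | rfl | rfl | rfl) hne
        · exact h1
        · exact h2
        · exact h3
        · exact absurd rfl hne
      · refine ⟨u - v, ?_⟩
        rintro M (rfl | rfl | rfl | rfl) hne
        · exact h1
        · exact h2
        · exact absurd rfl hne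
        · omega
    · refine ⟨v, ?_⟩
      rintro M (rfl | rfl | rfl | rfl) hne
      · exact h1
      · exact absurd rfl hne
      · omega
      · omega
  · refine ⟨u, ?_⟩
    rintro M (rfl | rfl | rfl | rfl) hne
    · exact absurd rfl hne
    · omega
    · omega
    · omega

end Pool.Agent.Lib.MP_509488_nt.Stick
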